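import Pool.Agent.V11250.RelFreeHom

/-!
# Torsion-free relatively free groups of infinite rank are not `ℵ₁`-homogeneous: the logic
-/

set_option autoImplicit false

namespace Pool.Agent.V11250.RelFreeHom

open FirstOrder FirstOrder.Language

/-- The language with one function symbol for every arity. -/
abbrev LG : FirstOrder.Language := FirstOrder.Language.mk (fun _ => Unit) (fun _ => Empty)

variable {G : Type} [Group G] [S : LG.Structure G]
  (hS : ∀ (n : ℕ) (f : LG.Functions n) (xs : Fin n → G),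
    Structure.funMap f xs = (List.ofFn xs).prod)

/-- The product of two terms. -/
def mulT {α : Type} (s t : LG.Term α) : LG.Term α := Term.func (l := 2) (() : LG.Functions 2) ![s, t]

include hS in
theorem realize_mulT {α : Type} (v : α → G) (s t : LG.Term α) :
    (mulT s t).realize v = s.realize v * t.realize v := by
  show Structure.funMap (L := LG) (M := G) (n := 2) (() : Unit) (fun i => (![s, t] i).realize v) = _
  rw [hS]
  simp

/-- The nested word as a term. -/
def VT {α : Type} (a : ℕ → LG.Term α) (z : LG.Term α) : ℕ → ℕ → LG.Term α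
  | 0, _ => z
  | m + 1, k => mulT (a k) (mulT (VT a z m (k + 1)) (VT a z m (k + 1)))

include hS in
theorem realize_VT {α : Type} (v : α → G) (a : ℕ → LG.Term α) (z : LG.Term α) (m : ℕ) : ∀ k,
    (VT a z m k).realize v = V (fun i => (a i).realize v) (z.realize v) m k := by
  induction m with
  | zero => intro k; rfl
  | succ m ih =>
    intro k
    simp only [VT, V]
    rw [realize_mulT hS, realize_mulT hS, ih]

/-- The formula `∃ z, c = a_0 (a_1 (⋯ z² ⋯)²)²`. -/
def psi (n : ℕ) : LG.Formula (Unit ⊕ ℕ) :=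
  ((Term.bdEqual (Term.var (Sum.inl (Sum.inl ())))
    (VT (fun i => Term.var (Sum.inl (Sum.inr i))) (Term.var (Sum.inr 0)) n 0) :
      LG.BoundedFormula (Unit ⊕ ℕ) 1)).ex

include hS in
theorem realize_psi (n : ℕ) (c : G) (a : ℕ → G) :
    (psi n).Realize (Sum.elim (fun _ => c) a) ↔ ∃ z, c = V a z n 0 := by
  unfold psi Formula.Realize
  rw [BoundedFormula.realize_ex]
  apply exists_congr
  intro z
  rw [BoundedFormula.realize_bdEqual, realize_VT hS]
  exact Iff.rfl

/-- automorphisms -/
def autE (α : G ≃* G) : G ≃[LG] G where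
  toEquiv := α.toEquiv
  map_fun' := by
    intro n f xs
    show α (Structure.funMap f xs) = Structure.funMap f (α ∘ xs)
    rw [hS, hS, map_list_prod, List.map_ofFn]
  map_rel' := fun r => r.elim

include hS in
theorem realize_aut (α : G ≃* G) {β : Type} (φ : LG.Formula β) (v : β → G) :
    φ.Realize (fun i => α (v i)) ↔ φ.Realize v :=
  StrongHomClass.realize_formula (autE hS α) φ

theorem realize_congr {n : ℕ} (φ : LG.BoundedFormula ℕ n) : ∃ N, ∀ v w : ℕ → G,
    (∀ i, i < N → v i = w i) → ∀ xs : Fin n → G, φ.Realize v xs ↔ φ.Realize w xs := by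
  have ht : ∀ {m : ℕ} (t : LG.Term (ℕ ⊕ Fin m)), ∃ N, ∀ v w : ℕ → G,
      (∀ i, i < N → v i = w i) → ∀ xs : Fin m → G,
        t.realize (Sum.elim v xs) = t.realize (Sum.elim w xs) := by
    intro m t
    induction t with
    | var i =>
      rcases i with i | i
      · exact ⟨i + 1, fun v w h xs => h i (by omega)⟩
      · exact ⟨0, fun v w h xs => rfl⟩
    | func f ts ih =>
      choose N hN using ih
      refine ⟨Finset.univ.sup N, fun v w h xs => ?_⟩
      show Structure.funMap f _ = Structure.funMap f _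
      congr 1
      funext i
      exact hN i v w (fun j hj => h j (lt_of_lt_of_le hj (Finset.le_sup (Finset.mem_univ i)))) xs
  induction φ with
  | falsum => exact ⟨0, fun v w _ xs => Iff.rfl⟩
  | equal t₁ t₂ =>
    obtain ⟨N₁, h₁⟩ := ht t₁
    obtain ⟨N₂, h₂⟩ := ht t₂
    refine ⟨max N₁ N₂, fun v w h xs => ?_⟩
    show _ = _ ↔ _ = _
    rw [h₁ v w (fun i hi => h i (lt_of_lt_of_le hi (le_max_left _ _))) xs,
      h₂ v w (fun i hi => h i (lt_of_lt_of_le hi (le_max_right _ _))) xs]
  | rel R ts => exact R.elim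
  | imp φ ψ ih₁ ih₂ =>
    obtain ⟨N₁, h₁⟩ := ih₁
    obtain ⟨N₂, h₂⟩ := ih₂
    refine ⟨max N₁ N₂, fun v w h xs => ?_⟩
    rw [BoundedFormula.realize_imp, BoundedFormula.realize_imp,
      h₁ v w (fun i hi => h i (lt_of_lt_of_le hi (le_max_left _ _))) xs,
      h₂ v w (fun i hi => h i (lt_of_lt_of_le hi (le_max_right _ _))) xs]
  | all φ ih =>
    obtain ⟨N, h⟩ := ih
    refine ⟨N, fun v w hvw xs => ?_⟩
    rw [BoundedFormula.realize_all, BoundedFormula.realize_all]
    exact forall_congr' fun z => h v w hvw _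

include hS in
theorem main_false (htf : ∀ g : G, ∀ n : ℕ, 0 < n → g ^ n = 1 → g = 1) {X : Set G}
    (hinf : X.Infinite) (hX : FreeGen X)
    (h : ∀ a b : ℕ → G, (∀ φ : LG.Formula ℕ, φ.Realize a ↔ φ.Realize b) →
      ∀ c : G, ∃ d : G, ∀ ψ : LG.Formula (Unit ⊕ ℕ),
        ψ.Realize (Sum.elim (fun _ => c) a) ↔ ψ.Realize (Sum.elim (fun _ => d) b)) : False := by
  let x : ℕ → G := fun i => (hinf.natEmbedding X i).1
  have hx : ∀ i, x i ∈ X := fun i => (hinf.natEmbedding X i).2
  have hinj : Function.Injective x := fun i j hij => (hinf.natEmbedding X).injective (Subtype.ext hij)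
  have htp : ∀ φ : LG.Formula ℕ, φ.Realize (yt x) ↔ φ.Realize x := by
    intro φ
    obtain ⟨N, hN⟩ := realize_congr (G := G) (φ : LG.BoundedFormula ℕ 0)
    obtain ⟨α, hα⟩ := exists_aut hX x hx hinj N
    have h1 := realize_aut hS α φ x
    rw [← h1]
    exact hN (yt x) (fun i => α (x i)) (fun i hi => (hα i hi).symm) default
  obtain ⟨d, hd⟩ := h (yt x) x htp (x 0)
  refine no_solution hX x hx hinj htf d (fun n => ?_)
  have h1 := hd (psi n)
  rw [realize_psi hS, realize_psi hS] at h1
  refine h1.1 ⟨x n, ?_⟩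
  have := V_yt x n 0
  rw [zero_add] at this
  exact this.symm

end Pool.Agent.V11250.RelFreeHom
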