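import Pool.Agent.V11250.GroupLang

/-!
# Crystallographic groups: definitions
-/

set_option autoImplicit false

namespace Pool.Agent.V11250.Crystal

open FirstOrder FirstOrder.Language Pool.Agent.V11250.GroupLang

/-- The Euclidean space of dimension `n`. -/
abbrev E (n : ℕ) : Type := EuclideanSpace ℝ (Fin n)

/-- The subgroup `G` of the isometry group of `ℝ ^ n` is discrete, with respect to the topology
of pointwise convergence (which on the isometry group is the usual, compact-open, topology). -/
def IsDiscreteGroup {n : ℕ} (G : Subgroup (E n ≃ᵢ E n)) : Prop :=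
  @DiscreteTopology G
    (TopologicalSpace.induced (fun g : G => ((g : E n ≃ᵢ E n) : E n → E n)) Pi.topologicalSpace)

/-- `G` is cocompact: the images of some compact set under `G` cover `ℝ ^ n`. -/
def IsCocompact {n : ℕ} (G : Subgroup (E n ≃ᵢ E n)) : Prop :=
  ∃ K : Set (E n), IsCompact K ∧ ∀ y : E n, ∃ g ∈ G, ∃ x ∈ K, g x = y

/-- A crystallographic group of dimension `n`: a discrete cocompact subgroup of the isometry group
of `ℝ ^ n`. -/
def IsCrystallographic {n : ℕ} (G : Subgroup (E n ≃ᵢ E n)) : Prop :=
  IsDiscreteGroup G ∧ IsCocompact G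

/-- `g` is a translation. -/
def IsTranslation {n : ℕ} (g : E n ≃ᵢ E n) : Prop := ∃ v : E n, ∀ y, g y = y + v

/-- The extension of the point group by the translations splits: there is a subgroup `S` of `G`
which contains no translation besides the identity and such that every element of `G` is the
product of a translation in `G` and an element of `S`. -/
def IsSplit {n : ℕ} (G : Subgroup (E n ≃ᵢ E n)) : Prop :=
  ∃ S : Subgroup (E n ≃ᵢ E n), S ≤ G ∧ (∀ s ∈ S, IsTranslation s → s = 1) ∧
    ∀ g ∈ G, ∃ t ∈ G, IsTranslation t ∧ ∃ s ∈ S, g = t * s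

/-- The rational span of the lattice of all translation vectors of `G`, which is `T ⊗ ℚ` for the
translation subgroup `T`. -/
noncomputable def latticeSpan {n : ℕ} (G : Subgroup (E n ≃ᵢ E n)) : Submodule ℚ (E n) :=
  Submodule.span ℚ {v | ∃ g ∈ G, ∀ y, g y = y + v}

/-- `G` is irreducible: the only rational subspaces of `T ⊗ ℚ` which are invariant under the
linear parts `v ↦ g v - g 0` of the elements `g` of `G` are `0` and `T ⊗ ℚ`. -/
def IsIrreducible {n : ℕ} (G : Subgroup (E n ≃ᵢ E n)) : Prop :=
  ∀ V : Submodule ℚ (E n), V ≤ latticeSpan G → (∀ g ∈ G, ∀ v ∈ V, g v - g 0 ∈ V) →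
    V = ⊥ ∨ V = latticeSpan G

/-- The group `G` is homogeneous: for all `k ≥ 1` any two `k`-tuples which satisfy the same first
order formulas in the language of groups are related by an automorphism. -/
def Homogeneous (G : Type) [Group G] : Prop :=
  ∀ k : ℕ, 1 ≤ k → ∀ u v : Fin k → G, SameType u v → ∃ σ : G ≃* G, ∀ i, σ (u i) = v i

end Pool.Agent.V11250.Crystal
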