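import Pool.Agent.V11250.SymGroupHom
import Pool.Agent.V11250.Crystal

/-!
# The isometry group given by `W0 5`

The group of all isometries of the hyperplane `∑ y = 0` of `ℝ ^ 5` of the form
`y ↦ x + e (y ∘ p⁻¹)`, with `x` an integer vector with `∑ x = 0`, `p` a permutation of the
coordinates and `e` a sign, is an irreducible split crystallographic group of dimension `4`.
-/

set_option autoImplicit false

namespace Pool.Agent.V11250.CrystalProof

open FirstOrder FirstOrder.Language Pool.Agent.V11250.SymGroup Pool.Agent.V11250.GroupLang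
open Pool.Agent.V11250.Crystal
open scoped RealInnerProductSpace

/-! ## The hyperplane -/

/-- The vector `(1, 1, 1, 1, 1)`. -/
noncomputable def one5 : E 5 := WithLp.toLp 2 fun _ => 1

theorem one5_ne : one5 ≠ 0 := by
  intro h
  have := congrArg (fun v : E 5 => v.ofLp 0) h
  simp [one5] at this

/-- The hyperplane `∑ y = 0`. -/
noncomputable abbrev Hyp : Submodule ℝ (E 5) := (ℝ ∙ one5)ᗮ

theorem mem_hyp (y : E 5) : y ∈ Hyp ↔ ∑ i, y.ofLp i = 0 := by
  rw [Submodule.mem_orthogonal_singleton_iff_inner_right, PiLp.inner_apply]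
  simp [one5]

instance : Fact (Module.finrank ℝ (E 5) = 4 + 1) := ⟨by simp⟩

/-- The isometry of the hyperplane with `ℝ ^ 4`. -/
noncomputable def ee : Hyp ≃ₗᵢ[ℝ] E 4 :=
  (OrthonormalBasis.fromOrthogonalSpanSingleton 4 one5_ne).repr

/-- The action of the group on the hyperplane. -/
noncomputable def actH (w : W0 5) (y : Hyp) : Hyp :=
  ⟨WithLp.toLp 2 fun i => ((w : W 5).x i : ℝ) + ((w : W 5).e : ℤ) * (y : E 5).ofLp ((w : W 5).p⁻¹ i),
    by
      rw [mem_hyp]
      have h1 : ∑ i, (w : W 5).x i = 0 := w.2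
      have h2 := (mem_hyp y).1 y.2
      show ∑ i, (((w : W 5).x i : ℝ) +
        ((w : W 5).e : ℤ) * (y : E 5).ofLp ((w : W 5).p⁻¹ i)) = 0
      rw [Finset.sum_add_distrib, ← Finset.mul_sum,
        Equiv.sum_comp ((w : W 5).p⁻¹) (fun i => (y : E 5).ofLp i), h2, ← Int.cast_sum, h1]
      simp⟩

theorem actH_apply (w : W0 5) (y : Hyp) (i : Fin 5) : (actH w y : E 5).ofLp i =
    ((w : W 5).x i : ℝ) + ((w : W 5).e : ℤ) * (y : E 5).ofLp ((w : W 5).p⁻¹ i) := rfl

theorem hyp_ext {y z : Hyp} (h : ∀ i, (y : E 5).ofLp i = (z : E 5).ofLp i) : y = z := by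
  apply Subtype.ext
  ext i
  exact h i

theorem actH_mul (w w' : W0 5) (y : Hyp) : actH (w * w') y = actH w (actH w' y) := by
  apply hyp_ext
  intro i
  simp only [actH_apply, Subgroup.coe_mul, W.mul_x, W.mul_p, W.mul_e, Units.val_mul,
    mul_inv_rev, Equiv.Perm.mul_apply]
  push_cast
  ring

theorem actH_one (y : Hyp) : actH 1 y = y := by
  apply hyp_ext
  intro i
  rw [actH_apply]
  show ((0 : ℤ) : ℝ) + (((1 : ℤˣ) : ℤ) : ℝ) * (y : E 5).ofLp i = (y : E 5).ofLp i
  simp

theorem actH_isometry (w : W0 5) : Isometry (actH w) := by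
  apply Isometry.of_dist_eq
  intro y z
  have h1 : dist (actH w y) (actH w z) = dist (actH w y : E 5) (actH w z : E 5) := rfl
  have h2 : dist y z = dist (y : E 5) (z : E 5) := rfl
  rw [h1, h2, EuclideanSpace.dist_eq, EuclideanSpace.dist_eq]
  congr 1
  rw [← Equiv.sum_comp ((w : W 5).p⁻¹)
    (fun i => dist ((y : E 5).ofLp i) ((z : E 5).ofLp i) ^ 2)]
  apply Finset.sum_congr rfl
  intro i _
  rw [actH_apply, actH_apply, Real.dist_eq, Real.dist_eq]
  rcases Int.units_eq_one_or (w : W 5).e with h | h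
  · rw [h]
    simp
  · rw [h]
    simp only [Units.val_neg, Units.val_one, Int.cast_neg, Int.cast_one, neg_mul, one_mul]
    rw [show ((w : W 5).x i : ℝ) + -(y : E 5).ofLp ((w : W 5).p⁻¹ i) -
      (((w : W 5).x i : ℝ) + -(z : E 5).ofLp ((w : W 5).p⁻¹ i)) =
      -((y : E 5).ofLp ((w : W 5).p⁻¹ i) - (z : E 5).ofLp ((w : W 5).p⁻¹ i)) by ring, abs_neg]

/-- The isometry of `ℝ ^ 4` given by an element of the group. -/
noncomputable def isoOf (w : W0 5) : E 4 ≃ᵢ E 4 where
  toFun := fun y => ee (actH w (ee.symm y))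
  invFun := fun y => ee (actH w⁻¹ (ee.symm y))
  left_inv := by
    intro y
    simp only [LinearIsometryEquiv.symm_apply_apply]
    rw [← actH_mul, inv_mul_cancel, actH_one, LinearIsometryEquiv.apply_symm_apply]
  right_inv := by
    intro y
    simp only [LinearIsometryEquiv.symm_apply_apply]
    rw [← actH_mul, mul_inv_cancel, actH_one, LinearIsometryEquiv.apply_symm_apply]
  isometry_toFun := ee.isometry.comp ((actH_isometry w).comp ee.symm.isometry)

theorem isoOf_apply (w : W0 5) (y : E 4) : isoOf w y = ee (actH w (ee.symm y)) := rfl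

/-- The group of isometries. -/
noncomputable def Φ : W0 5 →* (E 4 ≃ᵢ E 4) where
  toFun := isoOf
  map_one' := by
    ext1 y
    rw [isoOf_apply, actH_one, LinearIsometryEquiv.apply_symm_apply]
    rfl
  map_mul' := by
    intro w w'
    ext1 y
    rw [isoOf_apply, actH_mul, IsometryEquiv.mul_apply, isoOf_apply, isoOf_apply,
      LinearIsometryEquiv.symm_apply_apply]

theorem Φ_apply (w : W0 5) (y : E 4) : Φ w y = ee (actH w (ee.symm y)) := rfl

/-- Integer vectors with sum zero as elements of the hyperplane. -/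
noncomputable def vec (x : Fin 5 → ℤ) (hx : ∑ i, x i = 0) : Hyp :=
  ⟨WithLp.toLp 2 fun i => (x i : ℝ), by
    rw [mem_hyp]
    show ∑ i, (x i : ℝ) = 0
    rw [← Int.cast_sum, hx, Int.cast_zero]⟩

theorem sum_zero (w : W0 5) : ∑ i, (w : W 5).x i = 0 := w.2

theorem vec_apply (x : Fin 5 → ℤ) (hx : ∑ i, x i = 0) (i : Fin 5) :
    (vec x hx : E 5).ofLp i = x i := rfl

theorem sum_diff (i j : Fin 5) :
    ∑ l : Fin 5, ((if l = i then (1 : ℤ) else 0) - (if l = j then 1 else 0)) = 0 := by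
  simp [Finset.sum_sub_distrib]

/-- The elements which act by translations. -/
theorem parts_of_translation (w : W0 5) (h : IsTranslation (Φ w)) :
    (w : W 5).p = 1 ∧ (w : W 5).e = 1 := by
  obtain ⟨v, hv⟩ := h
  have h1 : ∀ y : Hyp, actH w y = y + ee.symm v := by
    intro y
    have := hv (ee y)
    rw [Φ_apply, LinearIsometryEquiv.symm_apply_apply] at this
    apply ee.injective
    rw [this, map_add, LinearIsometryEquiv.apply_symm_apply]
  have h0 := h1 0
  rw [zero_add] at h0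
  apply faithful
  intro i j k
  have h2 := h1 (vec _ (sum_diff i j))
  rw [← h0] at h2
  have h3 := congrArg (fun z : Hyp => (z : E 5).ofLp k) h2
  simp only [actH_apply, Submodule.coe_add, PiLp.add_apply, vec_apply] at h3
  have e1 : ((w : W 5).p⁻¹ k = i) ↔ (k = (w : W 5).p i) := by
    rw [Equiv.Perm.inv_eq_iff_eq]
  have e2 : ((w : W 5).p⁻¹ k = j) ↔ (k = (w : W 5).p j) := by
    rw [Equiv.Perm.inv_eq_iff_eq]
  simp only [e1, e2] at h3
  have h4 : ((0 : Hyp) : E 5).ofLp ((w : W 5).p⁻¹ k) = 0 := rfl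
  rw [h4] at h3
  have h5 : ((((w : W 5).e : ℤ) * ((if k = (w : W 5).p i then 1 else 0) -
      (if k = (w : W 5).p j then 1 else 0)) : ℤ) : ℝ) =
      (((if k = i then 1 else 0) - (if k = j then 1 else 0) : ℤ) : ℝ) := by
    push_cast at h3 ⊢
    linarith
  exact_mod_cast h5

theorem translation_of_parts (w : W0 5) (hp : (w : W 5).p = 1) (he : (w : W 5).e = 1) (y : E 4) :
    Φ w y = y + ee (vec (w : W 5).x (sum_zero w)) := by
  rw [Φ_apply]
  have : actH w (ee.symm y) = ee.symm y + vec (w : W 5).x (sum_zero w) := by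
    apply hyp_ext
    intro i
    simp only [actH_apply, Submodule.coe_add, PiLp.add_apply, vec_apply, hp, he]
    simp [add_comm]
  rw [this, map_add, LinearIsometryEquiv.apply_symm_apply]

theorem Φ_injective : Function.Injective Φ := by
  rw [injective_iff_map_eq_one]
  intro w hw
  have h1 : IsTranslation (Φ w) := ⟨0, fun y => by rw [hw]; simp⟩
  obtain ⟨hp, he⟩ := parts_of_translation w h1
  have h2 := translation_of_parts w hp he 0
  rw [hw] at h2
  have h3 : vec (w : W 5).x (sum_zero w) = 0 := by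
    apply ee.injective
    rw [map_zero]
    simpa using h2.symm
  apply Subtype.ext
  apply W.ext
  · funext k
    have := congrArg (fun z : Hyp => (z : E 5).ofLp k) h3
    rw [vec_apply] at this
    have h4 : ((w : W 5).x k : ℝ) = 0 := this
    exact_mod_cast h4
  · exact hp
  · exact he

/-! ## Discreteness and cocompactness -/

theorem finite_bounded (N : ℤ) : {w : W0 5 | ∀ i, |(w : W 5).x i| ≤ N}.Finite := by
  have : Finite (Set.Icc (-N) N) := inferInstance
  have hf : Finite ((Fin 5 → Set.Icc (-N) N) × Equiv.Perm (Fin 5) × ℤˣ) := inferInstance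
  apply Set.Finite.of_injOn (f := fun w : W0 5 =>
    ((w : W 5).x, (w : W 5).p, (w : W 5).e)) (t := {q | ∀ i, |q.1 i| ≤ N})
  · intro w hw
    exact hw
  · intro w _ w' _ h
    simp only [Prod.mk.injEq] at h
    apply Subtype.ext
    exact W.ext h.1 h.2.1 h.2.2
  · apply Set.Finite.subset (Set.finite_range
      (fun q : (Fin 5 → Set.Icc (-N) N) × Equiv.Perm (Fin 5) × ℤˣ =>
        ((fun i => (q.1 i : ℤ)), q.2.1, q.2.2)))
    rintro ⟨x, p, e⟩ h
    exact ⟨(fun i => ⟨x i, abs_le.1 (h i)⟩, p, e), rfl⟩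

theorem norm_Φ_zero (w : W0 5) (i : Fin 5) : |((w : W 5).x i : ℝ)| ≤ ‖Φ w 0‖ := by
  rw [Φ_apply, map_zero, LinearIsometryEquiv.norm_map]
  have h1 := PiLp.norm_apply_le (actH w 0 : E 5) i
  rw [actH_apply] at h1
  have h4 : ((0 : Hyp) : E 5).ofLp ((w : W 5).p⁻¹ i) = 0 := rfl
  rw [h4, mul_zero, add_zero, Real.norm_eq_abs] at h1
  exact h1

theorem discrete : IsDiscreteGroup Φ.range := by
  unfold IsDiscreteGroup
  let τ : TopologicalSpace Φ.range :=
    TopologicalSpace.induced (fun g : Φ.range => ((g : E 4 ≃ᵢ E 4) : E 4 → E 4))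
      Pi.topologicalSpace
  have hcont : Continuous (fun g : Φ.range => ((g : E 4 ≃ᵢ E 4) : E 4 → E 4)) :=
    continuous_induced_dom
  have hinj : Function.Injective (fun g : Φ.range => ((g : E 4 ≃ᵢ E 4) : E 4 → E 4)) := by
    intro g h hgh
    apply Subtype.ext
    exact DFunLike.coe_injective hgh
  have hT2 : T2Space Φ.range := T2Space.of_injective_continuous hinj hcont
  rw [discreteTopology_iff_isOpen_singleton]
  intro g
  let F : Set Φ.range := {h | dist ((h : E 4 ≃ᵢ E 4) 0) ((g : E 4 ≃ᵢ E 4) 0) < 1}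
  have hFopen : IsOpen F := by
    have hc : Continuous (fun h : Φ.range => (h : E 4 ≃ᵢ E 4) 0) :=
      (continuous_apply (0 : E 4)).comp hcont
    exact isOpen_lt (hc.dist continuous_const) continuous_const
  have hFfin : F.Finite := by
    obtain ⟨N, hN⟩ := exists_nat_ge (‖(g : E 4 ≃ᵢ E 4) 0‖ + 1)
    have hfin := (finite_bounded N).image (fun w => (⟨Φ w, ⟨w, rfl⟩⟩ : Φ.range))
    apply hfin.subset
    rintro ⟨_, w, rfl⟩ hw
    refine ⟨w, fun i => ?_, rfl⟩
    have h1 : ‖Φ w 0‖ ≤ N := by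
      have h2 : dist (Φ w 0) ((g : E 4 ≃ᵢ E 4) 0) < 1 := hw
      rw [dist_eq_norm] at h2
      have h3 : ‖Φ w 0‖ ≤ ‖Φ w 0 - (g : E 4 ≃ᵢ E 4) 0‖ + ‖(g : E 4 ≃ᵢ E 4) 0‖ := by
        have := norm_add_le (Φ w 0 - (g : E 4 ≃ᵢ E 4) 0) ((g : E 4 ≃ᵢ E 4) 0)
        rwa [sub_add_cancel] at this
      linarith
    have h4 := (norm_Φ_zero w i).trans h1
    exact_mod_cast h4
  have h1 : ({g} : Set Φ.range) = F ∩ (F \ {g})ᶜ := by
    ext h
    simp only [Set.mem_singleton_iff, Set.mem_inter_iff, Set.mem_compl_iff, Set.mem_sdiff]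
    constructor
    · rintro rfl
      exact ⟨by simp [F], fun h => h.2 rfl⟩
    · rintro ⟨a, b⟩
      by_contra hne
      exact b ⟨a, hne⟩
  rw [h1]
  exact hFopen.inter (hFfin.subset Set.sdiff_subset).isClosed.isOpen_compl

theorem cocompact : IsCocompact Φ.range := by
  refine ⟨Metric.closedBall 0 5, isCompact_closedBall _ _, fun y => ?_⟩
  let z : Hyp := ee.symm y
  let x : Fin 5 → ℤ := fun i => if i = 0 then
    -(⌊(z : E 5).ofLp 1⌋ + ⌊(z : E 5).ofLp 2⌋ + ⌊(z : E 5).ofLp 3⌋ + ⌊(z : E 5).ofLp 4⌋)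
    else ⌊(z : E 5).ofLp i⌋
  have hx : ∑ i, x i = 0 := by
    rw [Fin.sum_univ_five]
    simp [x]
    ring
  let w : W0 5 := tr x hx
  refine ⟨Φ w, ⟨w, rfl⟩, (Φ w)⁻¹ y, ?_, ?_⟩
  · rw [mem_closedBall_zero_iff]
    have h1 : (Φ w)⁻¹ y = ee (z - vec x hx) := by
      have h2 : Φ w (ee (z - vec x hx)) = y := by
        rw [translation_of_parts w rfl rfl, ← map_add]
        have h3 : z - vec x hx + vec (w : W 5).x (sum_zero w) = z := by
          have : vec (w : W 5).x (sum_zero w) = vec x hx := rfl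
          rw [this, sub_add_cancel]
        rw [h3, LinearIsometryEquiv.apply_symm_apply]
      rw [← h2, ← IsometryEquiv.mul_apply, inv_mul_cancel]
      rfl
    rw [h1, LinearIsometryEquiv.norm_map]
    have h4 : ‖z - vec x hx‖ = ‖((z - vec x hx : Hyp) : E 5)‖ := rfl
    rw [h4, EuclideanSpace.norm_eq]
    rw [Real.sqrt_le_left (by norm_num)]
    have hz : ∑ i, (z : E 5).ofLp i = 0 := (mem_hyp _).1 z.2
    rw [Fin.sum_univ_five] at hz ⊢
    have hco : ∀ i, ((z - vec x hx : Hyp) : E 5).ofLp i = (z : E 5).ofLp i - x i := fun i => rfl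
    simp only [hco, Real.norm_eq_abs, sq_abs]
    have x0 : x 0 = -(⌊(z : E 5).ofLp 1⌋ + ⌊(z : E 5).ofLp 2⌋ + ⌊(z : E 5).ofLp 3⌋ +
      ⌊(z : E 5).ofLp 4⌋) := rfl
    have x1 : x 1 = ⌊(z : E 5).ofLp 1⌋ := rfl
    have x2 : x 2 = ⌊(z : E 5).ofLp 2⌋ := rfl
    have x3 : x 3 = ⌊(z : E 5).ofLp 3⌋ := rfl
    have x4 : x 4 = ⌊(z : E 5).ofLp 4⌋ := rfl
    rw [x0, x1, x2, x3, x4]
    have f1 := Int.fract_nonneg ((z : E 5).ofLp 1)
    have f2 := Int.fract_nonneg ((z : E 5).ofLp 2)
    have f3 := Int.fract_nonneg ((z : E 5).ofLp 3)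
    have f4 := Int.fract_nonneg ((z : E 5).ofLp 4)
    have g1 := Int.fract_lt_one ((z : E 5).ofLp 1)
    have g2 := Int.fract_lt_one ((z : E 5).ofLp 2)
    have g3 := Int.fract_lt_one ((z : E 5).ofLp 3)
    have g4 := Int.fract_lt_one ((z : E 5).ofLp 4)
    have e1 := Int.self_sub_floor ((z : E 5).ofLp 1)
    have e2 := Int.self_sub_floor ((z : E 5).ofLp 2)
    have e3 := Int.self_sub_floor ((z : E 5).ofLp 3)
    have e4 := Int.self_sub_floor ((z : E 5).ofLp 4)
    have e0 : (z : E 5).ofLp 0 - ((-(⌊(z : E 5).ofLp 1⌋ + ⌊(z : E 5).ofLp 2⌋ +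
      ⌊(z : E 5).ofLp 3⌋ + ⌊(z : E 5).ofLp 4⌋) : ℤ) : ℝ) =
      -(Int.fract ((z : E 5).ofLp 1) + Int.fract ((z : E 5).ofLp 2) +
        Int.fract ((z : E 5).ofLp 3) + Int.fract ((z : E 5).ofLp 4)) := by
      push_cast
      rw [← e1, ← e2, ← e3, ← e4]
      linarith
    rw [e0, e1, e2, e3, e4]
    nlinarith [mul_nonneg f1 f2, mul_nonneg f1 f3, mul_nonneg f1 f4, mul_nonneg f2 f3,
      mul_nonneg f2 f4, mul_nonneg f3 f4]
  · rw [← IsometryEquiv.mul_apply, mul_inv_cancel]
    rfl

/-! ## The splitting -/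

theorem split : IsSplit Φ.range := by
  let S0 : Subgroup (W0 5) :=
    { carrier := {w | ∀ i, (w : W 5).x i = 0}
      mul_mem' := by
        intro a b ha hb i
        rw [Subgroup.coe_mul, W.mul_x, ha, hb]
        simp
      one_mem' := fun i => rfl
      inv_mem' := by
        intro a ha i
        rw [Subgroup.coe_inv, W.inv_x, ha]
        simp }
  refine ⟨S0.map Φ, ?_, ?_, ?_⟩
  · rintro _ ⟨w, _, rfl⟩
    exact ⟨w, rfl⟩
  · rintro _ ⟨w, hw, rfl⟩ ht
    obtain ⟨hp, he⟩ := parts_of_translation w ht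
    have : w = 1 := by
      apply Subtype.ext
      apply W.ext
      · funext k
        exact hw k
      · exact hp
      · exact he
    rw [this, map_one]
  · rintro _ ⟨w, rfl⟩
    refine ⟨Φ (tr (w : W 5).x w.2), ⟨_, rfl⟩,
      ⟨_, fun y => translation_of_parts _ rfl rfl y⟩, ?_⟩
    refine ⟨Φ ⟨⟨0, (w : W 5).p, (w : W 5).e⟩, by
      show ∑ i : Fin 5, (0 : Fin 5 → ℤ) i = 0
      simp⟩, ⟨_, fun i => rfl, rfl⟩, ?_⟩
    rw [← map_mul]
    congr 1
    apply Subtype.ext
    rw [Subgroup.coe_mul]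
    apply W.ext
    · funext i
      simp [tr]
    · simp [tr]
    · simp [tr]

/-! ## Irreducibility -/

theorem smul_coord (r : ℚ) (v : E 4) (i : Fin 5) :
    (ee.symm (r • v) : E 5).ofLp i = (r : ℝ) * (ee.symm v : E 5).ofLp i := by
  rw [← Rat.cast_smul_eq_qsmul ℝ r v, map_smul]
  rfl

theorem rational (v : E 4) (hv : v ∈ latticeSpan Φ.range) :
    ∃ q : Fin 5 → ℚ, ∀ i, (ee.symm v : E 5).ofLp i = (q i : ℝ) := by
  unfold latticeSpan at hv
  induction hv using Submodule.span_induction with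
  | mem v h =>
    obtain ⟨_, ⟨w, rfl⟩, hw⟩ := h
    obtain ⟨hp, he⟩ := parts_of_translation w ⟨v, hw⟩
    have h1 := hw 0
    rw [translation_of_parts w hp he, zero_add, zero_add] at h1
    refine ⟨fun i => ((w : W 5).x i : ℚ), fun i => ?_⟩
    rw [← h1, LinearIsometryEquiv.symm_apply_apply, vec_apply]
    push_cast
    rfl
  | zero => exact ⟨0, fun i => by rw [map_zero]; simp⟩
  | add x y _ _ hx hy =>
    obtain ⟨q, hq⟩ := hx
    obtain ⟨q', hq'⟩ := hy
    refine ⟨fun i => q i + q' i, fun i => ?_⟩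
    rw [map_add]
    show (ee.symm x : E 5).ofLp i + (ee.symm y : E 5).ofLp i = _
    rw [hq, hq']
    push_cast
    rfl
  | smul r x _ hx =>
    obtain ⟨q, hq⟩ := hx
    refine ⟨fun i => r * q i, fun i => ?_⟩
    rw [smul_coord, hq]
    push_cast
    rfl

theorem irreducible : IsIrreducible Φ.range := by
  intro V hV hinv
  by_cases hbot : V = ⊥
  · exact Or.inl hbot
  right
  apply le_antisymm hV
  obtain ⟨v, hvV, hv0⟩ := (Submodule.ne_bot_iff V).1 hbot
  obtain ⟨q, hq⟩ := rational v (hV hvV)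
  -- two different coordinates
  have hne : ∃ i j, q i ≠ q j := by
    by_contra hcon
    push Not at hcon
    have hz : ∑ i, (ee.symm v : E 5).ofLp i = 0 := (mem_hyp _).1 (ee.symm v).2
    have h1 : ∀ i, (ee.symm v : E 5).ofLp i = (q 0 : ℝ) := fun i => by
      rw [hq, hcon i 0]
    simp only [h1] at hz
    simp at hz
    apply hv0
    have h2 : ee.symm v = 0 := by
      apply hyp_ext
      intro i
      rw [h1 i, hz]
      simp
    have := congrArg ee h2
    simpa using this
  obtain ⟨i, j, hij⟩ := hne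
  have hij' : i ≠ j := fun h => hij (by rw [h])
  -- permutations act on `V`
  have hperm : ∀ (p : Equiv.Perm (Fin 5)) (y : Hyp), ee y ∈ V → ∀ z : Hyp,
      (∀ k, (z : E 5).ofLp k = (y : E 5).ofLp (p⁻¹ k)) → ee z ∈ V := by
    intro p y hy z hz
    let w : W0 5 := ⟨⟨0, p, 1⟩, by
      show ∑ i : Fin 5, (0 : Fin 5 → ℤ) i = 0
      simp⟩
    have h1 := hinv (Φ w) ⟨w, rfl⟩ (ee y) hy
    rw [Φ_apply, Φ_apply, LinearIsometryEquiv.symm_apply_apply, map_zero, ← map_sub] at h1
    have h2 : actH w y - actH w 0 = z := by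
      apply hyp_ext
      intro k
      have e1 : ((actH w y - actH w 0 : Hyp) : E 5).ofLp k =
        (actH w y : E 5).ofLp k - (actH w 0 : E 5).ofLp k := rfl
      rw [e1, actH_apply, actH_apply, hz]
      have e2 : ((0 : Hyp) : E 5).ofLp ((w : W 5).p⁻¹ k) = 0 := rfl
      rw [e2]
      simp [w]
    rwa [h2] at h1
  -- `e_i - e_j` lies in `V`
  have hd : ee (vec _ (sum_diff i j)) ∈ V := by
    let y : Hyp := ee.symm v
    have hy : ee y ∈ V := by
      show ee (ee.symm v) ∈ V
      rw [LinearIsometryEquiv.apply_symm_apply]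
      exact hvV
    let z : Hyp := ⟨WithLp.toLp 2 fun k => (y : E 5).ofLp ((Equiv.swap i j)⁻¹ k), by
      rw [mem_hyp]
      show ∑ k, (y : E 5).ofLp ((Equiv.swap i j)⁻¹ k) = 0
      rw [Equiv.sum_comp ((Equiv.swap i j)⁻¹) (fun k => (y : E 5).ofLp k)]
      exact (mem_hyp y).1 y.2⟩
    have hz : ee z ∈ V := hperm (Equiv.swap i j) y hy z fun k => rfl
    have h1 : ee (y - z) ∈ V := by
      rw [map_sub]
      exact V.sub_mem hy hz
    have hr : q i - q j ≠ 0 := sub_ne_zero.2 hij
    have h2 := V.smul_mem (q i - q j)⁻¹ h1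
    have h3 : (q i - q j)⁻¹ • ee (y - z) = ee (vec _ (sum_diff i j)) := by
      apply ee.symm.injective
      rw [LinearIsometryEquiv.symm_apply_apply]
      apply hyp_ext
      intro k
      rw [smul_coord, LinearIsometryEquiv.symm_apply_apply, vec_apply]
      have e1 : ((y - z : Hyp) : E 5).ofLp k = (y : E 5).ofLp k - (z : E 5).ofLp k := rfl
      have e2 : (z : E 5).ofLp k = (y : E 5).ofLp ((Equiv.swap i j)⁻¹ k) := rfl
      rw [e1, e2, hq, hq]
      have hr' : ((q i : ℝ) - (q j : ℝ)) ≠ 0 := by exact_mod_cast hr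
      push_cast
      by_cases hki : k = i
      · subst hki
        have : (Equiv.swap k j)⁻¹ k = j := by simp
        rw [this, if_pos rfl, if_neg hij']
        field_simp
        ring
      · by_cases hkj : k = j
        · subst hkj
          have : (Equiv.swap i k)⁻¹ k = i := by simp
          rw [this, if_pos rfl, if_neg hki]
          field_simp
          ring
        · have : (Equiv.swap i j)⁻¹ k = k := by
            rw [Equiv.swap_inv]
            exact Equiv.swap_apply_of_ne_of_ne hki hkj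
          rw [this, if_neg hki, if_neg hkj]
          simp
    rwa [h3] at h2
  -- all `e_k - e_0` lie in `V`
  have hall : ∀ k : Fin 5, ee (vec (dv k) (sum_dv k)) ∈ V := by
    intro k
    by_cases hk : k = 0
    · have : vec (dv k) (sum_dv k) = 0 := by
        apply hyp_ext
        intro l
        rw [vec_apply, hk]
        simp [dv]
      rw [this, map_zero]
      exact V.zero_mem
    · -- a permutation with `i ↦ k`, `j ↦ 0`
      obtain ⟨p, hpi, hpj⟩ : ∃ p : Equiv.Perm (Fin 5), p i = k ∧ p j = 0 := by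
        refine ⟨Equiv.swap 0 ((Equiv.swap i k) j) * Equiv.swap i k, ?_, ?_⟩
        · rw [Equiv.Perm.mul_apply, Equiv.swap_apply_left]
          apply Equiv.swap_apply_of_ne_of_ne hk
          intro h
          have : (Equiv.swap i k) i = (Equiv.swap i k) j := by
            rw [Equiv.swap_apply_left]; exact h
          exact hij' ((Equiv.swap i k).injective this)
        · rw [Equiv.Perm.mul_apply, Equiv.swap_apply_right]
      apply hperm p _ hd
      intro l
      rw [vec_apply, vec_apply]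
      have e1 : (p⁻¹ l = i) ↔ (l = k) := by
        rw [Equiv.Perm.inv_eq_iff_eq, hpi]
      have e2 : (p⁻¹ l = j) ↔ (l = 0) := by
        rw [Equiv.Perm.inv_eq_iff_eq, hpj]
      simp only [e1, e2, dv]
  -- the lattice lies in `V`
  unfold latticeSpan
  rw [Submodule.span_le]
  rintro v' ⟨_, ⟨w, rfl⟩, hw⟩
  obtain ⟨hp, he⟩ := parts_of_translation w ⟨v', hw⟩
  have h1 := hw 0
  rw [translation_of_parts w hp he, zero_add, zero_add] at h1
  rw [← h1]
  have h2 : ee (vec (w : W 5).x (sum_zero w)) = ∑ k, (((w : W 5).x k : ℤ) : ℚ) •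
      ee (vec (dv k) (sum_dv k)) := by
    apply ee.symm.injective
    rw [LinearIsometryEquiv.symm_apply_apply, map_sum]
    apply hyp_ext
    intro l
    have e1 : ((∑ k, ee.symm ((((w : W 5).x k : ℤ) : ℚ) • ee (vec (dv k) (sum_dv k))) : Hyp) :
        E 5).ofLp l = ∑ k, ((ee.symm ((((w : W 5).x k : ℤ) : ℚ) •
          ee (vec (dv k) (sum_dv k))) : Hyp) : E 5).ofLp l := by
      rw [Submodule.coe_sum]
      simp
    rw [e1]
    simp only [smul_coord, LinearIsometryEquiv.symm_apply_apply, vec_apply]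
    have hs : ∑ k, (w : W 5).x k = 0 := w.2
    have e2 : (w : W 5).x l = ∑ k, (w : W 5).x k * dv k l := by
      simp only [dv, mul_sub, Finset.sum_sub_distrib, ← Finset.sum_mul, hs]
      simp
    conv_lhs => rw [e2]
    push_cast
    rfl
  rw [h2]
  exact V.sum_mem fun k _ => V.smul_mem _ (hall k)

/-- The group is not homogeneous. -/
theorem not_homogeneous : ¬ Homogeneous Φ.range := by
  intro hom
  let e : W0 5 ≃* Φ.range := MonoidHom.ofInjective Φ_injective
  let f : Fin (Fintype.card (Equiv.Perm (Fin 5))) → Equiv.Perm (Fin 5) :=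
    (Fintype.equivFin (Equiv.Perm (Fin 5))).symm
  obtain ⟨σ, hσ⟩ := hom (Fintype.card (Equiv.Perm (Fin 5))) Fintype.card_pos
    (fun i => e (gp 1 (f i))) (fun i => e (gp 2 (f i))) (by
      intro φ
      have h1 := realize_mulEquiv e φ (fun i => gp 1 (f i))
      have h2 := realize_mulEquiv e φ (fun i => gp 2 (f i))
      rw [h1, h2]
      exact same_formulas f φ)
  refine no_automorphism ((e.trans σ).trans e.symm) (fun p => ?_)
  have h1 := hσ (Fintype.equivFin (Equiv.Perm (Fin 5)) p)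
  have h2 : f (Fintype.equivFin (Equiv.Perm (Fin 5)) p) = p := Equiv.symm_apply_apply _ _
  simp only [h2] at h1
  show e.symm (σ (e (gp 1 p))) = gp 2 p
  rw [h1, MulEquiv.symm_apply_apply]

end Pool.Agent.V11250.CrystalProof
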