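import Mathlib

/-!
# Definable predicates: closure properties
-/

set_option autoImplicit false

namespace Pool.Agent.V11250.DefTool

open FirstOrder FirstOrder.Language

universe u v w

/-- The predicate `P` on `α`-tuples is definable without parameters. -/
def Dfn (L : FirstOrder.Language.{u, v}) {A : Type w} [L.Structure A] {α : Type}
    (P : (α → A) → Prop) : Prop :=
  ∃ φ : L.Formula α, ∀ v, φ.Realize v ↔ P v

/-- The function `f` on `α`-tuples is given by a term. -/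
def TF (L : FirstOrder.Language.{u, v}) {A : Type w} [L.Structure A] {α : Type}
    (f : (α → A) → A) : Prop :=
  ∃ t : L.Term α, ∀ v, t.realize v = f v

variable {L : FirstOrder.Language.{u, v}} {A : Type w} [L.Structure A] {α β : Type}

theorem Dfn.and {P Q : (α → A) → Prop} (hP : Dfn L P) (hQ : Dfn L Q) :
    Dfn L (fun v => P v ∧ Q v) := by
  obtain ⟨φ, hφ⟩ := hP
  obtain ⟨ψ, hψ⟩ := hQ
  exact ⟨φ ⊓ ψ, fun v => by rw [Formula.realize_inf, hφ, hψ]⟩

theorem Dfn.or {P Q : (α → A) → Prop} (hP : Dfn L P) (hQ : Dfn L Q) :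
    Dfn L (fun v => P v ∨ Q v) := by
  obtain ⟨φ, hφ⟩ := hP
  obtain ⟨ψ, hψ⟩ := hQ
  exact ⟨φ ⊔ ψ, fun v => by rw [Formula.realize_sup, hφ, hψ]⟩

theorem Dfn.not {P : (α → A) → Prop} (hP : Dfn L P) : Dfn L (fun v => ¬ P v) := by
  obtain ⟨φ, hφ⟩ := hP
  exact ⟨∼φ, fun v => by rw [Formula.realize_not, hφ]⟩

theorem Dfn.imp {P Q : (α → A) → Prop} (hP : Dfn L P) (hQ : Dfn L Q) :
    Dfn L (fun v => P v → Q v) := by
  obtain ⟨φ, hφ⟩ := hP
  obtain ⟨ψ, hψ⟩ := hQ
  exact ⟨φ.imp ψ, fun v => by rw [Formula.realize_imp, hφ, hψ]⟩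

theorem Dfn.congr {P Q : (α → A) → Prop} (hP : Dfn L P) (h : ∀ v, P v ↔ Q v) : Dfn L Q := by
  obtain ⟨φ, hφ⟩ := hP
  exact ⟨φ, fun v => (hφ v).trans (h v)⟩

theorem Dfn.eq {f g : (α → A) → A} (hf : TF L f) (hg : TF L g) : Dfn L (fun v => f v = g v) := by
  obtain ⟨s, hs⟩ := hf
  obtain ⟨t, ht⟩ := hg
  exact ⟨Term.equal s t, fun v => by rw [Formula.realize_equal, hs, ht]⟩

theorem Dfn.forallFin {ι : Type} [Finite ι] {P : ι → (α → A) → Prop} (hP : ∀ i, Dfn L (P i)) :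
    Dfn L (fun v => ∀ i, P i v) := by
  choose φ hφ using hP
  refine ⟨Formula.iInf φ, fun v => ?_⟩
  rw [Formula.realize_iInf]
  exact forall_congr' fun i => hφ i v

theorem Dfn.existsFin {ι : Type} [Finite ι] {P : ι → (α → A) → Prop} (hP : ∀ i, Dfn L (P i)) :
    Dfn L (fun v => ∃ i, P i v) := by
  choose φ hφ using hP
  refine ⟨Formula.iSup φ, fun v => ?_⟩
  rw [Formula.realize_iSup]
  exact exists_congr fun i => hφ i v

/-- Block quantification. -/
theorem Dfn.exs {ι : Type} [Finite ι] {P : (α → A) → (ι → A) → Prop}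
    (h : Dfn L (fun v : α ⊕ ι → A => P (fun a => v (Sum.inl a)) (fun i => v (Sum.inr i)))) :
    Dfn L (fun v => ∃ w, P v w) := by
  obtain ⟨φ, hφ⟩ := h
  refine ⟨Formula.iExs ι φ, fun v => ?_⟩
  rw [Formula.realize_iExs]
  exact exists_congr fun w => hφ _

/-- Quantification. -/
theorem Dfn.ex {P : (α → A) → A → Prop}
    (h : Dfn L (fun v : α ⊕ Unit → A => P (fun a => v (Sum.inl a)) (v (Sum.inr ())))) :
    Dfn L (fun v => ∃ a, P v a) := by
  have h1 : Dfn L (fun v : α → A => ∃ w : Unit → A, P v (w ())) :=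
    Dfn.exs (P := fun v w => P v (w ())) h
  exact h1.congr fun v => ⟨fun ⟨w, hw⟩ => ⟨_, hw⟩, fun ⟨a, ha⟩ => ⟨fun _ => a, ha⟩⟩

/-- Quantification. -/
theorem Dfn.all {P : (α → A) → A → Prop}
    (h : Dfn L (fun v : α ⊕ Unit → A => P (fun a => v (Sum.inl a)) (v (Sum.inr ())))) :
    Dfn L (fun v => ∀ a, P v a) := by
  have h1 : Dfn L (fun v : α → A => ¬ ∃ a, ¬ P v a) := (Dfn.ex (P := fun v a => ¬ P v a) h.not).not
  exact h1.congr fun v => by push Not; rfl

theorem TF.var (a : α) : TF L (fun v : α → A => v a) := ⟨Term.var a, fun _ => rfl⟩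

theorem TF.relabel {f : (α → A) → A} (h : TF L f) (g : α → β) :
    TF L (fun v : β → A => f (fun a => v (g a))) := by
  obtain ⟨t, ht⟩ := h
  exact ⟨t.relabel g, fun v => by rw [Term.realize_relabel]; exact ht _⟩

theorem TF.lift {f : (α → A) → A} (h : TF L f) :
    TF L (fun v : α ⊕ β → A => f (fun a => v (Sum.inl a))) := h.relabel Sum.inl

theorem Dfn.relabel {P : (α → A) → Prop} (h : Dfn L P) (g : α → β) :
    Dfn L (fun v : β → A => P (fun a => v (g a))) := by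
  obtain ⟨φ, hφ⟩ := h
  exact ⟨φ.relabel g, fun v => by rw [Formula.realize_relabel]; exact hφ _⟩

end Pool.Agent.V11250.DefTool
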