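import Mathlib

/-!
# Down-posets: definitions
-/

set_option autoImplicit false

namespace Pool.Agent.V11250.DownDefs

open FirstOrder FirstOrder.Language

/-- The relation symbols of the language with the single binary relation symbol `≤`. -/
inductive PRel : ℕ → Type
  | le : PRel 2

/-- The first order language with the single binary relation symbol `≤`. -/
def LP : FirstOrder.Language.{0, 0} := ⟨fun _ => Empty, PRel⟩

/-- A poset as a structure for this language. -/
instance posetStr (P : Type) [PartialOrder P] : LP.Structure P where
  funMap := fun f => Empty.elim f
  RelMap := fun {n} r v => match n, r, v with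
    | _, PRel.le, v => v 0 ≤ v 1

/-- The poset `P` is a down-poset: it is isomorphic to `(C, ≤)` for a set `C` on which a
semilattice with identity `S` acts, where `c ≤ d` in `C` if and only if `d s = c` for some `s` in
`S`. The isomorphism is `e`. -/
def IsDownPoset (P : Type) [PartialOrder P] : Prop :=
  ∃ (S : Type) (_ : CommMonoid S) (_ : ∀ s : S, s * s = s) (C : Type) (act : C → S → C)
    (e : P ≃ C), (∀ c s t, act c (s * t) = act (act c s) t) ∧ (∀ c, act c 1 = c) ∧
      ∀ x y : P, x ≤ y ↔ ∃ s, act (e y) s = e x

end Pool.Agent.V11250.DownDefs
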