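import Pool.Agent.V11250.DownPoset

/-!
# Finite down-posets: first order equivalence of the examples
-/

set_option autoImplicit false

namespace Pool.Agent.V11250.DownPoset

open FirstOrder FirstOrder.Language Pool.Agent.V11250.DownDefs

/-- Same pattern of small distances. -/
def SamePat (D D' : Dat) {ι : Type} (K : ℕ) (w : ι → D.X) (w' : ι → D'.X) : Prop :=
  ∀ i j, ∀ m : ℤ, -(K : ℤ) ≤ m → m ≤ K → ((D.s ^ m) (w i) = w j ↔ (D'.s ^ m) (w' i) = w' j)

/-- No short cycles. -/
def Good (D : Dat) (N : ℕ) : Prop :=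
  ∀ x : D.X, ∀ m : ℤ, m ≠ 0 → -(N : ℤ) ≤ m → m ≤ N → (D.s ^ m) x ≠ x

/-- Extension of a tuple. -/
def ow {ι X : Type} (w : ι → X) (a : X) : Option ι → X := fun o => o.elim a w

variable {D D' : Dat} {ι : Type} {K : ℕ} {w : ι → D.X} {w' : ι → D'.X}

theorem SamePat.mono {K' : ℕ} (h : SamePat D D' K w w') (hK : K' ≤ K) :
    SamePat D D' K' w w' := fun i j m h1 h2 => h i j m (by omega) (by omega)

theorem SamePat.symm (h : SamePat D D' K w w') : SamePat D' D K w' w :=
  fun i j m h1 h2 => (h i j m h1 h2).symm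

theorem Good.mono {N N' : ℕ} (h : Good D N) (hN : N' ≤ N) : Good D N' :=
  fun x m h0 h1 h2 => h x m h0 (by omega) (by omega)

theorem ext1 (hw : SamePat D D' (2 * K) w w') (i : ι) (m : ℤ) (h1 : -(K : ℤ) ≤ m)
    (h2 : m ≤ K) :
    SamePat D D' K (ow w ((D.s ^ m) (w i))) (ow w' ((D'.s ^ m) (w' i))) := by
  have e1 : ∀ (E : Dat) (a b : ℤ) (x : E.X), (E.s ^ a) ((E.s ^ b) x) = (E.s ^ (a + b)) x := by
    intro E a b x
    rw [zpow_add]
    rfl
  intro a b k hk1 hk2
  rcases a with _ | j <;> rcases b with _ | j'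
  · show (D.s ^ k) ((D.s ^ m) (w i)) = (D.s ^ m) (w i) ↔
      (D'.s ^ k) ((D'.s ^ m) (w' i)) = (D'.s ^ m) (w' i)
    rw [e1, e1, add_comm, ← e1, ← e1, (D.s ^ m).injective.eq_iff, (D'.s ^ m).injective.eq_iff]
    exact hw i i k (by push_cast; omega) (by push_cast; omega)
  · show (D.s ^ k) ((D.s ^ m) (w i)) = w j' ↔ (D'.s ^ k) ((D'.s ^ m) (w' i)) = w' j'
    rw [e1, e1]
    exact hw i j' (k + m) (by push_cast; omega) (by push_cast; omega)
  · show (D.s ^ k) (w j) = (D.s ^ m) (w i) ↔ (D'.s ^ k) (w' j) = (D'.s ^ m) (w' i)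
    have e2 : ∀ (E : Dat) (x y : E.X), (E.s ^ k) x = (E.s ^ m) y ↔ (E.s ^ (k - m)) x = y := by
      intro E x y
      rw [← (E.s ^ m).injective.eq_iff (a := (E.s ^ (k - m)) x), e1, add_sub_cancel]
    rw [e2, e2]
    exact hw j i (k - m) (by push_cast; omega) (by push_cast; omega)
  · exact hw j j' k (by push_cast; omega) (by push_cast; omega)

theorem ext2 (hw : SamePat D D' K w w') (hG : Good D K) (hG' : Good D' K) (a : D.X) (a' : D'.X)
    (ha : ∀ i (m : ℤ), -(K : ℤ) ≤ m → m ≤ K → (D.s ^ m) (w i) ≠ a)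
    (ha' : ∀ i (m : ℤ), -(K : ℤ) ≤ m → m ≤ K → (D'.s ^ m) (w' i) ≠ a') :
    SamePat D D' K (ow w a) (ow w' a') := by
  have e1 : ∀ (E : Dat) (b : ℤ) (x y : E.X), (E.s ^ b) x = y ↔ (E.s ^ (-b)) y = x := by
    intro E b x y
    rw [zpow_neg]
    constructor
    · rintro rfl
      simp
    · rintro rfl
      simp
  intro p q k hk1 hk2
  rcases p with _ | j <;> rcases q with _ | j'
  · show (D.s ^ k) a = a ↔ (D'.s ^ k) a' = a'
    by_cases hk : k = 0
    · subst hk
      simp
    · exact iff_of_false (hG a k hk hk1 hk2) (hG' a' k hk hk1 hk2)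
  · show (D.s ^ k) a = w j' ↔ (D'.s ^ k) a' = w' j'
    rw [e1 D, e1 D']
    exact iff_of_false (ha j' (-k) (by omega) (by omega)) (ha' j' (-k) (by omega) (by omega))
  · exact iff_of_false (ha j k hk1 hk2) (ha' j k hk1 hk2)
  · exact hw j j' k hk1 hk2

theorem far [Fintype ι] (w : ι → D.X) (N : ℕ) (hG : Good D N) (x0 : D.X)
    (hN : Fintype.card ι * (2 * K + 1) < N + 1) :
    ∃ a, ∀ i (m : ℤ), -(K : ℤ) ≤ m → m ≤ K → (D.s ^ m) (w i) ≠ a := by
  by_contra hcon
  push Not at hcon
  have h1 : ∀ t : Fin (N + 1), ∃ z : ι × Fin (2 * K + 1),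
      (D.s ^ ((z.2.1 : ℤ) - K)) (w z.1) = (D.s ^ (t.1 : ℤ)) x0 := by
    intro t
    obtain ⟨i, m, hm1, hm2, hm⟩ := hcon ((D.s ^ (t.1 : ℤ)) x0)
    refine ⟨(i, ⟨(m + K).toNat, by omega⟩), ?_⟩
    have : (((m + K).toNat : ℕ) : ℤ) - K = m := by omega
    show (D.s ^ ((((m + K).toNat : ℕ) : ℤ) - K)) (w i) = _
    rw [this]
    exact hm
  choose f hf using h1
  obtain ⟨t, t', hne, htt⟩ := Fintype.exists_ne_map_eq_of_card_lt f (by
    simp only [Fintype.card_prod, Fintype.card_fin]
    exact hN)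
  have h2 := hf t
  rw [htt, hf t'] at h2
  have h3 : (D.s ^ ((t'.1 : ℤ) - t.1)) ((D.s ^ (t.1 : ℤ)) x0) = (D.s ^ (t.1 : ℤ)) x0 := by
    rw [← Equiv.Perm.mul_apply, ← zpow_add, sub_add_cancel]
    exact h2
  have h4 : (t'.1 : ℤ) - t.1 ≠ 0 := by
    intro h
    apply hne
    apply Fin.ext
    omega
  exact hG _ _ h4 (by omega) (by omega) h3

/-- The pattern of a tuple of elements. -/
def tup {n : ℕ} (v : Fin n → Pt D) : Fin n ⊕ Bool → D.X := Sum.elim (pos ∘ v) D.c

/-- The reindexing. -/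
def reix (n : ℕ) : Fin (n + 1) ⊕ Bool → Option (Fin n ⊕ Bool) :=
  Sum.elim (Fin.lastCases none (fun i => some (Sum.inl i))) (fun b => some (Sum.inr b))

theorem tup_snoc {n : ℕ} (v : Fin n → Pt D) (e : Pt D) (i : Fin (n + 1) ⊕ Bool) :
    tup (Fin.snoc v e : Fin (n + 1) → Pt D) i = ow (tup v) (pos e) (reix n i) := by
  rcases i with i | b
  · refine Fin.lastCases ?_ (fun i => ?_) i
    · simp [tup, reix, ow]
    · simp [tup, reix, ow]
  · rfl

theorem samePat_snoc {n : ℕ} (v : Fin n → Pt D) (v' : Fin n → Pt D') (e : Pt D) (e' : Pt D')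
    (h : SamePat D D' K (ow (tup v) (pos e)) (ow (tup v') (pos e'))) :
    SamePat D D' K (tup (Fin.snoc v e : Fin (n + 1) → Pt D))
      (tup (Fin.snoc v' e' : Fin (n + 1) → Pt D')) := by
  intro i j m h1 h2
  rw [tup_snoc, tup_snoc, tup_snoc, tup_snoc]
  exact h _ _ m h1 h2

theorem extend {n : ℕ} (v : Fin n → Pt D) (v' : Fin n → Pt D') (N : ℕ)
    (hN : (n + 2) * (2 * K + 1) < N + 1) (hG : Good D N) (hG' : Good D' N) (hKN : K ≤ N)
    (h : SamePat D D' (2 * K) (tup v) (tup v')) (e' : Pt D') :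
    ∃ e : Pt D, kind e = kind e' ∧ SamePat D D' K (ow (tup v) (pos e)) (ow (tup v') (pos e')) := by
  have hcard : Fintype.card (Fin n ⊕ Bool) = n + 2 := by simp
  rcases e' with _ | ⟨a', κ⟩
  · refine ⟨none, rfl, ?_⟩
    exact ext1 h (Sum.inr false) 0 (by omega) (by omega)
  · by_cases hex : ∃ (i : Fin n ⊕ Bool) (m : ℤ), -(K : ℤ) ≤ m ∧ m ≤ K ∧
      (D'.s ^ m) (tup v' i) = a'
    · obtain ⟨i, m, h1, h2, rfl⟩ := hex
      exact ⟨some ((D.s ^ m) (tup v i), κ), rfl, ext1 h i m h1 h2⟩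
    · push Not at hex
      obtain ⟨a, ha⟩ := far (K := K) (tup v) N hG (D.c false) (by rw [hcard]; exact hN)
      exact ⟨some (a, κ), rfl, ext2 (h.mono (by omega)) (hG.mono hKN) (hG'.mono hKN) a a' ha
        (fun i m h1 h2 => hex i m h1 h2)⟩

theorem eq_iff_kind (e f : Pt D) : e = f ↔ kind e = kind f ∧ (kind e = none ∨ pos e = pos f) := by
  rcases e with _ | ⟨x, κ⟩ <;> rcases f with _ | ⟨y, κ'⟩
  · exact ⟨fun _ => ⟨rfl, Or.inl rfl⟩, fun _ => rfl⟩
  · constructor
    · intro h; cases h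
    · intro h; cases h.1
  · constructor
    · intro h; cases h
    · intro h; cases h.1
  · constructor
    · intro h; cases h; exact ⟨rfl, Or.inr rfl⟩
    · rintro ⟨h1, h2⟩
      have h1' : κ = κ' := Option.some.inj h1
      rcases h2 with h2 | h2
      · cases h2
      · have h2' : x = y := h2
        rw [h1', h2']

theorem atom_eq {n : ℕ} (v : Fin n → Pt D) (v' : Fin n → Pt D')
    (hk : ∀ i, kind (v i) = kind (v' i)) (h : SamePat D D' K (tup v) (tup v')) (i j : Fin n) :
    v i = v j ↔ v' i = v' j := by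
  rw [eq_iff_kind, eq_iff_kind, hk, hk]
  have h1 : pos (v i) = pos (v j) ↔ pos (v' i) = pos (v' j) :=
    h (Sum.inl i) (Sum.inl j) 0 (by omega) (by omega)
  rw [h1]

theorem atom_le {n : ℕ} (v : Fin n → Pt D) (v' : Fin n → Pt D') (hK : 1 ≤ K)
    (hk : ∀ i, kind (v i) = kind (v' i)) (h : SamePat D D' K (tup v) (tup v')) (i j : Fin n) :
    v i ≤ v j ↔ v' i ≤ v' j := by
  rw [le_def, le_def, hk, hk]
  have h1 : ∀ i j : Fin n, (pos (v i) = pos (v j)) = (pos (v' i) = pos (v' j)) := fun i j =>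
    propext (h (Sum.inl i) (Sum.inl j) 0 (by omega) (by omega))
  have h2 : ∀ i j : Fin n, (D.s (pos (v i)) = pos (v j)) = (D'.s (pos (v' i)) = pos (v' j)) :=
    fun i j => propext (h (Sum.inl i) (Sum.inl j) 1 (by omega) (by omega))
  have h3 : ∀ i : Fin n, mark (pos (v i)) = mark (pos (v' i)) := by
    intro i
    apply propext
    unfold mark
    have a1 : pos (v i) = D.c false ↔ pos (v' i) = D'.c false :=
      h (Sum.inl i) (Sum.inr false) 0 (by omega) (by omega)
    have a2 : pos (v i) = D.c true ↔ pos (v' i) = D'.c true :=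
      h (Sum.inl i) (Sum.inr true) 0 (by omega) (by omega)
    rw [a1, a2]
  rw [h1, h2, h2, h3, h3]

theorem term_var {n : ℕ} (t : LP.Term (Empty ⊕ Fin n)) : ∃ i, t = Term.var (Sum.inr i) := by
  rcases t with (e | i) | ⟨f, _⟩
  · exact e.elim
  · exact ⟨i, rfl⟩
  · exact f.elim

theorem fo {n : ℕ} (φ : LP.BoundedFormula Empty n) : ∃ K N : ℕ, ∀ (D D' : Dat),
    Good D N → Good D' N → ∀ (v : Fin n → Pt D) (v' : Fin n → Pt D'),
    (∀ i, kind (v i) = kind (v' i)) → SamePat D D' K (tup v) (tup v') →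
    (φ.Realize (default : Empty → Pt D) v ↔ φ.Realize (default : Empty → Pt D') v') := by
  induction φ with
  | falsum => exact ⟨0, 0, fun D D' _ _ v v' _ _ => Iff.rfl⟩
  | equal t₁ t₂ =>
    refine ⟨0, 0, fun D D' _ _ v v' hk h => ?_⟩
    obtain ⟨i, rfl⟩ := term_var t₁
    obtain ⟨j, rfl⟩ := term_var t₂
    exact atom_eq v v' hk h i j
  | rel R ts =>
    refine ⟨1, 0, fun D D' _ _ v v' hk h => ?_⟩
    cases R
    obtain ⟨i, hi⟩ := term_var (ts 0)
    obtain ⟨j, hj⟩ := term_var (ts 1)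
    have e1 : ∀ (E : Dat) (u : _ → Pt E), (BoundedFormula.rel PRel.le ts :
        LP.BoundedFormula Empty _).Realize (default : Empty → Pt E) u ↔ u i ≤ u j := by
      intro E u
      show (ts 0).realize (Sum.elim default u) ≤ (ts 1).realize (Sum.elim default u) ↔ _
      rw [hi, hj]
      exact Iff.rfl
    rw [e1, e1]
    exact atom_le v v' le_rfl hk h i j
  | imp φ ψ ih1 ih2 =>
    obtain ⟨K1, N1, h1⟩ := ih1
    obtain ⟨K2, N2, h2⟩ := ih2
    refine ⟨max K1 K2, max N1 N2, fun D D' hG hG' v v' hk h => ?_⟩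
    have a1 := h1 D D' (hG.mono (le_max_left _ _)) (hG'.mono (le_max_left _ _)) v v' hk
      (h.mono (le_max_left _ _))
    have a2 := h2 D D' (hG.mono (le_max_right _ _)) (hG'.mono (le_max_right _ _)) v v' hk
      (h.mono (le_max_right _ _))
    rw [BoundedFormula.realize_imp, BoundedFormula.realize_imp, a1, a2]
  | @all n φ ih =>
    obtain ⟨K, N, h1⟩ := ih
    refine ⟨2 * K, max (max N K) ((n + 2) * (2 * K + 1)), fun D D' hG hG' v v' hk h => ?_⟩
    have key : ∀ (E E' : Dat), Good E (max (max N K) ((n + 2) * (2 * K + 1))) →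
        Good E' (max (max N K) ((n + 2) * (2 * K + 1))) →
        ∀ (u : Fin n → Pt E) (u' : Fin n → Pt E'), (∀ i, kind (u i) = kind (u' i)) →
        SamePat E E' (2 * K) (tup u) (tup u') →
        φ.all.Realize (default : Empty → Pt E) u → φ.all.Realize (default : Empty → Pt E') u' := by
      intro E E' hE hE' u u' hku hu hr
      rw [BoundedFormula.realize_all] at hr ⊢
      intro e'
      obtain ⟨e, he, hpat⟩ := extend u u' (max (max N K) ((n + 2) * (2 * K + 1)))
        (Nat.lt_succ_of_le (le_max_right _ _)) hE hE' ((le_max_right _ _).trans (le_max_left _ _))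
        hu e'
      refine (h1 E E' (hE.mono ((le_max_left _ _).trans (le_max_left _ _)))
        (hE'.mono ((le_max_left _ _).trans (le_max_left _ _))) (Fin.snoc u e) (Fin.snoc u' e')
        ?_ (samePat_snoc u u' e e' hpat)).1 (hr e)
      intro i
      refine Fin.lastCases ?_ (fun i => ?_) i
      · simpa using he
      · simpa using hku i
    exact ⟨key D D' hG hG' v v' hk h, key D' D hG' hG v' v (fun i => (hk i).symm) h.symm⟩

/-! ## Data from cyclic groups -/

/-- Data from an abelian group. -/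
def datG (G : Type) [AddCommGroup G] (a : G) (c : Bool → G) : Dat where
  X := G
  s := Equiv.addRight a
  c := c

theorem datG_zpow (G : Type) [AddCommGroup G] (a : G) (c : Bool → G) (m : ℤ) (x : G) :
    ((datG G a c).s ^ m) x = x + m • a := by
  show ((Equiv.addRight a : Equiv.Perm G) ^ m) x = x + m • a
  induction m using Int.induction_on generalizing x with
  | zero => simp
  | succ k ih =>
    rw [zpow_add_one, Equiv.Perm.mul_apply, ih, Equiv.coe_addRight, add_smul, one_smul, add_assoc,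
      add_comm a]
  | pred k ih =>
    rw [zpow_sub_one, Equiv.Perm.mul_apply, ih, sub_smul, one_smul]
    have : (Equiv.addRight a : Equiv.Perm G)⁻¹ x = x - a := by
      rw [Equiv.Perm.inv_eq_iff_eq]
      simp
    rw [this]
    abel

theorem datG_eq (G : Type) [AddCommGroup G] (a : G) (c : Bool → G) (m : ℤ) (x y : G) :
    (((datG G a c).s ^ m) x = (y : (datG G a c).X)) ↔ x + m • a = y := by
  have h := datG_zpow G a c m x
  exact ⟨fun h1 => h.symm.trans h1, fun h1 => h.trans h1⟩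

theorem datG_good (G : Type) [AddCommGroup G] (a : G) (c : Bool → G) (N : ℕ)
    (h : ∀ m : ℤ, m ≠ 0 → -(N : ℤ) ≤ m → m ≤ N → m • a ≠ 0) : Good (datG G a c) N := by
  intro x m h0 h1 h2 h3
  have h3' := (datG_eq G a c m x x).1 h3
  apply h m h0 h1 h2
  exact add_eq_left.1 h3'

theorem zmod_ne (n : ℕ) (m : ℤ) (h0 : m ≠ 0) (h1 : -(n : ℤ) < m) (h2 : m < n) :
    (m : ZMod n) ≠ 0 := by
  rw [Ne, ZMod.intCast_zmod_eq_zero_iff_dvd]
  intro h
  apply h0
  apply Int.eq_zero_of_abs_lt_dvd h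
  rw [abs_lt]
  exact ⟨h1, h2⟩

/-- Two cycles. -/
def DA (n : ℕ) : Dat := datG (ZMod 2 × ZMod n) (0, 1) (fun b => (if b then 1 else 0, 0))

/-- One cycle. -/
def DB (n : ℕ) : Dat := datG (ZMod (2 * n)) 1 (fun b => if b then (n : ZMod (2 * n)) else 0)

instance (n : ℕ) [NeZero n] : Finite (DA n).X := inferInstanceAs (Finite (ZMod 2 × ZMod n))
instance (n : ℕ) [NeZero n] : Finite (DB n).X := inferInstanceAs (Finite (ZMod (2 * n)))

theorem DA_good (n N : ℕ) (h : N < n) : Good (DA n) N := by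
  apply datG_good
  intro m h0 h1 h2 h3
  rw [Prod.smul_mk, Prod.mk_eq_zero] at h3
  have h4 := h3.2
  rw [zsmul_one] at h4
  exact zmod_ne n m h0 (by omega) (by omega) h4

theorem DB_good (n N : ℕ) (h : N < n) : Good (DB n) N := by
  apply datG_good
  intro m h0 h1 h2 h3
  rw [zsmul_one] at h3
  exact zmod_ne (2 * n) m h0 (by push_cast; omega) (by push_cast; omega) h3

theorem AB_pat (n K : ℕ) (h : K < n) (v : Fin 0 → Pt (DA n)) (v' : Fin 0 → Pt (DB n)) :
    SamePat (DA n) (DB n) K (tup v) (tup v') := by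
  intro i j m h1 h2
  rcases i with i | i
  · exact i.elim0
  rcases j with j | j
  · exact j.elim0
  have e1 : ((DA n).s ^ m) (tup v (Sum.inr i)) = tup v (Sum.inr j) ↔ (i = j ∧ m = 0) := by
    refine (datG_eq (ZMod 2 × ZMod n) (0, 1) (fun b => (if b then 1 else 0, 0)) m
      (if i then 1 else 0, 0) (if j then 1 else 0, 0)).trans ?_
    rw [Prod.smul_mk, Prod.mk_add_mk, Prod.mk.injEq, smul_zero, add_zero, zero_add, zsmul_one]
    constructor
    · rintro ⟨a1, a2⟩
      constructor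
      · revert a1
        revert i j
        decide
      · by_contra hm
        exact zmod_ne n m hm (by omega) (by omega) a2
    · rintro ⟨rfl, rfl⟩
      simp
  have e2 : ((DB n).s ^ m) (tup v' (Sum.inr i)) = tup v' (Sum.inr j) ↔ (i = j ∧ m = 0) := by
    refine (datG_eq (ZMod (2 * n)) 1 (fun b => if b then (n : ZMod (2 * n)) else 0) m
      (if i then (n : ZMod (2 * n)) else 0) (if j then (n : ZMod (2 * n)) else 0)).trans ?_
    rw [zsmul_one]
    constructor
    · intro h3
      rcases i with _ | _ <;> rcases j with _ | _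
      · refine ⟨rfl, ?_⟩
        by_contra hm
        simp only [Bool.false_eq_true, if_false, zero_add] at h3
        exact zmod_ne (2 * n) m hm (by push_cast; omega) (by push_cast; omega) h3
      · exfalso
        simp only [Bool.false_eq_true, if_false, zero_add, if_true] at h3
        apply zmod_ne (2 * n) (m - n) (by omega) (by push_cast; omega) (by push_cast; omega)
        push_cast
        rw [h3, sub_self]
      · exfalso
        simp only [Bool.false_eq_true, if_false, if_true] at h3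
        apply zmod_ne (2 * n) (n + m) (by omega) (by push_cast; omega) (by push_cast; omega)
        push_cast
        exact h3
      · refine ⟨rfl, ?_⟩
        by_contra hm
        simp only [if_true] at h3
        exact zmod_ne (2 * n) m hm (by push_cast; omega) (by push_cast; omega)
          (add_eq_left.1 h3)
    · rintro ⟨rfl, rfl⟩
      simp
  rw [e1, e2]

theorem DA_not (n : ℕ) (hn : 1 < n) : ¬ IsDownPoset (Pt (DA n)) := by
  have e1 : ∀ j : ℕ, ((DA n).s ^ j) ((DA n).c false) = (((0 : ZMod 2), (j : ZMod n)) :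
      ZMod 2 × ZMod n) := by
    intro j
    have := datG_zpow (ZMod 2 × ZMod n) (0, 1) (fun b => (if b then 1 else 0, 0)) (j : ℤ)
      ((DA n).c false)
    rw [zpow_natCast] at this
    refine this.trans ?_
    show ((if false = true then 1 else 0, 0) : ZMod 2 × ZMod n) + (j : ℤ) • (0, 1) = (0, (j : ZMod n))
    rw [Prod.smul_mk, Prod.mk_add_mk]
    simp
  have e2 : ∀ j : ℕ, 0 < j → j < n → (j : ZMod n) ≠ 0 := by
    intro j h0 h1 h2
    apply zmod_ne n (j : ℤ) (by omega) (by omega) (by omega)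
    rw [Int.cast_natCast]
    exact h2
  apply not_isDown (D := DA n) ((DA n).c false) (Or.inl rfl) n (by omega)
  · rw [e1]
    show (((0 : ZMod 2), ((n : ℕ) : ZMod n)) : ZMod 2 × ZMod n) = (if false = true then 1 else 0, 0)
    simp
  · have h1 := e1 1
    rw [pow_one] at h1
    rw [h1]
    intro h2
    have h3 : (((0 : ZMod 2), ((1 : ℕ) : ZMod n)) : ZMod 2 × ZMod n) =
      (if false = true then 1 else 0, 0) := h2
    rw [Prod.mk.injEq] at h3
    exact e2 1 (by omega) hn h3.2
  · intro j h0 h1 h2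
    rw [e1] at h2
    rcases h2 with h2 | h2
    · have h3 : (((0 : ZMod 2), (j : ZMod n)) : ZMod 2 × ZMod n) =
        (if false = true then 1 else 0, 0) := h2
      rw [Prod.mk.injEq] at h3
      exact e2 j h0 h1 h3.2
    · have h3 : (((0 : ZMod 2), (j : ZMod n)) : ZMod 2 × ZMod n) =
        (if true = true then 1 else 0, 0) := h2
      rw [Prod.mk.injEq] at h3
      exact e2 j h0 h1 h3.2

theorem DB_down (n : ℕ) (hn : 1 < n) : IsDownPoset (Pt (DB n)) := by
  have : NeZero (2 * n) := ⟨by omega⟩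
  have : Fact (1 < 2 * n) := ⟨by omega⟩
  have hv : ∀ x : ZMod (2 * n), (x + 1).val = if x.val + 1 = 2 * n then 0 else x.val + 1 := by
    intro x
    have hx := x.val_lt
    rw [ZMod.val_add, ZMod.val_one]
    split_ifs with h
    · rw [h, Nat.mod_self]
    · exact Nat.mod_eq_of_lt (by omega)
  have hvn : ((n : ℕ) : ZMod (2 * n)).val = n := by
    rw [ZMod.val_natCast]
    exact Nat.mod_eq_of_lt (by omega)
  have hm : ∀ x : ZMod (2 * n), mark (D := DB n) x ↔ x.val = 0 ∨ x.val = n := by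
    intro x
    have : mark (D := DB n) x ↔ x = 0 ∨ x = ((n : ℕ) : ZMod (2 * n)) := by
      constructor
      · rintro (h | h)
        · exact Or.inl h
        · exact Or.inr h
      · rintro (h | h)
        · exact Or.inl h
        · exact Or.inr h
    rw [this, ZMod.val_eq_zero, ← (ZMod.val_injective (2 * n)).eq_iff (b := ((n : ℕ) : ZMod (2 * n))),
      hvn]
  have hs : ∀ x : ZMod (2 * n), (DB n).s x = x + 1 := fun x => rfl
  have k1 : ∀ x : ZMod (2 * n), (x.val = 0 ∨ x.val = n) →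
      decide (1 ≤ (x + 1).val ∧ (x + 1).val ≤ n) = !decide (1 ≤ x.val ∧ x.val ≤ n) := by
    intro x hx
    have h1 := ZMod.val_lt (n := 2 * n) x
    rw [hv]
    rcases hx with h | h
    · rw [h, if_neg (by omega)]
      have a1 : (1 ≤ 0 + 1 ∧ 0 + 1 ≤ n) := by omega
      have a2 : ¬ (1 ≤ 0 ∧ 0 ≤ n) := by omega
      rw [decide_eq_true a1, decide_eq_false a2]
      rfl
    · rw [h, if_neg (by omega)]
      have a1 : ¬ (1 ≤ n + 1 ∧ n + 1 ≤ n) := by omega
      have a2 : (1 ≤ n ∧ n ≤ n) := by omega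
      rw [decide_eq_true a2, decide_eq_false a1]
      rfl
  have k2 : ∀ x : ZMod (2 * n), ¬ (x.val = 0 ∨ x.val = n) →
      decide (1 ≤ (x + 1).val ∧ (x + 1).val ≤ n) = decide (1 ≤ x.val ∧ x.val ≤ n) := by
    intro x hx
    have h1 := ZMod.val_lt (n := 2 * n) x
    rw [hv, decide_eq_decide]
    split_ifs with h
    · omega
    · omega
  exact isDown_of_half (D := DB n) (fun x : ZMod (2 * n) => decide (1 ≤ x.val ∧ x.val ≤ n))
    (fun x hx => k1 x ((hm x).1 hx)) (fun x hx => k2 x (fun h => hx ((hm x).2 h)))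

end Pool.Agent.V11250.DownPoset
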