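import Pool.Agent.V11250.DownDefs

/-!
# Finite down-posets are not first order definable among the finite posets
-/

set_option autoImplicit false

namespace Pool.Agent.V11250.DownPoset

open FirstOrder FirstOrder.Language Pool.Agent.V11250.DownDefs

/-! ## Down-functions -/

/-- Down-functions. -/
structure IsDownFun {P : Type} [PartialOrder P] (f : P → P) : Prop where
  le : ∀ c, f c ≤ c
  mono : ∀ c d, c ≤ d → f c ≤ f d
  fix : ∀ c d, c ≤ f d → f c = c

section downfun

variable {P : Type} [PartialOrder P]

theorem IsDownFun.comp {f g : P → P} (hf : IsDownFun f) (hg : IsDownFun g) :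
    IsDownFun (f ∘ g) where
  le c := (hf.le _).trans (hg.le _)
  mono c d h := hf.mono _ _ (hg.mono _ _ h)
  fix c d h := by
    have h1 : g c = c := hg.fix c d (h.trans (hf.le _))
    have h2 : f c = c := hf.fix c (g d) h
    show f (g c) = c
    rw [h1, h2]

theorem IsDownFun.comm_le {f g : P → P} (hf : IsDownFun f) (hg : IsDownFun g) (x : P) :
    f (g x) ≤ g (f x) := by
  have h1 : g (f (g x)) = f (g x) := hg.fix _ x (hf.le _)
  rw [← h1]
  exact hg.mono _ _ (hf.mono _ _ (hg.le x))

theorem IsDownFun.comm {f g : P → P} (hf : IsDownFun f) (hg : IsDownFun g) (x : P) :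
    f (g x) = g (f x) :=
  le_antisymm (hf.comm_le hg x) (hg.comm_le hf x)

variable (P) in
/-- The semilattice of all down-functions. -/
def DF : Type := {f : P → P // IsDownFun f}

instance : CommMonoid (DF P) where
  mul f g := ⟨g.1 ∘ f.1, g.2.comp f.2⟩
  one := ⟨id, ⟨fun _ => le_rfl, fun _ _ h => h, fun _ _ _ => rfl⟩⟩
  mul_assoc f g h := rfl
  one_mul f := rfl
  mul_one f := rfl
  mul_comm f g := by
    apply Subtype.ext
    funext x
    exact g.2.comm f.2 x

theorem isDownPoset_of (h : ∀ c d : P, c ≤ d → ∃ f : P → P, IsDownFun f ∧ f d = c) :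
    IsDownPoset P := by
  refine ⟨DF P, inferInstance, ?_, P, fun c f => f.1 c, _root_.Equiv.refl P, ?_, ?_, ?_⟩
  · intro f
    apply Subtype.ext
    funext x
    exact f.2.fix (f.1 x) x le_rfl
  · intro c s t
    rfl
  · intro c
    rfl
  · intro x y
    constructor
    · intro hxy
      obtain ⟨f, hf, hfd⟩ := h x y hxy
      exact ⟨⟨f, hf⟩, hfd⟩
    · rintro ⟨f, hf⟩
      have h1 : f.1 y = x := hf
      rw [← h1]
      exact f.2.le y

theorem exists_of_isDownPoset (h : IsDownPoset P) (c d : P) (hcd : c ≤ d) :
    ∃ f : P → P, IsDownFun f ∧ f d = c := by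
  obtain ⟨S, _, hS, C, act, e, h1, h2, h3⟩ := h
  obtain ⟨s, hs⟩ := (h3 c d).1 hcd
  refine ⟨fun x => e.symm (act (e x) s), ⟨?_, ?_, ?_⟩, ?_⟩
  · intro x
    rw [h3]
    exact ⟨s, by simp⟩
  · intro x y hxy
    obtain ⟨t, ht⟩ := (h3 x y).1 hxy
    rw [h3]
    refine ⟨t, ?_⟩
    rw [_root_.Equiv.apply_symm_apply, _root_.Equiv.apply_symm_apply, ← ht, ← h1, ← h1, mul_comm]
  · intro x y hxy
    obtain ⟨t, ht⟩ := (h3 _ _).1 hxy
    rw [_root_.Equiv.apply_symm_apply] at ht
    have h4 : act (e x) s = e x := by
      have h5 : s * (t * s) = s * t := by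
        rw [mul_comm t s, ← mul_assoc, hS]
      rw [← ht, ← h1, ← h1, h5, h1]
    show e.symm (act (e x) s) = x
    rw [h4, _root_.Equiv.symm_apply_apply]
  · simp only [hs, _root_.Equiv.symm_apply_apply]

end downfun

/-! ## The posets -/

/-- The data: a set with a permutation and two marked points. -/
structure Dat where
  /-- the points -/
  X : Type
  /-- the successor map -/
  s : Equiv.Perm X
  /-- the marked points -/
  c : Bool → X

/-- The elements of the poset: a bottom element and three elements `b`, `p`, `q` for each
point. -/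
def Pt (D : Dat) : Type := Option (D.X × Option Bool)

variable {D : Dat}

/-- The kind of an element. -/
def kind (e : Pt D) : Option (Option Bool) := Option.map Prod.snd e

/-- The point of an element (a marked point for the bottom element). -/
def pos (e : Pt D) : D.X := Option.elim e (D.c false) Prod.fst

/-- Marked points. -/
def mark (x : D.X) : Prop := x = D.c false ∨ x = D.c true

/-- The order relation in terms of kinds and relations between the points: `E1` says that the
points are equal, `E2` that the second is the successor of the first, `E3` that the first is the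
successor of the second, `Mx`, `My` that the first respectively second one is marked. -/
def leS (a b : Option (Option Bool)) (E1 E2 E3 Mx My : Prop) : Prop :=
  match a, b with
  | none, _ => True
  | some _, none => False
  | some none, some none => E1
  | some none, some (some _) => My ∧ (E1 ∨ E3)
  | some (some _), some none => ¬ Mx ∧ (E1 ∨ E2)
  | some (some k), some (some k') => (E1 ∧ k = k') ∨ (¬ Mx ∧ My ∧ (E2 ∨ E3))

instance : LE (Pt D) := ⟨fun e e' => leS (kind e) (kind e') (pos e = pos e')
  (D.s (pos e) = pos e') (D.s (pos e') = pos e) (mark (pos e)) (mark (pos e'))⟩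

theorem le_def (e e' : Pt D) : e ≤ e' ↔ leS (kind e) (kind e') (pos e = pos e')
  (D.s (pos e) = pos e') (D.s (pos e') = pos e) (mark (pos e)) (mark (pos e')) := Iff.rfl

/-- The bottom element. -/
def bt : Pt D := none
/-- The element `b`. -/
def bb (x : D.X) : Pt D := some (x, none)
/-- The elements `p` and `q`. -/
def pq (x : D.X) (k : Bool) : Pt D := some (x, some k)

@[elab_as_elim]
theorem pt_cases {motive : Pt D → Prop} (e : Pt D) (h1 : motive bt) (h2 : ∀ x, motive (bb x))
    (h3 : ∀ x k, motive (pq x k)) : motive e := by
  rcases e with _ | ⟨x, _ | k⟩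
  · exact h1
  · exact h2 x
  · exact h3 x k

@[simp] theorem bt_le (e : Pt D) : bt ≤ e := trivial
@[simp] theorem bb_le_bt (x : D.X) : ¬ (bb x : Pt D) ≤ bt := fun h => h
@[simp] theorem pq_le_bt (x : D.X) (k : Bool) : ¬ (pq x k : Pt D) ≤ bt := fun h => h
@[simp] theorem bb_le_bb (x y : D.X) : (bb x : Pt D) ≤ bb y ↔ x = y := Iff.rfl
@[simp] theorem bb_le_pq (x y : D.X) (k : Bool) : (bb x : Pt D) ≤ pq y k ↔
    mark y ∧ (x = y ∨ D.s y = x) := Iff.rfl
@[simp] theorem pq_le_bb (x y : D.X) (k : Bool) : (pq x k : Pt D) ≤ bb y ↔
    ¬ mark x ∧ (x = y ∨ D.s x = y) := Iff.rfl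
@[simp] theorem pq_le_pq (x y : D.X) (k k' : Bool) : (pq x k : Pt D) ≤ pq y k' ↔
    (x = y ∧ k = k') ∨ (¬ mark x ∧ mark y ∧ (D.s x = y ∨ D.s y = x)) := Iff.rfl

theorem bb_inj {x y : D.X} : (bb x : Pt D) = bb y ↔ x = y := by
  constructor
  · intro h
    have : (some (x, (none : Option Bool)) : Option (D.X × Option Bool)) = some (y, none) := h
    simpa using this
  · rintro rfl
    rfl

theorem le_refl' (e : Pt D) : e ≤ e := by
  refine pt_cases e ?_ ?_ ?_
  · exact bt_le _
  · intro x; simp
  · intro x k; simp

theorem le_trans' (a b c : Pt D) (h1 : a ≤ b) (h2 : b ≤ c) : a ≤ c := by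
  revert h1 h2
  refine pt_cases a ?_ ?_ ?_
  · intro _ _; exact bt_le _
  · intro x
    refine pt_cases b ?_ ?_ ?_
    · intro h; exact absurd h (bb_le_bt x)
    · intro y h
      rw [bb_le_bb] at h
      rw [h]
      exact id
    · intro y k h
      refine pt_cases c ?_ ?_ ?_
      · intro h'; exact absurd h' (pq_le_bt y k)
      · intro z h'
        exact absurd h.1 h'.1
      · intro z k' h'
        rcases h' with ⟨rfl, rfl⟩ | h'
        · exact h
        · exact absurd h.1 h'.1
  · intro x k
    refine pt_cases b ?_ ?_ ?_
    · intro h; exact absurd h (pq_le_bt x k)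
    · intro y h
      refine pt_cases c ?_ ?_ ?_
      · intro h'; exact absurd h' (bb_le_bt y)
      · intro z h'
        rw [bb_le_bb] at h'
        rw [← h']
        exact h
      · intro z k' h'
        rw [pq_le_bb] at h
        rw [bb_le_pq] at h'
        rw [pq_le_pq]
        right
        refine ⟨h.1, h'.1, ?_⟩
        rcases h.2 with rfl | rfl
        · rcases h'.2 with rfl | h3
          · exact absurd h'.1 h.1
          · exact Or.inr h3
        · rcases h'.2 with h3 | h3
          · exact Or.inl h3
          · have := D.s.injective h3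
            rw [this] at h'
            exact absurd h'.1 h.1
    · intro y k' h
      refine pt_cases c ?_ ?_ ?_
      · intro h'; exact absurd h' (pq_le_bt y k')
      · intro z h'
        rw [pq_le_bb] at h'
        rcases h with ⟨rfl, rfl⟩ | h
        · exact h'
        · exact absurd h.2.1 h'.1
      · intro z k'' h'
        rcases h with ⟨rfl, rfl⟩ | h
        · exact h'
        · rcases h' with ⟨rfl, rfl⟩ | h'
          · exact Or.inr h
          · exact absurd h.2.1 h'.1

theorem le_antisymm' (a b : Pt D) (h1 : a ≤ b) (h2 : b ≤ a) : a = b := by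
  revert h1 h2
  refine pt_cases a ?_ ?_ ?_
  · refine pt_cases b ?_ ?_ ?_
    · intro _ _; rfl
    · intro y _ h; exact absurd h (bb_le_bt y)
    · intro y k _ h; exact absurd h (pq_le_bt y k)
  · intro x
    refine pt_cases b ?_ ?_ ?_
    · intro h; exact absurd h (bb_le_bt x)
    · intro y h _
      rw [bb_le_bb] at h
      rw [h]
    · intro y k h h'
      exact absurd h.1 h'.1
  · intro x k
    refine pt_cases b ?_ ?_ ?_
    · intro h; exact absurd h (pq_le_bt x k)
    · intro y h h'
      exact absurd h'.1 h.1
    · intro y k' h h'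
      rcases h with ⟨rfl, rfl⟩ | h
      · rfl
      · rcases h' with ⟨rfl, rfl⟩ | h'
        · rfl
        · exact absurd h'.2.1 h.1

instance : PartialOrder (Pt D) where
  le_refl := le_refl'
  le_trans := le_trans'
  le_antisymm := le_antisymm'

instance [Finite D.X] : Finite (Pt D) := inferInstanceAs (Finite (Option (D.X × Option Bool)))

/-! ## A criterion for down-posets -/

/-- The retraction to one half. -/
noncomputable def half (H : D.X → Bool) (h : Bool) (e : Pt D) : Pt D := by
  classical
  exact match e with
  | none => bt
  | some (x, none) => if H x = h then bb x else bt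
  | some (x, some k) => if mark x then (if H x = h then bb x else bb (D.s x)) else
      (if H x = h then pq x k else bt)

theorem half_bt (H : D.X → Bool) (h : Bool) : half H h bt = bt := rfl
theorem half_bb (H : D.X → Bool) (h : Bool) (x : D.X) :
    half H h (bb x) = if H x = h then bb x else bt := by
  simp [half, bb]
theorem half_pq_mark (H : D.X → Bool) (h : Bool) (x : D.X) (k : Bool) (hx : mark x) :
    half H h (pq x k) = if H x = h then bb x else bb (D.s x) := by
  simp [half, pq, hx]
theorem half_pq (H : D.X → Bool) (h : Bool) (x : D.X) (k : Bool) (hx : ¬ mark x) :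
    half H h (pq x k) = if H x = h then pq x k else bt := by
  simp [half, pq, hx]

theorem half_down (H : D.X → Bool) (h1 : ∀ x, mark x → H (D.s x) = !(H x))
    (h2 : ∀ x, ¬ mark x → H (D.s x) = H x) (h : Bool) : IsDownFun (half H h) where
  le e := by
    refine pt_cases e ?_ ?_ ?_
    · exact bt_le _
    · intro x
      rw [half_bb]
      split_ifs
      · exact le_rfl
      · exact bt_le _
    · intro x k
      by_cases hx : mark x
      · rw [half_pq_mark _ _ _ _ hx]
        split_ifs
        · rw [bb_le_pq]
          exact ⟨hx, Or.inl rfl⟩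
        · rw [bb_le_pq]
          exact ⟨hx, Or.inr rfl⟩
      · rw [half_pq _ _ _ _ hx]
        split_ifs
        · exact le_rfl
        · exact bt_le _
  mono e e' := by
    refine pt_cases e ?_ ?_ ?_
    · intro _
      exact bt_le _
    · intro x
      refine pt_cases e' ?_ ?_ ?_
      · intro h; exact absurd h (bb_le_bt x)
      · intro y hxy
        rw [bb_le_bb] at hxy
        rw [hxy]
      · intro y k hxy
        rw [bb_le_pq] at hxy
        rw [half_bb, half_pq_mark _ _ _ _ hxy.1]
        rcases hxy.2 with rfl | rfl
        · split_ifs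
          · exact le_rfl
          · exact bt_le _
        · rw [h1 y hxy.1]
          by_cases hy : H y = h
          · have : ¬ (!(H y)) = h := by
              rw [hy]
              simp
            rw [if_neg this]
            exact bt_le _
          · rw [if_neg hy]
            split_ifs
            · exact le_rfl
            · exact bt_le _
    · intro x k
      refine pt_cases e' ?_ ?_ ?_
      · intro h; exact absurd h (pq_le_bt x k)
      · intro y hxy
        rw [pq_le_bb] at hxy
        rw [half_bb, half_pq _ _ _ _ hxy.1]
        rcases hxy.2 with rfl | rfl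
        · split_ifs
          · rw [pq_le_bb]
            exact hxy
          · exact bt_le _
        · rw [h2 x hxy.1]
          split_ifs
          · rw [pq_le_bb]
            exact hxy
          · exact bt_le _
      · intro y k' hxy
        rw [pq_le_pq] at hxy
        rcases hxy with ⟨rfl, rfl⟩ | ⟨hx, hy, hs⟩
        · exact le_rfl
        · rw [half_pq _ _ _ _ hx, half_pq_mark _ _ _ _ hy]
          by_cases hxh : H x = h
          · rw [if_pos hxh]
            rcases hs with rfl | rfl
            · rw [h2 x hx, if_pos hxh, pq_le_bb]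
              exact ⟨hx, Or.inr rfl⟩
            · rw [h1 y hy] at hxh
              have : ¬ H y = h := by
                rw [← hxh]
                simp
              rw [if_neg this, pq_le_bb]
              exact ⟨hx, Or.inl rfl⟩
          · rw [if_neg hxh]
            exact bt_le _
  fix e e' := by
    have key : ∀ d : Pt D, (d = bt ∨ (∃ x, H x = h ∧ d = bb x) ∨
        (∃ x k, ¬ mark x ∧ H x = h ∧ d = pq x k)) → e ≤ d → half H h e = e := by
      intro d hd
      refine pt_cases e ?_ ?_ ?_
      · intro _; rfl
      · intro y hy
        rcases hd with rfl | ⟨x, hx, rfl⟩ | ⟨x, k, hx, hx', rfl⟩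
        · exact absurd hy (bb_le_bt y)
        · rw [bb_le_bb] at hy
          rw [hy, half_bb, if_pos hx]
        · exact absurd hy.1 hx
      · intro y k' hy
        rcases hd with rfl | ⟨x, hx, rfl⟩ | ⟨x, k, hx, hx', rfl⟩
        · exact absurd hy (pq_le_bt y k')
        · rw [pq_le_bb] at hy
          rw [half_pq _ _ _ _ hy.1]
          have : H y = h := by
            rcases hy.2 with rfl | rfl
            · exact hx
            · rw [← h2 y hy.1]
              exact hx
          rw [if_pos this]
        · rw [pq_le_pq] at hy
          rcases hy with ⟨rfl, rfl⟩ | hy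
          · rw [half_pq _ _ _ _ hx, if_pos hx']
          · exact absurd hy.2.1 hx
    intro hle
    refine key _ ?_ hle
    refine pt_cases e' ?_ ?_ ?_
    · exact Or.inl rfl
    · intro x
      rw [half_bb]
      split_ifs with hx
      · exact Or.inr (Or.inl ⟨x, hx, rfl⟩)
      · exact Or.inl rfl
    · intro x k
      by_cases hx : mark x
      · rw [half_pq_mark _ _ _ _ hx]
        split_ifs with hxh
        · exact Or.inr (Or.inl ⟨x, hxh, rfl⟩)
        · refine Or.inr (Or.inl ⟨D.s x, ?_, rfl⟩)
          rw [h1 x hx]
          revert hxh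
          cases H x <;> cases h <;> simp
      · rw [half_pq _ _ _ _ hx]
        split_ifs with hxh
        · exact Or.inr (Or.inr ⟨x, k, hx, hxh, rfl⟩)
        · exact Or.inl rfl

/-- The retraction to an atom. -/
noncomputable def toAtom {P : Type} [PartialOrder P] (b a e : P) : P := by
  classical
  exact if a ≤ e then a else b

theorem toAtom_down {P : Type} [PartialOrder P] (b a : P) (hb : ∀ x, b ≤ x)
    (ha : ∀ x, x ≤ a → x = b ∨ x = a) : IsDownFun (toAtom b a) where
  le e := by
    unfold toAtom
    split_ifs with h
    · exact h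
    · exact hb _
  mono e e' h := by
    unfold toAtom
    split_ifs with h1 h2 h2
    · exact le_rfl
    · exact absurd (h1.trans h) h2
    · exact hb _
    · exact le_rfl
  fix e e' := by
    unfold toAtom
    split_ifs with h1 h2 h2
    · intro h
      rcases ha e h with h3 | h3
      · have h4 : a = b := by
          rw [h3] at h2
          exact le_antisymm h2 (hb a)
        rw [h3, h4]
      · exact h3.symm
    · intro h
      rcases ha e h with h3 | h3
      · exact h3.symm
      · exact absurd h3.ge h2
    · intro h
      have h3 : e = b := le_antisymm h (hb e)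
      rw [h3] at h2 ⊢
      exact le_antisymm h2 (hb a)
    · intro h
      exact (le_antisymm h (hb e)).symm

theorem isDown_of_half (H : D.X → Bool) (h1 : ∀ x, mark x → H (D.s x) = !(H x))
    (h2 : ∀ x, ¬ mark x → H (D.s x) = H x) : IsDownPoset (Pt D) := by
  apply isDownPoset_of
  intro c d
  refine pt_cases c ?_ ?_ ?_
  · intro _
    refine ⟨fun _ => bt, ⟨fun _ => bt_le _, fun _ _ _ => le_rfl, fun x _ h => ?_⟩, rfl⟩
    exact (le_antisymm h (bt_le x)).symm
  · intro x
    refine pt_cases d ?_ ?_ ?_
    · intro h; exact absurd h (bb_le_bt x)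
    · intro y h
      rw [bb_le_bb] at h
      rw [h]
      exact ⟨id, ⟨fun _ => le_rfl, fun _ _ h => h, fun _ _ _ => rfl⟩, rfl⟩
    · intro y k h
      rw [bb_le_pq] at h
      refine ⟨half H (H x), half_down H h1 h2 _, ?_⟩
      rw [half_pq_mark _ _ _ _ h.1]
      rcases h.2 with rfl | rfl
      · rw [if_pos rfl]
      · rw [if_neg]
        rw [h1 y h.1]
        simp
  · intro x k h
    by_cases hx : mark x
    · -- a maximal element
      have h3 : d = pq x k := by
        revert h
        refine pt_cases d ?_ ?_ ?_
        · intro h; exact absurd h (pq_le_bt x k)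
        · intro y h; exact absurd hx h.1
        · intro y k' h
          rcases h with ⟨rfl, rfl⟩ | h
          · rfl
          · exact absurd hx h.1
      rw [h3]
      exact ⟨id, ⟨fun _ => le_rfl, fun _ _ h => h, fun _ _ _ => rfl⟩, rfl⟩
    · refine ⟨toAtom bt (pq x k), toAtom_down _ _ bt_le ?_, ?_⟩
      · intro e
        refine pt_cases e ?_ ?_ ?_
        · intro _; exact Or.inl rfl
        · intro y h; exact absurd h.1 hx
        · intro y k' h
          rcases h with ⟨rfl, rfl⟩ | h
          · exact Or.inr rfl
          · exact absurd h.2.1 hx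
      · unfold toAtom
        rw [if_pos h]

/-! ## A criterion for not being a down-poset -/

theorem not_isDown (y : D.X) (hy : mark y) (n : ℕ) (hn : 0 < n) (hcyc : (D.s ^ n) y = y)
    (hne : D.s y ≠ y) (hun : ∀ j, 0 < j → j < n → ¬ mark ((D.s ^ j) y)) :
    ¬ IsDownPoset (Pt D) := by
  intro hdown
  obtain ⟨f, hf, hfd⟩ := exists_of_isDownPoset hdown (bb y) (pq y true)
    (by rw [bb_le_pq]; exact ⟨hy, Or.inl rfl⟩)
  have key : ∀ j, 0 < j → j ≤ n → f (bb ((D.s ^ j) y)) ≠ bb ((D.s ^ j) y) := by
    intro j
    induction j with
    | zero => intro h; exact absurd h (lt_irrefl _)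
    | succ j ih =>
      intro _ hj
      rcases Nat.eq_zero_or_pos j with rfl | hj0
      · intro hfix
        have h1 : (bb ((D.s ^ (0 + 1)) y) : Pt D) ≤ pq y true := by
          rw [bb_le_pq]
          exact ⟨hy, Or.inr (by simp)⟩
        have h2 := hf.mono _ _ h1
        rw [hfd, hfix, bb_le_bb] at h2
        exact hne (by simpa using h2)
      · set z := (D.s ^ j) y with hz
        have hzs : (D.s ^ (j + 1)) y = D.s z := by
          rw [pow_succ', hz]
          rfl
        rw [hzs]
        intro hfix
        have hzm : ¬ mark z := hun j hj0 (by omega)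
        have h1 : ∀ k, f (pq z k) = pq z k := by
          intro k
          apply hf.fix _ (bb (D.s z))
          rw [hfix, pq_le_bb]
          exact ⟨hzm, Or.inr rfl⟩
        have h2 : ∀ k, (pq z k : Pt D) ≤ f (bb z) := by
          intro k
          rw [← h1 k]
          apply hf.mono
          rw [pq_le_bb]
          exact ⟨hzm, Or.inl rfl⟩
        have h3 := hf.le (bb z)
        have h4 := ih hj0 (by omega)
        generalize hg : f (bb z) = g at h2 h3 h4
        revert h2 h3 h4
        refine pt_cases g ?_ ?_ ?_
        · intro h2 _ _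
          exact absurd (h2 true) (pq_le_bt _ _)
        · intro w _ h3 h4
          rw [bb_le_bb] at h3
          exact h4 (by rw [h3])
        · intro w k h2 h3 _
          rw [pq_le_bb] at h3
          have a1 := h2 true
          have a2 := h2 false
          rw [pq_le_pq] at a1 a2
          rcases a1 with ⟨-, a1⟩ | a1
          · rcases a2 with ⟨-, a2⟩ | a2
            · rw [← a1] at a2
              exact absurd a2 (by decide)
            · exact h3.1 a2.2.1
          · exact h3.1 a1.2.1
  apply key n hn le_rfl
  rw [hcyc]
  apply hf.fix _ (pq y true)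
  rw [hfd]

end Pool.Agent.V11250.DownPoset
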