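import Pool.Agent.V11250.TypesOver

/-!
# The externally definable Ramsey property implies FPT, without any assumption on the age
-/

set_option autoImplicit false

namespace Pool.Agent.V11250.TypesOver

open FirstOrder FirstOrder.Language

universe u

variable {L : FirstOrder.Language.{0, 0}} {M : Type u} [L.Structure M] {n : ℕ}

/-- Every complete type over `M` is realized in an elementary extension of `M`. -/
theorem exists_realization [Nonempty M] (p : TypeOver L M n) :
    ∃ (N : Type u) (_ : L.Structure N) (j : M ↪ₑ[L] N) (e : Fin n → N),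
      ∀ c : PFormula L M n,
        c ∈ p.formulas ↔ c.2.1.Realize (Sum.elim e fun i => j (c.2.2 i)) := by
  classical
  have hex : ∀ F : Finset (PFormula L M n), ∃ a : Fin n → M, ∀ c ∈ F, c ∈ p.formulas →
      c.Holds a := by
    intro F
    obtain ⟨a, ha⟩ := p.finSat (F.filter (· ∈ p.formulas)) (by
      intro c hc
      exact (Finset.mem_filter.1 hc).2)
    exact ⟨a, fun c hc hp => ha c (Finset.mem_filter.2 ⟨hc, hp⟩)⟩
  choose a ha using hex
  let U : Ultrafilter (Finset (PFormula L M n)) := Ultrafilter.of Filter.atTop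
  have hU : ∀ c : PFormula L M n, ∀ᶠ F in (U : Filter (Finset (PFormula L M n))), c ∈ F := by
    intro c
    have h1 : ∀ᶠ F in (Filter.atTop : Filter (Finset (PFormula L M n))), c ∈ F := by
      filter_upwards [Filter.eventually_ge_atTop {c}] with F hF
      exact hF (Finset.mem_singleton_self c)
    exact (Ultrafilter.of_le _) h1
  let N : Type u := (U : Filter (Finset (PFormula L M n))).Product fun _ => M
  let d : M → N := fun x => ((fun _ => x : (F : Finset (PFormula L M n)) → M) : N)
  have hd : ∀ (β : Type) (φ : L.Formula β) (v : β → M),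
      φ.Realize (fun i => d (v i)) ↔ φ.Realize v := by
    intro β φ v
    have h := Ultraproduct.realize_formula_cast (u := U) (M := fun _ => M) φ
      (fun i => fun _ => v i)
    refine Iff.trans h ?_
    simp
  let j : M ↪ₑ[L] N :=
    { toFun := d
      map_formula' := by
        intro n φ x
        exact hd _ φ x }
  refine ⟨N, inferInstance, j,
    fun i => ((fun F => a F i : (F : Finset (PFormula L M n)) → M) : N), ?_⟩
  have key : ∀ c : PFormula L M n, c ∈ p.formulas → c.2.1.Realize
      (Sum.elim (fun i => ((fun F => a F i : (F : Finset (PFormula L M n)) → M) : N))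
        fun i => j (c.2.2 i)) := by
    intro c hc
    have e1 : (Sum.elim (fun i => ((fun F => a F i : (F : Finset (PFormula L M n)) → M) : N))
        fun i => j (c.2.2 i)) = fun x : Fin n ⊕ Fin c.1 =>
          (((Sum.elim (fun i => fun F => a F i) (fun i => fun _ => c.2.2 i) :
            Fin n ⊕ Fin c.1 → Finset (PFormula L M n) → M) x :
              (F : Finset (PFormula L M n)) → M) : N) := by
      funext x
      cases x <;> rfl
    rw [e1]
    refine (Ultraproduct.realize_formula_cast (u := U) (M := fun _ => M) c.2.1 _).2 ?_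
    filter_upwards [hU c] with F hF
    have h2 := ha F c hF hc
    unfold PFormula.Holds at h2
    convert h2 using 1
    funext x
    cases x <;> rfl
  intro c
  refine ⟨key c, fun h => ?_⟩
  by_contra hc
  have h3 := key c.neg ((p.neg_mem_iff c).2 hc)
  exact h3 h

/-- The main step: in every subflow and for each formula with parameters and finite set of
automorphisms there is a type which does not separate the translates of the formula. -/
theorem exists_constant [L.IsRelational] (hM : L.IsUltrahomogeneous M) (hE : EDRP L M)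
    (Y : Set (TypeOver L M n)) (hY : Y.Nonempty)
    (hinv : ∀ (g : M ≃[L] M), ∀ p ∈ Y, p.act g ∈ Y)
    (c : PFormula L M n) (G : Finset (M ≃[L] M)) :
    ∃ q ∈ Y, ∀ g ∈ G, ∀ g' ∈ G, (c.move g ∈ q.formulas ↔ c.move g' ∈ q.formulas) := by
  classical
  obtain ⟨q0, hq0⟩ := hY
  obtain ⟨m, φ, b⟩ := c
  rcases isEmpty_or_nonempty M with hempty | hne
  · refine ⟨q0, hq0, fun g _ g' _ => ?_⟩
    have : g = g' := by
      ext x
      exact (IsEmpty.false x).elim
    rw [this]
  obtain ⟨N, _, j, e, he⟩ := exists_realization q0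
  let A : L.Substructure M := Substructure.closure L (Set.range b)
  let Bs : Set M := ⋃ g ∈ G, (g : M → M) '' Set.range b
  let B : L.Substructure M := Substructure.closure L Bs
  have hBsfin : Bs.Finite := by
    apply Set.Finite.biUnion (Finset.finite_toSet G)
    intro g _
    exact (Set.finite_range b).image _
  have hAset : (A : Set M) = Set.range b := Substructure.closure_eq_of_isRelational L _
  have hBset : (B : Set M) = Bs := Substructure.closure_eq_of_isRelational L _
  have hAf : Finite A := by
    have : Finite (A : Set M) := by rw [hAset]; exact (Set.finite_range b)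
    exact this
  have hBf : Finite B := by
    have : Finite (B : Set M) := by rw [hBset]; exact hBsfin
    exact this
  have hbA : ∀ i, b i ∈ A := fun i => by
    have : b i ∈ (A : Set M) := by rw [hAset]; exact ⟨i, rfl⟩
    exact this
  let b' : Fin m → A := fun i => ⟨b i, hbA i⟩
  -- the restriction of `g` to `A`
  have hgB : ∀ g ∈ G, ∀ x : A, g x ∈ B := by
    intro g hg x
    have hx : (x : M) ∈ (A : Set M) := x.2
    rw [hAset] at hx
    obtain ⟨i, hi⟩ := hx
    have : g (x : M) ∈ (B : Set M) := by
      rw [hBset]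
      refine Set.mem_iUnion₂.2 ⟨g, hg, x, ?_, rfl⟩
      exact ⟨i, hi⟩
    exact this
  let F : (g : M ≃[L] M) → g ∈ G → (A ↪[L] B) := fun g hg =>
    Embedding.codRestrict B (g.toEmbedding.comp A.subtype) (hgB g hg)
  -- the colouring
  let χ : (A ↪[L] M) → Fin 2 := fun f =>
    if φ.Realize (Sum.elim e fun i => j (f (b' i))) then 1 else 0
  let ψ : L.Formula (Fin n ⊕ A) := φ.relabel (Sum.map id b')
  have hψ : ∀ f : A ↪[L] M, ψ.Realize (Sum.elim e fun a => j (f a)) ↔
      φ.Realize (Sum.elim e fun i => j (f (b' i))) := by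
    intro f
    rw [Formula.realize_relabel]
    have : (Sum.elim e fun a => j (f a)) ∘ Sum.map id b' =
        Sum.elim e fun i => j (f (b' i)) := by
      funext x
      cases x <;> rfl
    rw [this]
  obtain ⟨h, hh⟩ := hE A B ⟨A.subtype⟩ ⟨B.subtype⟩ 2 (by norm_num) χ
    ⟨N, inferInstance, j, n, e, ![ψ.not, ψ], by
      intro f i
      fin_cases i
      · simp only [χ]
        rw [show (![ψ.not, ψ] : Fin 2 → _) ⟨0, by norm_num⟩ = ψ.not from rfl,
          Formula.realize_not, hψ]
        by_cases hc : φ.Realize (Sum.elim e fun i => j (f (b' i)))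
        · simp [hc]
        · simp [hc]
      · simp only [χ]
        rw [show (![ψ.not, ψ] : Fin 2 → _) ⟨1, by norm_num⟩ = ψ from rfl, hψ]
        by_cases hc : φ.Realize (Sum.elim e fun i => j (f (b' i)))
        · simp [hc]
        · simp [hc]⟩
  obtain ⟨H, hH⟩ := hM B (Substructure.fg_closure hBsfin) h
  refine ⟨q0.act H.symm, hinv _ _ hq0, ?_⟩
  have hkey : ∀ g (hg : g ∈ G),
      (PFormula.move g (⟨m, φ, b⟩ : PFormula L M n) ∈ (q0.act H.symm).formulas ↔
        χ (h.comp (F g hg)) = 1) := by
    intro g hg
    rw [TypeOver.mem_act, he]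
    have e1 : (Sum.elim e fun i => j
        ((PFormula.move H.symm.symm (PFormula.move g (⟨m, φ, b⟩ : PFormula L M n))).2.2 i)) =
        Sum.elim e fun i => j ((h.comp (F g hg)) (b' i)) := by
      congr 1
      funext i
      rw [hH]
      rfl
    rw [e1]
    simp only [χ]
    by_cases hc : φ.Realize (Sum.elim e fun i => j ((h.comp (F g hg)) (b' i)))
    · simp only [hc, if_true, iff_true]
      exact hc
    · simp only [hc, if_false, Fin.zero_eq_one_iff]
      constructor
      · intro h'
        exact absurd h' hc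
      · intro h'
        exact absurd h' (by norm_num)
  intro g hg g' hg'
  rw [hkey g hg, hkey g' hg', hh (F g hg) (F g' hg')]

/-- The set of types of `Y` which do not separate the translates of `c`. -/
def constPart (Y : Set (TypeOver L M n)) (c : PFormula L M n) : Set (TypeOver L M n) :=
  {q | q ∈ Y ∧ ∀ g : M ≃[L] M, (c.move g ∈ q.formulas ↔ c ∈ q.formulas)}

theorem isClosed_iff_mem (c d : PFormula L M n) :
    IsClosed {q : TypeOver L M n | c ∈ q.formulas ↔ d ∈ q.formulas} := by
  have : {q : TypeOver L M n | c ∈ q.formulas ↔ d ∈ q.formulas} =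
      ({q : TypeOver L M n | c ∈ q.formulas} ∩ {q : TypeOver L M n | d ∈ q.formulas}) ∪
      ({q : TypeOver L M n | c.neg ∈ q.formulas} ∩ {q : TypeOver L M n | d.neg ∈ q.formulas}) := by
    ext q
    simp only [Set.mem_union, Set.mem_inter_iff, Set.mem_ofPred_eq, TypeOver.neg_mem_iff]
    tauto
  rw [this]
  exact ((isClosed_mem c).inter (isClosed_mem d)).union
    ((isClosed_mem _).inter (isClosed_mem _))

theorem constPart_closed (Y : Set (TypeOver L M n)) (hY : IsClosed Y) (c : PFormula L M n) :
    IsClosed (constPart Y c) := by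
  have : constPart Y c = Y ∩ ⋂ g : M ≃[L] M,
      {q : TypeOver L M n | c.move g ∈ q.formulas ↔ c ∈ q.formulas} := by
    ext q
    simp [constPart]
  rw [this]
  exact hY.inter (isClosed_iInter fun g => isClosed_iff_mem _ _)

theorem constPart_inv (Y : Set (TypeOver L M n))
    (hinv : ∀ (g : M ≃[L] M), ∀ p ∈ Y, p.act g ∈ Y) (c : PFormula L M n) :
    ∀ (g : M ≃[L] M), ∀ p ∈ constPart Y c, p.act g ∈ constPart Y c := by
  intro g p hp
  refine ⟨hinv g p hp.1, fun h => ?_⟩
  rw [TypeOver.mem_act, TypeOver.mem_act, PFormula.move_move, hp.2, hp.2]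

theorem constPart_nonempty [L.IsRelational] (hM : L.IsUltrahomogeneous M) (hE : EDRP L M)
    (Y : Set (TypeOver L M n)) (hY : Y.Nonempty) (hcl : IsClosed Y)
    (hinv : ∀ (g : M ≃[L] M), ∀ p ∈ Y, p.act g ∈ Y)
    (c : PFormula L M n) : (constPart Y c).Nonempty := by
  classical
  have h1 : (Y ∩ ⋂ g : M ≃[L] M,
      {q : TypeOver L M n | c.move g ∈ q.formulas ↔ c ∈ q.formulas}).Nonempty := by
    refine hcl.isCompact.inter_iInter_nonempty _ (fun g => isClosed_iff_mem _ _) ?_
    intro G
    obtain ⟨q, hq, hqG⟩ := exists_constant hM hE Y hY hinv c (insert (FirstOrder.Language.Equiv.refl L M) G)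
    refine ⟨q, hq, ?_⟩
    refine Set.mem_iInter₂.2 fun g hg => ?_
    have := hqG g (Finset.mem_insert_of_mem hg) (FirstOrder.Language.Equiv.refl L M) (Finset.mem_insert_self _ _)
    exact this
  obtain ⟨q, hq, hq'⟩ := h1
  exact ⟨q, hq, fun g => (Set.mem_iInter.1 hq' g)⟩

theorem finset_constPart [L.IsRelational] (hM : L.IsUltrahomogeneous M) (hE : EDRP L M)
    (Y : Set (TypeOver L M n)) (hY : Y.Nonempty) (hcl : IsClosed Y)
    (hinv : ∀ (g : M ≃[L] M), ∀ p ∈ Y, p.act g ∈ Y)
    (F : Finset (PFormula L M n)) : (Y ∩ ⋂ c ∈ F, constPart Y c).Nonempty := by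
  classical
  -- prove more: the intersection contains a subflow
  have h : ∃ Z : Set (TypeOver L M n), Z ⊆ Y ∧ Z.Nonempty ∧ IsClosed Z ∧
      (∀ (g : M ≃[L] M), ∀ p ∈ Z, p.act g ∈ Z) ∧ ∀ c ∈ F, Z ⊆ constPart Y c := by
    induction F using Finset.induction_on with
    | empty => exact ⟨Y, subset_rfl, hY, hcl, hinv, by simp⟩
    | insert c F _ ih =>
      obtain ⟨Z, hZY, hZn, hZc, hZi, hZF⟩ := ih
      refine ⟨constPart Z c, fun q hq => hZY hq.1, constPart_nonempty hM hE Z hZn hZc hZi c,
        constPart_closed Z hZc c, constPart_inv Z hZi c, ?_⟩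
      intro d hd
      rcases Finset.mem_insert.1 hd with rfl | hd
      · intro q hq
        exact ⟨hZY hq.1, hq.2⟩
      · intro q hq
        exact hZF d hd hq.1
  obtain ⟨Z, hZY, ⟨q, hq⟩, -, -, hZF⟩ := h
  exact ⟨q, hZY hq, Set.mem_iInter₂.2 fun c hc => hZF c hc hq⟩

/-- For every ultrahomogeneous relational structure, whatever its age, the externally definable
Ramsey property implies the fixed points on type spaces property. -/
theorem fpt_of_edrp [L.IsRelational] (hM : L.IsUltrahomogeneous M) (hE : EDRP L M) :
    FPT L M := by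
  classical
  intro n _ Y hY hcl hinv
  have h1 : (Y ∩ ⋂ c : PFormula L M n, constPart Y c).Nonempty := by
    refine hcl.isCompact.inter_iInter_nonempty _ (fun c => constPart_closed Y hcl c) ?_
    intro F
    exact finset_constPart hM hE Y hY hcl hinv F
  obtain ⟨q, hq, hq'⟩ := h1
  refine ⟨q, hq, fun g => TypeOver.ext ?_⟩
  ext c
  have h2 := Set.mem_iInter.1 hq' c
  rw [TypeOver.mem_act]
  exact h2.2 g.symm

end Pool.Agent.V11250.TypesOver
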