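import Mathlib

/-!
# Free associative algebras: module bases, the degree map, rigid products
-/

set_option autoImplicit false

namespace Pool.Agent.V11250.FAlg

universe u

variable {K : Type u} [Field K] {r : ℕ}

/-- The free unital algebra. -/
abbrev FA (K : Type u) [Field K] (r : ℕ) : Type u := FreeAlgebra K (Fin r)

/-- The generators. -/
noncomputable def gx (i : Fin r) : FA K r := FreeAlgebra.ι K i

/-- The augmentation. -/
noncomputable def eps : FA K r →ₐ[K] K := FreeAlgebra.lift K (fun _ => 0)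

@[simp] theorem eps_gx (i : Fin r) : eps (gx i : FA K r) = 0 := by simp [eps, gx]
@[simp] theorem eps_algebraMap (c : K) : eps (algebraMap K (FA K r) c) = c := by simp [eps]

/-- induction -/
theorem fa_induction {P : FA K r → Prop} (h0 : ∀ c, P (algebraMap K _ c)) (h1 : ∀ i, P (gx i))
    (h2 : ∀ a b, P a → P b → P (a * b)) (h3 : ∀ a b, P a → P b → P (a + b)) (a : FA K r) : P a :=
  FreeAlgebra.induction K (Fin r) h0 h1 h2 h3 a

/-- The map `(c, p) ↦ c + ∑ xᵢ pᵢ`. -/
noncomputable def Sm : K × (Fin r → FA K r) →ₗ[K] FA K r where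
  toFun p := algebraMap K _ p.1 + ∑ i, gx i * p.2 i
  map_add' p q := by
    simp only [Prod.fst_add, Prod.snd_add, map_add, Pi.add_apply, mul_add, Finset.sum_add_distrib]
    abel
  map_smul' c p := by
    show algebraMap K _ (c * p.1) + ∑ i, gx i * (c • p.2 i) =
      c • (algebraMap K _ p.1 + ∑ i, gx i * p.2 i)
    rw [map_mul, smul_add, Finset.smul_sum, Algebra.smul_def c (algebraMap K _ p.1)]
    congr 1
    apply Finset.sum_congr rfl
    intro i _
    rw [mul_smul_comm]

theorem Sm_apply (p : K × (Fin r → FA K r)) : Sm p = algebraMap K _ p.1 + ∑ i, gx i * p.2 i := rfl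

theorem Sm_single (j : Fin r) (q : FA K r) : Sm (0, Pi.single j q) = gx j * q := by
  rw [Sm_apply]
  simp only [map_zero, zero_add]
  rw [Finset.sum_eq_single j]
  · simp
  · intro i _ hi
    simp [Pi.single_eq_of_ne hi]
  · simp

/-- The action of the free algebra. -/
noncomputable def rho : FA K r →ₐ[K] Module.End K (K × (Fin r → FA K r)) :=
  FreeAlgebra.lift K (fun i => (LinearMap.inr K K (Fin r → FA K r)) ∘ₗ
    (LinearMap.single K (fun _ => FA K r) i) ∘ₗ Sm)

theorem rho_gx (i : Fin r) (v : K × (Fin r → FA K r)) :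
    rho (gx i) v = (0, Pi.single i (Sm v)) := by
  unfold rho gx
  rw [FreeAlgebra.lift_ι_apply]
  rfl

theorem Sm_rho (a : FA K r) : ∀ v, Sm (rho a v) = a * Sm v := by
  induction a using fa_induction with
  | h0 c =>
    intro v
    rw [AlgHom.commutes, Module.algebraMap_end_apply, map_smul, Algebra.smul_def]
  | h1 i =>
    intro v
    rw [rho_gx, Sm_single]
  | h2 a b ha hb =>
    intro v
    rw [map_mul, Module.End.mul_apply, ha, hb, mul_assoc]
  | h3 a b ha hb =>
    intro v
    rw [map_add, LinearMap.add_apply, map_add, ha, hb, add_mul]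

/-- The decomposition of an element. -/
noncomputable def Tm (a : FA K r) : K × (Fin r → FA K r) := rho a (1, 0)

theorem Sm_Tm (a : FA K r) : Sm (Tm a) = a := by
  unfold Tm
  rw [Sm_rho, Sm_apply]
  simp

theorem Tm_gx_mul (j : Fin r) (q : FA K r) : Tm (gx j * q) = (0, Pi.single j q) := by
  unfold Tm
  rw [map_mul, Module.End.mul_apply, rho_gx]
  have := Sm_Tm q
  unfold Tm at this
  rw [this]

theorem Tm_add (a b : FA K r) : Tm (a + b) = Tm a + Tm b := by
  unfold Tm
  rw [map_add, LinearMap.add_apply]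

theorem Tm_algebraMap (c : K) : Tm (algebraMap K (FA K r) c) = (c, 0) := by
  unfold Tm
  rw [AlgHom.commutes, Module.algebraMap_end_apply]
  simp

theorem Tm_sum {ι : Type} (s : Finset ι) (f : ι → FA K r) : Tm (∑ i ∈ s, f i) = ∑ i ∈ s, Tm (f i) := by
  classical
  induction s using Finset.induction_on with
  | empty =>
    unfold Tm
    rw [Finset.sum_empty, Finset.sum_empty, map_zero]
    rfl
  | insert a s ha ih => rw [Finset.sum_insert ha, Finset.sum_insert ha, Tm_add, ih]

theorem Tm_Sm (p : K × (Fin r → FA K r)) : Tm (Sm p) = p := by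
  rw [Sm_apply, Tm_add, Tm_algebraMap, Tm_sum]
  simp only [Tm_gx_mul]
  rw [Prod.ext_iff]
  constructor
  · simp [Prod.fst_sum]
  · simp only [Prod.snd_add, Prod.snd_sum, zero_add]
    exact Finset.univ_sum_single p.2

theorem eps_Sm (p : K × (Fin r → FA K r)) : eps (Sm p) = p.1 := by
  rw [Sm_apply]
  simp

theorem exists_decomp (a : FA K r) (ha : eps a = 0) : ∃ p : Fin r → FA K r, a = ∑ i, gx i * p i := by
  refine ⟨(Tm a).2, ?_⟩
  have h := Sm_Tm a
  have h1 : (Tm a).1 = 0 := by
    rw [← eps_Sm, h, ha]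
  rw [Sm_apply, h1, map_zero, zero_add] at h
  exact h.symm

theorem sum_inj (p q : Fin r → FA K r) (h : ∑ i, gx i * p i = ∑ i, gx i * q i) : p = q := by
  have h1 : Sm ((0 : K), p) = Sm (0, q) := by
    rw [Sm_apply, Sm_apply, h]
  have h2 := congrArg Tm h1
  rw [Tm_Sm, Tm_Sm] at h2
  exact (Prod.ext_iff.1 h2).2

theorem sum_two (i₀ i₁ : Fin r) (a b : FA K r) :
    ∑ i, gx i * (Pi.single i₀ a + Pi.single i₁ b : Fin r → FA K r) i = gx i₀ * a + gx i₁ * b := by
  have h : ∀ (j : Fin r) (c : FA K r), ∑ i, gx i * (Pi.single j c : Fin r → FA K r) i =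
      gx j * c := by
    intro j c
    rw [Finset.sum_eq_single j]
    · rw [Pi.single_eq_same]
    · intro i _ hi
      rw [Pi.single_eq_of_ne hi, mul_zero]
    · simp
  rw [← h i₀ a, ← h i₁ b, ← Finset.sum_add_distrib]
  apply Finset.sum_congr rfl
  intro i _
  rw [Pi.add_apply, mul_add]

theorem star_gx (i : Fin r) : star (gx i : FA K r) = gx i := FreeAlgebra.star_ι i

theorem eps_star (a : FA K r) : eps (star a) = eps a := by
  induction a using fa_induction with
  | h0 c => rw [FreeAlgebra.star_algebraMap]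
  | h1 i => rw [star_gx]
  | h2 a b ha hb => rw [star_mul, map_mul, map_mul, ha, hb, mul_comm]
  | h3 a b ha hb => rw [star_add, map_add, map_add, ha, hb]

theorem exists_decompR (a : FA K r) (ha : eps a = 0) :
    ∃ p : Fin r → FA K r, a = ∑ i, p i * gx i := by
  obtain ⟨p, hp⟩ := exists_decomp (star a) (by rw [eps_star, ha])
  refine ⟨fun i => star (p i), ?_⟩
  have h1 := congrArg star hp
  rw [star_star, star_sum] at h1
  simpa only [star_mul, star_gx] using h1

theorem sum_injR (p q : Fin r → FA K r) (h : ∑ i, p i * gx i = ∑ i, q i * gx i) : p = q := by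
  have h1 := congrArg star h
  rw [star_sum, star_sum] at h1
  simp only [star_mul, star_gx] at h1
  have h2 := sum_inj _ _ h1
  funext i
  exact star_injective (congrFun h2 i)

/-! ## The degree map -/

open Polynomial in
/-- The homomorphism `xᵢ ↦ xᵢ t`. -/
noncomputable def phi : FA K r →ₐ[K] Polynomial (FA K r) :=
  FreeAlgebra.lift K (fun i => C (gx i) * X)

theorem phi_gx (i : Fin r) : phi (gx i : FA K r) = Polynomial.C (gx i) * Polynomial.X := by
  exact FreeAlgebra.lift_ι_apply _ _

theorem phi_algebraMap (c : K) :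
    phi (algebraMap K (FA K r) c) = Polynomial.C (algebraMap K (FA K r) c) := by
  rw [AlgHom.commutes]
  rfl

/-- Evaluation at `1`. -/
noncomputable def ev1 : Polynomial (FA K r) →+* FA K r :=
  Polynomial.eval₂RingHom' (RingHom.id _) 1 (fun a => Commute.one_right _)

theorem ev1_phi (a : FA K r) : ev1 (phi a) = a := by
  induction a using fa_induction with
  | h0 c =>
    rw [phi_algebraMap]
    show Polynomial.eval₂ _ _ _ = _
    rw [Polynomial.eval₂_C]
    rfl
  | h1 i =>
    rw [phi_gx, map_mul]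
    show Polynomial.eval₂ _ _ _ * Polynomial.eval₂ _ _ _ = _
    rw [Polynomial.eval₂_C, Polynomial.eval₂_X, mul_one]
    rfl
  | h2 a b ha hb => rw [map_mul, map_mul, ha, hb]
  | h3 a b ha hb => rw [map_add, map_add, ha, hb]

theorem phi_injective : Function.Injective (phi : FA K r → Polynomial (FA K r)) :=
  Function.LeftInverse.injective ev1_phi

theorem const_phi (a : FA K r) :
    Polynomial.constantCoeff (phi a) = algebraMap K (FA K r) (eps a) := by
  induction a using fa_induction with
  | h0 c =>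
    rw [phi_algebraMap, eps_algebraMap]
    exact Polynomial.coeff_C_zero
  | h1 i => rw [phi_gx, eps_gx, map_mul]; simp
  | h2 a b ha hb => rw [map_mul, map_mul, map_mul, ha, hb, map_mul]
  | h3 a b ha hb => rw [map_add, map_add, map_add, ha, hb, map_add]

theorem const_of_unit {s w : FA K r} (h : s * w = 1) : s = algebraMap K _ (eps s) := by
  have h1 : phi s * phi w = 1 := by rw [← map_mul, h, map_one]
  have hs : phi s ≠ 0 := by
    intro h2
    rw [h2, zero_mul] at h1
    exact zero_ne_one h1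
  have hw : phi w ≠ 0 := by
    intro h2
    rw [h2, mul_zero] at h1
    exact zero_ne_one h1
  have h2 := Polynomial.natDegree_mul hs hw
  rw [h1, Polynomial.natDegree_one] at h2
  have h3 : (phi s).natDegree = 0 := by omega
  apply phi_injective
  rw [Polynomial.eq_C_of_natDegree_eq_zero h3, phi_algebraMap]
  congr 1
  exact const_phi s

/-! ## Products of the elements `x₀ u x₀ + x₁` -/

section Rigid

variable (i₀ i₁ : Fin r) (h01 : i₀ ≠ i₁)

/-- The element `x₀ u x₀ + x₁`. -/
noncomputable def au (u : FA K r) : FA K r := gx i₀ * u * gx i₀ + gx i₁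

theorem eps_au (u : FA K r) : eps (au i₀ i₁ u) = 0 := by
  simp [au]

theorem au_ne_zero (u : FA K r) (h01 : i₀ ≠ i₁) : au i₀ i₁ u ≠ 0 := by
  intro h
  unfold au at h
  have h1 : ∑ i, gx i * (Pi.single i₀ (u * gx i₀) + Pi.single i₁ 1 : Fin r → FA K r) i =
      ∑ i, gx i * (0 : Fin r → FA K r) i := by
    rw [sum_two, mul_one, ← mul_assoc, h]
    simp
  have h2 := congrFun (sum_inj _ _ h1) i₁
  rw [Pi.add_apply, Pi.single_eq_same, Pi.single_eq_of_ne h01.symm, zero_add] at h2
  exact one_ne_zero h2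

include h01 in
/-- Left division. -/
theorem left_div {s w u B : FA K r} (hs : eps s = 0) (hw : w ≠ 0)
    (h : s * w = au i₀ i₁ u * B) : ∃ s₂, s = au i₀ i₁ u * s₂ ∧ s₂ * w = B := by
  obtain ⟨p, hp⟩ := exists_decomp s hs
  obtain ⟨A, hA⟩ : ∃ A : FA K r, A = u * gx i₀ * B := ⟨_, rfl⟩
  have h1 : ∑ i, gx i * (fun i => p i * w) i = ∑ i, gx i *
      (Pi.single i₀ A + Pi.single i₁ B : Fin r → FA K r) i := by
    rw [sum_two, hA]
    simp only [← mul_assoc]
    rw [← Finset.sum_mul, ← hp, h]
    unfold au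
    rw [add_mul]
  have h2 := sum_inj _ _ h1
  have e1 : p i₁ * w = B := by
    have := congrFun h2 i₁
    simpa [Pi.single_eq_of_ne h01.symm] using this
  have e0 : p i₀ * w = u * gx i₀ * B := by
    rw [← hA]
    have := congrFun h2 i₀
    simpa [Pi.single_eq_of_ne h01] using this
  have e0' : p i₀ = u * gx i₀ * p i₁ := by
    rw [← e1, ← mul_assoc] at e0
    exact mul_right_cancel₀ hw e0
  have e2 : ∀ i, i ≠ i₀ → i ≠ i₁ → p i = 0 := by
    intro i h0 h1
    have := congrFun h2 i
    simp only [Pi.add_apply, Pi.single_eq_of_ne h0, Pi.single_eq_of_ne h1, add_zero] at this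
    rcases mul_eq_zero.1 this with h3 | h3
    · exact h3
    · exact absurd h3 hw
  refine ⟨p i₁, ?_, e1⟩
  rw [hp]
  have h3 : ∀ i ∈ (Finset.univ : Finset (Fin r)), i ∉ ({i₀, i₁} : Finset (Fin r)) →
      gx i * p i = 0 := by
    intro i _ hi
    simp only [Finset.mem_insert, Finset.mem_singleton, not_or] at hi
    rw [e2 i hi.1 hi.2, mul_zero]
  rw [← Finset.sum_subset (Finset.subset_univ {i₀, i₁}) h3, Finset.sum_pair h01, e0']
  unfold au
  rw [add_mul]
  simp only [mul_assoc]

include h01 in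
/-- Right division. -/
theorem right_div {s w u B : FA K r} (hw : eps w = 0) (hs : s ≠ 0)
    (h : s * w = B * au i₀ i₁ u) : ∃ w₂, w = w₂ * au i₀ i₁ u ∧ s * w₂ = B := by
  have h1 := congrArg star h
  have hau : star (au i₀ i₁ u) = au i₀ i₁ (star u) := by
    unfold au
    rw [star_add, star_mul, star_mul, star_gx, star_gx, mul_assoc]
  rw [star_mul, star_mul, hau] at h1
  obtain ⟨v, hv1, hv2⟩ := left_div i₀ i₁ h01 (by rw [eps_star, hw]) (star_ne_zero.2 hs) h1
  refine ⟨star v, ?_, ?_⟩
  · have := congrArg star hv1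
    rw [star_star, star_mul] at this
    rw [this, ← hau, star_star]
  · have := congrArg star hv2
    rw [star_mul, star_star, star_star] at this
    exact this

/-- The product of the elements of a list. -/
noncomputable def pl (l : List (FA K r)) : FA K r := (l.map (au i₀ i₁)).prod

theorem pl_cons (u : FA K r) (l : List (FA K r)) : pl i₀ i₁ (u :: l) = au i₀ i₁ u * pl i₀ i₁ l := by
  simp [pl]

theorem pl_nil : pl i₀ i₁ ([] : List (FA K r)) = 1 := by simp [pl]

theorem pl_append (l l' : List (FA K r)) : pl i₀ i₁ (l ++ l') = pl i₀ i₁ l * pl i₀ i₁ l' := by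
  simp [pl]

include h01 in
theorem pl_ne_zero (l : List (FA K r)) : pl i₀ i₁ l ≠ 0 := by
  induction l with
  | nil => rw [pl_nil]; exact one_ne_zero
  | cons u l ih => rw [pl_cons]; exact mul_ne_zero (au_ne_zero i₀ i₁ u h01) ih

theorem eps_pl (l : List (FA K r)) (hl : l ≠ []) : eps (pl i₀ i₁ l) = 0 := by
  cases l with
  | nil => exact absurd rfl hl
  | cons u l => rw [pl_cons, map_mul, eps_au, zero_mul]

include h01 in
/-- A left factor of a product with nonzero constant term is constant. -/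
theorem const_factor (l : List (FA K r)) : ∀ s w : FA K r, s * w = pl i₀ i₁ l → eps s ≠ 0 →
    s = algebraMap K _ (eps s) := by
  induction l using List.reverseRecOn with
  | nil =>
    intro s w h _
    rw [pl_nil] at h
    exact const_of_unit h
  | append_singleton l u ih =>
    intro s w h hs
    have hs0 : s ≠ 0 := by
      rintro rfl
      exact hs (map_zero _)
    have hw : eps w = 0 := by
      have h1 := congrArg eps h
      rw [map_mul, eps_pl i₀ i₁ _ (by simp)] at h1
      rcases mul_eq_zero.1 h1 with h2 | h2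
      · exact absurd h2 hs
      · exact h2
    rw [pl_append, pl_cons, pl_nil, mul_one] at h
    obtain ⟨w₂, _, h2⟩ := right_div i₀ i₁ h01 hw hs0 h
    exact ih s w₂ h2 hs

include h01 in
/-- The left factors of a product with zero constant term. -/
theorem factor (l : List (FA K r)) : ∀ s w : FA K r, s * w = pl i₀ i₁ l → eps s = 0 →
    ∃ l₁ l₂, l = l₁ ++ l₂ ∧ l₁ ≠ [] ∧ ∃ c : K, c ≠ 0 ∧ s = c • pl i₀ i₁ l₁ ∧
      c • w = pl i₀ i₁ l₂ := by
  induction l with
  | nil =>
    intro s w h hs
    rw [pl_nil] at h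
    have h1 := congrArg eps h
    rw [map_mul, hs, zero_mul, map_one] at h1
    exact absurd h1 zero_ne_one
  | cons u l ih =>
    intro s w h hs
    have hw : w ≠ 0 := by
      rintro rfl
      rw [mul_zero] at h
      exact pl_ne_zero i₀ i₁ h01 (u :: l) h.symm
    rw [pl_cons] at h
    obtain ⟨s₂, h2, h3⟩ := left_div i₀ i₁ h01 hs hw h
    by_cases h4 : eps s₂ = 0
    · obtain ⟨l₁, l₂, h5, h6, c, hc, h7, h8⟩ := ih s₂ w h3 h4
      refine ⟨u :: l₁, l₂, by rw [h5]; rfl, by simp, c, hc, ?_, h8⟩
      rw [h2, h7, pl_cons, mul_smul_comm]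
    · have h5 := const_factor i₀ i₁ h01 l s₂ w h3 h4
      refine ⟨[u], l, rfl, by simp, eps s₂, h4, ?_, ?_⟩
      · rw [h2, pl_cons, pl_nil, mul_one, Algebra.smul_def, ← h5, h5, Algebra.commutes]
      · rw [Algebra.smul_def, ← h5, h3]

include h01 in
/-- The factors `au u` of a product. -/
theorem factor_mid (l : List (FA K r)) (s w u : FA K r)
    (h : s * au i₀ i₁ u * w = pl i₀ i₁ l) (hs : eps s = 0) :
    ∃ l₁ l₂, l = l₁ ++ u :: l₂ ∧ l₁ ≠ [] ∧ ∃ c : K, c ≠ 0 ∧ s = c • pl i₀ i₁ l₁ := by
  rw [mul_assoc] at h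
  obtain ⟨l₁, l₂, h1, h2, c, hc, h3, h4⟩ := factor i₀ i₁ h01 l s _ h hs
  cases l₂ with
  | nil =>
    rw [pl_nil] at h4
    have h5 := congrArg eps h4
    rw [map_smul, map_mul, eps_au, zero_mul, smul_zero, map_one] at h5
    exact absurd h5 zero_ne_one
  | cons v l₂ =>
    rw [pl_cons, ← mul_smul_comm] at h4
    have hw : c • w ≠ 0 := by
      intro h5
      rw [h5, mul_zero] at h4
      exact mul_ne_zero (au_ne_zero i₀ i₁ v h01) (pl_ne_zero i₀ i₁ h01 l₂) h4.symm
    obtain ⟨t, h5, h6⟩ := left_div i₀ i₁ h01 (eps_au i₀ i₁ u) hw h4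
    -- compare `au u = au v * t`
    obtain ⟨A, hA⟩ : ∃ A : FA K r, A = u * gx i₀ := ⟨_, rfl⟩
    obtain ⟨A', hA'⟩ : ∃ A' : FA K r, A' = v * gx i₀ * t := ⟨_, rfl⟩
    have h7 : ∑ i, gx i * (Pi.single i₀ A + Pi.single i₁ 1 : Fin r → FA K r) i =
        ∑ i, gx i * (Pi.single i₀ A' + Pi.single i₁ t : Fin r → FA K r) i := by
      rw [sum_two, sum_two, hA, hA']
      unfold au at h5
      rw [add_mul] at h5
      simp only [mul_assoc, mul_one] at h5 ⊢
      exact h5
    have h8 := sum_inj _ _ h7
    have e1 : (1 : FA K r) = t := by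
      have := congrFun h8 i₁
      simpa [Pi.single_eq_of_ne h01.symm] using this
    have e0 : u * gx i₀ = v * gx i₀ * t := by
      rw [← hA, ← hA']
      have := congrFun h8 i₀
      simpa [Pi.single_eq_of_ne h01] using this
    rw [← e1, mul_one] at e0
    have hg : (gx i₀ : FA K r) ≠ 0 := FreeAlgebra.ι_ne_zero i₀
    have e2 : u = v := mul_right_cancel₀ hg e0
    exact ⟨l₁, l₂, by rw [h1, e2], h2, c, hc, h3⟩

end Rigid

end Pool.Agent.V11250.FAlg
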