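import Pool.Agent.V11250.FAlg

/-!
# Free non-unital associative algebras: a first order description of the bases
-/

set_option autoImplicit false

namespace Pool.Agent.V11250.FAlg

universe u

/-! ## The conditions -/

section Conditions

variable {G : Type u} [NonUnitalRing G] {r : ℕ}

/-- The element `y₀ u y₀ + y₁`. -/
def aY (i₀ i₁ : Fin r) (y : Fin r → G) (u : G) : G := y i₀ * u * y i₀ + y i₁

/-- `s, u` is an entry of the code `e`. -/
def PosP (i₀ i₁ : Fin r) (y : Fin r → G) (e s u : G) : Prop := ∃ w, e = s * aY i₀ i₁ y u * w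

/-- `d` is a scalar multiple of `y i`. -/
def DiP (y : Fin r → G) (i : Fin r) (d : G) : Prop :=
  ∃ t : Fin r → G, t i = d ∧ ∀ k l, t k * y l = y k * t l

/-- `d` is a sum of `r` products. -/
def SqP (r : ℕ) (d : G) : Prop := ∃ p q : Fin r → G, d = ∑ i, p i * q i

/-- The step condition. -/
def StepP (i₀ i₁ : Fin r) (y : Fin r → G) (e s u : G) : Prop :=
  (∃ i, DiP y i u) ∨ ∃ s' w' u' s'' w'' u'' : G, s = s' * w' ∧ s = s'' * w'' ∧
    PosP i₀ i₁ y e s' u' ∧ PosP i₀ i₁ y e s'' u'' ∧ (u = u' + u'' ∨ u = u' * u'')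

/-- `v` has a code. -/
def GenP (i₀ i₁ : Fin r) (y : Fin r → G) (v : G) : Prop :=
  ∃ e s : G, s ≠ 0 ∧ PosP i₀ i₁ y e s v ∧ ∀ s u, s ≠ 0 → PosP i₀ i₁ y e s u →
    StepP i₀ i₁ y e s u

/-- The condition for a basis. -/
def BasisP (i₀ i₁ : Fin r) (y : Fin r → G) : Prop :=
  (∀ i, ¬ SqP r (y i)) ∧ (∀ i d, DiP y i d → SqP r d → d = 0) ∧ ∀ v, GenP i₀ i₁ y v

end Conditions

/-! ## Linear parts -/

variable {K : Type u} [Field K] {r : ℕ}

/-- The linear part. -/
noncomputable def lin (a : FA K r) (i : Fin r) : K := eps ((Tm a).2 i)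

theorem cof_mul (a b : FA K r) (i : Fin r) :
    (Tm (a * b)).2 i = (Tm a).2 i * b + eps a • (Tm b).2 i := by
  have h : a * b = Sm (0, fun k => (Tm a).2 k * b) + eps a • b := by
    conv_lhs => rw [← Sm_Tm a]
    rw [Sm_apply, Sm_apply, ← eps_Sm (Tm a), Sm_Tm, add_mul, Finset.sum_mul, map_zero, zero_add,
      Algebra.smul_def, add_comm]
    simp only [mul_assoc]
  have h2 : Tm (eps a • b) = eps a • Tm b := by
    unfold Tm
    rw [map_smul, LinearMap.smul_apply]
  rw [h, Tm_add, Tm_Sm, h2]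
  rfl

theorem lin_mul (a b : FA K r) (i : Fin r) : lin (a * b) i = lin a i * eps b + eps a * lin b i := by
  unfold lin
  rw [cof_mul, map_add, map_mul, map_smul, smul_eq_mul]

theorem lin_add (a b : FA K r) (i : Fin r) : lin (a + b) i = lin a i + lin b i := by
  unfold lin
  rw [Tm_add, Prod.snd_add, Pi.add_apply, map_add]

theorem lin_smul (c : K) (a : FA K r) (i : Fin r) : lin (c • a) i = c * lin a i := by
  rw [Algebra.smul_def, lin_mul, eps_algebraMap]
  have : lin (algebraMap K (FA K r) c) i = 0 := by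
    unfold lin
    rw [Tm_algebraMap]
    simp
  rw [this, zero_mul, zero_add]

theorem lin_sum {ι : Type} (s : Finset ι) (f : ι → FA K r) (i : Fin r) :
    lin (∑ k ∈ s, f k) i = ∑ k ∈ s, lin (f k) i := by
  unfold lin
  rw [Tm_sum, Prod.snd_sum, Finset.sum_apply, map_sum]

theorem lin_gx (i k : Fin r) : lin (gx i : FA K r) k = if k = i then 1 else 0 := by
  unfold lin
  have := Tm_gx_mul i (1 : FA K r)
  rw [mul_one] at this
  rw [this]
  show eps ((Pi.single i 1 : Fin r → FA K r) k) = _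
  split_ifs with h
  · rw [h, Pi.single_eq_same, map_one]
  · rw [Pi.single_eq_of_ne h, map_zero]

theorem lin_cof_mul {p q : FA K r} (hp : eps p = 0) (hq : eps q = 0) (i k : Fin r) :
    lin ((Tm (p * q)).2 i) k = lin p i * lin q k := by
  rw [cof_mul, hp, zero_smul, add_zero, lin_mul, hq, mul_zero, zero_add]
  rfl

/-! ## Models -/

/-- `G` is identified with the augmentation ideal of the free algebra. -/
structure Mdl (K : Type u) [Field K] (r : ℕ) (G : Type u) [NonUnitalRing G] [Module K G]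
    (x : Fin r → G) where
  j : G →ₙₐ[K] FA K r
  inj : Function.Injective j
  rng : ∀ a : FA K r, eps a = 0 → ∃ g, j g = a
  eps_j : ∀ g, eps (j g) = 0
  jx : ∀ i, j (x i) = gx i

section Model

variable {G : Type u} [NonUnitalRing G] [Module K G] [IsScalarTower K G G] [SMulCommClass K G G]
  {x : Fin r → G} (M : Mdl K r G x)

include M

theorem adjoin_top (g : G) : g ∈ NonUnitalAlgebra.adjoin K (Set.range x) := by
  have key : ∀ a : FA K r, ∃ g ∈ NonUnitalAlgebra.adjoin K (Set.range x),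
      M.j g = a - algebraMap K _ (eps a) := by
    intro a
    induction a using fa_induction with
    | h0 c => exact ⟨0, zero_mem _, by simp⟩
    | h1 i =>
      exact ⟨x i, NonUnitalAlgebra.subset_adjoin K ⟨i, rfl⟩, by rw [M.jx]; simp⟩
    | h2 a b ha hb =>
      obtain ⟨g, hg, hg'⟩ := ha
      obtain ⟨h, hh, hh'⟩ := hb
      refine ⟨g * h + eps a • h + eps b • g, add_mem (add_mem (mul_mem hg hh)
        (SMulMemClass.smul_mem _ hh)) (SMulMemClass.smul_mem _ hg), ?_⟩
      rw [map_add, map_add, map_mul, map_smul, map_smul, hg', hh', map_mul, map_mul,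
        Algebra.smul_def, Algebra.smul_def, Algebra.commutes (eps b)]
      noncomm_ring
    | h3 a b ha hb =>
      obtain ⟨g, hg, hg'⟩ := ha
      obtain ⟨h, hh, hh'⟩ := hb
      refine ⟨g + h, add_mem hg hh, ?_⟩
      rw [map_add, hg', hh', map_add, map_add]
      abel
  obtain ⟨h, hh, hh'⟩ := key (M.j g)
  rw [M.eps_j, map_zero, sub_zero] at hh'
  rw [← M.inj hh']
  exact hh

theorem sqP_iff (g : G) : SqP r g ↔ ∀ i, lin (M.j g) i = 0 := by
  constructor
  · rintro ⟨p, q, rfl⟩ i
    rw [map_sum, lin_sum]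
    apply Finset.sum_eq_zero
    intro k _
    rw [map_mul, lin_mul, M.eps_j, M.eps_j, mul_zero, zero_mul, add_zero]
  · intro h
    choose q hq using fun i => M.rng ((Tm (M.j g)).2 i) (h i)
    refine ⟨x, q, M.inj ?_⟩
    rw [map_sum]
    simp only [map_mul, M.jx, hq]
    conv_lhs => rw [← Sm_Tm (M.j g)]
    rw [Sm_apply, ← eps_Sm (Tm (M.j g)), Sm_Tm, M.eps_j, map_zero, zero_add]

theorem diP_sound {y : Fin r → G} (h1 : ∀ i, ¬ SqP r (y i))
    (h2 : ∀ i d, DiP y i d → SqP r d → d = 0) {i : Fin r} {d : G} (h : DiP y i d) :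
    ∃ c : K, d = c • y i := by
  obtain ⟨t, rfl, ht⟩ := h
  have hy : ∃ b, lin (M.j (y i)) b ≠ 0 := by
    by_contra hcon
    push Not at hcon
    exact h1 i ((sqP_iff M _).2 hcon)
  obtain ⟨b, hb⟩ := hy
  refine ⟨lin (M.j (t i)) b / lin (M.j (y i)) b, ?_⟩
  set c := lin (M.j (t i)) b / lin (M.j (y i)) b with hc
  have h3 : ∀ k a, lin (M.j (t k)) a = c * lin (M.j (y k)) a := by
    intro k a
    have h4 := congrArg (fun g => lin ((Tm (M.j g)).2 a) b) (ht k i)
    simp only [map_mul] at h4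
    rw [lin_cof_mul (M.eps_j _) (M.eps_j _), lin_cof_mul (M.eps_j _) (M.eps_j _)] at h4
    rw [hc, div_mul_eq_mul_div, eq_div_iff hb, h4]
    ring
  have h4 : t i - c • y i = 0 := by
    refine h2 i _ ⟨fun k => t k - c • y k, rfl, fun k l => ?_⟩ ((sqP_iff M _).2 fun a => ?_)
    · rw [sub_mul, mul_sub, ht, smul_mul_assoc, mul_smul_comm]
    · rw [sub_eq_add_neg, ← neg_smul, map_add, map_smul, lin_add, lin_smul, h3]
      ring
  exact sub_eq_zero.1 h4

theorem gen_sound (i₀ i₁ : Fin r) {y : Fin r → G} (hy : BasisP i₀ i₁ y) (v : G) :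
    v ∈ NonUnitalAlgebra.adjoin K (Set.range y) := by
  obtain ⟨h1, h2, h3⟩ := hy
  obtain ⟨e, s, hs, hpos, hstep⟩ := h3 v
  have key : ∀ m : ℕ, ∀ s u, ¬ (Polynomial.X ^ m ∣ phi (M.j s)) → PosP i₀ i₁ y e s u →
      u ∈ NonUnitalAlgebra.adjoin K (Set.range y) := by
    intro m
    induction m with
    | zero =>
      intro s u hX
      exact absurd (by rw [pow_zero]; exact one_dvd _) hX
    | succ m ih =>
      intro s u hX hp
      have hs : s ≠ 0 := by
        rintro rfl
        exact hX (by rw [map_zero, map_zero]; exact dvd_zero _)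
      have hlow : ∀ s' w', s = s' * w' → ¬ (Polynomial.X ^ m ∣ phi (M.j s')) := by
        rintro s' w' rfl ⟨q, hq⟩
        apply hX
        have hw : Polynomial.X ∣ phi (M.j w') := by
          rw [Polynomial.X_dvd_iff]
          have := const_phi (M.j w')
          rw [M.eps_j, map_zero] at this
          exact this
        obtain ⟨p, hp⟩ := hw
        refine ⟨q * p, ?_⟩
        rw [map_mul, map_mul, hq, hp, pow_succ, mul_assoc, mul_assoc, ← mul_assoc q,
          ← Polynomial.X_mul (p := q), mul_assoc]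
      rcases hstep s u hs hp with ⟨i, hi⟩ | ⟨s', w', u', s'', w'', u'', e1, e2, p1, p2, hu⟩
      · obtain ⟨c, rfl⟩ := diP_sound M h1 h2 hi
        exact SMulMemClass.smul_mem _ (NonUnitalAlgebra.subset_adjoin K ⟨i, rfl⟩)
      · have m1 := ih s' u' (hlow s' w' e1) p1
        have m2 := ih s'' u'' (hlow s'' w'' e2) p2
        rcases hu with rfl | rfl
        · exact add_mem m1 m2
        · exact mul_mem m1 m2
  have hphi : phi (M.j s) ≠ 0 := by
    intro h
    apply hs
    apply M.inj
    apply phi_injective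
    rw [h, map_zero, map_zero]
  refine key ((phi (M.j s)).natDegree + 1) s v ?_ hpos
  rintro ⟨q, hq⟩
  have hq0 : q ≠ 0 := by
    rintro rfl
    rw [mul_zero] at hq
    exact hphi hq
  have := congrArg Polynomial.natDegree hq
  rw [Polynomial.natDegree_mul (pow_ne_zero _ Polynomial.X_ne_zero) hq0,
    Polynomial.natDegree_X_pow] at this
  omega

/-! ## Completeness -/

/-- preimages of the products -/
theorem exists_pr (i₀ i₁ : Fin r) : ∃ pr : List G → G, ∀ l, l ≠ [] →
    M.j (pr l) = pl i₀ i₁ (l.map M.j) := by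
  classical
  have : ∀ l : List G, ∃ g : G, l ≠ [] → M.j g = pl i₀ i₁ (l.map M.j) := by
    intro l
    by_cases hl : l = []
    · exact ⟨0, fun h => absurd hl h⟩
    · obtain ⟨g, hg⟩ := M.rng (pl i₀ i₁ (l.map M.j)) (eps_pl i₀ i₁ _ (by simpa using hl))
      exact ⟨g, fun _ => hg⟩
  choose pr hpr using this
  exact ⟨pr, hpr⟩

omit M in
/-- closed lists -/
def CL (x : Fin r → G) (l : List G) : Prop :=
  ∀ l₁ u l₂, l = l₁ ++ u :: l₂ → (∃ i, DiP x i u) ∨
    ∃ u' ∈ l₁, ∃ u'' ∈ l₁, u = u' + u'' ∨ u = u' * u''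

omit M [Module K G] [IsScalarTower K G G] [SMulCommClass K G G] in
theorem CL.append {l l' : List G} (h : CL x l) (h' : CL x l') : CL x (l ++ l') := by
  intro l₁ u l₂ he
  rw [List.append_eq_append_iff] at he
  rcases he with ⟨a, h1, h2⟩ | ⟨a, h1, h2⟩
  · -- l₁ = l ++ a
    rcases h' a u l₂ h2 with h3 | ⟨u', hu', u'', hu'', h3⟩
    · exact Or.inl h3
    · exact Or.inr ⟨u', by rw [h1]; simp [hu'], u'', by rw [h1]; simp [hu''], h3⟩
  · -- l = l₁ ++ a
    cases a with
    | nil =>
      rw [List.nil_append] at h2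
      rw [List.append_nil] at h1
      rcases h' [] u l₂ (by rw [List.nil_append]; exact h2.symm) with h3 | ⟨u', hu', _⟩
      · exact Or.inl h3
      · exact absurd hu' (by simp)
    | cons b a =>
      rw [List.cons_append, List.cons.injEq] at h2
      obtain ⟨rfl, h2⟩ := h2
      exact h l₁ u a h1

omit M [Module K G] [IsScalarTower K G G] [SMulCommClass K G G] in
theorem CL.snoc {l : List G} (h : CL x l) (v : G)
    (hv : (∃ i, DiP x i v) ∨ ∃ u' ∈ l, ∃ u'' ∈ l, v = u' + u'' ∨ v = u' * u'') :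
    CL x (l ++ [v]) := by
  intro l₁ u l₂ he
  rw [List.append_eq_append_iff] at he
  rcases he with ⟨a, h1, h2⟩ | ⟨a, h1, h2⟩
  · -- l₁ = l ++ a
    cases a with
    | nil =>
      rw [List.nil_append, List.cons.injEq] at h2
      rw [List.append_nil] at h1
      rw [h1, ← h2.1]
      exact hv
    | cons b a => simp at h2
  · cases a with
    | nil =>
      rw [List.nil_append, List.cons.injEq] at h2
      rw [List.append_nil] at h1
      rw [← h1, h2.1]
      exact hv
    | cons b a =>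
      rw [List.cons_append, List.cons.injEq] at h2
      obtain ⟨rfl, h2⟩ := h2
      exact h l₁ u a h1

omit M in
/-- every element lies in a closed list -/
theorem exists_CL (i₀ : Fin r) (v : G) (hv : v ∈ NonUnitalAlgebra.adjoin K (Set.range x)) :
    ∀ c : K, ∃ l, CL x l ∧ c • v ∈ l := by
  induction hv using NonUnitalAlgebra.adjoin_induction with
  | mem v hv =>
    obtain ⟨i, rfl⟩ := hv
    intro c
    refine ⟨[] ++ [c • x i], CL.snoc (by intro l₁ u l₂ h; simp at h) _ (Or.inl ⟨i, fun k => c • x k,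
      rfl, fun k l => ?_⟩), by simp⟩
    rw [smul_mul_assoc, mul_smul_comm]
  | add a b _ _ ha hb =>
    intro c
    obtain ⟨l, hl, hl'⟩ := ha c
    obtain ⟨m, hm, hm'⟩ := hb c
    refine ⟨(l ++ m) ++ [c • (a + b)], (hl.append hm).snoc _ (Or.inr ⟨c • a, by simp [hl'],
      c • b, by simp [hm'], Or.inl (smul_add _ _ _)⟩), by simp⟩
  | zero =>
    intro c
    refine ⟨[] ++ [c • 0], CL.snoc (by intro l₁ u l₂ h; simp at h) _
      (Or.inl ⟨i₀, fun k => 0, by simp, fun k l => by simp⟩), by simp⟩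
  | mul a b _ _ ha hb =>
    intro c
    obtain ⟨l, hl, hl'⟩ := ha c
    obtain ⟨m, hm, hm'⟩ := hb 1
    refine ⟨(l ++ m) ++ [c • (a * b)], (hl.append hm).snoc _ (Or.inr ⟨c • a, by simp [hl'],
      (1 : K) • b, by simp only [List.mem_append]; exact Or.inr hm', Or.inr ?_⟩), by simp⟩
    rw [one_smul, smul_mul_assoc]
  | smul d a _ ha =>
    intro c
    obtain ⟨l, hl, hl'⟩ := ha (c * d)
    exact ⟨l, hl, by rw [← mul_smul]; exact hl'⟩

theorem diP_sq_zero (i₀ i₁ : Fin r) (h01 : i₀ ≠ i₁) (i : Fin r) (d : G) (h : DiP x i d)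
    (hsq : SqP r d) : d = 0 := by
  obtain ⟨t, rfl, ht⟩ := h
  have h1 : ∀ k l, M.j (t k) * gx l = gx k * M.j (t l) := by
    intro k l
    have := congrArg M.j (ht k l)
    rw [map_mul, map_mul, M.jx, M.jx] at this
    exact this
  have hg : ∀ l, (gx l : FA K r) ≠ 0 := fun l => FreeAlgebra.ι_ne_zero l
  have h2 : ∀ k l m, (Tm (M.j (t k))).2 m * gx l = (Pi.single k (M.j (t l)) : Fin r → FA K r) m := by
    intro k l m
    have e1 := cof_mul (M.j (t k)) (gx l) m
    rw [M.eps_j, zero_smul, add_zero] at e1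
    rw [← e1, h1, Tm_gx_mul]
  set q := (Tm (M.j (t i))).2 i with hq
  have h3 : ∀ l, q * gx l = M.j (t l) := by
    intro l
    have := h2 i l i
    rw [Pi.single_eq_same] at this
    exact this
  have hq0 : eps q = 0 := (sqP_iff M _).1 hsq i
  have h4 : ∀ l, M.j (t l) = gx l * (Tm (M.j (t l))).2 l := by
    intro l
    have e0 : ∀ m, m ≠ l → (Tm (M.j (t l))).2 m = 0 := by
      intro m hm
      have := h2 l l m
      rw [Pi.single_eq_of_ne hm] at this
      rcases mul_eq_zero.1 this with h5 | h5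
      · exact h5
      · exact absurd h5 (hg l)
    conv_lhs => rw [← Sm_Tm (M.j (t l))]
    rw [Sm_apply, ← eps_Sm (Tm (M.j (t l))), Sm_Tm, M.eps_j, map_zero, zero_add,
      Finset.sum_eq_single l]
    · intro m _ hm
      rw [e0 m hm, mul_zero]
    · simp
  have h5 : ∀ l m, m ≠ l → (Tm q).2 m = 0 := by
    intro l m hm
    have e1 := cof_mul q (gx l) m
    rw [hq0, zero_smul, add_zero, h3, h4, Tm_gx_mul] at e1
    have e2 : (Pi.single l ((Tm (M.j (t l))).2 l) : Fin r → FA K r) m = 0 :=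
      Pi.single_eq_of_ne hm _
    have e3 : (Tm q).2 m * gx l = 0 := by
      rw [← e1]
      exact e2
    rcases mul_eq_zero.1 e3 with h6 | h6
    · exact h6
    · exact absurd h6 (hg l)
  have h6 : ∀ m, (Tm q).2 m = 0 := by
    intro m
    by_cases hm : m = i₀
    · exact h5 i₁ m (by rw [hm]; exact h01)
    · exact h5 i₀ m hm
  have h7 : q = 0 := by
    rw [← Sm_Tm q, Sm_apply, ← eps_Sm (Tm q), Sm_Tm, hq0, map_zero, zero_add]
    apply Finset.sum_eq_zero
    intro m _
    rw [h6, mul_zero]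
  apply M.inj
  rw [map_zero, ← h3 i, h7, zero_mul]

theorem gen_complete (i₀ i₁ : Fin r) (h01 : i₀ ≠ i₁) (v : G) : GenP i₀ i₁ x v := by
  obtain ⟨l, hl, hv⟩ := exists_CL i₀ v (adjoin_top M v) 1
  rw [one_smul] at hv
  obtain ⟨pr, hpr⟩ := exists_pr M i₀ i₁
  have haY : ∀ u : G, M.j (aY i₀ i₁ x u) = au i₀ i₁ (M.j u) := by
    intro u
    unfold aY au
    rw [map_add, map_mul, map_mul, M.jx, M.jx]
  -- entries
  have hent : ∀ A u B, (0 : G) :: l ++ [0] = A ++ u :: B → A ≠ [] → B ≠ [] →
      PosP i₀ i₁ x (pr ((0 : G) :: l ++ [0])) (pr A) u := by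
    intro A u B he hA hB
    refine ⟨pr B, M.inj ?_⟩
    rw [map_mul, map_mul, haY, hpr _ hA, hpr _ hB, hpr _ (by simp), he, List.map_append,
      List.map_cons, pl_append, pl_cons, mul_assoc]
  obtain ⟨l₁, l₂, hsplit⟩ := List.append_of_mem hv
  refine ⟨pr ((0 : G) :: l ++ [0]), pr ((0 : G) :: l₁), ?_, ?_, ?_⟩
  · intro h
    have h1 := congrArg M.j h
    rw [hpr _ (by simp), map_zero] at h1
    exact pl_ne_zero i₀ i₁ h01 _ h1
  · exact hent _ v (l₂ ++ [0]) (by rw [hsplit]; simp) (by simp) (by simp)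
  · rintro s u hs ⟨w, hw⟩
    have h1 := congrArg M.j hw
    rw [hpr _ (by simp), map_mul, map_mul, haY] at h1
    obtain ⟨m₁, m₂, h2, h3, c, hc, h4⟩ := factor_mid i₀ i₁ h01 _ _ _ _ h1.symm (M.eps_j s)
    rw [List.map_eq_append_iff] at h2
    obtain ⟨A, B', h5, h6, h7⟩ := h2
    rw [List.map_eq_cons_iff] at h7
    obtain ⟨u', B, h8, h9, h10⟩ := h7
    have h11 : u' = u := M.inj h9
    subst h11
    rw [h8] at h5
    have hA : A ≠ [] := by
      rintro rfl
      exact h3 (by rw [← h6]; rfl)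
    -- the structure of `A`
    cases A with
    | nil => exact absurd rfl hA
    | cons a A =>
      rw [List.cons_append, List.cons_append, List.cons.injEq] at h5
      obtain ⟨rfl, h5⟩ := h5
      by_cases hB : B = []
      · -- the last entry
        rw [hB] at h5
        have h12 := congrArg List.getLast? h5
        rw [List.getLast?_append, List.getLast?_append] at h12
        simp only [List.getLast?_singleton, Option.some_or] at h12
        have h13 : u' = 0 := by
          have := Option.some.inj h12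
          exact this.symm
        left
        exact ⟨i₀, fun k => 0, h13.symm, fun k l => by simp⟩
      · obtain ⟨B'', b, hB''⟩ : ∃ B'' b, B = B'' ++ [b] :=
          ⟨B.dropLast, B.getLast hB, (List.dropLast_append_getLast hB).symm⟩
        have h12 : l = A ++ u' :: B'' := by
          rw [hB''] at h5
          have h13 : l ++ [0] = (A ++ u' :: B'') ++ [b] := by
            rw [h5]
            simp
          exact (List.append_inj' h13 rfl).1
        rcases hl A u' B'' h12 with h13 | ⟨p, hp, q, hq, h13⟩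
        · exact Or.inl h13
        · right
          -- the positions of `p` and `q`
          have hpos : ∀ p ∈ A, ∃ s' w', s = s' * w' ∧
              PosP i₀ i₁ x (pr ((0 : G) :: l ++ [0])) s' p := by
            intro p hp
            obtain ⟨A₁, A₂, hA₁⟩ := List.append_of_mem hp
            refine ⟨pr (0 :: A₁), c • pr (p :: A₂), M.inj ?_,
              hent _ p (A₂ ++ u' :: B) (by rw [List.cons_append, h5, hA₁]; simp) (by simp) (by simp)⟩
            rw [map_mul, map_smul, hpr _ (by simp), hpr _ (by simp), h4, ← h6, hA₁,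
              mul_smul_comm, ← pl_append, ← List.map_append]
            rfl
          obtain ⟨s', w', e1, p1⟩ := hpos p hp
          obtain ⟨s'', w'', e2, p2⟩ := hpos q hq
          exact ⟨s', w', p, s'', w'', q, e1, e2, p1, p2, h13⟩

theorem basis_x (i₀ i₁ : Fin r) (h01 : i₀ ≠ i₁) : BasisP i₀ i₁ x := by
  refine ⟨fun i h => ?_, fun i d => diP_sq_zero M i₀ i₁ h01 i d, gen_complete M i₀ i₁ h01⟩
  have h1 := (sqP_iff M _).1 h i
  rw [M.jx, lin_gx, if_pos rfl] at h1
  exact one_ne_zero h1

end Model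

end Pool.Agent.V11250.FAlg
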