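import Pool.Agent.V11250.FAlg2
import Pool.Agent.V11250.AssDefs

/-!
# Free non-unital associative algebras: the Hopf property
-/

set_option autoImplicit false

namespace Pool.Agent.V11250.FAlg

open Pool.Agent.V11250.AssDefs

universe u

variable {K : Type u} [Field K] {r : ℕ}

section Filt

/-- The decomposition as a linear map. -/
noncomputable def TmL : FA K r →ₗ[K] K × (Fin r → FA K r) where
  toFun := Tm
  map_add' := Tm_add
  map_smul' c a := by
    unfold Tm
    rw [map_smul, LinearMap.smul_apply]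
    rfl

/-- The filtration by the powers of the augmentation ideal. -/
noncomputable def Fi : ℕ → Submodule K (FA K r)
  | 0 => ⊤
  | k + 1 => (Submodule.prod ⊥ (Submodule.pi Set.univ (fun _ => Fi k))).comap TmL

theorem mem_Fi_succ (k : ℕ) (a : FA K r) :
    a ∈ (Fi (k + 1) : Submodule K (FA K r)) ↔ eps a = 0 ∧ ∀ i, (Tm a).2 i ∈ Fi k := by
  rw [Fi, Submodule.mem_comap, Submodule.mem_prod, Submodule.mem_bot, Submodule.mem_pi]
  have h : (TmL a).1 = eps a := by
    conv_rhs => rw [← Sm_Tm a, eps_Sm]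
    rfl
  rw [h]
  constructor
  · rintro ⟨h1, h2⟩
    exact ⟨h1, fun i => h2 i (Set.mem_univ i)⟩
  · rintro ⟨h1, h2⟩
    exact ⟨h1, fun i _ => h2 i⟩

theorem Fi_aux (k : ℕ) : (∀ a : FA K r, a ∈ (Fi (k + 1) : Submodule K (FA K r)) → a ∈ Fi k) ∧
    ∀ a b : FA K r, a ∈ (Fi k : Submodule K (FA K r)) → b * a ∈ (Fi k : Submodule K (FA K r)) := by
  induction k with
  | zero => exact ⟨fun a _ => Submodule.mem_top, fun a b _ => Submodule.mem_top⟩
  | succ k ih =>
    constructor
    · intro a ha
      rw [mem_Fi_succ] at ha ⊢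
      exact ⟨ha.1, fun i => ih.1 _ (ha.2 i)⟩
    · intro a b ha
      have ha' := ih.1 a ha
      rw [mem_Fi_succ] at ha ⊢
      refine ⟨by rw [map_mul, ha.1, mul_zero], fun i => ?_⟩
      rw [cof_mul]
      exact add_mem (ih.2 _ _ ha') (Submodule.smul_mem _ _ (ha.2 i))

theorem X_dvd_of_Fi (k : ℕ) : ∀ a : FA K r, a ∈ (Fi k : Submodule K (FA K r)) →
    Polynomial.X ^ k ∣ phi a := by
  induction k with
  | zero => intro a _; rw [pow_zero]; exact one_dvd _
  | succ k ih =>
    intro a ha
    rw [mem_Fi_succ] at ha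
    have h1 : a = ∑ i, gx i * (Tm a).2 i := by
      conv_lhs => rw [← Sm_Tm a]
      rw [Sm_apply, ← eps_Sm (Tm a), Sm_Tm, ha.1, map_zero, zero_add]
    rw [h1, map_sum]
    apply Finset.dvd_sum
    intro i _
    obtain ⟨q, hq⟩ := ih _ (ha.2 i)
    refine ⟨Polynomial.C (gx i) * q, ?_⟩
    rw [map_mul, phi_gx, hq, pow_succ']
    have hX : ∀ p : Polynomial (FA K r), p * Polynomial.X = Polynomial.X * p := fun p =>
      Polynomial.X_mul.symm
    have hXk : ∀ p : Polynomial (FA K r), p * Polynomial.X ^ k = Polynomial.X ^ k * p := fun p =>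
      (Polynomial.X_pow_mul).symm
    rw [hX, mul_assoc, mul_assoc, ← mul_assoc (Polynomial.C (gx i)), hXk, mul_assoc]

theorem eq_zero_of_Fi (a : FA K r) (h : ∀ k, a ∈ (Fi k : Submodule K (FA K r))) : a = 0 := by
  by_contra ha
  have hphi : phi a ≠ 0 := by
    intro h1
    apply ha
    apply phi_injective
    rw [h1, map_zero]
  obtain ⟨q, hq⟩ := X_dvd_of_Fi ((phi a).natDegree + 1) a (h _)
  have hq0 : q ≠ 0 := by
    rintro rfl
    rw [mul_zero] at hq
    exact hphi hq
  have := congrArg Polynomial.natDegree hq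
  rw [Polynomial.natDegree_mul (pow_ne_zero _ Polynomial.X_ne_zero) hq0,
    Polynomial.natDegree_X_pow] at this
  omega

theorem Fi_finite (k : ℕ) : Module.Finite K (FA K r ⧸ (Fi k : Submodule K (FA K r))) := by
  induction k with
  | zero =>
    have : Subsingleton (FA K r ⧸ (Fi 0 : Submodule K (FA K r))) := by
      rw [Submodule.Quotient.subsingleton_iff]
      rfl
    infer_instance
  | succ k ih =>
    let L : FA K r →ₗ[K] K × (Fin r → (FA K r ⧸ (Fi k : Submodule K (FA K r)))) :=
      (LinearMap.prodMap LinearMap.id (LinearMap.pi fun i =>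
        (Submodule.mkQ (Fi k : Submodule K (FA K r))) ∘ₗ LinearMap.proj i)) ∘ₗ TmL
    have hL : LinearMap.ker L = Fi (k + 1) := by
      ext a
      rw [LinearMap.mem_ker, Fi, Submodule.mem_comap, Submodule.mem_prod, Submodule.mem_bot,
        Submodule.mem_pi]
      show (((TmL a).1, fun i => Submodule.mkQ (Fi k) ((TmL a).2 i)) :
        K × (Fin r → (FA K r ⧸ (Fi k : Submodule K (FA K r))))) = 0 ↔ _
      rw [Prod.mk_eq_zero, funext_iff]
      simp only [Submodule.mkQ_apply, Pi.zero_apply, Submodule.Quotient.mk_eq_zero, Set.mem_univ,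
        forall_const]
    rw [← hL]
    exact Module.Finite.equiv (L.quotKerEquivRange).symm

/-- Surjective endomorphisms which preserve the augmentation ideal are injective. -/
theorem hopf (σ : FA K r →ₐ[K] FA K r) (h0 : ∀ i, eps (σ (gx i)) = 0)
    (hσ : Function.Surjective σ) : Function.Injective σ := by
  have hF : ∀ k, ∀ a : FA K r, a ∈ (Fi k : Submodule K (FA K r)) →
      σ a ∈ (Fi k : Submodule K (FA K r)) := by
    intro k
    induction k with
    | zero => intro a _; exact Submodule.mem_top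
    | succ k ih =>
      intro a ha
      rw [mem_Fi_succ] at ha
      have h1 : a = ∑ i, gx i * (Tm a).2 i := by
        conv_lhs => rw [← Sm_Tm a]
        rw [Sm_apply, ← eps_Sm (Tm a), Sm_Tm, ha.1, map_zero, zero_add]
      rw [h1, map_sum]
      apply Submodule.sum_mem
      intro i _
      rw [map_mul, mem_Fi_succ]
      refine ⟨by rw [map_mul, h0, zero_mul], fun m => ?_⟩
      rw [cof_mul, h0, zero_smul, add_zero]
      exact (Fi_aux k).2 _ _ (ih _ (ha.2 i))
  rw [injective_iff_map_eq_zero]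
  intro a ha
  apply eq_zero_of_Fi
  intro k
  have hfin := Fi_finite (K := K) (r := r) k
  let S : (FA K r ⧸ (Fi k : Submodule K (FA K r))) →ₗ[K]
      (FA K r ⧸ (Fi k : Submodule K (FA K r))) :=
    Submodule.mapQ (Fi k) (Fi k) σ.toLinearMap (fun a ha => hF k a ha)
  have hS : Function.Surjective S := by
    intro b
    obtain ⟨b, rfl⟩ := Submodule.mkQ_surjective _ b
    obtain ⟨c, rfl⟩ := hσ b
    exact ⟨Submodule.mkQ _ c, rfl⟩
  have hS' : Function.Injective S := LinearMap.injective_iff_surjective.2 hS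
  have h1 : S (Submodule.mkQ _ a) = 0 := by
    show Submodule.mkQ _ (σ a) = 0
    rw [ha, map_zero]
  have h2 : Submodule.mkQ (Fi k : Submodule K (FA K r)) a = 0 := by
    apply hS'
    rw [h1, map_zero]
  rwa [Submodule.mkQ_apply, Submodule.Quotient.mk_eq_zero] at h2

end Filt

section Free

variable {G : Type u} [NonUnitalRing G] [Module K G] [IsScalarTower K G G] [SMulCommClass K G G]
  {x : Fin r → G}

theorem exists_mdl (h : IsFreeAss K r G x) : Nonempty (Mdl K r G x) := by
  obtain ⟨f, hf, _⟩ := h (FA K r) (fun i => gx i)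
  have heps : ∀ g, eps (f g) = 0 := by
    intro g
    have h1 : ((eps : FA K r →ₐ[K] K) : FA K r →ₙₐ[K] K).comp f = 0 := by
      obtain ⟨_, _, hu⟩ := h K (fun _ => 0)
      rw [hu (((eps : FA K r →ₐ[K] K) : FA K r →ₙₐ[K] K).comp f) (fun i => by
        show eps (f (x i)) = 0
        rw [hf, eps_gx]), hu 0 (fun i => rfl)]
    exact congrArg (fun t : G →ₙₐ[K] K => t g) h1
  refine ⟨⟨f, ?_, ?_, heps, hf⟩⟩
  · let p : FA K r →ₐ[K] Unitization K G := FreeAlgebra.lift K (fun i => Unitization.inr (x i))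
    have hp : ∀ i, p (gx i) = Unitization.inr (x i) := fun i => FreeAlgebra.lift_ι_apply _ _
    have h1 : (p : FA K r →ₙₐ[K] Unitization K G).comp f = Unitization.inrNonUnitalAlgHom K G := by
      obtain ⟨_, _, hu⟩ := h (Unitization K G) (fun i => Unitization.inr (x i))
      rw [hu ((p : FA K r →ₙₐ[K] Unitization K G).comp f) (fun i => by
        show p (f (x i)) = _
        rw [hf, hp]), hu (Unitization.inrNonUnitalAlgHom K G) (fun i => rfl)]
    intro a b hab
    have h2 : ∀ g, p (f g) = (Unitization.inr g : Unitization K G) := fun g =>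
      congrArg (fun t : G →ₙₐ[K] Unitization K G => t g) h1
    have h3 := h2 a
    rw [hab, h2 b] at h3
    exact (Unitization.inr_injective h3).symm
  · intro a ha
    have key : ∀ a : FA K r, ∃ g : G, f g = a - algebraMap K _ (eps a) := by
      intro a
      induction a using fa_induction with
      | h0 c => exact ⟨0, by simp⟩
      | h1 i => exact ⟨x i, by rw [hf]; simp⟩
      | h2 a b ha hb =>
        obtain ⟨g, hg'⟩ := ha
        obtain ⟨h, hh'⟩ := hb
        refine ⟨g * h + eps a • h + eps b • g, ?_⟩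
        rw [map_add, map_add, map_mul, map_smul, map_smul, hg', hh', map_mul, map_mul,
          Algebra.smul_def, Algebra.smul_def, Algebra.commutes (eps b)]
        noncomm_ring
      | h3 a b ha hb =>
        obtain ⟨g, hg'⟩ := ha
        obtain ⟨h, hh'⟩ := hb
        refine ⟨g + h, ?_⟩
        rw [map_add, hg', hh', map_add, map_add]
        abel
    obtain ⟨g, hg⟩ := key a
    exact ⟨g, by rw [hg, ha, map_zero, sub_zero]⟩

/-- Generating tuples of length `r` are images of the basis under automorphisms. -/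
theorem exists_aut (h : IsFreeAss K r G x) (y : Fin r → G)
    (hy : ∀ v, v ∈ NonUnitalAlgebra.adjoin K (Set.range y)) :
    ∃ σ : G →ₙₐ[K] G, Function.Bijective σ ∧ ∀ i, σ (x i) = y i := by
  obtain ⟨M⟩ := exists_mdl h
  obtain ⟨f, hf, _⟩ := h G y
  let σ : FA K r →ₐ[K] FA K r := FreeAlgebra.lift K (fun i => M.j (y i))
  have hσ : ∀ i, σ (gx i) = M.j (y i) := fun i => FreeAlgebra.lift_ι_apply _ _
  have hcomm : ∀ g, M.j (f g) = σ (M.j g) := by
    have h1 : M.j.comp f = (σ : FA K r →ₙₐ[K] FA K r).comp M.j := by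
      obtain ⟨_, _, hu⟩ := h (FA K r) (fun i => M.j (y i))
      rw [hu (M.j.comp f) (fun i => by
        show M.j (f (x i)) = _
        rw [hf]), hu ((σ : FA K r →ₙₐ[K] FA K r).comp M.j) (fun i => by
        show σ (M.j (x i)) = _
        rw [M.jx, hσ])]
    exact fun g => congrArg (fun t : G →ₙₐ[K] FA K r => t g) h1
  have hfs : Function.Surjective f := by
    intro v
    have h1 : NonUnitalAlgebra.adjoin K (Set.range y) ≤ NonUnitalAlgHom.range f := by
      rw [NonUnitalAlgebra.adjoin_le_iff]
      rintro _ ⟨i, rfl⟩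
      exact ⟨x i, hf i⟩
    exact h1 (hy v)
  have hσs : Function.Surjective σ := by
    intro a
    obtain ⟨g, hg⟩ := M.rng (a - algebraMap K _ (eps a)) (by simp)
    obtain ⟨g', rfl⟩ := hfs g
    refine ⟨M.j g' + algebraMap K _ (eps a), ?_⟩
    rw [map_add, ← hcomm, hg, AlgHom.commutes]
    abel
  have hσi := hopf σ (fun i => by rw [hσ, M.eps_j]) hσs
  refine ⟨f, ⟨?_, hfs⟩, hf⟩
  intro a b hab
  apply M.inj
  apply hσi
  rw [← hcomm, ← hcomm, hab]

end Free

end Pool.Agent.V11250.FAlg
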