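import Pool.Agent.V11250.IsoDefs

/-!
# Isotypic structures: a general lemma
-/

set_option autoImplicit false

namespace Pool.Agent.V11250.IsoDefs

open FirstOrder FirstOrder.Language

universe u v w

variable {L : FirstOrder.Language.{u, v}} {A B : Type w} [L.Structure A] [L.Structure B]

theorem tp_reindex {m k : ℕ} (f : Fin k → Fin m) {μ : Fin m → A} {ν : Fin m → B}
    (h : tp L A μ = tp L B ν) : tp L A (μ ∘ f) = tp L B (ν ∘ f) := by
  ext φ
  have h1 := Set.ext_iff.1 h (φ.relabel f)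
  unfold tp at h1 ⊢
  rw [Set.mem_setOf_eq, Set.mem_setOf_eq, Formula.realize_relabel, Formula.realize_relabel] at h1
  exact h1

/-- Let `x` be a tuple in `A` such that all tuples of the same type generate `A`. Then every
structure which is isotypic to `A` is generated by a tuple of the same type. -/
theorem exists_gen {r : ℕ} (x : Fin r → A) (a₀ : A)
    (hgen : ∀ ν : Fin r → A, tp L A ν = tp L A x → ∀ a, ∃ t : L.Term (Fin r), t.realize ν = a)
    (hiso : Isotypic L A B) :
    ∃ y : Fin r → B, tp L A x = tp L B y ∧ ∀ u, ∃ t : L.Term (Fin r), t.realize y = u := by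
  have h1 : tp L A (Fin.snoc x a₀ : Fin (r + 1) → A) ∈
      Set.range (fun μ : Fin (r + 1) → A => tp L A μ) := ⟨_, rfl⟩
  rw [hiso (r + 1) (by omega)] at h1
  obtain ⟨ν, hν⟩ := h1
  have hν' : tp L B ν = tp L A (Fin.snoc x a₀ : Fin (r + 1) → A) := hν
  have hxy : tp L A x = tp L B (ν ∘ Fin.castSucc) := by
    have h2 := tp_reindex Fin.castSucc hν'.symm
    have h3 : (Fin.snoc x a₀ : Fin (r + 1) → A) ∘ Fin.castSucc = x := by
      funext i
      simp
    rw [h3] at h2
    exact h2
  refine ⟨ν ∘ Fin.castSucc, hxy, fun u => ?_⟩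
  have h4 : tp L B (Fin.snoc (ν ∘ Fin.castSucc) u : Fin (r + 1) → B) ∈
      Set.range (fun μ : Fin (r + 1) → B => tp L B μ) := ⟨_, rfl⟩
  rw [← hiso (r + 1) (by omega)] at h4
  obtain ⟨ρ, hρ⟩ := h4
  have hρ' : tp L A ρ = tp L B (Fin.snoc (ν ∘ Fin.castSucc) u : Fin (r + 1) → B) := hρ
  have h5 : tp L A (ρ ∘ Fin.castSucc) = tp L A x := by
    rw [hxy]
    have h2 := tp_reindex Fin.castSucc hρ'
    have h3 : (Fin.snoc (ν ∘ Fin.castSucc) u : Fin (r + 1) → B) ∘ Fin.castSucc =
        ν ∘ Fin.castSucc := by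
      funext i
      simp
    rw [h3] at h2
    exact h2
  obtain ⟨t, ht⟩ := hgen _ h5 (ρ (Fin.last r))
  refine ⟨t, ?_⟩
  have h6 := Set.ext_iff.1 hρ' (Term.equal (t.relabel Fin.castSucc) (Term.var (Fin.last r)))
  unfold tp at h6
  rw [Set.mem_setOf_eq, Set.mem_setOf_eq, Formula.realize_equal, Formula.realize_equal,
    Term.realize_relabel, Term.realize_relabel] at h6
  have h7 := h6.1 ht
  have h8 : (Fin.snoc (ν ∘ Fin.castSucc) u : Fin (r + 1) → B) ∘ Fin.castSucc =
      ν ∘ Fin.castSucc := by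
    funext i
    simp
  rw [h8] at h7
  simpa using h7

theorem eq_iff_of_tp {r : ℕ} {x : Fin r → A} {y : Fin r → B} (h : tp L A x = tp L B y)
    (s t : L.Term (Fin r)) : s.realize x = t.realize x ↔ s.realize y = t.realize y := by
  have h6 := Set.ext_iff.1 h (Term.equal s t)
  unfold tp at h6
  rw [Set.mem_setOf_eq, Set.mem_setOf_eq, Formula.realize_equal, Formula.realize_equal] at h6
  exact h6

end Pool.Agent.V11250.IsoDefs
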