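import Pool.Agent.V11250.NilpAssocDefs
import Pool.Agent.V11250.IsoGen

/-!
# Nilpotent associative algebras: lemmas
-/

set_option autoImplicit false

namespace Pool.Agent.V11250.NilpAssocDefs

open FirstOrder Pool.Agent.Helper771.FreeNilp Pool.Agent.V11250.IsoDefs

universe u

section

variable {K : Type u} [Field K] {A : Type u} [NonUnitalRing A] [Module K A]
  [IsScalarTower K A A] [SMulCommClass K A A]

theorem foldl_mem (l : List A) : ∀ (a : A) (j : ℕ), 1 ≤ j → a ∈ algPow K A j →
    l.foldl (fun p q => p * q) a ∈ algPow K A (j + l.length) := by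
  induction l with
  | nil => intro a j _ ha; exact ha
  | cons b l ih =>
    intro a j hj ha
    have h1 : a * b ∈ algPow K A (j + 1) := mul_mem_algPow hj le_rfl ha (by
      rw [algPow_one]; trivial)
    have h2 := ih (a * b) (j + 1) (by omega) h1
    rw [List.length_cons, show j + (l.length + 1) = j + 1 + l.length by omega]
    exact h2

theorem foldl_add (l : List A) : ∀ a b : A, l.foldl (fun p q => p * q) (a + b) =
    l.foldl (fun p q => p * q) a + l.foldl (fun p q => p * q) b := by
  induction l with
  | nil => intro a b; rfl
  | cons c l ih => intro a b; simp only [List.foldl_cons, add_mul, ih]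

theorem foldl_smul (l : List A) : ∀ (c : K) (a : A), l.foldl (fun p q => p * q) (c • a) =
    c • l.foldl (fun p q => p * q) a := by
  induction l with
  | nil => intro a b; rfl
  | cons c l ih => intro a b; simp only [List.foldl_cons, smul_mul_assoc, ih]

theorem foldl_zero (l : List A) : l.foldl (fun p q => p * q) (0 : A) = 0 := by
  induction l with
  | nil => rfl
  | cons c l ih => simp only [List.foldl_cons, zero_mul, ih]

theorem inTheta_iff {n : ℕ} (hn : 1 ≤ n) : InTheta n A ↔ IsNilp K A n := by
  constructor
  · intro h
    have key : ∀ j, 1 ≤ j → j ≤ n → ∀ z ∈ algPow K A j, ∀ l : List A, j + l.length = n →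
        l.foldl (fun p q => p * q) z = 0 := by
      intro j
      induction j with
      | zero => intro h; exact absurd h (by omega)
      | succ j ih =>
        intro _ hjn z hz l hl
        rcases Nat.eq_zero_or_pos j with rfl | hj
        · exact h z l (by omega)
        · rw [← spanMul_algPow j hj 1 le_rfl] at hz
          unfold spanMul at hz
          induction hz using Submodule.span_induction with
          | mem z hz =>
            obtain ⟨a, ha, b, _, rfl⟩ := hz
            exact ih hj (by omega) a ha (b :: l) (by rw [List.length_cons]; omega)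
          | zero => exact foldl_zero l
          | add a b _ _ ha hb => rw [foldl_add, ha, hb, add_zero]
          | smul c a _ ha => rw [foldl_smul, ha, smul_zero]
    unfold IsNilp
    rw [eq_bot_iff]
    intro z hz
    have := key n hn le_rfl z hz [] (by simp)
    exact this
  · intro h a l hl
    have h1 := foldl_mem (K := K) l a 1 le_rfl (by rw [algPow_one]; trivial)
    rw [show 1 + l.length = n by omega, h] at h1
    exact h1

theorem isFreeIn_iff {n r : ℕ} (hn : 1 ≤ n) (x : Fin r → A) :
    IsFreeIn K n r A x ↔ IsFreeNilp K n r A x := by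
  unfold IsFreeIn IsFreeNilp
  rw [inTheta_iff (K := K) hn]
  refine and_congr_right fun _ => ?_
  constructor
  · intro h B _ _ _ _ hB
    exact h B ((inTheta_iff (K := K) hn).2 hB)
  · intro h B _ _ _ _ hB
    exact h B ((inTheta_iff (K := K) hn).1 hB)

/-- homomorphisms commute with terms -/
theorem hom_realize {B : Type u} [NonUnitalRing B] [Module K B] (σ : A →ₙₐ[K] B) {α : Type}
    (v : α → A) (t : (algLang K).Term α) :
    σ (t.realize v) = t.realize (fun a => σ (v a)) := by
  induction t with
  | var a => rfl
  | @func l f ts ih =>
    match l, f with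
    | _, AlgFn.zero => exact map_zero σ
    | _, AlgFn.add =>
      refine (map_add σ ((ts 0).realize v) ((ts 1).realize v)).trans ?_
      rw [ih 0, ih 1]
      rfl
    | _, AlgFn.neg =>
      refine (map_neg σ ((ts 0).realize v)).trans ?_
      rw [ih 0]
      rfl
    | _, AlgFn.mul =>
      refine (map_mul σ ((ts 0).realize v) ((ts 1).realize v)).trans ?_
      rw [ih 0, ih 1]
      rfl
    | _, AlgFn.smul c =>
      refine (map_smul σ c ((ts 0).realize v)).trans ?_
      rw [ih 0]
      rfl

/-- A bijective endomorphism as an automorphism of the structure. -/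
noncomputable def autEquiv (σ : A →ₙₐ[K] A) (h : Function.Bijective σ) : A ≃[algLang K] A where
  toEquiv := _root_.Equiv.ofBijective σ h
  map_fun' := by
    intro l f xs
    show σ (algFunMap K A f xs) = algFunMap K A f (σ ∘ xs)
    match l, f with
    | _, AlgFn.zero => exact map_zero σ
    | _, AlgFn.add => exact map_add σ _ _
    | _, AlgFn.neg => exact map_neg σ _
    | _, AlgFn.mul => exact map_mul σ _ _
    | _, AlgFn.smul c => exact map_smul σ c _
  map_rel' := fun r => r.elim

theorem tp_eq_of_aut {m : ℕ} (μ ν : Fin m → A) (σ : A →ₙₐ[K] A) (h : Function.Bijective σ)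
    (hσ : ∀ i, σ (μ i) = ν i) : tp (algLang K) A μ = tp (algLang K) A ν := by
  ext φ
  have h1 := Language.StrongHomClass.realize_formula (autEquiv σ h) φ (v := μ)
  have h2 : (autEquiv σ h : A → A) ∘ μ = ν := funext hσ
  rw [h2] at h1
  exact h1.symm

end

end Pool.Agent.V11250.NilpAssocDefs
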