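import Mathlib

/-!
# The first order language of groups
-/

set_option autoImplicit false

namespace Pool.Agent.V11250.GroupLang

open FirstOrder FirstOrder.Language

/-! ## The language of groups -/

/-- Function symbols of the language of groups. -/
inductive GrpFun : ℕ → Type
  | mul : GrpFun 2
  | inv : GrpFun 1
  | one : GrpFun 0

/-- The first order language of groups. -/
def LG : FirstOrder.Language.{0, 0} := ⟨GrpFun, fun _ => Empty⟩

/-- Every group is a structure for the language of groups. -/
instance grpStr (G : Type) [Group G] : LG.Structure G where
  funMap := fun {n} f v => match n, f, v with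
    | _, GrpFun.mul, v => v 0 * v 1
    | _, GrpFun.inv, v => (v 0)⁻¹
    | _, GrpFun.one, _ => 1
  RelMap := fun r => Empty.elim r

/-- The tuples `u` and `v` of `G` satisfy the same first order formulas in the language of
groups. -/
def SameType {G : Type} [Group G] {k : ℕ} (u v : Fin k → G) : Prop :=
  ∀ φ : LG.Formula (Fin k), φ.Realize u ↔ φ.Realize v

/-- A group isomorphism as an isomorphism of first order structures. -/
def mulEquivL {G H : Type} [Group G] [Group H] (e : G ≃* H) : G ≃[LG] H :=
  { e.toEquiv with
    map_fun' := by
      intro n f v
      cases f with
      | mul => exact e.map_mul _ _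
      | inv => exact e.map_inv _
      | one => exact e.map_one
    map_rel' := fun r => Empty.elim r }

theorem realize_mulEquiv {G H : Type} [Group G] [Group H] (e : G ≃* H) {α : Type}
    (φ : LG.Formula α) (v : α → G) : φ.Realize (fun i => e (v i)) ↔ φ.Realize v :=
  StrongHomClass.realize_formula (mulEquivL e) φ

end Pool.Agent.V11250.GroupLang
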