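import Mathlib

/-!
# A back and forth system for tuples of integers

`Rel K M v w`: the tuples `v`, `w` of integers are proportional modulo `M` by a unit, and satisfy
the same linear equations with coefficients bounded by `K`.
-/

set_option autoImplicit false

namespace Pool.Agent.V11250.IntRel

/-- `v` and `w` are proportional modulo `M` (by a unit) and satisfy the same linear equations
with integer coefficients of absolute value at most `K`. -/
def Rel {ι : Type} [Fintype ι] (K M : ℕ) (v w : ι → ℤ) : Prop :=
  ∃ u : ℤ, IsCoprime u (M : ℤ) ∧ (∀ i, (M : ℤ) ∣ v i - u * w i) ∧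
    ∀ c : ι → ℤ, (∀ i, |c i| ≤ K) → (∑ i, c i * v i = 0 ↔ ∑ i, c i * w i = 0)

section

variable {ι κ : Type} [Fintype ι] [Fintype κ]

theorem Rel.symm {K M : ℕ} {v w : ι → ℤ} (h : Rel K M v w) : Rel K M w v := by
  obtain ⟨u, hu, hvw, hc⟩ := h
  obtain ⟨a, b, hab⟩ := hu
  refine ⟨a, ⟨u, b, by linarith [hab]⟩, fun i => ?_, fun c hK => (hc c hK).symm⟩
  obtain ⟨k, hk⟩ := hvw i
  have : w i - a * v i = (M : ℤ) * (b * w i - a * k) := by
    have h1 : v i = u * w i + M * k := by linarith
    rw [h1]
    have h2 : w i = (a * u + b * M) * w i := by rw [hab, one_mul]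
    linear_combination h2
  rw [this]
  exact Dvd.intro _ rfl

theorem Rel.mono {K K' M M' : ℕ} (hK : K ≤ K') (hM : M ∣ M') {v w : ι → ℤ}
    (h : Rel K' M' v w) : Rel K M v w := by
  obtain ⟨u, hu, hvw, hc⟩ := h
  have hMz : (M : ℤ) ∣ (M' : ℤ) := by exact_mod_cast hM
  refine ⟨u, hu.of_isCoprime_of_dvd_right hMz, fun i => hMz.trans (hvw i), fun c hc' => ?_⟩
  exact hc c fun i => (hc' i).trans (by exact_mod_cast hK)

theorem Rel.reindex {K M : ℕ} {v w : ι → ℤ} (h : Rel K M v w) (e : κ ≃ ι) :
    Rel K M (v ∘ e) (w ∘ e) := by
  obtain ⟨u, hu, hvw, hc⟩ := h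
  refine ⟨u, hu, fun i => hvw (e i), fun c hc' => ?_⟩
  have h1 : ∀ x : ι → ℤ, ∑ i, c i * (x ∘ e) i = ∑ i, (c ∘ e.symm) i * x i := by
    intro x
    rw [← e.sum_comp]
    simp
  rw [h1, h1]
  exact hc _ fun i => hc' _

theorem Rel.scale {K M : ℕ} (w : ι → ℤ) (a : ℤ) (ha : a ≠ 0) (hM : IsCoprime a (M : ℤ)) :
    Rel K M (fun i => a * w i) w := by
  refine ⟨a, hM, fun i => by simp, fun c _ => ?_⟩
  have : ∑ i, c i * (a * w i) = a * ∑ i, c i * w i := by
    rw [Finset.mul_sum]
    exact Finset.sum_congr rfl fun i _ => by ring
  rw [this]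
  simp [ha]

/-- One new integer. -/
theorem exists_ext (K M : ℕ) (hM : 0 < M) : ∃ K' M' : ℕ, 0 < M' ∧
    ∀ (ι : Type) [Fintype ι] (v w : ι → ℤ), Rel K' M' v w → ∀ x : ℤ, ∃ y : ℤ,
      Rel K M (fun o : Option ι => o.elim x v) (fun o : Option ι => o.elim y w) := by
  classical
  refine ⟨2 * K * K + K, M * K.factorial, Nat.mul_pos hM (Nat.factorial_pos K), ?_⟩
  intro ι _ v w h x
  obtain ⟨u, hu, hvw, hlin⟩ := h
  have hMM : (M : ℤ) ∣ ((M * K.factorial : ℕ) : ℤ) := by
    rw [Nat.cast_mul]; exact Dvd.intro _ rfl
  by_cases hcase : ∃ (c : ℤ) (l : ι → ℤ), c ≠ 0 ∧ |c| ≤ K ∧ (∀ i, |l i| ≤ K) ∧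
      c * x = ∑ i, l i * v i
  · obtain ⟨c, l, hc0, hcK, hlK, hx⟩ := hcase
    -- `c` divides `K!`
    have hcf : c ∣ (K.factorial : ℤ) := by
      have h1 : c.natAbs ∣ K.factorial := by
        apply Nat.dvd_factorial (Int.natAbs_pos.2 hc0)
        have : (c.natAbs : ℤ) ≤ K := by rw [Int.natCast_natAbs]; exact hcK
        exact_mod_cast this
      exact Int.natAbs_dvd.1 (by exact_mod_cast h1)
    obtain ⟨f, hf⟩ := hcf
    have hM' : ((M * K.factorial : ℕ) : ℤ) = c * (M * f) := by
      rw [Nat.cast_mul, hf]; ring
    -- the form `l` at `w` is divisible by `c`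
    have hsum : ((M * K.factorial : ℕ) : ℤ) ∣ ∑ i, l i * v i - u * ∑ i, l i * w i := by
      rw [Finset.mul_sum, ← Finset.sum_sub_distrib]
      apply Finset.dvd_sum
      intro i _
      have : l i * v i - u * (l i * w i) = l i * (v i - u * w i) := by ring
      rw [this]
      exact (hvw i).mul_left _
    have hucop : IsCoprime u c := hu.of_isCoprime_of_dvd_right (by rw [hM']; exact Dvd.intro _ rfl)
    have hdiv : c ∣ ∑ i, l i * w i := by
      have h1 : c ∣ u * ∑ i, l i * w i := by
        have h2 : c ∣ ∑ i, l i * v i - u * ∑ i, l i * w i :=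
          (Dvd.intro _ hM'.symm).trans hsum
        rw [← hx] at h2
        have h3 := (Dvd.intro x rfl : c ∣ c * x)
        have := dvd_sub h3 h2
        simpa using this
      exact hucop.symm.dvd_of_dvd_mul_left h1
    obtain ⟨y, hy⟩ := hdiv
    refine ⟨y, u, hu.of_isCoprime_of_dvd_right hMM, ?_, ?_⟩
    · intro o
      cases o with
      | none =>
        show (M : ℤ) ∣ x - u * y
        rw [← hx, hy, hM'] at hsum
        have h1 : c * x - u * (c * y) = c * (x - u * y) := by ring
        rw [h1] at hsum
        have h2 := (mul_dvd_mul_iff_left hc0).1 hsum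
        exact (Dvd.intro _ rfl).trans h2
      | some i => exact hMM.trans (hvw i)
    · intro d hd
      rw [Fintype.sum_option, Fintype.sum_option]
      simp only [Option.elim_none, Option.elim_some]
      have key : ∀ (z : ι → ℤ) (t : ℤ), c * t = ∑ i, l i * z i →
          (d none * t + ∑ i, d (some i) * z i = 0 ↔
            ∑ i, (d none * l i + c * d (some i)) * z i = 0) := by
        intro z t ht
        have : ∑ i, (d none * l i + c * d (some i)) * z i =
            c * (d none * t + ∑ i, d (some i) * z i) := by
          rw [mul_add, show c * (d none * t) = d none * (c * t) by ring, ht, Finset.mul_sum,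
            Finset.mul_sum, ← Finset.sum_add_distrib]
          exact Finset.sum_congr rfl fun i _ => by ring
        rw [this]
        simp [hc0]
      rw [key v x hx, key w y hy.symm]
      apply hlin
      intro i
      have h1 : |d none * l i + c * d (some i)| ≤ |d none| * |l i| + |c| * |d (some i)| := by
        rw [← abs_mul, ← abs_mul]
        exact abs_add_le _ _
      have h2 : |d none| * |l i| ≤ K * K := mul_le_mul (hd none) (hlK i) (abs_nonneg _)
        (by positivity)
      have h3 : |c| * |d (some i)| ≤ K * K := mul_le_mul hcK (hd (some i)) (abs_nonneg _)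
        (by positivity)
      push_cast
      have : (0 : ℤ) ≤ K := by positivity
      linarith
  · push Not at hcase
    have hu1 : IsCoprime u (M : ℤ) := hu.of_isCoprime_of_dvd_right hMM
    obtain ⟨a, b, hab⟩ := id hu1
    let S : ℤ := ∑ i, |w i|
    have hS : 0 ≤ S := Finset.sum_nonneg fun i _ => abs_nonneg _
    let B : ℤ := |a * x| + K * S + 1
    have hB : 0 ≤ B := by positivity
    refine ⟨a * x + M * B, u, hu1, ?_, ?_⟩
    · intro o
      cases o with
      | none =>
        show (M : ℤ) ∣ x - u * (a * x + M * B)
        refine ⟨b * x - u * B, ?_⟩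
        linear_combination (-x) * hab
      | some i => exact hMM.trans (hvw i)
    · intro d hd
      rw [Fintype.sum_option, Fintype.sum_option]
      simp only [Option.elim_none, Option.elim_some]
      by_cases hd0 : d none = 0
      · rw [hd0]
        simp only [zero_mul, zero_add]
        apply hlin
        intro i
        have := hd (some i)
        push_cast
        have h3 : (0 : ℤ) ≤ K := by positivity
        nlinarith
      · constructor
        · intro h1
          exact absurd (show d none * x = ∑ i, (-d (some i)) * v i by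
            have : ∑ i, (-d (some i)) * v i = - ∑ i, d (some i) * v i := by
              rw [← Finset.sum_neg_distrib]
              exact Finset.sum_congr rfl fun i _ => by ring
            rw [this]
            linarith) (hcase (d none) (fun i => -d (some i)) hd0 (hd none)
              (fun i => by rw [abs_neg]; exact hd (some i)))
        · intro h1
          exfalso
          have h2 : |∑ i, d (some i) * w i| ≤ K * S := by
            refine (Finset.abs_sum_le_sum_abs _ _).trans ?_
            rw [Finset.mul_sum]
            apply Finset.sum_le_sum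
            intro i _
            rw [abs_mul]
            exact mul_le_mul_of_nonneg_right (hd (some i)) (abs_nonneg _)
          have hM1 : (1 : ℤ) ≤ M := by exact_mod_cast hM
          have h3 : K * S + 1 ≤ a * x + M * B := by
            have h4 : B ≤ M * B := by nlinarith
            have h5 := neg_abs_le (a * x)
            simp only [B] at h4 ⊢
            linarith
          have h4 : 0 ≤ K * S := by positivity
          have h6 : 1 ≤ |d none| := Int.one_le_abs hd0
          have h7 : |d none * (a * x + M * B)| = |∑ i, d (some i) * w i| := by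
            have : d none * (a * x + M * B) = -∑ i, d (some i) * w i := by linarith
            rw [this, abs_neg]
          rw [abs_mul, abs_of_pos (by linarith : 0 < a * x + M * B)] at h7
          nlinarith

/-- `k` new integers. -/
theorem exists_ext_fin (k K M : ℕ) (hM : 0 < M) : ∃ K' M' : ℕ, 0 < M' ∧
    ∀ (ι : Type) [Fintype ι] (v w : ι → ℤ), Rel K' M' v w → ∀ x : Fin k → ℤ, ∃ y : Fin k → ℤ,
      Rel K M (Sum.elim v x) (Sum.elim w y) := by
  induction k generalizing K M with
  | zero =>
    refine ⟨K, M, hM, fun ι _ v w h x => ⟨x, ?_⟩⟩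
    have := h.reindex (Equiv.sumEmpty ι (Fin 0))
    have e1 : ∀ z : ι → ℤ, z ∘ (Equiv.sumEmpty ι (Fin 0)) = Sum.elim z x := by
      intro z
      funext i
      rcases i with i | i
      · rfl
      · exact Fin.elim0 i
    rw [e1, e1] at this
    exact this
  | succ k ih =>
    obtain ⟨K₁, M₁, hM₁, h₁⟩ := exists_ext K M hM
    obtain ⟨K₂, M₂, hM₂, h₂⟩ := ih K₁ M₁ hM₁
    refine ⟨K₂, M₂, hM₂, fun ι _ v w h x => ?_⟩
    obtain ⟨y, hy⟩ := h₂ ι v w h (fun i => x i.castSucc)
    obtain ⟨z, hz⟩ := h₁ (ι ⊕ Fin k) _ _ hy (x (Fin.last k))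
    refine ⟨Fin.snoc y z, ?_⟩
    let e : (ι ⊕ Fin (k + 1)) ≃ Option (ι ⊕ Fin k) :=
      { toFun := fun p => match p with
          | Sum.inl i => some (Sum.inl i)
          | Sum.inr j => Fin.lastCases (motive := fun _ => Option (ι ⊕ Fin k)) none
              (fun i => some (Sum.inr i)) j
        invFun := fun o => match o with
          | none => Sum.inr (Fin.last k)
          | some (Sum.inl i) => Sum.inl i
          | some (Sum.inr j) => Sum.inr j.castSucc
        left_inv := by
          intro p
          rcases p with i | j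
          · rfl
          · induction j using Fin.lastCases with
            | last => simp
            | cast j => simp
        right_inv := by
          intro o
          rcases o with _ | (i | j)
          · simp
          · rfl
          · simp }
    have h3 := hz.reindex e
    have e1 : (fun o : Option (ι ⊕ Fin k) => o.elim (x (Fin.last k))
        (Sum.elim v fun i => x i.castSucc)) ∘ e = Sum.elim v x := by
      funext p
      rcases p with i | j
      · rfl
      · induction j using Fin.lastCases with
        | last => simp [e]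
        | cast j => simp [e]
    have e2 : (fun o : Option (ι ⊕ Fin k) => o.elim z (Sum.elim w y)) ∘ e =
        Sum.elim w (Fin.snoc y z : Fin (k + 1) → ℤ) := by
      funext p
      rcases p with i | j
      · rfl
      · induction j using Fin.lastCases with
        | last => simp [e]
        | cast j => simp [e]
    rw [e1, e2] at h3
    exact h3

end

end Pool.Agent.V11250.IntRel
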