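import Mathlib

/-!
# Types of tuples, isotypic structures
-/

set_option autoImplicit false

namespace Pool.Agent.V11250.IsoDefs

open FirstOrder FirstOrder.Language

universe u v w

/-- The type of the tuple `μ` in the structure `A`: all formulas which hold for `μ` in `A`. -/
def tp (L : FirstOrder.Language.{u, v}) (A : Type w) [L.Structure A] {m : ℕ} (μ : Fin m → A) :
    Set (L.Formula (Fin m)) := {φ | φ.Realize μ}

/-- The structures `A` and `B` are isotypic: for all `m ≥ 1` the same types of `m`-tuples are
realized in them. -/
def Isotypic (L : FirstOrder.Language.{u, v}) (A B : Type w) [L.Structure A] [L.Structure B] :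
    Prop :=
  ∀ m : ℕ, 1 ≤ m → Set.range (fun μ : Fin m → A => tp L A μ) =
    Set.range (fun μ : Fin m → B => tp L B μ)

end Pool.Agent.V11250.IsoDefs
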