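import Mathlib

/-!
# Isotypic algebras: definitions
-/

set_option autoImplicit false

namespace Pool.Agent.V11250.Isotypic

open FirstOrder FirstOrder.Language

/-- The algebra `A` belongs to the variety defined by the set of identities `E`. -/
def InVariety (L : FirstOrder.Language.{0, 0})
    (E : Set (Σ n : ℕ, L.Term (Fin n) × L.Term (Fin n)))
    (A : Type) [L.Structure A] : Prop :=
  ∀ e ∈ E, ∀ v : Fin e.1 → A, e.2.1.realize v = e.2.2.realize v

/-- The tuples `a` of `A` and `b` of `B` have the same type: they satisfy the same first order
formulas. -/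
def SameType (L : FirstOrder.Language.{0, 0}) {A B : Type} [L.Structure A] [L.Structure B]
    {m : ℕ} (a : Fin m → A) (b : Fin m → B) : Prop :=
  ∀ φ : L.Formula (Fin m), φ.Realize a ↔ φ.Realize b

/-- `A` and `B` are isotypic: they realise the same types of finite tuples. -/
def IsIsotypic (L : FirstOrder.Language.{0, 0}) (A B : Type) [L.Structure A] [L.Structure B] :
    Prop :=
  ∀ m : ℕ, (∀ a : Fin m → A, ∃ b : Fin m → B, SameType L a b) ∧
    (∀ b : Fin m → B, ∃ a : Fin m → A, SameType L a b)

/-- `A` is a finitely generated algebra: some finite subset generates it. -/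
def FinGen (L : FirstOrder.Language.{0, 0}) (A : Type) [L.Structure A] : Prop :=
  ∃ S : Finset A, Substructure.closure L (S : Set A) = ⊤

end Pool.Agent.V11250.Isotypic
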