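import Mathlib

/-!
# Logical homogeneity of semigroups, fields and algebras over fields: definitions
-/

set_option autoImplicit false

namespace Pool.Agent.V11250.LogHomDefs

open FirstOrder FirstOrder.Language

/-- The structure `H` is logically homogeneous: any two tuples of the same finite length which
satisfy the same first order formulas are related by an automorphism of `H`. -/
def LogHom (L : FirstOrder.Language.{0, 0}) (H : Type) [L.Structure H] : Prop :=
  ∀ (n : ℕ) (a b : Fin n → H), (∀ φ : L.Formula (Fin n), φ.Realize a ↔ φ.Realize b) →
    ∃ σ : H ≃[L] H, ∀ i, σ (a i) = b i

/-- Function symbols of the language of semigroups. -/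
inductive SgFun : ℕ → Type
  | mul : SgFun 2

/-- The language of semigroups: one binary function symbol. -/
def LSg : FirstOrder.Language.{0, 0} := ⟨SgFun, fun _ => Empty⟩

/-- A semigroup as a first order structure. -/
instance sgStr (S : Type) [Semigroup S] : LSg.Structure S where
  funMap := fun {n} f v => match n, f, v with
    | _, SgFun.mul, v => v 0 * v 1
  RelMap := fun r => Empty.elim r

/-- Function symbols of the language of associative algebras over `P`: the ring operations and the
multiplication by each scalar. -/
inductive AlgFun (P : Type) : ℕ → Type
  | zero : AlgFun P 0
  | add : AlgFun P 2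
  | neg : AlgFun P 1
  | mul : AlgFun P 2
  | smul : P → AlgFun P 1

/-- The language of associative algebras over `P`. -/
def LAlg (P : Type) : FirstOrder.Language.{0, 0} := ⟨AlgFun P, fun _ => Empty⟩

/-- An associative algebra over `P` (not necessarily with a unit) as a first order structure. -/
instance algStr (P H : Type) [Field P] [NonUnitalRing H] [Module P H] : (LAlg P).Structure H where
  funMap := fun {n} f v => match n, f, v with
    | _, AlgFun.zero, _ => 0
    | _, AlgFun.add, v => v 0 + v 1
    | _, AlgFun.neg, v => - v 0
    | _, AlgFun.mul, v => v 0 * v 1
    | _, AlgFun.smul r, v => r • v 0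
  RelMap := fun r => Empty.elim r

end Pool.Agent.V11250.LogHomDefs
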