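import Pool.Agent.V11250.IsoDefs
import Pool.Agent.Helper771.FreeNilp

/-!
# Logically perfect and logically regular varieties of nilpotent associative algebras: definitions
-/

set_option autoImplicit false

namespace Pool.Agent.V11250.NilpAssocDefs

open FirstOrder Pool.Agent.Helper771.FreeNilp Pool.Agent.V11250.IsoDefs

universe u

/-- The identity `x₁ x₂ ⋯ xₙ = 0` holds in the associative algebra `A`: every product
`a * b₁ * ⋯ * bₖ` with `k + 1 = n` factors vanishes. -/
def InTheta (n : ℕ) (A : Type u) [NonUnitalRing A] : Prop :=
  ∀ (a : A) (l : List A), l.length + 1 = n → l.foldl (fun p q => p * q) a = 0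

/-- `A` with the generators `x i` is the free algebra of rank `r` in the variety of all
associative `K`-algebras with the identity `x₁ x₂ ⋯ xₙ = 0`. -/
def IsFreeIn (K : Type u) [Field K] (n r : ℕ) (A : Type u) [NonUnitalRing A] [Module K A]
    (x : Fin r → A) : Prop :=
  InTheta n A ∧ ∀ (B : Type u) [NonUnitalRing B] [Module K B] [IsScalarTower K B B]
    [SMulCommClass K B B], InTheta n B → ∀ y : Fin r → B, ∃! f : A →ₙₐ[K] B, ∀ i, f (x i) = y i

/-- `A` is logically separable in the variety: every algebra `B` of the variety which is isotypic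
to `A` is isomorphic to `A`. -/
def Separable (K : Type u) [Field K] (n : ℕ) (A : Type u) [NonUnitalRing A] [Module K A] : Prop :=
  ∀ (B : Type u) [NonUnitalRing B] [Module K B] [IsScalarTower K B B] [SMulCommClass K B B],
    InTheta n B → Isotypic (algLang K) A B → ∃ f : A →ₙₐ[K] B, Function.Bijective f

/-- `A` is logically homogeneous: two tuples have the same type if and only if some automorphism
of `A` maps one to the other. -/
def Homogeneous (K : Type u) [Field K] (A : Type u) [NonUnitalRing A] [Module K A] : Prop :=
  ∀ (m : ℕ) (μ ν : Fin m → A), tp (algLang K) A μ = tp (algLang K) A ν ↔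
    ∃ σ : A →ₙₐ[K] A, Function.Bijective σ ∧ ∀ i, σ (μ i) = ν i

/-- The variety of all associative `K`-algebras with the identity `x₁ x₂ ⋯ xₙ = 0` is logically
perfect. -/
def LogicallyPerfect (K : Type u) [Field K] (n : ℕ) : Prop :=
  ∀ (r : ℕ) (A : Type u) [NonUnitalRing A] [Module K A] [IsScalarTower K A A]
    [SMulCommClass K A A] (x : Fin r → A), IsFreeIn K n r A x → Homogeneous K A

/-- The variety of all associative `K`-algebras with the identity `x₁ x₂ ⋯ xₙ = 0` is logically
regular. -/
def LogicallyRegular (K : Type u) [Field K] (n : ℕ) : Prop :=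
  ∀ (r : ℕ) (A : Type u) [NonUnitalRing A] [Module K A] [IsScalarTower K A A]
    [SMulCommClass K A A] (x : Fin r → A), IsFreeIn K n r A x → Separable K n A

end Pool.Agent.V11250.NilpAssocDefs
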