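import Pool.Agent.V11250.NilpLieDefs
import Pool.Agent.V11250.IsoGen
import Pool.Agent.Y624.RF.Lie

/-!
# Nilpotent Lie algebras: lemmas
-/

set_option autoImplicit false

namespace Pool.Agent.V11250.NilpLieDefs

open FirstOrder Pool.Agent.Helper771.LieHomog Pool.Agent.V11250.IsoDefs Pool.Agent.Y624.RF

universe u

section

variable {K : Type u} [Field K] {A : Type u} [LieRing A] [LieAlgebra K A]

theorem inTheta_sub {n : ℕ} (h : InTheta K n A) (S : LieSubalgebra K A) : InTheta K n S := by
  unfold InTheta at *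
  rw [eq_bot_iff]
  intro z hz
  have h1 : S.incl z ∈ LieIdeal.map S.incl (LieModule.lowerCentralSeries K S S n) :=
    LieIdeal.mem_map hz
  have h2 := LieIdeal.map_lowerCentralSeries_le (f := S.incl) n h1
  rw [h] at h2
  have h3 : S.incl z = 0 := by simpa using h2
  have h4 : z = 0 := by
    apply Subtype.ext
    exact h3
  rw [h4]
  exact zero_mem _

theorem IsFreeIn.relFree {n r : ℕ} {x : Fin r → A} (h : IsFreeIn K n r A x) :
    RelFreeLie K A x := by
  refine ⟨fun S hS a => ?_, fun y => ?_⟩
  · obtain ⟨f, hf, _⟩ := h.2 S (inTheta_sub h.1 S) (fun i => ⟨x i, hS i⟩)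
    obtain ⟨g, _, hg⟩ := h.2 A h.1 x
    have h1 : S.incl.comp f = g := hg _ (fun i => by
      show ((f (x i) : S) : A) = x i
      rw [hf i])
    have h2 : LieHom.id = g := hg _ (fun i => rfl)
    have h3 : S.incl (f a) = a := by
      have := DFunLike.congr_fun (h1.trans h2.symm) a
      exact this
    rw [← h3]
    exact (f a).2
  · obtain ⟨f, hf, _⟩ := h.2 A h.1 y
    exact ⟨f, hf⟩

theorem exists_lie_term {r : ℕ} {x : Fin r → A} (h : RelFreeLie K A x) (a : A) :
    ∃ t : (lieLang K).Term (Fin r), t.realize x = a := by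
  let S : LieSubalgebra K A :=
    { carrier := {a | ∃ t : (lieLang K).Term (Fin r), t.realize x = a}
      add_mem' := by
        rintro _ _ ⟨s, rfl⟩ ⟨t, rfl⟩
        exact ⟨Language.Term.func (l := 2) (LieFn.add : LieFn K 2) ![s, t], rfl⟩
      zero_mem' := ⟨Language.Term.func (l := 0) (LieFn.zero : LieFn K 0) ![], rfl⟩
      smul_mem' := by
        rintro c _ ⟨s, rfl⟩
        exact ⟨Language.Term.func (l := 1) (LieFn.smul c : LieFn K 1) ![s], rfl⟩
      lie_mem' := by
        rintro _ _ ⟨s, rfl⟩ ⟨t, rfl⟩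
        exact ⟨Language.Term.func (l := 2) (LieFn.bracket : LieFn K 2) ![s, t], rfl⟩ }
  exact h.1 S (fun i => ⟨Language.Term.var i, rfl⟩) a

/-- homomorphisms commute with terms -/
theorem lie_hom_realize {B : Type u} [LieRing B] [LieAlgebra K B] (σ : A →ₗ⁅K⁆ B) {α : Type}
    (v : α → A) (t : (lieLang K).Term α) :
    σ (t.realize v) = t.realize (fun a => σ (v a)) := by
  induction t with
  | var a => rfl
  | @func l f ts ih =>
    match l, f with
    | _, LieFn.zero => exact map_zero σ
    | _, LieFn.add =>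
      refine (map_add σ ((ts 0).realize v) ((ts 1).realize v)).trans ?_
      rw [ih 0, ih 1]
      rfl
    | _, LieFn.neg =>
      refine (map_neg σ ((ts 0).realize v)).trans ?_
      rw [ih 0]
      rfl
    | _, LieFn.bracket =>
      refine (LieHom.map_lie σ ((ts 0).realize v) ((ts 1).realize v)).trans ?_
      rw [ih 0, ih 1]
      rfl
    | _, LieFn.smul c =>
      refine (map_smul σ c ((ts 0).realize v)).trans ?_
      rw [ih 0]
      rfl

/-- An automorphism as an automorphism of the structure. -/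
noncomputable def lieAutEquiv (σ : A ≃ₗ⁅K⁆ A) : A ≃[lieLang K] A where
  toEquiv := _root_.Equiv.ofBijective σ σ.bijective
  map_fun' := by
    intro l f xs
    show σ (lieFunMap K A f xs) = lieFunMap K A f (σ ∘ xs)
    match l, f with
    | _, LieFn.zero => exact map_zero σ
    | _, LieFn.add => exact map_add σ _ _
    | _, LieFn.neg => exact map_neg σ _
    | _, LieFn.bracket => exact LieEquiv.map_lie σ _ _
    | _, LieFn.smul c => exact map_smul σ c _
  map_rel' := fun r => r.elim

theorem lie_tp_eq_of_aut {m : ℕ} (μ ν : Fin m → A) (σ : A ≃ₗ⁅K⁆ A)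
    (hσ : ∀ i, σ (μ i) = ν i) : tp (lieLang K) A μ = tp (lieLang K) A ν := by
  ext φ
  have h1 := Language.StrongHomClass.realize_formula (lieAutEquiv σ) φ (v := μ)
  have h2 : (lieAutEquiv σ : A → A) ∘ μ = ν := funext hσ
  rw [h2] at h1
  exact h1.symm

end

end Pool.Agent.V11250.NilpLieDefs
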