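import Pool.Agent.V11250.IsoDefs
import Pool.Agent.Helper771.LieHomogDefs

/-!
# Logically perfect and logically regular varieties of nilpotent Lie algebras: definitions
-/

set_option autoImplicit false

namespace Pool.Agent.V11250.NilpLieDefs

open FirstOrder Pool.Agent.Helper771.LieHomog Pool.Agent.V11250.IsoDefs

universe u

/-- The Lie algebra `A` over `K` is nilpotent of class at most `n`. -/
def InTheta (K : Type u) [Field K] (n : ℕ) (A : Type u) [LieRing A] [LieAlgebra K A] : Prop :=
  LieModule.lowerCentralSeries K A A n = ⊥

/-- `A` with the generators `x i` is the free algebra of rank `r` in the variety of all Lie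
algebras over `K` which are nilpotent of class at most `n`. -/
def IsFreeIn (K : Type u) [Field K] (n r : ℕ) (A : Type u) [LieRing A] [LieAlgebra K A]
    (x : Fin r → A) : Prop :=
  InTheta K n A ∧ ∀ (B : Type u) [LieRing B] [LieAlgebra K B], InTheta K n B →
    ∀ y : Fin r → B, ∃! f : A →ₗ⁅K⁆ B, ∀ i, f (x i) = y i

/-- `A` is logically separable in the variety: every algebra `B` of the variety which is isotypic
to `A` is isomorphic to `A`. -/
def Separable (K : Type u) [Field K] (n : ℕ) (A : Type u) [LieRing A] [LieAlgebra K A] : Prop :=
  ∀ (B : Type u) [LieRing B] [LieAlgebra K B], InTheta K n B → Isotypic (lieLang K) A B →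
    Nonempty (A ≃ₗ⁅K⁆ B)

/-- `A` is logically homogeneous: two tuples have the same type if and only if some automorphism
of `A` maps one to the other. -/
def Homogeneous (K : Type u) [Field K] (A : Type u) [LieRing A] [LieAlgebra K A] : Prop :=
  ∀ (m : ℕ) (μ ν : Fin m → A), tp (lieLang K) A μ = tp (lieLang K) A ν ↔
    ∃ σ : A ≃ₗ⁅K⁆ A, ∀ i, σ (μ i) = ν i

/-- The variety of all Lie algebras over `K` which are nilpotent of class at most `n` is logically
perfect. -/
def LogicallyPerfect (K : Type u) [Field K] (n : ℕ) : Prop :=
  ∀ (r : ℕ) (A : Type u) [LieRing A] [LieAlgebra K A] (x : Fin r → A),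
    IsFreeIn K n r A x → Homogeneous K A

/-- The variety of all Lie algebras over `K` which are nilpotent of class at most `n` is logically
regular. -/
def LogicallyRegular (K : Type u) [Field K] (n : ℕ) : Prop :=
  ∀ (r : ℕ) (A : Type u) [LieRing A] [LieAlgebra K A] (x : Fin r → A),
    IsFreeIn K n r A x → Separable K n A

end Pool.Agent.V11250.NilpLieDefs
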