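import Mathlib
import Pool.Agent.Helper760.OracleNF

set_option autoImplicit false

/-!
Small tools for total functions recursive in an oracle.
-/

namespace Pool.Agent.V11250.OR

open Encodable Pool.Agent.Helper760.OracleNF

/-- A total function which is the limit of a primitive recursive stepped functional is recursive in
the oracle. -/
theorem recIn_tot {g y : ℕ → ℕ} {F : List ℕ → ℕ → Option ℕ} (hF : Primrec₂ F)
    (h1 : ∀ a k v, F (pre g k) a = some v → v = y a) (h2 : ∀ a, ∃ k v, F (pre g k) a = some v) :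
    Nat.RecursiveIn {(g : ℕ →. ℕ)} (fun n => Part.some (y n)) := by
  have h := recIn_of_stepped g (α := ℕ) (σ := ℕ) hF
  refine RecursiveIn.iff_nat.1 (h.of_eq ?_)
  intro a
  apply Part.eq_some_iff.2
  have hd : (Nat.rfindOpt (fun k => F (pre g k) a)).Dom := by
    rw [Nat.rfindOpt_dom]
    obtain ⟨k, v, hk⟩ := h2 a
    exact ⟨k, v, hk⟩
  obtain ⟨v, hv⟩ := Part.dom_iff_mem.1 hd
  obtain ⟨k, hk⟩ := Nat.rfindOpt_spec hv
  rw [← h1 a k v hk]
  exact hv

theorem recIn_trans {g h : ℕ → ℕ} {f : ℕ →. ℕ} (h1 : Nat.RecursiveIn {(g : ℕ →. ℕ)} f)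
    (h2 : Nat.RecursiveIn {(h : ℕ →. ℕ)} (fun n => Part.some (g n))) :
    Nat.RecursiveIn {(h : ℕ →. ℕ)} f := by
  apply h1.subst
  intro g' hg'
  rw [Set.mem_singleton_iff] at hg'
  subst hg'
  exact h2

section quant

variable {β : Type*} [Primcodable β]

theorem allLt {P : ℕ → β → Prop} (hP : PrimrecPred (fun p : ℕ × β => P p.1 p.2)) {K : β → ℕ}
    (hK : Primrec K) : PrimrecPred fun b => ∀ x < K b, P x b := by
  have h1 : PrimrecRel fun (L : List ℕ) (b : β) => ∀ a ∈ L, P a b :=
    PrimrecRel.forall_mem_list hP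
  refine (h1.comp (Primrec.list_range.comp hK) Primrec.id).of_eq (fun b => ?_)
  simp

theorem exLt {P : ℕ → β → Prop} (hP : PrimrecPred (fun p : ℕ × β => P p.1 p.2)) {K : β → ℕ}
    (hK : Primrec K) : PrimrecPred fun b => ∃ x < K b, P x b := by
  have h1 : PrimrecRel fun (L : List ℕ) (b : β) => ∃ a ∈ L, P a b :=
    PrimrecRel.exists_mem_list hP
  refine (h1.comp (Primrec.list_range.comp hK) Primrec.id).of_eq (fun b => ?_)
  simp

theorem primrec_imp {p q : β → Prop} (hp : PrimrecPred p) (hq : PrimrecPred q) :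
    PrimrecPred (fun a => p a → q a) :=
  (hp.not.or hq).of_eq (fun a => by tauto)

end quant

theorem primrec_pow2 : Primrec (fun m : ℕ => 2 ^ m) := by
  have h : Primrec (Nat.rec (motive := fun _ => ℕ) 1 (fun _ b => 2 * b)) := by
    refine Primrec.nat_rec₁ _ ?_
    exact (Primrec.nat_mul.comp (Primrec.const 2) Primrec.snd).to₂
  refine h.of_eq (fun m => ?_)
  induction m with
  | zero => rfl
  | succ m ih =>
    rw [pow_succ, ← ih]
    show 2 * _ = _ * 2
    ring

theorem primrec_testBit : PrimrecPred (fun p : ℕ × ℕ => p.1.testBit p.2 = true) := by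
  have h : PrimrecPred (fun p : ℕ × ℕ => p.1 / 2 ^ p.2 % 2 = 1) :=
    Primrec.eq.comp (Primrec.nat_mod.comp (Primrec.nat_div.comp Primrec.fst
      (primrec_pow2.comp Primrec.snd)) (Primrec.const 2)) (Primrec.const 1)
  refine h.of_eq (fun p => ?_)
  rw [Nat.testBit_eq_decide_div_mod_eq]
  simp

theorem lt_of_testBit {u y : ℕ} (h : u.testBit y = true) : y < u := by
  have h1 : 2 ^ y ≤ u := Nat.ge_two_pow_of_testBit h
  exact lt_of_lt_of_le Nat.lt_two_pow_self h1

end Pool.Agent.V11250.OR
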