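import Pool.Agent.V11250.PPDefs

/-!
# pp-constructions: lemmas
-/

set_option autoImplicit false

namespace Pool.Agent.V11250.PPDefs

variable {B C : FStr}

theorem PPDef.congr {V : Type} {P Q : (V → B.D) → Prop} (h : PPDef B V P)
    (hPQ : ∀ t, P t ↔ Q t) : PPDef B V Q := by
  have : P = Q := funext fun t => propext (hPQ t)
  exact this ▸ h

theorem PPDef.rename {V : Type} {P : (V → B.D) → Prop} (h : PPDef B V P) :
    ∀ {W : Type} (f : V → W), PPDef B W (fun t => P (fun v => t (f v))) := by
  induction h with
  | eq x y => intro W f; exact PPDef.eq (f x) (f y)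
  | rel i v => intro W f; exact PPDef.rel i (fun k => f (v k))
  | and _ _ ih1 ih2 => intro W f; exact PPDef.and (ih1 f) (ih2 f)
  | @ex V P _ ih =>
    intro W f
    refine (PPDef.ex (ih (Option.map f))).congr ?_
    intro t
    apply exists_congr
    intro a
    have : (fun v => ext t a (Option.map f v)) = ext (fun v => t (f v)) a := by
      funext v
      cases v <;> rfl
    rw [this]

theorem PPDef.forallFin {V : Type} (e : ℕ) (he : 1 ≤ e) (P : Fin e → (V → B.D) → Prop)
    (h : ∀ j, PPDef B V (P j)) : PPDef B V (fun t => ∀ j, P j t) := by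
  induction e, he using Nat.le_induction with
  | base =>
    refine (h 0).congr ?_
    intro t
    constructor
    · intro h j
      rw [Subsingleton.elim j 0]
      exact h
    · intro h
      exact h 0
  | succ e he ih =>
    refine (PPDef.and (h 0) (ih (fun j => P j.succ) (fun j => h j.succ))).congr ?_
    intro t
    exact (Fin.forall_fin_succ (P := fun j => P j t)).symm

theorem PPDef.exFin {V : Type} (e : ℕ) : ∀ {Q : (V ⊕ Fin e → B.D) → Prop},
    PPDef B (V ⊕ Fin e) Q → PPDef B V (fun t => ∃ a : Fin e → B.D, Q (Sum.elim t a)) := by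
  induction e with
  | zero =>
    intro Q h
    refine (h.rename (Sum.elim (fun v : V => v) (fun i : Fin 0 => i.elim0))).congr ?_
    intro t
    constructor
    · intro h
      refine ⟨fun i => i.elim0, ?_⟩
      have : (fun v => t (Sum.elim (fun v : V => v) (fun i : Fin 0 => i.elim0) v)) =
          Sum.elim t (fun i : Fin 0 => i.elim0) := by
        funext v
        rcases v with v | i
        · rfl
        · exact i.elim0
      rw [this] at h
      exact h
    · rintro ⟨a, h⟩
      have : (fun v => t (Sum.elim (fun v : V => v) (fun i : Fin 0 => i.elim0) v)) =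
          Sum.elim t a := by
        funext v
        rcases v with v | i
        · rfl
        · exact i.elim0
      rw [this]
      exact h
  | succ e ih =>
    intro Q h
    have h1 : PPDef B (Option (V ⊕ Fin e)) (fun t => Q (fun v => t
        (Sum.elim (fun v : V => some (Sum.inl v)) (Fin.cases none (fun i => some (Sum.inr i))) v))) :=
      h.rename _
    refine (ih (PPDef.ex h1)).congr ?_
    intro t
    constructor
    · rintro ⟨a, b, h2⟩
      refine ⟨Fin.cons b a, ?_⟩
      have : (fun v => ext (Sum.elim t a) b (Sum.elim (fun v : V => some (Sum.inl v))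
          (Fin.cases none (fun i => some (Sum.inr i))) v)) = Sum.elim t (Fin.cons b a) := by
        funext v
        rcases v with v | i
        · rfl
        · refine Fin.cases ?_ (fun i => ?_) i
          · rfl
          · rfl
      rw [this] at h2
      exact h2
    · rintro ⟨a, h2⟩
      refine ⟨fun i => a i.succ, a 0, ?_⟩
      have : (fun v => ext (Sum.elim t (fun i => a i.succ)) (a 0)
          (Sum.elim (fun v : V => some (Sum.inl v))
          (Fin.cases none (fun i => some (Sum.inr i))) v)) = Sum.elim t a := by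
        funext v
        rcases v with v | i
        · rfl
        · refine Fin.cases ?_ (fun i => ?_) i
          · rfl
          · rfl
      rw [this]
      exact h2

/-- The pp-power as a structure. -/
def powStr (C : FStr) (e : ℕ) (I : Type) (ar : I → ℕ)
    (S : (i : I) → (Fin (ar i) → (Fin e → C.D)) → Prop) : FStr where
  D := Fin e → C.D
  fin := by
    have := C.fin
    infer_instance
  ne := by
    have := C.ne
    infer_instance
  I := I
  ar := ar
  rel := S

/-- pp-definitions in a pp-power of `C` give pp-definitions in `C` -/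
theorem PPDef.power {e : ℕ} (he : 1 ≤ e) {I : Type} {ar : I → ℕ}
    (S : (i : I) → (Fin (ar i) → (Fin e → C.D)) → Prop)
    (hS : ∀ i, PPDef C (Fin (ar i) × Fin e) (fun t => S i (fun k j => t (k, j)))) {V : Type}
    {P : (V → (powStr C e I ar S).D) → Prop} (h : PPDef (powStr C e I ar S) V P) :
    PPDef C (V × Fin e) (fun t => P (fun v j => t (v, j))) := by
  induction h with
  | eq x y =>
    refine (PPDef.forallFin e he (fun j t => t (x, j) = t (y, j))
      (fun j => PPDef.eq (x, j) (y, j))).congr ?_
    intro t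
    exact funext_iff.symm
  | rel i v => exact (hS i).rename (fun p => (v p.1, p.2))
  | and _ _ ih1 ih2 => exact PPDef.and ih1 ih2
  | @ex V P _ ih =>
    have h1 := ih.rename (W := (V × Fin e) ⊕ Fin e)
      (fun p => p.1.elim (Sum.inr p.2) (fun v => Sum.inl (v, p.2)))
    refine (PPDef.exFin e h1).congr ?_
    intro t
    apply exists_congr
    intro a
    have : (fun (v : Option V) (j : Fin e) => Sum.elim t a
        ((v, j).1.elim (Sum.inr (v, j).2) (fun w => Sum.inl (w, (v, j).2)))) =
        ext (fun v j => t (v, j)) a := by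
      funext v j
      cases v <;> rfl
    exact iff_of_eq (congrArg P this)

/-- The majority operation. -/
def mj (p q r : Bool) : Bool := (p && q) || (q && r) || (r && p)

theorem PPDef.closed_maj {V : Type} {P : (V → P2.D) → Prop} (h : PPDef P2 V P) :
    ∀ a b c : V → Bool, P a → P b → P c → P (fun v => mj (a v) (b v) (c v)) := by
  induction h with
  | eq x y =>
    intro a b c ha hb hc
    exact _root_.congr (congrArg₂ mj ha hb) hc
  | rel i v =>
    intro a b c ha hb hc
    have ha' : a (v (0 : Fin 2)) = false ∧ a (v (1 : Fin 2)) = true := ha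
    have hb' : b (v (0 : Fin 2)) = false ∧ b (v (1 : Fin 2)) = true := hb
    have hc' : c (v (0 : Fin 2)) = false ∧ c (v (1 : Fin 2)) = true := hc
    show mj (a (v (0 : Fin 2))) (b (v (0 : Fin 2))) (c (v (0 : Fin 2))) = false ∧
      mj (a (v (1 : Fin 2))) (b (v (1 : Fin 2))) (c (v (1 : Fin 2))) = true
    rw [ha'.1, ha'.2, hb'.1, hb'.2, hc'.1, hc'.2]
    exact ⟨rfl, rfl⟩
  | and _ _ ih1 ih2 =>
    intro a b c ha hb hc
    exact ⟨ih1 a b c ha.1 hb.1 hc.1, ih2 a b c ha.2 hb.2 hc.2⟩
  | @ex V P _ ih =>
    rintro a b c ⟨a', ha⟩ ⟨b', hb⟩ ⟨c', hc⟩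
    refine ⟨mj a' b' c', ?_⟩
    have h1 := ih _ _ _ ha hb hc
    have : (fun v => mj (ext a a' v) (ext b b' v) (ext c c' v)) =
        ext (fun v => mj (a v) (b v) (c v)) (mj a' b' c') := by
      funext v
      cases v <;> rfl
    exact Eq.mp (congrArg P this) h1

/-! ## pp-constructions -/

theorem PPConstructible.trans {A B C : FStr} (h1 : PPConstructible A B)
    (h2 : PPConstructible B C) : PPConstructible A C := by
  obtain ⟨d, hd, S, hS, ⟨h, hh⟩, ⟨g, hg⟩⟩ := h1
  obtain ⟨e, he, T, hT, ⟨h', hh'⟩, ⟨g', hg'⟩⟩ := h2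
  have := C.fin
  have := C.ne
  -- homomorphisms preserve pp-definable relations: we need the translated relations
  have key : ∀ (V : Type) (P : (V → B.D) → Prop), PPDef B V P →
      ∃ Q : (V → (Fin e → C.D)) → Prop, PPDef C (V × Fin e) (fun t => Q (fun v j => t (v, j))) ∧
        (∀ t, P t → Q (fun v => h' (t v))) ∧ (∀ t, Q t → P (fun v => g' (t v))) := by
    intro V P hP
    have h3 : ∃ Q : (V → (Fin e → C.D)) → Prop,
        PPDef (powStr C e B.I B.ar T) V Q ∧
        (∀ t, P t → Q (fun v => h' (t v))) ∧ (∀ t, Q t → P (fun v => g' (t v))) := by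
      induction hP with
      | eq x y =>
        refine ⟨fun t => t x = t y, PPDef.eq x y, fun t ht => ?_, fun t ht => ?_⟩
        · exact congrArg h' ht
        · exact congrArg g' ht
      | rel i v =>
        exact ⟨fun t => T i (fun k => t (v k)),
          PPDef.rel (B := powStr C e B.I B.ar T) i v,
          fun t ht => hh' i _ ht, fun t ht => hg' i _ ht⟩
      | and _ _ ih1 ih2 =>
        obtain ⟨Q1, a1, b1, c1⟩ := ih1
        obtain ⟨Q2, a2, b2, c2⟩ := ih2
        exact ⟨fun t => Q1 t ∧ Q2 t, PPDef.and a1 a2, fun t ht => ⟨b1 t ht.1, b2 t ht.2⟩,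
          fun t ht => ⟨c1 t ht.1, c2 t ht.2⟩⟩
      | @ex V P _ ih =>
        obtain ⟨Q1, a1, b1, c1⟩ := ih
        refine ⟨fun t => ∃ a, Q1 (ext t a), PPDef.ex a1, ?_, ?_⟩
        · rintro t ⟨a, ha⟩
          refine ⟨h' a, ?_⟩
          have := b1 _ ha
          have h4 : (fun v => h' (ext t a v)) = ext (fun v => h' (t v)) (h' a) := by
            funext v
            cases v <;> rfl
          rw [h4] at this
          exact this
        · rintro t ⟨a, ha⟩
          refine ⟨g' a, ?_⟩
          have := c1 _ ha
          have h4 : (fun v => g' (ext t a v)) = ext (fun v => g' (t v)) (g' a) := by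
            funext v
            cases v <;> rfl
          rw [h4] at this
          exact this
    obtain ⟨Q, hQ, b, c⟩ := h3
    exact ⟨Q, PPDef.power he T hT hQ, b, c⟩
  choose Q hQ hQh hQg using fun i => key _ _ (hS i)
  let E : Fin (d * e) ≃ Fin d × Fin e := finProdFinEquiv.symm
  refine ⟨d * e, Nat.mul_pos hd he,
    fun i t => Q i (fun p j => t p.1 (E.symm (p.2, j))), ?_, ⟨?_, ?_⟩, ⟨?_, ?_⟩⟩
  · intro i
    refine ((hQ i).rename (fun p : (Fin (A.ar i) × Fin d) × Fin e =>
      (p.1.1, E.symm (p.1.2, p.2)))).congr ?_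
    intro t
    exact Iff.rfl
  · exact fun a x => h' (h a (E x).1) (E x).2
  · intro i t ht
    have h1 := hQh i (fun p => h (t p.1) p.2) (hh i t ht)
    show Q i (fun p j => h' (h (t p.1) (E (E.symm (p.2, j))).1) (E (E.symm (p.2, j))).2)
    simp only [_root_.Equiv.apply_symm_apply]
    exact h1
  · exact fun x => g (fun j => g' (fun l => x (E.symm (j, l))))
  · intro i t ht
    exact hg i _ (hQg i _ ht)

/-- A variant with an arbitrary finite index set. -/
theorem PPConstructible.of_index {A B : FStr} (J : Type) [Finite J] [Nonempty J]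
    (S : (i : A.I) → (Fin (A.ar i) → (J → B.D)) → Prop)
    (hS : ∀ i, PPDef B (Fin (A.ar i) × J) (fun t => S i (fun k j => t (k, j))))
    (h : A.D → (J → B.D)) (hh : ∀ i t, A.rel i t → S i (fun k => h (t k)))
    (g : (J → B.D) → A.D) (hg : ∀ i t, S i t → A.rel i (fun k => g (t k))) :
    PPConstructible A B := by
  obtain ⟨d, ⟨E⟩⟩ := Finite.exists_equiv_fin J
  have hd : 1 ≤ d := by
    obtain ⟨j⟩ := (inferInstance : Nonempty J)
    exact Nat.lt_of_le_of_lt (Nat.zero_le _) (E j).2
  refine ⟨d, hd, fun i t => S i (fun k j => t k (E j)), fun i => ?_,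
    ⟨fun a x => h a (E.symm x), fun i t ht => ?_⟩,
    ⟨fun x => g (fun j => x (E j)), fun i t ht => ?_⟩⟩
  · exact (hS i).rename (fun p => (p.1, E p.2))
  · have := hh i t ht
    simpa using this
  · exact hg i _ ht

/-- An isomorphic copy of a reduct is pp-constructible. -/
theorem PPConstructible.of_reduct {A B : FStr} (f : A.D ≃ B.D) (σ : A.I → B.I)
    (τ : ∀ i, A.ar i = B.ar (σ i))
    (hr : ∀ i t, A.rel i t ↔ B.rel (σ i) (fun k => f (t (Fin.cast (τ i).symm k)))) :
    PPConstructible A B := by
  refine PPConstructible.of_index (A := A) (B := B) Unit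
    (fun i t => B.rel (σ i) (fun k => t (Fin.cast (τ i).symm k) ())) (fun i => ?_)
    (fun a _ => f a) (fun i t ht => ?_) (fun x => f.symm (x ())) (fun i t ht => ?_)
  · exact PPDef.rel (σ i) (fun k => (Fin.cast (τ i).symm k, ()))
  · exact (hr i t).1 ht
  · rw [hr]
    simpa using ht

theorem PPConstructible.refl (B : FStr) : PPConstructible B B :=
  PPConstructible.of_reduct (_root_.Equiv.refl _) id (fun _ => rfl) (fun _ _ => Iff.rfl)

/-- The reduct to a set of relation symbols. -/
def FStr.reduct (B : FStr) (F : Set B.I) : FStr where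
  D := B.D
  fin := B.fin
  ne := B.ne
  I := F
  ar := fun i => B.ar i.1
  rel := fun i t => B.rel i.1 t

theorem reduct_constructible (B : FStr) (F : Set B.I) : PPConstructible (B.reduct F) B :=
  PPConstructible.of_reduct (_root_.Equiv.refl _) (fun i => i.1) (fun _ => rfl)
    (fun _ _ => Iff.rfl)

/-- Compactness: if all finite reducts of `B` are pp-constructible from `A` then so is `B`. -/
theorem compactness (A B : FStr)
    (h : ∀ F : Set B.I, F.Finite → PPConstructible (B.reduct F) A) : PPConstructible B A := by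
  have := A.fin
  have := A.ne
  have := B.fin
  have := B.ne
  -- the canonical index set
  let J : Type := B.D → A.D
  have hJ : Nonempty J := inferInstance
  have hJf : Finite J := inferInstance
  let h₀ : B.D → (J → A.D) := fun b s => s b
  let Good : ((J → A.D) → B.D) → B.I → Prop := fun g i =>
    ∃ S : (Fin (B.ar i) → (J → A.D)) → Prop,
      PPDef A (Fin (B.ar i) × J) (fun t => S (fun k j => t (k, j))) ∧
      (∀ t, B.rel i t → S (fun k => h₀ (t k))) ∧ (∀ t, S t → B.rel i (fun k => g (t k)))
  have key : ∃ g, ∀ i, Good g i := by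
    by_contra hcon
    push Not at hcon
    choose bad hbad using hcon
    have hF : (Set.range bad).Finite := Set.finite_range bad
    obtain ⟨d, hd, S, hS, ⟨h', hh'⟩, ⟨g', hg'⟩⟩ := h (Set.range bad) hF
    let π : Fin d → J := fun j b => h' b j
    let g : (J → A.D) → B.D := fun x => g' (fun j => x (π j))
    apply hbad g
    let i : (B.reduct (Set.range bad)).I := ⟨bad g, ⟨g, rfl⟩⟩
    refine ⟨fun t => S i (fun k j => t k (π j)), ?_, ?_, ?_⟩
    · exact (hS i).rename (fun p => (p.1, π p.2))
    · intro t ht
      exact hh' i t ht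
    · intro t ht
      exact hg' i _ ht
  obtain ⟨g, hg⟩ := key
  choose S hS hSh hSg using hg
  exact PPConstructible.of_index J S hS h₀ hSh g hSg

/-- The complete graph with three vertices. -/
def K3 : FStr where
  D := Fin 3
  fin := inferInstance
  ne := inferInstance
  I := Unit
  ar := fun _ => 2
  rel := fun _ t => t 0 ≠ t 1

theorem not_K3 : ¬ PPConstructible K3 P2 := by
  rintro ⟨d, hd, S, hS, ⟨h, hh⟩, ⟨g, hg⟩⟩
  let a : Fin 3 → (Fin d → Bool) := h
  have hrel : ∀ x y : Fin 3, x ≠ y → S () (fun k => a (![x, y] k)) := by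
    intro x y hxy
    exact hh () ![x, y] hxy
  have h1 := (hS ()).closed_maj (fun p => a (![0, 1] p.1) p.2) (fun p => a (![1, 2] p.1) p.2)
    (fun p => a (![2, 0] p.1) p.2) (hrel 0 1 (by decide)) (hrel 1 2 (by decide))
    (hrel 2 0 (by decide))
  have h2 := hg () _ h1
  apply h2
  show g _ = g _
  congr 1
  funext j
  show mj (a 0 j) (a 1 j) (a 2 j) = mj (a 1 j) (a 2 j) (a 0 j)
  cases a 0 j <;> cases a 1 j <;> cases a 2 j <;> rfl

/-! ## Enumeration of the structures with finitely many relation symbols -/

/-- Codes of the finite structures with a finite signature. -/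
def Code : Type := Σ n : ℕ, Σ s : ℕ, Σ ar : Fin s → ℕ, ((i : Fin s) → (Fin (ar i) → Fin (n + 1)) → Bool)

instance : Countable Code := by
  unfold Code
  infer_instance

/-- The structure with a given code. -/
def decode (c : Code) : FStr where
  D := Fin (c.1 + 1)
  fin := inferInstance
  ne := inferInstance
  I := Fin c.2.1
  ar := c.2.2.1
  rel := fun i t => c.2.2.2 i t = true

theorem exists_code (A : FStr) (hA : Finite A.I) :
    ∃ c : Code, PPConstructible (decode c) A ∧ PPConstructible A (decode c) := by
  classical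
  have := A.fin
  have := A.ne
  obtain ⟨n, ⟨f⟩⟩ := Finite.exists_equiv_fin A.D
  obtain ⟨s, ⟨σ⟩⟩ := Finite.exists_equiv_fin A.I
  have hn : n ≠ 0 := by
    rintro rfl
    obtain ⟨a⟩ := (inferInstance : Nonempty A.D)
    exact (f a).elim0
  obtain ⟨m, rfl⟩ := Nat.exists_eq_succ_of_ne_zero hn
  let c : Code := ⟨m, s, fun i => A.ar (σ.symm i),
    fun i t => decide (A.rel (σ.symm i) (fun k => f.symm (t k)))⟩
  refine ⟨c, ?_, ?_⟩
  · refine PPConstructible.of_reduct (A := decode c) (B := A) f.symm σ.symm (fun _ => rfl) ?_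
    intro i t
    show decide _ = true ↔ _
    rw [decide_eq_true_iff]
    exact Iff.rfl
  · refine PPConstructible.of_reduct (A := A) (B := decode c) f σ
      (fun i => by show A.ar i = A.ar (σ.symm (σ i)); rw [_root_.Equiv.symm_apply_apply]) ?_
    intro i t
    show _ ↔ decide (A.rel (σ.symm (σ i)) _) = true
    rw [decide_eq_true_iff]
    simp only
    have key : ∀ (i' : A.I) (hi : i' = i) (e : A.ar i = A.ar i'),
        A.rel i t ↔ A.rel i' (fun k => t (Fin.cast e.symm k)) := by
      intro i' hi e
      subst hi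
      exact Iff.rfl
    have h2 := key (σ.symm (σ i)) (σ.symm_apply_apply i) (by rw [_root_.Equiv.symm_apply_apply])
    rw [h2]
    have h3 : ∀ k, (decode c).D := fun k => f (t k)
    have h4 : (fun k => f.symm (f (t (Fin.cast (show A.ar (σ.symm (σ i)) = A.ar i by
        rw [_root_.Equiv.symm_apply_apply]) k)))) = fun k => t (Fin.cast (show A.ar (σ.symm (σ i)) = A.ar i by
        rw [_root_.Equiv.symm_apply_apply]) k) := by
      funext k
      exact f.symm_apply_apply _
    exact iff_of_eq (congrArg (A.rel (σ.symm (σ i))) h4.symm)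

end Pool.Agent.V11250.PPDefs
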