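import Mathlib

/-!
# Structures with a finite domain and pp-constructions: definitions
-/

set_option autoImplicit false

namespace Pool.Agent.V11250.PPDefs

/-- A relational structure with a finite nonempty domain `D`. The set `I` of the relation symbols
may be infinite; the relation symbol `i` has the arity `ar i`. -/
structure FStr where
  /-- the domain -/
  D : Type
  /-- the domain is finite -/
  fin : Finite D
  /-- the domain is nonempty -/
  ne : Nonempty D
  /-- the relation symbols -/
  I : Type
  /-- the arities -/
  ar : I → ℕ
  /-- the relations -/
  rel : (i : I) → (Fin (ar i) → D) → Prop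

/-- Extension of an assignment by the value of one more variable. -/
def ext {V D : Type} (t : V → D) (a : D) : Option V → D := fun o => o.elim a t

/-- `PPDef B V P`: the relation `P`, with variables indexed by `V`, is definable in `B` by a
primitive positive formula. The clauses are: equality, atomic formulas, conjunction, existential
quantification. -/
inductive PPDef (B : FStr) : (V : Type) → ((V → B.D) → Prop) → Prop
  | eq {V : Type} (x y : V) : PPDef B V (fun t => t x = t y)
  | rel {V : Type} (i : B.I) (v : Fin (B.ar i) → V) : PPDef B V (fun t => B.rel i (fun k => t (v k)))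
  | and {V : Type} {P Q : (V → B.D) → Prop} : PPDef B V P → PPDef B V Q →
      PPDef B V (fun t => P t ∧ Q t)
  | ex {V : Type} {P : (Option V → B.D) → Prop} : PPDef B (Option V) P →
      PPDef B V (fun t => ∃ a, P (ext t a))

/-- `A` has a pp-construction from `B`: for some `d ≥ 1` there is a `d`-th pp-power of `B`, with
the domain `Fin d → B.D` and with the relations `S i` (for the relation symbols `i` of `A`), which
is homomorphically equivalent to `A`. -/
def PPConstructible (A B : FStr) : Prop :=
  ∃ (d : ℕ) (_ : 1 ≤ d) (S : (i : A.I) → (Fin (A.ar i) → (Fin d → B.D)) → Prop),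
    (∀ i, PPDef B (Fin (A.ar i) × Fin d) (fun t => S i (fun k j => t (k, j)))) ∧
    (∃ h : A.D → (Fin d → B.D), ∀ i t, A.rel i t → S i (fun k => h (t k))) ∧
    (∃ g : (Fin d → B.D) → A.D, ∀ i t, S i t → A.rel i (fun k => g (t k)))

/-- The structure `P₂` with the two elements `false`, `true` and the binary relation
`{(false, true)}`. -/
def P2 : FStr where
  D := Bool
  fin := inferInstance
  ne := inferInstance
  I := Unit
  ar := fun _ => 2
  rel := fun _ t => t 0 = false ∧ t 1 = true

end Pool.Agent.V11250.PPDefs
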