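import Mathlib

/-!
# Torsion-free relatively free groups of infinite rank are not `ℵ₁`-homogeneous: the algebra
-/

set_option autoImplicit false

namespace Pool.Agent.V11250.RelFreeHom

variable {G : Type} [Group G]

/-- The nested word `a_k (a_{k+1} (⋯ z² ⋯)²)²` with `m` levels. -/
def V (a : ℕ → G) (z : G) : ℕ → ℕ → G
  | 0, _ => z
  | m + 1, k => a k * (V a z m (k + 1) * V a z m (k + 1))

theorem V_map (φ : G →* G) (a : ℕ → G) (z : G) (m : ℕ) : ∀ k,
    φ (V a z m k) = V (fun i => φ (a i)) (φ z) m k := by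
  induction m with
  | zero => intro k; rfl
  | succ m ih => intro k; simp only [V, map_mul, ih]

theorem V_congr (a b : ℕ → G) (z : G) (m : ℕ) : ∀ k, (∀ i, k ≤ i → i < k + m → a i = b i) →
    V a z m k = V b z m k := by
  induction m with
  | zero => intro k _; rfl
  | succ m ih =>
    intro k h
    simp only [V]
    rw [h k le_rfl (by omega), ih (k + 1) (fun i h1 h2 => h i (by omega) (by omega))]

/-- The tuple `x_k x_{k+1}⁻²`. -/
def yt (x : ℕ → G) (k : ℕ) : G := x k * (x (k + 1) * x (k + 1))⁻¹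

theorem V_yt (x : ℕ → G) (m : ℕ) : ∀ k, V (yt x) (x (k + m)) m k = x k := by
  induction m with
  | zero => intro k; rfl
  | succ m ih =>
    intro k
    have := ih (k + 1)
    rw [show k + 1 + m = k + (m + 1) by omega] at this
    simp only [V]
    rw [this]
    exact inv_mul_cancel_right _ _

/-- Free generating sets. -/
def FreeGen (X : Set G) : Prop :=
  Subgroup.closure X = ⊤ ∧ ∀ f : X → G, ∃ φ : G →* G, ∀ x : X, φ x = f x

theorem hom_ext {X : Set G} (hX : Subgroup.closure X = ⊤) (φ ψ : G →* G)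
    (h : ∀ x ∈ X, φ x = ψ x) : φ = ψ :=
  MonoidHom.eq_of_eqOn_dense hX h

section

variable {X : Set G} (hX : FreeGen X) (x : ℕ → G) (hx : ∀ i, x i ∈ X)
  (hinj : Function.Injective x)

include hX hx hinj in
/-- The automorphism which maps `x i` to `yt x i` for `i < n`. -/
theorem exists_aut (n : ℕ) : ∃ α : G ≃* G, ∀ i, i < n → α (x i) = yt x i := by
  classical
  obtain ⟨α, hα⟩ := hX.2 (fun t => if h : ∃ i, i < n ∧ x i = t then yt x h.choose else t)
  obtain ⟨β, hβ⟩ := hX.2 (fun t => if h : ∃ i, i < n ∧ x i = t then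
    V x (x n) (n - h.choose) h.choose else t)
  have hα1 : ∀ i, i < n → α (x i) = yt x i := by
    intro i hi
    have h1 := hα ⟨x i, hx i⟩
    have h2 : ∃ j, j < n ∧ x j = x i := ⟨i, hi, rfl⟩
    rw [dif_pos h2] at h1
    have h3 : h2.choose = i := hinj h2.choose_spec.2
    rw [h3] at h1
    exact h1
  have hβ1 : ∀ i, i < n → β (x i) = V x (x n) (n - i) i := by
    intro i hi
    have h1 := hβ ⟨x i, hx i⟩
    have h2 : ∃ j, j < n ∧ x j = x i := ⟨i, hi, rfl⟩
    rw [dif_pos h2] at h1
    have h3 : h2.choose = i := hinj h2.choose_spec.2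
    rw [h3] at h1
    exact h1
  have hα2 : ∀ t ∈ X, (∀ i, i < n → x i ≠ t) → α t = t := by
    intro t ht h
    have h1 := hα ⟨t, ht⟩
    have h2 : ¬ ∃ j, j < n ∧ x j = t := by
      rintro ⟨j, hj, hj'⟩
      exact h j hj hj'
    rw [dif_neg h2] at h1
    exact h1
  have hβ2 : ∀ t ∈ X, (∀ i, i < n → x i ≠ t) → β t = t := by
    intro t ht h
    have h1 := hβ ⟨t, ht⟩
    have h2 : ¬ ∃ j, j < n ∧ x j = t := by
      rintro ⟨j, hj, hj'⟩
      exact h j hj hj'
    rw [dif_neg h2] at h1
    exact h1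
  have hxn : ∀ i, i < n → x i ≠ x n := fun i hi h => absurd (hinj h) (by omega)
  have hβ3 : ∀ i, i ≤ n → β (x i) = V x (x n) (n - i) i := by
    intro i hi
    rcases Nat.lt_or_ge i n with h | h
    · exact hβ1 i h
    · have h1 : i = n := le_antisymm hi h
      rw [h1, hβ2 (x n) (hx n) hxn, Nat.sub_self]
      rfl
  have hαβ : α.comp β = MonoidHom.id G := by
    apply hom_ext hX.1
    intro t ht
    by_cases h : ∃ i, i < n ∧ x i = t
    · obtain ⟨i, hi, rfl⟩ := h
      show α (β (x i)) = x i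
      rw [hβ1 i hi, V_map, hα2 (x n) (hx n) hxn]
      rw [V_congr (fun j => α (x j)) (yt x) (x n) (n - i) i
        (fun j _ h2 => hα1 j (by omega))]
      have := V_yt x (n - i) i
      rw [show i + (n - i) = n by omega] at this
      exact this
    · push Not at h
      show α (β t) = t
      rw [hβ2 t ht h, hα2 t ht h]
  have hβα : β.comp α = MonoidHom.id G := by
    apply hom_ext hX.1
    intro t ht
    by_cases h : ∃ i, i < n ∧ x i = t
    · obtain ⟨i, hi, rfl⟩ := h
      show β (α (x i)) = x i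
      rw [hα1 i hi]
      unfold yt
      rw [map_mul, map_inv, map_mul, hβ1 i hi, hβ3 (i + 1) (by omega),
        show n - i = (n - (i + 1)) + 1 by omega]
      exact mul_inv_cancel_right _ _
    · push Not at h
      show β (α t) = t
      rw [hα2 t ht h, hβ2 t ht h]
  refine ⟨MonoidHom.toMulEquiv α β hβα hαβ, fun i hi => ?_⟩
  exact hα1 i hi

include hX hx hinj in
/-- The coordinate maps. -/
theorem exists_coord : ∃ π : ℕ → (G →* G), (∀ j i, π j (x i) = if i = j then x 0 else 1) ∧
    (∀ j g, ∃ e : ℤ, π j g = x 0 ^ e) ∧ ∀ g, ∃ N, ∀ j, N ≤ j → π j g = 1 := by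
  classical
  choose π hπ using fun j : ℕ => hX.2 (fun t : X => if t.1 = x j then x 0 else 1)
  have h1 : ∀ j t, t ∈ X → π j t = if t = x j then x 0 else 1 := fun j t ht => hπ j ⟨t, ht⟩
  refine ⟨π, ?_, ?_, ?_⟩
  · intro j i
    rw [h1 j (x i) (hx i)]
    by_cases h : i = j
    · rw [h, if_pos rfl, if_pos rfl]
    · rw [if_neg h, if_neg (fun h' => h (hinj h'))]
  · intro j g
    have hg : g ∈ Subgroup.closure X := by rw [hX.1]; trivial
    induction hg using Subgroup.closure_induction with
    | mem t ht =>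
      rw [h1 j t ht]
      split_ifs
      · exact ⟨1, by simp⟩
      · exact ⟨0, by simp⟩
    | one => exact ⟨0, by simp⟩
    | mul a b _ _ ha hb =>
      obtain ⟨e, he⟩ := ha
      obtain ⟨f, hf⟩ := hb
      exact ⟨e + f, by rw [map_mul, he, hf, zpow_add]⟩
    | inv a _ ha =>
      obtain ⟨e, he⟩ := ha
      exact ⟨-e, by rw [map_inv, he, zpow_neg]⟩
  · intro g
    have hg : g ∈ Subgroup.closure X := by rw [hX.1]; trivial
    induction hg using Subgroup.closure_induction with
    | mem t ht =>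
      by_cases h : ∃ i, x i = t
      · obtain ⟨i, rfl⟩ := h
        refine ⟨i + 1, fun j hj => ?_⟩
        rw [h1 j _ ht, if_neg]
        intro h'
        exact absurd (hinj h') (by omega)
      · push Not at h
        refine ⟨0, fun j _ => ?_⟩
        rw [h1 j _ ht, if_neg (fun h' => h j h'.symm)]
    | one => exact ⟨0, fun j _ => map_one _⟩
    | mul a b _ _ ha hb =>
      obtain ⟨e, he⟩ := ha
      obtain ⟨f, hf⟩ := hb
      exact ⟨max e f, fun j hj => by
        rw [map_mul, he j (le_trans (le_max_left _ _) hj), hf j (le_trans (le_max_right _ _) hj),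
          mul_one]⟩
    | inv a _ ha =>
      obtain ⟨e, he⟩ := ha
      exact ⟨e, fun j hj => by rw [map_inv, he j hj, inv_one]⟩

include hX hx hinj in
theorem no_solution (htf : ∀ g : G, ∀ n : ℕ, 0 < n → g ^ n = 1 → g = 1) (d : G)
    (hd : ∀ n, ∃ z, d = V x z n 0) : False := by
  obtain ⟨π, hπ, hcyc, hfin⟩ := exists_coord hX x hx hinj
  obtain ⟨N, hN⟩ := hfin d
  obtain ⟨z, hz⟩ := hd (N + 1)
  obtain ⟨e, he⟩ := hcyc N z
  have hx0 : x 0 ≠ 1 := by
    intro h0
    have h1 := hπ 0 0
    have h2 : ∀ j, x j = 1 := by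
      intro j
      obtain ⟨φ, hφ⟩ := hX.2 (fun _ => x j)
      have h3 := hφ ⟨x 0, hx 0⟩
      simp only at h3
      rw [h0, map_one] at h3
      exact h3.symm
    have h4 : (0 : ℕ) = 1 := hinj ((h2 0).trans (h2 1).symm)
    exact absurd h4 (by norm_num)
  have key : ∀ m k, k + m = N + 1 → ∀ z' : G, π N z' = x 0 ^ e →
      π N (V x z' m k) = x 0 ^ ((if k ≤ N then (2 : ℤ) ^ (N - k) else 0) + 2 ^ m * e) := by
    intro m
    induction m with
    | zero =>
      intro k hk z' hz'
      rw [if_neg (by omega)]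
      simp only [V, pow_zero, one_mul, zero_add]
      exact hz'
    | succ m ih =>
      intro k hk z' hz'
      have h1 := ih (k + 1) (by omega) z' hz'
      simp only [V]
      rw [map_mul, map_mul, h1, hπ, ← zpow_add]
      rw [if_pos (show k ≤ N by omega)]
      by_cases hkN : k = N
      · rw [if_pos hkN, if_neg (show ¬ k + 1 ≤ N by omega)]
        rw [← zpow_one_add]
        congr 1
        rw [hkN, Nat.sub_self, pow_succ]
        ring
      · rw [if_neg hkN, if_pos (show k + 1 ≤ N by omega), one_mul]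
        congr 1
        rw [show N - k = (N - (k + 1)) + 1 by omega, pow_succ, pow_succ]
        ring
  have h5 := key (N + 1) 0 (by omega) z he
  rw [← hz, hN N le_rfl, if_pos (Nat.zero_le _), Nat.sub_zero] at h5
  have h6 : (2 : ℤ) ^ N + 2 ^ (N + 1) * e = 0 := by
    by_contra hne
    have h7 : x 0 ^ ((2 : ℤ) ^ N + 2 ^ (N + 1) * e) = 1 := h5.symm
    have h8 : x 0 ^ ((2 : ℤ) ^ N + 2 ^ (N + 1) * e).natAbs = 1 := by
      rcases Int.natAbs_eq ((2 : ℤ) ^ N + 2 ^ (N + 1) * e) with h | h
      · rw [h, zpow_natCast] at h7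
        exact h7
      · rw [h, zpow_neg, zpow_natCast, inv_eq_one] at h7
        exact h7
    exact hx0 (htf _ _ (Int.natAbs_pos.2 hne) h8)
  have h9 : (2 : ℤ) ^ N * (1 + 2 * e) = 0 := by
    rw [← h6, pow_succ]
    ring
  rcases mul_eq_zero.1 h9 with h | h
  · exact absurd h (by positivity)
  · omega

end

end Pool.Agent.V11250.RelFreeHom
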