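import Pool.Agent.V11250.LogHomDefs

/-!
# The algebras `A P X Y`
-/

set_option autoImplicit false

namespace Pool.Agent.V11250.SgAlg

open FirstOrder FirstOrder.Language Pool.Agent.V11250.LogHomDefs

variable (P : Type) [Field P] (X Y : Type)

/-- The algebra with three orthogonal idempotents `z`, `e`, `g` and two subspaces with bases `X`
and `Y`, on which `e` respectively `g` act from the left as the identity; all other products
are zero. -/
def A : Type := P × P × P × (X →₀ P) × (Y →₀ P)

noncomputable instance : AddCommGroup (A P X Y) :=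
  inferInstanceAs (AddCommGroup (P × P × P × (X →₀ P) × (Y →₀ P)))

noncomputable instance : Module P (A P X Y) :=
  inferInstanceAs (Module P (P × P × P × (X →₀ P) × (Y →₀ P)))

variable {P X Y}

/-- An element of the algebra given by its components. -/
def mk (a b c : P) (v : X →₀ P) (w : Y →₀ P) : A P X Y := (a, b, c, v, w)

/-- The first component. -/
def ca (x : A P X Y) : P := x.1
/-- The second component. -/
def cb (x : A P X Y) : P := x.2.1
/-- The third component. -/
def cc (x : A P X Y) : P := x.2.2.1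
/-- The fourth component. -/
def cv (x : A P X Y) : X →₀ P := x.2.2.2.1
/-- The fifth component. -/
def cw (x : A P X Y) : Y →₀ P := x.2.2.2.2

theorem ext' {x y : A P X Y} (h1 : ca x = ca y) (h2 : cb x = cb y) (h3 : cc x = cc y)
    (h4 : cv x = cv y) (h5 : cw x = cw y) : x = y := by
  obtain ⟨a, b, c, v, w⟩ := x
  obtain ⟨a', b', c', v', w'⟩ := y
  simp only [ca, cb, cc, cv, cw] at h1 h2 h3 h4 h5
  rw [h1, h2, h3, h4, h5]

noncomputable instance : Mul (A P X Y) :=
  ⟨fun x y => mk (ca x * ca y) (cb x * cb y) (cc x * cc y) (cb x • cv y) (cc x • cw y)⟩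

@[simp] theorem ca_mk (a b c : P) (v : X →₀ P) (w : Y →₀ P) : ca (mk a b c v w) = a := rfl
@[simp] theorem cb_mk (a b c : P) (v : X →₀ P) (w : Y →₀ P) : cb (mk a b c v w) = b := rfl
@[simp] theorem cc_mk (a b c : P) (v : X →₀ P) (w : Y →₀ P) : cc (mk a b c v w) = c := rfl
@[simp] theorem cv_mk (a b c : P) (v : X →₀ P) (w : Y →₀ P) : cv (mk a b c v w) = v := rfl
@[simp] theorem cw_mk (a b c : P) (v : X →₀ P) (w : Y →₀ P) : cw (mk a b c v w) = w := rfl

@[simp] theorem ca_mul (x y : A P X Y) : ca (x * y) = ca x * ca y := rfl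
@[simp] theorem cb_mul (x y : A P X Y) : cb (x * y) = cb x * cb y := rfl
@[simp] theorem cc_mul (x y : A P X Y) : cc (x * y) = cc x * cc y := rfl
@[simp] theorem cv_mul (x y : A P X Y) : cv (x * y) = cb x • cv y := rfl
@[simp] theorem cw_mul (x y : A P X Y) : cw (x * y) = cc x • cw y := rfl

@[simp] theorem ca_add (x y : A P X Y) : ca (x + y) = ca x + ca y := rfl
@[simp] theorem cb_add (x y : A P X Y) : cb (x + y) = cb x + cb y := rfl
@[simp] theorem cc_add (x y : A P X Y) : cc (x + y) = cc x + cc y := rfl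
@[simp] theorem cv_add (x y : A P X Y) : cv (x + y) = cv x + cv y := rfl
@[simp] theorem cw_add (x y : A P X Y) : cw (x + y) = cw x + cw y := rfl

@[simp] theorem ca_neg (x : A P X Y) : ca (-x) = -ca x := rfl
@[simp] theorem cb_neg (x : A P X Y) : cb (-x) = -cb x := rfl
@[simp] theorem cc_neg (x : A P X Y) : cc (-x) = -cc x := rfl
@[simp] theorem cv_neg (x : A P X Y) : cv (-x) = -cv x := rfl
@[simp] theorem cw_neg (x : A P X Y) : cw (-x) = -cw x := rfl

@[simp] theorem ca_zero : ca (0 : A P X Y) = 0 := rfl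
@[simp] theorem cb_zero : cb (0 : A P X Y) = 0 := rfl
@[simp] theorem cc_zero : cc (0 : A P X Y) = 0 := rfl
@[simp] theorem cv_zero : cv (0 : A P X Y) = 0 := rfl
@[simp] theorem cw_zero : cw (0 : A P X Y) = 0 := rfl

@[simp] theorem ca_smul (r : P) (x : A P X Y) : ca (r • x) = r * ca x := rfl
@[simp] theorem cb_smul (r : P) (x : A P X Y) : cb (r • x) = r * cb x := rfl
@[simp] theorem cc_smul (r : P) (x : A P X Y) : cc (r • x) = r * cc x := rfl
@[simp] theorem cv_smul (r : P) (x : A P X Y) : cv (r • x) = r • cv x := rfl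
@[simp] theorem cw_smul (r : P) (x : A P X Y) : cw (r • x) = r • cw x := rfl

noncomputable instance : NonUnitalRing (A P X Y) where
  left_distrib x y z := by
    apply ext' <;> simp [mul_add]
  right_distrib x y z := by
    apply ext' <;> simp [add_mul, add_smul]
  zero_mul x := by
    apply ext' <;> simp
  mul_zero x := by
    apply ext' <;> simp
  mul_assoc x y z := by
    apply ext' <;> simp [mul_assoc, mul_smul]

instance : IsScalarTower P (A P X Y) (A P X Y) where
  smul_assoc r x y := by
    apply ext' <;> simp [mul_assoc, mul_smul]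

instance : SMulCommClass P (A P X Y) (A P X Y) where
  smul_comm r x y := by
    apply ext' <;> simp [smul_smul, mul_left_comm, mul_comm]

/-! ## The value of terms -/

/-- The scalar components of a tuple. -/
def sc {ι : Type} (s : ι → A P X Y) (i : ι) : P × P × P := (ca (s i), cb (s i), cc (s i))

theorem term_lin {ι : Type} [Fintype ι] (t : (LAlg P).Term ι) (π : ι → P × P × P) :
    ∃ (q : P × P × P) (κ κ' : ι → P), ∀ (X Y : Type) (s : ι → A P X Y), sc s = π →
      ca (t.realize s) = q.1 ∧ cb (t.realize s) = q.2.1 ∧ cc (t.realize s) = q.2.2 ∧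
        cv (t.realize s) = ∑ i, κ i • cv (s i) ∧ cw (t.realize s) = ∑ i, κ' i • cw (s i) := by
  classical
  induction t with
  | var i =>
    refine ⟨π i, fun j => if j = i then 1 else 0, fun j => if j = i then 1 else 0,
      fun X Y s hs => ?_⟩
    rw [← hs]
    simp [sc]
  | func f ts ih =>
    cases f with
    | zero =>
      refine ⟨(0, 0, 0), fun _ => 0, fun _ => 0, fun X Y s hs => ?_⟩
      have hval : (Term.func AlgFun.zero ts : (LAlg P).Term ι).realize s = (0 : A P X Y) := rfl
      rw [hval]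
      simp
    | add =>
      obtain ⟨q₀, κ₀, κ₀', h₀⟩ := ih 0
      obtain ⟨q₁, κ₁, κ₁', h₁⟩ := ih 1
      refine ⟨(q₀.1 + q₁.1, q₀.2.1 + q₁.2.1, q₀.2.2 + q₁.2.2), fun i => κ₀ i + κ₁ i,
        fun i => κ₀' i + κ₁' i, fun X Y s hs => ?_⟩
      obtain ⟨a1, a2, a3, a4, a5⟩ := h₀ X Y s hs
      obtain ⟨b1, b2, b3, b4, b5⟩ := h₁ X Y s hs
      have hval : (Term.func AlgFun.add ts : (LAlg P).Term ι).realize s =
        (ts 0).realize s + (ts 1).realize s := rfl
      rw [hval]
      simp only [ca_add, cb_add, cc_add, cv_add, cw_add, a1, a2, a3, a4, a5, b1, b2, b3, b4, b5,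
        add_smul, Finset.sum_add_distrib, and_self]
    | neg =>
      obtain ⟨q₀, κ₀, κ₀', h₀⟩ := ih 0
      refine ⟨(-q₀.1, -q₀.2.1, -q₀.2.2), fun i => -κ₀ i, fun i => -κ₀' i, fun X Y s hs => ?_⟩
      obtain ⟨a1, a2, a3, a4, a5⟩ := h₀ X Y s hs
      have hval : (Term.func AlgFun.neg ts : (LAlg P).Term ι).realize s =
        -(ts 0).realize s := rfl
      rw [hval]
      simp only [ca_neg, cb_neg, cc_neg, cv_neg, cw_neg, a1, a2, a3, a4, a5,
        neg_smul, Finset.sum_neg_distrib, and_self]
    | mul =>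
      obtain ⟨q₀, κ₀, κ₀', h₀⟩ := ih 0
      obtain ⟨q₁, κ₁, κ₁', h₁⟩ := ih 1
      refine ⟨(q₀.1 * q₁.1, q₀.2.1 * q₁.2.1, q₀.2.2 * q₁.2.2), fun i => q₀.2.1 * κ₁ i,
        fun i => q₀.2.2 * κ₁' i, fun X Y s hs => ?_⟩
      obtain ⟨a1, a2, a3, a4, a5⟩ := h₀ X Y s hs
      obtain ⟨b1, b2, b3, b4, b5⟩ := h₁ X Y s hs
      have hval : (Term.func AlgFun.mul ts : (LAlg P).Term ι).realize s =
        (ts 0).realize s * (ts 1).realize s := rfl
      rw [hval]
      simp only [ca_mul, cb_mul, cc_mul, cv_mul, cw_mul, a1, a2, a3, b1, b2, b3, b4, b5,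
        mul_smul, Finset.smul_sum, and_self]
    | smul r =>
      obtain ⟨q₀, κ₀, κ₀', h₀⟩ := ih 0
      refine ⟨(r * q₀.1, r * q₀.2.1, r * q₀.2.2), fun i => r * κ₀ i, fun i => r * κ₀' i,
        fun X Y s hs => ?_⟩
      obtain ⟨a1, a2, a3, a4, a5⟩ := h₀ X Y s hs
      have hval : (Term.func (AlgFun.smul r) ts : (LAlg P).Term ι).realize s =
        r • (ts 0).realize s := rfl
      rw [hval]
      simp only [ca_smul, cb_smul, cc_smul, cv_smul, cw_smul, a1, a2, a3, a4, a5,
        mul_smul, Finset.smul_sum, and_self]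

/-! ## Back and forth -/

variable (P) in
/-- Two finite families of vectors satisfy the same linear relations. -/
def LRel {ι U V : Type} [Fintype ι] [AddCommGroup U] [Module P U] [AddCommGroup V] [Module P V]
    (u : ι → U) (v : ι → V) : Prop :=
  ∀ c : ι → P, ∑ i, c i • u i = 0 ↔ ∑ i, c i • v i = 0

section lrel

variable {ι κ U V : Type} [Fintype ι] [Fintype κ] [AddCommGroup U] [Module P U] [AddCommGroup V]
  [Module P V]

theorem LRel.symm {u : ι → U} {v : ι → V} (h : LRel P u v) : LRel P v u := fun c => (h c).symm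

theorem LRel.reindex {u : ι → U} {v : ι → V} (h : LRel P u v) (e : κ ≃ ι) :
    LRel P (u ∘ e) (v ∘ e) := by
  intro c
  have h1 : ∀ {W : Type} [AddCommGroup W] [Module P W] (x : ι → W),
      ∑ i, c i • (x ∘ e) i = ∑ i, (c ∘ e.symm) i • x i := by
    intro W _ _ x
    rw [← e.sum_comp]
    simp
  rw [h1, h1]
  exact h _

theorem LRel.extend {u : ι → U} [Infinite Y] {v : ι → (Y →₀ P)} (h : LRel P u v) (u' : U) :
    ∃ v' : Y →₀ P, LRel P (fun o : Option ι => o.elim u' u) (fun o : Option ι => o.elim v' v) := by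
  classical
  by_cases hu : ∃ l : ι → P, u' = ∑ i, l i • u i
  · obtain ⟨l, hl⟩ := hu
    refine ⟨∑ i, l i • v i, fun c => ?_⟩
    rw [Fintype.sum_option, Fintype.sum_option]
    simp only [Option.elim_none, Option.elim_some]
    have h1 : c none • u' + ∑ i, c (some i) • u i = ∑ i, (c none * l i + c (some i)) • u i := by
      rw [hl, Finset.smul_sum, ← Finset.sum_add_distrib]
      exact Finset.sum_congr rfl fun i _ => by rw [add_smul, mul_smul]
    have h2 : c none • ∑ i, l i • v i + ∑ i, c (some i) • v i =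
        ∑ i, (c none * l i + c (some i)) • v i := by
      rw [Finset.smul_sum, ← Finset.sum_add_distrib]
      exact Finset.sum_congr rfl fun i _ => by rw [add_smul, mul_smul]
    rw [h1, h2]
    exact h _
  · obtain ⟨x, hx⟩ := Infinite.exists_notMem_finset (Finset.univ.biUnion fun i => (v i).support)
    have hx' : ∀ i, v i x = 0 := by
      intro i
      by_contra h0
      exact hx (Finset.mem_biUnion.2 ⟨i, Finset.mem_univ i, Finsupp.mem_support_iff.2 h0⟩)
    refine ⟨Finsupp.single x 1, fun c => ?_⟩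
    rw [Fintype.sum_option, Fintype.sum_option]
    simp only [Option.elim_none, Option.elim_some]
    by_cases hc : c none = 0
    · rw [hc]
      simp only [zero_smul, zero_add]
      exact h _
    · constructor
      · intro h1
        exfalso
        apply hu
        refine ⟨fun i => -((c none)⁻¹ * c (some i)), ?_⟩
        have h2 : c none • u' = - ∑ i, c (some i) • u i := eq_neg_of_add_eq_zero_left h1
        have h3 : u' = (c none)⁻¹ • (c none • u') := by
          rw [smul_smul, inv_mul_cancel₀ hc, one_smul]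
        rw [h3, h2, smul_neg, Finset.smul_sum, ← Finset.sum_neg_distrib]
        exact Finset.sum_congr rfl fun i _ => by rw [neg_smul, mul_smul]
      · intro h1
        exfalso
        have h2 := DFunLike.congr_fun h1 x
        rw [Finsupp.add_apply, Finsupp.finsetSum_apply] at h2
        simp [hx'] at h2
        exact hc h2

end lrel

/-- The relation of the back and forth system. -/
def SRel {ι X Y X' Y' : Type} [Fintype ι] (s : ι → A P X Y) (t : ι → A P X' Y') : Prop :=
  sc s = sc t ∧ LRel P (fun i => cv (s i)) (fun i => cv (t i)) ∧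
    LRel P (fun i => cw (s i)) (fun i => cw (t i))

theorem SRel.symm {ι X Y X' Y' : Type} [Fintype ι] {s : ι → A P X Y} {t : ι → A P X' Y'}
    (h : SRel s t) : SRel t s :=
  ⟨h.1.symm, h.2.1.symm, h.2.2.symm⟩

/-- The variables `α ⊕ Fin (m + 1)` as the old variables and a new one. -/
def snocEquiv (α : Type) (m : ℕ) : α ⊕ Fin (m + 1) ≃ Option (α ⊕ Fin m) where
  toFun := fun p => match p with
    | Sum.inl i => some (Sum.inl i)
    | Sum.inr j => Fin.lastCases (motive := fun _ => Option (α ⊕ Fin m)) none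
        (fun i => some (Sum.inr i)) j
  invFun := fun o => match o with
    | none => Sum.inr (Fin.last m)
    | some (Sum.inl i) => Sum.inl i
    | some (Sum.inr j) => Sum.inr j.castSucc
  left_inv := by
    intro p
    rcases p with i | j
    · rfl
    · induction j using Fin.lastCases with
      | last => simp
      | cast j => simp
  right_inv := by
    intro o
    rcases o with _ | (i | j)
    · simp
    · rfl
    · simp

theorem elim_snoc {α β : Type} {n : ℕ} (v : α → β) (xs : Fin n → β) (x : β) :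
    Sum.elim v (Fin.snoc xs x : Fin (n + 1) → β) =
      (fun o : Option (α ⊕ Fin n) => o.elim x (Sum.elim v xs)) ∘ snocEquiv α n := by
  funext p
  rcases p with a | i
  · rfl
  · induction i using Fin.lastCases with
    | last => simp [snocEquiv]
    | cast i => simp [snocEquiv]

theorem SRel.extend {ι X Y X' Y' : Type} [Fintype ι] [Infinite X'] [Infinite Y']
    {s : ι → A P X Y} {t : ι → A P X' Y'} (h : SRel s t) (x : A P X Y) :
    ∃ y : A P X' Y', SRel (fun o : Option ι => o.elim x s) (fun o : Option ι => o.elim y t) := by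
  obtain ⟨h1, h2, h3⟩ := h
  obtain ⟨v', hv'⟩ := h2.extend (cv x)
  obtain ⟨w', hw'⟩ := h3.extend (cw x)
  refine ⟨mk (ca x) (cb x) (cc x) v' w', ?_, ?_, ?_⟩
  · funext o
    cases o with
    | none => rfl
    | some i => exact congrFun h1 i
  · intro c
    have := hv' c
    rw [Fintype.sum_option, Fintype.sum_option] at this ⊢
    exact this
  · intro c
    have := hw' c
    rw [Fintype.sum_option, Fintype.sum_option] at this ⊢
    exact this

theorem SRel.reindex {ι κ X Y X' Y' : Type} [Fintype ι] [Fintype κ]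
    {s : ι → A P X Y} {t : ι → A P X' Y'} (h : SRel s t) (e : κ ≃ ι) :
    SRel (s ∘ e) (t ∘ e) :=
  ⟨by
    funext i
    exact congrFun h.1 (e i), h.2.1.reindex e, h.2.2.reindex e⟩

theorem qe {α : Type} [Fintype α] {m : ℕ} (φ : (LAlg P).BoundedFormula α m) :
    ∀ (X Y X' Y' : Type) [Infinite X] [Infinite Y] [Infinite X'] [Infinite Y']
      (v : α → A P X Y) (w : α → A P X' Y') (xs : Fin m → A P X Y) (ys : Fin m → A P X' Y'),
      SRel (Sum.elim v xs) (Sum.elim w ys) → (φ.Realize v xs ↔ φ.Realize w ys) := by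
  induction φ with
  | falsum => intro X Y X' Y' _ _ _ _ v w xs ys _; exact Iff.rfl
  | @equal m t₁ t₂ =>
    intro X Y X' Y' _ _ _ _ v w xs ys h
    obtain ⟨h1, h2, h3⟩ := h
    obtain ⟨q, κ, κ', hq⟩ := term_lin t₁ (sc (Sum.elim v xs))
    obtain ⟨r, μ, μ', hr⟩ := term_lin t₂ (sc (Sum.elim v xs))
    have key : ∀ (X Y : Type) (s : (α ⊕ Fin m) → A P X Y), sc s = sc (Sum.elim v xs) →
        (t₁.realize s = t₂.realize s ↔ q = r ∧ ∑ i, (κ i - μ i) • cv (s i) = 0 ∧
          ∑ i, (κ' i - μ' i) • cw (s i) = 0) := by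
      intro X Y s hs
      obtain ⟨a1, a2, a3, a4, a5⟩ := hq X Y s hs
      obtain ⟨b1, b2, b3, b4, b5⟩ := hr X Y s hs
      have e1 : ∑ i, (κ i - μ i) • cv (s i) = cv (t₁.realize s) - cv (t₂.realize s) := by
        rw [a4, b4, ← Finset.sum_sub_distrib]
        exact Finset.sum_congr rfl fun i _ => sub_smul _ _ _
      have e2 : ∑ i, (κ' i - μ' i) • cw (s i) = cw (t₁.realize s) - cw (t₂.realize s) := by
        rw [a5, b5, ← Finset.sum_sub_distrib]
        exact Finset.sum_congr rfl fun i _ => sub_smul _ _ _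
      rw [e1, e2, sub_eq_zero, sub_eq_zero]
      constructor
      · intro h
        refine ⟨?_, by rw [h], by rw [h]⟩
        have f1 : q.1 = r.1 := by rw [← a1, ← b1, h]
        have f2 : q.2.1 = r.2.1 := by rw [← a2, ← b2, h]
        have f3 : q.2.2 = r.2.2 := by rw [← a3, ← b3, h]
        exact Prod.ext f1 (Prod.ext f2 f3)
      · rintro ⟨h, h4, h5⟩
        exact ext' (by rw [a1, b1, h]) (by rw [a2, b2, h]) (by rw [a3, b3, h]) h4 h5
    show t₁.realize (Sum.elim v xs) = t₂.realize (Sum.elim v xs) ↔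
      t₁.realize (Sum.elim w ys) = t₂.realize (Sum.elim w ys)
    rw [key X Y _ rfl, key X' Y' _ h1.symm, h2 _, h3 _]
  | rel R ts => exact Empty.elim R
  | imp f₁ f₂ ih₁ ih₂ =>
    intro X Y X' Y' _ _ _ _ v w xs ys h
    simp only [BoundedFormula.realize_imp]
    rw [ih₁ X Y X' Y' v w xs ys h, ih₂ X Y X' Y' v w xs ys h]
  | @all m f ih =>
    have key : ∀ (X Y X' Y' : Type) [Infinite X] [Infinite Y] [Infinite X'] [Infinite Y']
      (v : α → A P X Y) (w : α → A P X' Y') (xs : Fin m → A P X Y) (ys : Fin m → A P X' Y'),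
      SRel (Sum.elim v xs) (Sum.elim w ys) → (∀ a, f.Realize v (Fin.snoc xs a)) →
        ∀ a, f.Realize w (Fin.snoc ys a) := by
      intro X Y X' Y' _ _ _ _ v w xs ys h hv y
      obtain ⟨x, hx⟩ := h.symm.extend y
      have h2 : SRel (Sum.elim v (Fin.snoc xs x : Fin (m + 1) → A P X Y))
          (Sum.elim w (Fin.snoc ys y : Fin (m + 1) → A P X' Y')) := by
        rw [elim_snoc, elim_snoc]
        exact hx.symm.reindex _
      exact (ih X Y X' Y' _ _ _ _ h2).1 (hv x)
    intro X Y X' Y' _ _ _ _ v w xs ys h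
    simp only [BoundedFormula.realize_all]
    exact ⟨key X Y X' Y' v w xs ys h, key X' Y' X Y w v ys xs h.symm⟩

/-! ## The two idempotents -/

/-- The idempotent `e`. -/
noncomputable def ie : A P X Y := mk 0 1 0 0 0
/-- The idempotent `g`. -/
noncomputable def ig : A P X Y := mk 0 0 1 0 0

/-- The isomorphism which exchanges the roles of `e` and `g`. -/
noncomputable def swapEquiv : A P X Y ≃[LAlg P] A P Y X where
  toFun := fun x => mk (ca x) (cc x) (cb x) (cw x) (cv x)
  invFun := fun x => mk (ca x) (cc x) (cb x) (cw x) (cv x)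
  left_inv := fun x => rfl
  right_inv := fun x => rfl
  map_fun' := by
    intro n f v
    cases f <;> rfl
  map_rel' := fun r => Empty.elim r

/-- The idempotents `e` and `g` satisfy the same formulas. -/
theorem same_type [Infinite X] [Infinite Y] (φ : (LAlg P).Formula (Fin 1)) :
    φ.Realize (fun _ => (ie : A P X Y)) ↔ φ.Realize (fun _ => (ig : A P X Y)) := by
  have h1 : φ.Realize (fun _ => (ie : A P X Y)) ↔ φ.Realize (fun _ => (ie : A P Y X)) := by
    unfold Formula.Realize
    apply qe φ X Y Y X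
    refine ⟨?_, ?_, ?_⟩
    · funext i
      rcases i with i | i
      · rfl
      · exact Fin.elim0 i
    · intro c
      have e1 : ∀ (i : Fin 1 ⊕ Fin 0), cv ((Sum.elim (fun _ => (ie : A P X Y))
          (default : Fin 0 → A P X Y)) i) = 0 := by
        rintro (i | i)
        · rfl
        · exact Fin.elim0 i
      have e2 : ∀ (i : Fin 1 ⊕ Fin 0), cv ((Sum.elim (fun _ => (ie : A P Y X))
          (default : Fin 0 → A P Y X)) i) = 0 := by
        rintro (i | i)
        · rfl
        · exact Fin.elim0 i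
      simp only [e1, e2, smul_zero, Finset.sum_const_zero]
    · intro c
      have e1 : ∀ (i : Fin 1 ⊕ Fin 0), cw ((Sum.elim (fun _ => (ie : A P X Y))
          (default : Fin 0 → A P X Y)) i) = 0 := by
        rintro (i | i)
        · rfl
        · exact Fin.elim0 i
      have e2 : ∀ (i : Fin 1 ⊕ Fin 0), cw ((Sum.elim (fun _ => (ie : A P Y X))
          (default : Fin 0 → A P Y X)) i) = 0 := by
        rintro (i | i)
        · rfl
        · exact Fin.elim0 i
      simp only [e1, e2, smul_zero, Finset.sum_const_zero]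
  rw [h1]
  have h2 := StrongHomClass.realize_formula (swapEquiv : A P Y X ≃[LAlg P] A P X Y) φ
    (v := fun _ => (ie : A P Y X))
  rw [← h2]
  exact Iff.rfl

/-- If an automorphism maps `e` to `g` then the two vector spaces are isomorphic. -/
theorem rank_eq (σ : A P X Y ≃[LAlg P] A P X Y) (h : σ ie = ig) :
    Cardinal.mk X = Cardinal.mk Y := by
  have hmul : ∀ x y, σ (x * y) = σ x * σ y := fun x y =>
    σ.map_fun (AlgFun.mul : (LAlg P).Functions 2) ![x, y]
  have hadd : ∀ x y, σ (x + y) = σ x + σ y := fun x y =>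
    σ.map_fun (AlgFun.add : (LAlg P).Functions 2) ![x, y]
  have hsmul : ∀ (r : P) x, σ (r • x) = r • σ x := fun r x =>
    σ.map_fun (AlgFun.smul r : (LAlg P).Functions 1) ![x]
  have hzero : σ 0 = 0 := σ.map_fun (AlgFun.zero : (LAlg P).Functions 0) ![]
  -- the two subspaces
  have hV : ∀ x : A P X Y, (ie * x = x ∧ ∀ y, x * y = 0) ↔
      ∃ v, x = mk 0 0 0 v 0 := by
    intro x
    constructor
    · rintro ⟨h1, h2⟩
      refine ⟨cv x, ?_⟩
      have a1 : ca x = 0 := by rw [← h1]; simp [ie]
      have a3 : cc x = 0 := by rw [← h1]; simp [ie]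
      have a5 : cw x = 0 := by rw [← h1]; simp [ie]
      have a2 : cb x = 0 := by
        have := congrArg cb (h2 ie)
        simpa [ie] using this
      exact ext' a1 a2 a3 rfl a5
    · rintro ⟨v, rfl⟩
      refine ⟨?_, fun y => ?_⟩
      · apply ext' <;> simp [ie]
      · apply ext' <;> simp
  have hW : ∀ x : A P X Y, (ig * x = x ∧ ∀ y, x * y = 0) ↔
      ∃ w, x = mk 0 0 0 0 w := by
    intro x
    constructor
    · rintro ⟨h1, h2⟩
      refine ⟨cw x, ?_⟩
      have a1 : ca x = 0 := by rw [← h1]; simp [ig]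
      have a3 : cb x = 0 := by rw [← h1]; simp [ig]
      have a5 : cv x = 0 := by rw [← h1]; simp [ig]
      have a2 : cc x = 0 := by
        have := congrArg cc (h2 ig)
        simpa [ig] using this
      exact ext' a1 a3 a2 a5 rfl
    · rintro ⟨v, rfl⟩
      refine ⟨?_, fun y => ?_⟩
      · apply ext' <;> simp [ig]
      · apply ext' <;> simp
  have hcond : ∀ x, (ie * x = x ∧ ∀ y, x * y = 0) ↔ (ig * σ x = σ x ∧ ∀ y, σ x * y = 0) := by
    intro x
    constructor
    · rintro ⟨h1, h2⟩
      refine ⟨by rw [← h, ← hmul, h1], fun y => ?_⟩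
      obtain ⟨y', rfl⟩ := σ.surjective y
      rw [← hmul, h2, hzero]
    · rintro ⟨h1, h2⟩
      refine ⟨?_, fun y => ?_⟩
      · apply σ.injective
        rw [hmul, h, h1]
      · apply σ.injective
        rw [hmul, h2, hzero]
  -- the linear equivalence
  let F : (X →₀ P) →ₗ[P] (Y →₀ P) :=
    { toFun := fun v => cw (σ (mk 0 0 0 v 0))
      map_add' := by
        intro v v'
        have : (mk 0 0 0 (v + v') 0 : A P X Y) = mk 0 0 0 v 0 + mk 0 0 0 v' 0 := by
          apply ext' <;> simp
        rw [this, hadd, cw_add]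
      map_smul' := by
        intro r v
        have : (mk 0 0 0 (r • v) 0 : A P X Y) = r • mk 0 0 0 v 0 := by
          apply ext' <;> simp
        rw [this, hsmul, cw_smul]
        rfl }
  have himg : ∀ v, σ (mk 0 0 0 v 0) = mk 0 0 0 0 (F v) := by
    intro v
    obtain ⟨w, hw⟩ := (hW _).1 ((hcond _).1 ((hV _).2 ⟨v, rfl⟩))
    have : F v = w := by
      show cw (σ (mk 0 0 0 v 0)) = w
      rw [hw]
      rfl
    rw [this, hw]
  have hinj : Function.Injective F := by
    intro v v' hvv
    have h1 : σ (mk 0 0 0 v 0) = σ (mk 0 0 0 v' 0) := by rw [himg, himg, hvv]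
    have h2 := σ.injective h1
    exact congrArg cv h2
  have hsurj : Function.Surjective F := by
    intro w
    obtain ⟨x, hx⟩ := σ.surjective (mk 0 0 0 0 w)
    have h1 : ig * σ x = σ x ∧ ∀ y, σ x * y = 0 := by
      rw [hx]
      exact (hW _).2 ⟨w, rfl⟩
    obtain ⟨v, rfl⟩ := (hV x).1 ((hcond x).2 h1)
    refine ⟨v, ?_⟩
    show cw (σ (mk 0 0 0 v 0)) = w
    rw [hx]
    rfl
  have hrank := (LinearEquiv.ofBijective F ⟨hinj, hsurj⟩).rank_eq
  rw [rank_finsupp_self, rank_finsupp_self] at hrank
  simpa using hrank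

end Pool.Agent.V11250.SgAlg
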