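import Pool.Agent.V11250.SgAlg

/-!
# A logically homogeneous semigroup whose semigroup algebras are not logically homogeneous
-/

set_option autoImplicit false

namespace Pool.Agent.V11250.SgAlg

open FirstOrder FirstOrder.Language Pool.Agent.V11250.LogHomDefs

/-- The semigroup: a zero `z`, idempotents `e ≤ f`, elements `x n` with `e x = x`, elements `y m`
with `e y = z`, and `f` is a left identity. -/
inductive SS : Type
  | z : SS
  | e : SS
  | f : SS
  | x : ℕ → SS
  | y : Set ℕ → SS

/-- The multiplication. -/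
def SS.mul : SS → SS → SS
  | .z, _ => .z
  | .e, .e => .e
  | .e, .f => .e
  | .e, .x n => .x n
  | .e, _ => .z
  | .f, s => s
  | .x _, _ => .z
  | .y _, _ => .z

instance : Mul SS := ⟨SS.mul⟩

instance : Semigroup SS where
  mul_assoc a b c := by
    show SS.mul (SS.mul a b) c = SS.mul a (SS.mul b c)
    cases a <;> cases b <;> cases c <;> rfl

/-! ## Permutations -/

theorem exists_perm {α : Type} (F : Finset α) (p : α → α) (hp : Set.InjOn p F) :
    ∃ g : Equiv.Perm α, ∀ a ∈ F, g a = p a := by
  classical
  have hpre := Equiv.Perm.isMultiplyPretransitive α F.card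
  let x : Fin F.card ↪ α := ⟨fun i => (F.equivFin.symm i : α), fun i j h => by
    have := Subtype.ext h
    exact F.equivFin.symm.injective this⟩
  let y : Fin F.card ↪ α := ⟨fun i => p (F.equivFin.symm i : α), fun i j h => by
    have h1 := hp (F.equivFin.symm i).2 (F.equivFin.symm j).2 h
    exact F.equivFin.symm.injective (Subtype.ext h1)⟩
  obtain ⟨g, hg⟩ := hpre.exists_smul_eq x y
  refine ⟨g, fun a ha => ?_⟩
  have h1 := DFunLike.congr_fun hg (F.equivFin ⟨a, ha⟩)
  have h2 : (g • x) (F.equivFin ⟨a, ha⟩) = g (x (F.equivFin ⟨a, ha⟩)) := rfl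
  rw [h2] at h1
  have h3 : g ((F.equivFin.symm (F.equivFin ⟨a, ha⟩) : F) : α) =
    p ((F.equivFin.symm (F.equivFin ⟨a, ha⟩) : F) : α) := h1
  rw [_root_.Equiv.symm_apply_apply] at h3
  exact h3

/-- The automorphism of the semigroup given by two permutations. -/
def SS.aut (g : Equiv.Perm ℕ) (h : Equiv.Perm (Set ℕ)) : SS ≃[LSg] SS where
  toFun := fun s => match s with
    | .z => .z
    | .e => .e
    | .f => .f
    | .x n => .x (g n)
    | .y m => .y (h m)
  invFun := fun s => match s with
    | .z => .z
    | .e => .e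
    | .f => .f
    | .x n => .x (g.symm n)
    | .y m => .y (h.symm m)
  left_inv := by
    intro s
    cases s <;> simp
  right_inv := by
    intro s
    cases s <;> simp
  map_fun' := by
    intro n f v
    cases f with
    | mul =>
      show (match (SS.mul (v 0) (v 1)) with
        | .z => SS.z
        | .e => .e
        | .f => .f
        | .x n => .x (g n)
        | .y m => .y (h m)) = SS.mul _ _
      simp only [Function.comp_apply]
      cases v 0 <;> cases v 1 <;> rfl
  map_rel' := fun r => Empty.elim r

/-! ## Formulas -/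

section formulas

variable {k : ℕ}

/-- The term `t * t'`. -/
def tmul {α : Type} (t t' : LSg.Term α) : LSg.Term α := Term.func SgFun.mul ![t, t']

theorem realize_tmul {α : Type} (t t' : LSg.Term α) (v : α → SS) :
    (tmul t t').realize v = t.realize v * t'.realize v := rfl

/-- The formula `∀ u, x_i * u = x_i`. -/
def fz (i : Fin k) : LSg.Formula (Fin k) :=
  (Term.bdEqual (n := 1) (tmul (Term.var (Sum.inl i)) (Term.var (Sum.inr 0)))
    (Term.var (Sum.inl i))).all

theorem realize_fz (i : Fin k) (v : Fin k → SS) : (fz i).Realize v ↔ ∀ u : SS, v i * u = v i := by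
  unfold fz Formula.Realize
  simp only [BoundedFormula.realize_all, BoundedFormula.realize_bdEqual, realize_tmul,
    Term.realize_var, Sum.elim_inl, Sum.elim_inr]
  exact Iff.rfl

/-- The formula `∀ u, x_i * u = u`. -/
def ff (i : Fin k) : LSg.Formula (Fin k) :=
  (Term.bdEqual (n := 1) (tmul (Term.var (Sum.inl i)) (Term.var (Sum.inr 0)))
    (Term.var (Sum.inr 0))).all

theorem realize_ff (i : Fin k) (v : Fin k → SS) : (ff i).Realize v ↔ ∀ u : SS, v i * u = u := by
  unfold ff Formula.Realize
  simp only [BoundedFormula.realize_all, BoundedFormula.realize_bdEqual, realize_tmul,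
    Term.realize_var, Sum.elim_inl, Sum.elim_inr]
  exact Iff.rfl

/-- The formula `x_i * x_i = x_i`. -/
def fi (i : Fin k) : LSg.Formula (Fin k) :=
  (tmul (Term.var i) (Term.var i)).equal (Term.var i)

theorem realize_fi (i : Fin k) (v : Fin k → SS) : (fi i).Realize v ↔ v i * v i = v i := by
  unfold fi
  rw [Formula.realize_equal]
  rfl

/-- The formula `∃ u, (u * x_i = x_i and not ∀ w, u * w = w)`. -/
def fx (i : Fin k) : LSg.Formula (Fin k) :=
  ((Term.bdEqual (n := 1) (tmul (Term.var (Sum.inr 0)) (Term.var (Sum.inl i)))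
    (Term.var (Sum.inl i))) ⊓
    ((Term.bdEqual (n := 2) (tmul (Term.var (Sum.inr 0)) (Term.var (Sum.inr 1)))
      (Term.var (Sum.inr 1))).all).not).ex

theorem realize_fx (i : Fin k) (v : Fin k → SS) :
    (fx i).Realize v ↔ ∃ u : SS, u * v i = v i ∧ ¬ ∀ w : SS, u * w = w := by
  unfold fx Formula.Realize
  simp only [BoundedFormula.realize_ex, BoundedFormula.realize_inf, BoundedFormula.realize_not,
    BoundedFormula.realize_all, BoundedFormula.realize_bdEqual, realize_tmul,
    Term.realize_var, Sum.elim_inl, Sum.elim_inr]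
  exact Iff.rfl

/-- The formula `x_i = x_j`. -/
def fe (i j : Fin k) : LSg.Formula (Fin k) := (Term.var i).equal (Term.var j)

theorem realize_fe (i j : Fin k) (v : Fin k → SS) : (fe i j).Realize v ↔ v i = v j := by
  unfold fe
  rw [Formula.realize_equal]
  rfl

end formulas

theorem isz_iff (s : SS) : (∀ u : SS, s * u = s) ↔ s = .z := by
  constructor
  · intro h
    have h1 := h .z
    have h2 := h .e
    cases s with
    | z => rfl
    | e => exact absurd h1 (by rintro ⟨⟩)
    | f => exact absurd h1 (by rintro ⟨⟩)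
    | x n => exact absurd h1 (by rintro ⟨⟩)
    | y m => exact absurd h1 (by rintro ⟨⟩)
  · rintro rfl u
    rfl

theorem isf_iff (s : SS) : (∀ u : SS, s * u = u) ↔ s = .f := by
  constructor
  · intro h
    have h1 := h .f
    cases s with
    | z => exact absurd h1 (by rintro ⟨⟩)
    | e => exact absurd h1 (by rintro ⟨⟩)
    | f => rfl
    | x n => exact absurd h1 (by rintro ⟨⟩)
    | y m => exact absurd h1 (by rintro ⟨⟩)
  · rintro rfl u
    rfl

theorem isi_iff (s : SS) : s * s = s ↔ (s = .z ∨ s = .e ∨ s = .f) := by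
  cases s with
  | z => exact ⟨fun _ => Or.inl rfl, fun _ => rfl⟩
  | e => exact ⟨fun _ => Or.inr (Or.inl rfl), fun _ => rfl⟩
  | f => exact ⟨fun _ => Or.inr (Or.inr rfl), fun _ => rfl⟩
  | x n =>
    constructor
    · intro h
      exact absurd h (by rintro ⟨⟩)
    · rintro (h | h | h) <;> exact absurd h (by rintro ⟨⟩)
  | y m =>
    constructor
    · intro h
      exact absurd h (by rintro ⟨⟩)
    · rintro (h | h | h) <;> exact absurd h (by rintro ⟨⟩)

theorem isx_iff (s : SS) (hs : ¬ s * s = s) :
    (∃ u : SS, u * s = s ∧ ¬ ∀ w : SS, u * w = w) ↔ ∃ n, s = .x n := by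
  constructor
  · rintro ⟨u, h1, h2⟩
    rw [isf_iff] at h2
    cases s with
    | z => exact absurd rfl hs
    | e => exact absurd rfl hs
    | f => exact absurd rfl hs
    | x n => exact ⟨n, rfl⟩
    | y m =>
      cases u with
      | z => exact absurd h1 (by rintro ⟨⟩)
      | e => exact absurd h1 (by rintro ⟨⟩)
      | f => exact absurd rfl h2
      | x n => exact absurd h1 (by rintro ⟨⟩)
      | y m => exact absurd h1 (by rintro ⟨⟩)
  · rintro ⟨n, rfl⟩
    refine ⟨.e, rfl, ?_⟩
    rw [isf_iff]
    rintro ⟨⟩

theorem ss_logHom : LogHom LSg SS := by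
  classical
  intro k a b h
  have hz : ∀ i, a i = .z ↔ b i = .z := fun i => by
    rw [← isz_iff, ← isz_iff, ← realize_fz, ← realize_fz]
    exact h _
  have hf : ∀ i, a i = .f ↔ b i = .f := fun i => by
    rw [← isf_iff, ← isf_iff, ← realize_ff, ← realize_ff]
    exact h _
  have hi : ∀ i, (a i = .z ∨ a i = .e ∨ a i = .f) ↔ (b i = .z ∨ b i = .e ∨ b i = .f) :=
    fun i => by
      rw [← isi_iff, ← isi_iff, ← realize_fi, ← realize_fi]
      exact h _
  have he : ∀ i, a i = .e ↔ b i = .e := by
    intro i
    constructor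
    · intro h1
      have h2 : ¬ b i = .z := fun h3 => by
        rw [← hz, h1] at h3
        exact absurd h3 (by rintro ⟨⟩)
      have h2' : ¬ b i = .f := fun h3 => by
        rw [← hf, h1] at h3
        exact absurd h3 (by rintro ⟨⟩)
      rcases (hi i).1 (Or.inr (Or.inl h1)) with h4 | h4 | h4
      · exact absurd h4 h2
      · exact h4
      · exact absurd h4 h2'
    · intro h1
      have h2 : ¬ a i = .z := fun h3 => by
        rw [hz, h1] at h3
        exact absurd h3 (by rintro ⟨⟩)
      have h2' : ¬ a i = .f := fun h3 => by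
        rw [hf, h1] at h3
        exact absurd h3 (by rintro ⟨⟩)
      rcases (hi i).2 (Or.inr (Or.inl h1)) with h4 | h4 | h4
      · exact absurd h4 h2
      · exact h4
      · exact absurd h4 h2'
  have hx : ∀ i n, a i = .x n → ∃ m, b i = .x m := by
    intro i n hn
    have h1 : ¬ (a i * a i = a i) := by
      rw [hn]
      rintro ⟨⟩
    have h2 : ¬ (b i * b i = b i) := by
      rw [← realize_fi, ← h, realize_fi]
      exact h1
    rw [← isx_iff _ h2, ← realize_fx, ← h, realize_fx, isx_iff _ h1]
    exact ⟨n, hn⟩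
  have hx' : ∀ i n, b i = .x n → ∃ m, a i = .x m := by
    intro i n hn
    have h2 : ¬ (b i * b i = b i) := by
      rw [hn]
      rintro ⟨⟩
    have h1 : ¬ (a i * a i = a i) := by
      rw [← realize_fi, h, realize_fi]
      exact h2
    rw [← isx_iff _ h1, ← realize_fx, h, realize_fx, isx_iff _ h2]
    exact ⟨n, hn⟩
  have hy : ∀ i n, a i = .y n → ∃ m, b i = .y m := by
    intro i n hn
    rcases hb : b i with _ | _ | _ | m | m
    · rw [← hz, hn] at hb
      exact absurd hb (by rintro ⟨⟩)
    · rw [← he, hn] at hb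
      exact absurd hb (by rintro ⟨⟩)
    · rw [← hf, hn] at hb
      exact absurd hb (by rintro ⟨⟩)
    · obtain ⟨m', hm'⟩ := hx' i m hb
      rw [hn] at hm'
      exact absurd hm' (by rintro ⟨⟩)
    · exact ⟨m, rfl⟩
  have heq : ∀ i j, a i = a j ↔ b i = b j := fun i j => by
    rw [← realize_fe, ← realize_fe]
    exact h _
  -- the permutations
  let px : ℕ → ℕ := fun n => if hn : ∃ i, a i = .x n then
    (match b (Classical.choose hn) with
      | .x m => m
      | _ => 0) else 0
  have hpx : ∀ i n m, a i = .x n → b i = .x m → px n = m := by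
    intro i n m hn hm
    have hex : ∃ i, a i = .x n := ⟨i, hn⟩
    have h1 := Classical.choose_spec hex
    have h2 : b (Classical.choose hex) = .x m := by
      rw [← hm, ← heq, h1, hn]
    show (if hn : ∃ i, a i = .x n then
      (match b (Classical.choose hn) with
        | .x m => m
        | _ => 0) else 0) = m
    rw [dif_pos hex, h2]
  let py : Set ℕ → Set ℕ := fun n => if hn : ∃ i, a i = .y n then
    (match b (Classical.choose hn) with
      | .y m => m
      | _ => ∅) else ∅
  have hpy : ∀ i n m, a i = .y n → b i = .y m → py n = m := by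
    intro i n m hn hm
    have hex : ∃ i, a i = .y n := ⟨i, hn⟩
    have h1 := Classical.choose_spec hex
    have h2 : b (Classical.choose hex) = .y m := by
      rw [← hm, ← heq, h1, hn]
    show (if hn : ∃ i, a i = .y n then
      (match b (Classical.choose hn) with
        | .y m => m
        | _ => ∅) else ∅) = m
    rw [dif_pos hex, h2]
  have hfx : (Set.Finite {n | ∃ i, a i = .x n}) := by
    apply Set.Finite.subset (Set.finite_range fun i => (match a i with
      | .x n => n
      | _ => 0))
    rintro n ⟨i, hi⟩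
    exact ⟨i, by simp only [hi]⟩
  have hfy : (Set.Finite {n | ∃ i, a i = .y n}) := by
    apply Set.Finite.subset (Set.finite_range fun i => (match a i with
      | .y n => n
      | _ => ∅))
    rintro n ⟨i, hi⟩
    exact ⟨i, by simp only [hi]⟩
  obtain ⟨g, hg⟩ := exists_perm hfx.toFinset px (by
    intro n hn n' hn' hnn
    rw [Set.Finite.coe_toFinset] at hn hn'
    obtain ⟨i, hi⟩ := hn
    obtain ⟨i', hi'⟩ := hn'
    obtain ⟨m, hm⟩ := hx i n hi
    obtain ⟨m', hm'⟩ := hx i' n' hi'
    rw [hpx i n m hi hm, hpx i' n' m' hi' hm'] at hnn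
    have h1 : b i = b i' := by rw [hm, hm', hnn]
    rw [← heq, hi, hi'] at h1
    exact SS.x.inj h1)
  obtain ⟨g', hg'⟩ := exists_perm hfy.toFinset py (by
    intro n hn n' hn' hnn
    rw [Set.Finite.coe_toFinset] at hn hn'
    obtain ⟨i, hi⟩ := hn
    obtain ⟨i', hi'⟩ := hn'
    obtain ⟨m, hm⟩ := hy i n hi
    obtain ⟨m', hm'⟩ := hy i' n' hi'
    rw [hpy i n m hi hm, hpy i' n' m' hi' hm'] at hnn
    have h1 : b i = b i' := by rw [hm, hm', hnn]
    rw [← heq, hi, hi'] at h1
    exact SS.y.inj h1)
  refine ⟨SS.aut g g', fun i => ?_⟩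
  rcases ha : a i with _ | _ | _ | n | n
  · rw [(hz i).1 ha]
    rfl
  · rw [(he i).1 ha]
    rfl
  · rw [(hf i).1 ha]
    rfl
  · obtain ⟨m, hm⟩ := hx i n ha
    have h1 := hg n (by
      rw [Set.Finite.mem_toFinset]
      exact ⟨i, ha⟩)
    rw [hm]
    show SS.x (g n) = SS.x m
    rw [h1, hpx i n m ha hm]
  · obtain ⟨m, hm⟩ := hy i n ha
    have h1 := hg' n (by
      rw [Set.Finite.mem_toFinset]
      exact ⟨i, ha⟩)
    rw [hm]
    show SS.y (g' n) = SS.y m
    rw [h1, hpy i n m ha hm]

/-! ## The semigroup algebra -/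

section semigroupAlgebra

variable (P : Type) [Field P]

/-- The images of the elements of the semigroup. -/
noncomputable def img : SS → A P ℕ (Set ℕ)
  | .z => mk 1 0 0 0 0
  | .e => mk 1 1 0 0 0
  | .f => mk 1 1 1 0 0
  | .x n => mk 1 0 0 (Finsupp.single n 1) 0
  | .y m => mk 1 0 0 0 (Finsupp.single m 1)

theorem img_mul (s t : SS) : img P (s * t) = img P s * img P t := by
  have h : s * t = SS.mul s t := rfl
  rw [h]
  cases s <;> cases t <;> apply ext' <;> simp [img, SS.mul]

/-- The homomorphism from the semigroup algebra. -/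
noncomputable def Ψ : MonoidAlgebra P SS →ₙₐ[P] A P ℕ (Set ℕ) :=
  MonoidAlgebra.liftMagma P (A := A P ℕ (Set ℕ)) { toFun := img P, map_mul' := img_mul P }

theorem Ψ_single (s : SS) (r : P) : Ψ P (MonoidAlgebra.single s r) = r • img P s := by
  simp [Ψ]

/-- The inverse map. -/
noncomputable def inv : A P ℕ (Set ℕ) →ₗ[P] MonoidAlgebra P SS where
  toFun := fun x => ca x • MonoidAlgebra.single .z 1 +
    cb x • (MonoidAlgebra.single .e 1 - MonoidAlgebra.single .z 1) +
    cc x • (MonoidAlgebra.single .f 1 - MonoidAlgebra.single .e 1) +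
    Finsupp.linearCombination P (fun n => (MonoidAlgebra.single (SS.x n) (1 : P) -
      MonoidAlgebra.single .z 1 : MonoidAlgebra P SS)) (cv x) +
    Finsupp.linearCombination P (fun m => (MonoidAlgebra.single (SS.y m) (1 : P) -
      MonoidAlgebra.single .z 1 : MonoidAlgebra P SS)) (cw x)
  map_add' := by
    intro x y
    simp only [ca_add, cb_add, cc_add, cv_add, cw_add, map_add, add_smul]
    abel
  map_smul' := by
    intro r x
    simp only [ca_smul, cb_smul, cc_smul, cv_smul, cw_smul, map_smul, mul_smul, smul_add,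
      RingHom.id_apply]

theorem inv_apply (x : A P ℕ (Set ℕ)) : inv P x = ca x • MonoidAlgebra.single .z 1 +
    cb x • (MonoidAlgebra.single .e 1 - MonoidAlgebra.single .z 1) +
    cc x • (MonoidAlgebra.single .f 1 - MonoidAlgebra.single .e 1) +
    Finsupp.linearCombination P (fun n => (MonoidAlgebra.single (SS.x n) (1 : P) -
      MonoidAlgebra.single .z 1 : MonoidAlgebra P SS)) (cv x) +
    Finsupp.linearCombination P (fun m => (MonoidAlgebra.single (SS.y m) (1 : P) -
      MonoidAlgebra.single .z 1 : MonoidAlgebra P SS)) (cw x) := rfl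

theorem inv_Ψ (a : MonoidAlgebra P SS) : inv P (Ψ P a) = a := by
  induction a using MonoidAlgebra.induction_linear with
  | zero => rw [map_zero, map_zero]
  | add x y hx hy => rw [map_add, map_add, hx, hy]
  | single s r =>
    rw [Ψ_single, map_smul]
    have h : inv P (img P s) = MonoidAlgebra.single s 1 := by
      cases s <;> simp [inv, img]
    rw [h]
    simp

theorem Ψ_inv (x : A P ℕ (Set ℕ)) : Ψ P (inv P x) = x := by
  have h1 : ∀ v : ℕ →₀ P, Ψ P (Finsupp.linearCombination P
      (fun n => (MonoidAlgebra.single (SS.x n) (1 : P) -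
        MonoidAlgebra.single .z 1 : MonoidAlgebra P SS)) v) = mk 0 0 0 v 0 := by
    intro v
    induction v using Finsupp.induction_linear with
    | zero =>
      rw [map_zero, map_zero]
      rfl
    | add v w hv hw =>
      rw [map_add, map_add, hv, hw]
      apply ext' <;> simp
    | single n r =>
      rw [Finsupp.linearCombination_single, map_smul, map_sub, Ψ_single, Ψ_single, one_smul,
        one_smul]
      apply ext' <;> simp [img, sub_eq_add_neg]
  have h2 : ∀ v : Set ℕ →₀ P, Ψ P (Finsupp.linearCombination P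
      (fun n => (MonoidAlgebra.single (SS.y n) (1 : P) -
        MonoidAlgebra.single .z 1 : MonoidAlgebra P SS)) v) = mk 0 0 0 0 v := by
    intro v
    induction v using Finsupp.induction_linear with
    | zero =>
      rw [map_zero, map_zero]
      rfl
    | add v w hv hw =>
      rw [map_add, map_add, hv, hw]
      apply ext' <;> simp
    | single n r =>
      rw [Finsupp.linearCombination_single, map_smul, map_sub, Ψ_single, Ψ_single, one_smul,
        one_smul]
      apply ext' <;> simp [img, sub_eq_add_neg]
  rw [inv_apply]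
  rw [map_add, map_add, map_add, map_add, h1, h2, map_smul, map_smul, map_smul, map_sub, map_sub,
    Ψ_single, Ψ_single, Ψ_single]
  apply ext' <;> simp [img, sub_eq_add_neg]

/-- The semigroup algebra is isomorphic to the algebra `A P ℕ (Set ℕ)`. -/
noncomputable def algEquiv : MonoidAlgebra P SS ≃[LAlg P] A P ℕ (Set ℕ) where
  toFun := Ψ P
  invFun := inv P
  left_inv := inv_Ψ P
  right_inv := Ψ_inv P
  map_fun' := by
    intro n f v
    cases f with
    | zero => exact map_zero (Ψ P)
    | add => exact map_add (Ψ P) _ _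
    | neg => exact map_neg (Ψ P) _
    | mul => exact map_mul (Ψ P) _ _
    | smul r => exact map_smul (Ψ P) _ _
  map_rel' := fun r => Empty.elim r

/-- The semigroup algebra is not logically homogeneous. -/
theorem not_logHom : ¬ LogHom (LAlg P) (MonoidAlgebra P SS) := by
  intro h
  obtain ⟨σ, hσ⟩ := h 1 (fun _ => (algEquiv P).symm ie) (fun _ => (algEquiv P).symm ig) (by
    intro φ
    have h1 := StrongHomClass.realize_formula (algEquiv P).symm φ (v := fun _ => ie)
    have h2 := StrongHomClass.realize_formula (algEquiv P).symm φ (v := fun _ => ig)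
    have e1 : ((algEquiv P).symm ∘ fun _ : Fin 1 => (ie : A P ℕ (Set ℕ))) =
      fun _ => (algEquiv P).symm ie := rfl
    have e2 : ((algEquiv P).symm ∘ fun _ : Fin 1 => (ig : A P ℕ (Set ℕ))) =
      fun _ => (algEquiv P).symm ig := rfl
    rw [e1] at h1
    rw [e2] at h2
    rw [h1, h2]
    exact same_type φ)
  let τ : A P ℕ (Set ℕ) ≃[LAlg P] A P ℕ (Set ℕ) :=
    (algEquiv P).comp (σ.comp (algEquiv P).symm)
  have hτ : τ ie = ig := by
    show (algEquiv P) (σ ((algEquiv P).symm ie)) = ig
    rw [hσ 0]
    exact (algEquiv P).apply_symm_apply ig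
  have h1 := rank_eq τ hτ
  have h2 : Cardinal.mk ℕ < Cardinal.mk (Set ℕ) := by
    rw [Cardinal.mk_set]
    exact Cardinal.cantor _
  exact absurd h1 h2.ne

end semigroupAlgebra

/-! ## A logically homogeneous field -/

set_option linter.style.haveILetI false in
theorem zmod_logHom : letI := FirstOrder.Ring.compatibleRingOfRing (ZMod 2)
    LogHom Language.ring (ZMod 2) := by
  letI := FirstOrder.Ring.compatibleRingOfRing (ZMod 2)
  intro n a b h
  have h1 : ∀ i, a i = 0 ↔ b i = 0 := by
    intro i
    have h2 := h ((Term.var i).equal 0)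
    rw [Formula.realize_equal, Formula.realize_equal, FirstOrder.Ring.realize_zero,
      FirstOrder.Ring.realize_zero] at h2
    exact h2
  have h3 : a = b := by
    funext i
    have h4 := h1 i
    revert h4
    generalize a i = s
    generalize b i = t
    revert s t
    decide
  rw [h3]
  exact ⟨FirstOrder.Language.Equiv.refl _ _, fun i => rfl⟩

end Pool.Agent.V11250.SgAlg
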