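import Pool.Agent.V11250.SpeckerDefs

/-!
# Specker functions of substructure closed classes which are not MC-finite
-/

set_option autoImplicit false

namespace Pool.Agent.V11250.Specker

open FirstOrder FirstOrder.Language Pool.Agent.V11250.SpeckerDefs

/-! ## Arithmetic -/

/-- The binomial coefficients `(2 ^ m - 1).choose k`, `k < 2 ^ m`, are odd. -/
theorem odd_choose (m k : ℕ) (hk : k < 2 ^ m) : Odd ((2 ^ m - 1).choose k) := by
  induction k with
  | zero => simp
  | succ k ih =>
    have ih' := ih (by omega)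
    have h1 : 2 ∣ (2 ^ m).choose (k + 1) :=
      Nat.Prime.dvd_choose_pow Nat.prime_two (by omega) (by omega)
    have h2 : (2 ^ m).choose (k + 1) = (2 ^ m - 1).choose k + (2 ^ m - 1).choose (k + 1) := by
      have : 2 ^ m = (2 ^ m - 1) + 1 := by omega
      conv_lhs => rw [this]
      exact Nat.choose_succ_succ _ _
    rw [h2] at h1
    rw [Nat.odd_iff] at ih' ⊢
    omega

/-- `(2 ^ r - 1)!` is an odd multiple of the product of the factorials of `1, 2, 4, ...,
2 ^ (r - 1)`. -/
theorem factorial_eq (r : ℕ) : ∃ c, Odd c ∧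
    (2 ^ r - 1).factorial = c * ∏ i ∈ Finset.range r, (2 ^ i).factorial := by
  induction r with
  | zero => exact ⟨1, odd_one, by simp⟩
  | succ r ih =>
    obtain ⟨c, hc, h⟩ := ih
    have h1 := Nat.choose_mul_factorial_mul_factorial (n := 2 ^ (r + 1) - 1) (k := 2 ^ r)
      (by rw [pow_succ]; have := Nat.one_le_two_pow (n := r); omega)
    have h2 : 2 ^ (r + 1) - 1 - 2 ^ r = 2 ^ r - 1 := by
      rw [pow_succ]; omega
    rw [h2, h] at h1
    refine ⟨(2 ^ (r + 1) - 1).choose (2 ^ r) * c, (odd_choose (r + 1) (2 ^ r)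
      (by rw [pow_succ]; have := Nat.one_le_two_pow (n := r); omega)).mul hc, ?_⟩
    rw [← h1, Finset.prod_range_succ]
    ring

/-! ## Blocks -/

/-- The block of an element of `{0, ..., 2 ^ r - 2}`: the blocks have sizes `1, 2, 4, ...`. -/
def blk (v : ℕ) : ℕ := Nat.log 2 (v + 1)

theorem blk_lt {r v : ℕ} (h : v < 2 ^ r - 1) : blk v < r := by
  unfold blk
  apply Nat.log_lt_of_lt_pow (by omega)
  omega

/-- The block as an element of `Fin r`. -/
def blkF (r : ℕ) (v : Fin (2 ^ r - 1)) : Fin r := ⟨blk v, blk_lt v.2⟩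

theorem blk_eq_iff (v i : ℕ) : blk v = i ↔ 2 ^ i ≤ v + 1 ∧ v + 1 < 2 ^ (i + 1) := by
  unfold blk
  rw [Nat.log_eq_iff]
  right
  exact ⟨by norm_num, by omega⟩

theorem card_blk (r : ℕ) (i : Fin r) : Fintype.card {v : Fin (2 ^ r - 1) // blkF r v = i} =
    2 ^ (i : ℕ) := by
  rw [Fintype.card_subtype]
  have h1 : (Finset.univ.filter fun v : Fin (2 ^ r - 1) => blkF r v = i).map
      Fin.valEmbedding = Finset.Ico (2 ^ (i : ℕ) - 1) (2 ^ ((i : ℕ) + 1) - 1) := by
    ext v
    simp only [Finset.mem_map, Finset.mem_filter, Finset.mem_univ, true_and,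
      Fin.valEmbedding_apply, Finset.mem_Ico]
    constructor
    · rintro ⟨w, hw, rfl⟩
      have h2 : blk w = i := congrArg Fin.val hw
      rw [blk_eq_iff] at h2
      omega
    · rintro ⟨h2, h3⟩
      have h4 : 2 ^ ((i : ℕ) + 1) ≤ 2 ^ r := Nat.pow_le_pow_right (by norm_num) i.2
      have h5 := Nat.one_le_two_pow (n := (i : ℕ))
      refine ⟨⟨v, by omega⟩, ?_, rfl⟩
      apply Fin.ext
      show blk v = i
      rw [blk_eq_iff]
      omega
  have h2 := congrArg Finset.card h1
  rw [Finset.card_map, Nat.card_Ico] at h2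
  rw [h2, pow_succ]
  have h5 := Nat.one_le_two_pow (n := (i : ℕ))
  omega

/-- Some element of each block. -/
theorem exists_blk (r i : ℕ) (h : i < r) : ∃ v : Fin (2 ^ r - 1), blk v = i := by
  have h4 : 2 ^ (i + 1) ≤ 2 ^ r := Nat.pow_le_pow_right (by norm_num) h
  have h5 := Nat.one_le_two_pow (n := i)
  have h6 : 2 ^ (i + 1) = 2 ^ i * 2 := pow_succ _ _
  refine ⟨⟨2 ^ i - 1, by omega⟩, ?_⟩
  rw [blk_eq_iff]
  simp only
  omega

/-- The relation between blocks: the path with loops at its two ends. -/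
def E (r : ℕ) (x y : ℕ) : Prop :=
  blk y = blk x + 1 ∨ (blk x = blk y ∧ (blk x = 0 ∨ blk x + 1 = r))

/-! ## Structures -/

section structures

variable (L : FirstOrder.Language.{0, 0}) [L.IsRelational] {k : ℕ} (R : L.Relations k)

/-- The structure `B r`: the relation `R` holds at `(x, y, y, ..., y)` for `E x y`, and nowhere
else, and the other relations are empty. -/
@[reducible] def Bs (r : ℕ) : L.Structure (Fin (2 ^ r - 1)) where
  funMap := fun f => isEmptyElim f
  RelMap := fun {m} S v => (⟨m, S⟩ : Σ n, L.Relations n) = ⟨k, R⟩ ∧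
    ∃ x y : Fin (2 ^ r - 1), E r x y ∧ ∀ i : Fin m, v i = if (i : ℕ) = 0 then x else y

variable {L}

/-- The tuple `(x, y, ..., y)`. -/
def pr {V : Type} (k : ℕ) (x y : V) : Fin k → V := fun i => if (i : ℕ) = 0 then x else y

theorem comp_pr {V W : Type} (f : V → W) (k : ℕ) (x y : V) : f ∘ pr k x y = pr k (f x) (f y) := by
  funext i
  simp only [Function.comp_apply, pr]
  split_ifs <;> rfl

theorem relMap_pr (hk : 2 ≤ k) (r : ℕ) (x y : Fin (2 ^ r - 1)) :
    @Structure.RelMap L _ (Bs L R r) k R (pr k x y) ↔ E r x y := by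
  constructor
  · rintro ⟨-, x', y', h, hv⟩
    have h0 := hv ⟨0, by omega⟩
    have h1 := hv ⟨1, by omega⟩
    simp [pr] at h0 h1
    rw [h0, h1]
    exact h
  · intro h
    exact ⟨rfl, x, y, h, fun i => rfl⟩

theorem emb_E (hk : 2 ≤ k) {r r' : ℕ}
    (f : @Embedding L (Fin (2 ^ r' - 1)) (Fin (2 ^ r - 1)) (Bs L R r') (Bs L R r))
    (x y : Fin (2 ^ r' - 1)) : E r (f x) (f y) ↔ E r' x y := by
  rw [← relMap_pr R hk, ← relMap_pr R hk, ← comp_pr]
  exact @Embedding.map_rel L _ _ (Bs L R r') (Bs L R r) f k R (pr k x y)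

/-- The structures `B r`, `r ≥ 2`, form an antichain. -/
theorem antichain (hk : 2 ≤ k) {r r' : ℕ} (hr' : 2 ≤ r')
    (f : @Embedding L (Fin (2 ^ r' - 1)) (Fin (2 ^ r - 1)) (Bs L R r') (Bs L R r)) :
    r' = r := by
  have hE := emb_E R hk f
  choose x hx using fun i : Fin r' => exists_blk r' i i.2
  let g : ℕ → ℕ := fun i => if h : i < r' then blk (f (x ⟨i, h⟩)) else 0
  have hg : ∀ (i : ℕ) (h : i < r'), g i = blk (f (x ⟨i, h⟩)) := fun i h => dif_pos h
  have hlt : ∀ i, i < r' → g i < r := by
    intro i h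
    rw [hg i h]
    exact blk_lt (f (x ⟨i, h⟩)).2
  have hstep : ∀ i, i + 1 < r' → g (i + 1) = g i + 1 := by
    intro i hi
    have h1 : E r (f (x ⟨i, by omega⟩)) (f (x ⟨i + 1, hi⟩)) := by
      rw [hE]
      left
      rw [hx, hx]
    have h2 : ¬ E r (f (x ⟨i + 1, hi⟩)) (f (x ⟨i, by omega⟩)) := by
      rw [hE]
      rintro (h | ⟨h, -⟩)
      · rw [hx, hx] at h
        simp only at h
        omega
      · rw [hx, hx] at h
        simp only at h
        omega
    rw [hg i (by omega), hg (i + 1) hi]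
    rcases h1 with h1 | ⟨h1, h1'⟩
    · exact h1
    · exfalso
      apply h2
      right
      exact ⟨h1.symm, by rw [← h1]; exact h1'⟩
  have hadd : ∀ i, i < r' → g i = g 0 + i := by
    intro i
    induction i with
    | zero => intro _; rfl
    | succ i ih =>
      intro hi
      rw [hstep i hi, ih (by omega)]
      omega
  have h0 : g 0 = 0 := by
    have h1 : E r (f (x ⟨0, by omega⟩)) (f (x ⟨0, by omega⟩)) := by
      rw [hE]
      right
      exact ⟨rfl, Or.inl (hx _)⟩
    have h2 := hlt 1 (by omega)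
    rw [hadd 1 (by omega)] at h2
    rcases h1 with h1 | ⟨-, h1⟩
    · omega
    · rw [← hg 0 (by omega)] at h1
      omega
  have h1 : E r (f (x ⟨r' - 1, by omega⟩)) (f (x ⟨r' - 1, by omega⟩)) := by
    rw [hE]
    right
    refine ⟨rfl, Or.inr ?_⟩
    rw [hx]
    simp only
    omega
  rcases h1 with h1 | ⟨-, h1⟩
  · omega
  · rw [← hg (r' - 1) (by omega), hadd (r' - 1) (by omega), h0] at h1
    omega

/-! ## The number of copies of `B r` is odd -/

/-- The action of permutations on structures. -/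
instance actStr (V : Type) : MulAction (Equiv.Perm V) (L.Structure V) where
  smul σ A := { funMap := fun f => isEmptyElim f, RelMap := fun S v => A.RelMap S fun i => σ⁻¹ (v i) }
  one_smul A := by
    apply Structure.ext
    · funext n f
      exact isEmptyElim f
    · rfl
  mul_smul σ τ A := by
    apply Structure.ext
    · funext n f
      exact isEmptyElim f
    · funext n S v
      show (A.RelMap S fun i => (σ * τ)⁻¹ (v i)) = A.RelMap S fun i => τ⁻¹ (σ⁻¹ (v i))
      rw [mul_inv_rev]
      rfl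

theorem smul_relMap {V : Type} (σ : Equiv.Perm V) (A : L.Structure V) {m : ℕ}
    (S : L.Relations m) (v : Fin m → V) :
    (σ • A).RelMap S v ↔ A.RelMap S fun i => σ⁻¹ (v i) := Iff.rfl

instance finStr (V : Type) [Finite V] [Finite (Σ n, L.Relations n)] : Finite (L.Structure V) := by
  have : Function.Injective (fun (A : L.Structure V) (S : Σ n, L.Relations n) =>
      {v : Fin S.1 → V | A.RelMap S.2 v}) := by
    intro A A' h
    apply Structure.ext
    · funext n f
      exact isEmptyElim f
    · funext n S v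
      have h1 := congrFun h ⟨n, S⟩
      have h2 : (v ∈ {v : Fin n → V | A.RelMap S v}) = (v ∈ {v : Fin n → V | A'.RelMap S v}) := by
        rw [show {v : Fin n → V | A.RelMap S v} = {v : Fin n → V | A'.RelMap S v} from h1]
      exact h2
  exact Finite.of_injective _ this

theorem mem_orbit_iff (r : ℕ) (A : L.Structure (Fin (2 ^ r - 1))) :
    A ∈ MulAction.orbit (Equiv.Perm (Fin (2 ^ r - 1))) (Bs L R r) ↔
      Nonempty (@Embedding L (Fin (2 ^ r - 1)) (Fin (2 ^ r - 1)) (Bs L R r) A) := by
  constructor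
  · rintro ⟨σ, rfl⟩
    refine ⟨@Embedding.mk L _ _ (Bs L R r) (σ • Bs L R r) σ.toEmbedding ?_ ?_⟩
    · intro n f
      exact isEmptyElim f
    · intro n S v
      show ((Bs L R r).RelMap S fun i => σ⁻¹ (σ (v i))) ↔ _
      have : (fun i => σ⁻¹ (σ (v i))) = v := by
        funext i
        simp
      rw [this]
  · rintro ⟨f⟩
    have hb : Function.Bijective f := (Finite.injective_iff_bijective).1
      (@Embedding.injective L _ _ (Bs L R r) A f)
    let σ : Equiv.Perm (Fin (2 ^ r - 1)) := Equiv.ofBijective f hb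
    refine ⟨σ, ?_⟩
    apply Structure.ext
    · funext n f
      exact isEmptyElim f
    · funext n S v
      have h1 := @Embedding.map_rel L _ _ (Bs L R r) A f n S (fun i => σ⁻¹ (v i))
      have h2 : (f ∘ (fun i => σ⁻¹ (v i))) = v := by
        funext i
        show σ (σ⁻¹ (v i)) = v i
        simp
      rw [h2] at h1
      exact propext h1.symm

/-- The permutations which preserve the blocks. -/
def K (r : ℕ) : Subgroup (Equiv.Perm (Fin (2 ^ r - 1))) where
  carrier := {g | blkF r ∘ g = blkF r}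
  mul_mem' := by
    intro a b ha hb
    show blkF r ∘ (a * b) = blkF r
    have : blkF r ∘ (a * b : Equiv.Perm _) = (blkF r ∘ a) ∘ b := rfl
    rw [this, ha]
    exact hb
  one_mem' := rfl
  inv_mem' := by
    intro a ha
    show blkF r ∘ (a⁻¹ : Equiv.Perm _) = blkF r
    have h1 : blkF r ∘ a = blkF r := ha
    conv_lhs => rw [← h1]
    funext i
    simp

theorem card_K (r : ℕ) : Nat.card (K r) = ∏ i ∈ Finset.range r, (2 ^ i).factorial := by
  classical
  have h1 : Nat.card (K r) =
      Fintype.card {g : Equiv.Perm (Fin (2 ^ r - 1)) // blkF r ∘ g = blkF r} := by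
    rw [← Nat.card_eq_fintype_card]
    rfl
  rw [h1, DomMulAct.stabilizer_card (blkF r), Finset.prod_range]
  apply Finset.prod_congr rfl
  intro i _
  rw [card_blk]

theorem K_le (r : ℕ) : K r ≤ MulAction.stabilizer (Equiv.Perm (Fin (2 ^ r - 1))) (Bs L R r) := by
  intro g hg
  rw [MulAction.mem_stabilizer_iff]
  have hb : ∀ x, blk (g x) = blk x := fun x => congrArg Fin.val (congrFun hg x)
  have hE : ∀ x y : Fin (2 ^ r - 1), E r (g x) (g y) ↔ E r x y := by
    intro x y
    unfold E
    rw [hb, hb]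
  apply Structure.ext
  · funext n f
    exact isEmptyElim f
  · funext n S v
    apply propext
    rw [smul_relMap]
    constructor
    · rintro ⟨h1, x, y, h2, h3⟩
      refine ⟨h1, g x, g y, (hE x y).2 h2, fun i => ?_⟩
      have h4 : g⁻¹ (v i) = if (i : ℕ) = 0 then x else y := h3 i
      have h5 : v i = g (g⁻¹ (v i)) := by simp
      rw [h5, h4]
      split_ifs <;> rfl
    · rintro ⟨h1, x, y, h2, h3⟩
      refine ⟨h1, g⁻¹ x, g⁻¹ y, ?_, fun i => ?_⟩
      · rw [← hE]
        simpa using h2
      · show g⁻¹ (v i) = if (i : ℕ) = 0 then g⁻¹ x else g⁻¹ y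
        rw [h3 i]
        split_ifs <;> rfl

theorem odd_copies (r : ℕ) :
    Odd (MulAction.orbit (Equiv.Perm (Fin (2 ^ r - 1))) (Bs L R r)).ncard := by
  rw [← MulAction.index_stabilizer]
  have h1 := Subgroup.index_mul_card
    (MulAction.stabilizer (Equiv.Perm (Fin (2 ^ r - 1))) (Bs L R r))
  obtain ⟨d, hd⟩ := Subgroup.card_dvd_of_le (K_le R r)
  obtain ⟨c, hc, hfac⟩ := factorial_eq r
  rw [hd, card_K, Nat.card_eq_fintype_card, Fintype.card_perm, Fintype.card_fin, hfac] at h1
  have hpos : 0 < ∏ i ∈ Finset.range r, (2 ^ i).factorial :=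
    Finset.prod_pos fun i _ => Nat.factorial_pos _
  have h2 : (MulAction.stabilizer (Equiv.Perm (Fin (2 ^ r - 1))) (Bs L R r)).index * d = c := by
    apply Nat.eq_of_mul_eq_mul_right hpos
    rw [← h1]
    ring
  rw [← h2] at hc
  exact (Nat.odd_mul.1 hc).1

/-! ## The classes -/

variable (L) in
/-- The class of all structures into which no `B r`, `r ∈ S`, `r ≥ 2`, embeds. -/
def CS (S : Set ℕ) (n : ℕ) (A : L.Structure (Fin n)) : Prop :=
  ∀ r ∈ S, 2 ≤ r → ¬ Nonempty (@Embedding L (Fin (2 ^ r - 1)) (Fin n) (Bs L R r) A)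

theorem CS_closed (S : Set ℕ) : SubstructureClosed L (CS L R S) := by
  intro n m A B hA hBA r hr h2 hemb
  obtain ⟨f⟩ := hBA
  obtain ⟨g⟩ := hemb
  exact hA r hr h2 ⟨@Embedding.comp L _ _ (Bs L R r) B _ A f g⟩

/-- Adding one forbidden structure changes the parity of the number of structures of its size. -/
theorem toggle [Finite (Σ n, L.Relations n)] (hk : 2 ≤ k) (S S' : Set ℕ) (r : ℕ) (hr : 2 ≤ r)
    (hS : r ∈ S) (hS' : r ∉ S') (hsame : ∀ r' < r, (r' ∈ S ↔ r' ∈ S')) :
    ((Sp L (CS L R S) (2 ^ r - 1) : ℕ) : ZMod 2) ≠ (Sp L (CS L R S') (2 ^ r - 1) : ℕ) := by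
  have hbig : ∀ r', r < r' → ∀ A : L.Structure (Fin (2 ^ r - 1)),
      ¬ Nonempty (@Embedding L (Fin (2 ^ r' - 1)) (Fin (2 ^ r - 1)) (Bs L R r') A) := by
    rintro r' h A ⟨f⟩
    have h1 := Fintype.card_le_of_injective f (@Embedding.injective L _ _ (Bs L R r') A f)
    rw [Fintype.card_fin, Fintype.card_fin] at h1
    have h2 : 2 ^ r < 2 ^ r' := Nat.pow_lt_pow_right (by norm_num) h
    have h3 := Nat.one_le_two_pow (n := r)
    omega
  have hset : {A : L.Structure (Fin (2 ^ r - 1)) | CS L R S' (2 ^ r - 1) A} =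
      {A : L.Structure (Fin (2 ^ r - 1)) | CS L R S (2 ^ r - 1) A} ∪
        MulAction.orbit (Equiv.Perm (Fin (2 ^ r - 1))) (Bs L R r) := by
    ext A
    simp only [Set.mem_union, Set.mem_ofPred_eq]
    rw [mem_orbit_iff]
    constructor
    · intro h
      by_cases hA : Nonempty (@Embedding L (Fin (2 ^ r - 1)) (Fin (2 ^ r - 1)) (Bs L R r) A)
      · exact Or.inr hA
      · left
        intro r' hr' h2
        rcases lt_trichotomy r' r with h3 | rfl | h3
        · exact h r' ((hsame r' h3).1 hr') h2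
        · exact hA
        · exact hbig r' h3 A
    · rintro (h | h)
      · intro r' hr' h2
        rcases lt_trichotomy r' r with h3 | rfl | h3
        · exact h r' ((hsame r' h3).2 hr') h2
        · exact absurd hr' hS'
        · exact hbig r' h3 A
      · intro r' hr' h2 hemb
        rw [← mem_orbit_iff] at h
        obtain ⟨σ, rfl⟩ := h
        obtain ⟨g⟩ := hemb
        -- compose with the isomorphism back to `B r`
        have hback : Nonempty (@Embedding L (Fin (2 ^ r - 1)) (Fin (2 ^ r - 1))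
            (σ • Bs L R r) (Bs L R r)) := by
          refine ⟨@Embedding.mk L _ _ (σ • Bs L R r) (Bs L R r) (σ⁻¹ : Equiv.Perm _).toEmbedding
            ?_ ?_⟩
          · intro n f
            exact isEmptyElim f
          · intro n T v
            exact Iff.rfl
        obtain ⟨b⟩ := hback
        have h3 := antichain R hk h2
          (@Embedding.comp L _ _ (Bs L R r') (σ • Bs L R r) _ (Bs L R r) b g)
        rw [h3] at hr'
        exact hS' hr'
  have hdisj : Disjoint {A : L.Structure (Fin (2 ^ r - 1)) | CS L R S (2 ^ r - 1) A}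
      (MulAction.orbit (Equiv.Perm (Fin (2 ^ r - 1))) (Bs L R r)) := by
    rw [Set.disjoint_left]
    intro A h1 h2
    rw [mem_orbit_iff] at h2
    exact h1 r hS hr h2
  have hcard := Set.ncard_union_eq hdisj (Set.toFinite _) (Set.toFinite _)
  rw [← hset] at hcard
  have h1 : Sp L (CS L R S') (2 ^ r - 1) =
      {A : L.Structure (Fin (2 ^ r - 1)) | CS L R S' (2 ^ r - 1) A}.ncard := rfl
  have h2 : Sp L (CS L R S) (2 ^ r - 1) =
      {A : L.Structure (Fin (2 ^ r - 1)) | CS L R S (2 ^ r - 1) A}.ncard := rfl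
  rw [h1, h2, hcard]
  obtain ⟨t, ht⟩ := odd_copies R r
  rw [ht]
  push_cast
  have h20 : (2 : ZMod 2) = 0 := rfl
  rw [h20, zero_mul, zero_add]
  intro h
  have h3 : (0 : ZMod 2) = 1 := by
    have := add_left_cancel (a := (({A : L.Structure (Fin (2 ^ r - 1)) |
      CS L R S (2 ^ r - 1) A}.ncard : ℕ) : ZMod 2)) (b := 0) (c := 1) (by rw [add_zero]; exact h)
    exact this
  exact absurd h3 (by decide)

end structures

/-! ## Countability -/

/-- The sequences modulo 2 which satisfy a linear recurrence from some point on. -/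
def Rec2 (s : ℕ → ZMod 2) : Prop :=
  ∃ (r p : ℕ) (α : Fin p → ZMod 2), ∀ n : ℕ, r ≤ n → s (n + p) = ∑ i : Fin p, α i * s (n + i)

theorem countable_rec2 : {s | Rec2 s}.Countable := by
  have h1 : {s | Rec2 s} = ⋃ (r : ℕ) (p : ℕ) (α : Fin p → ZMod 2),
      {s | ∀ n : ℕ, r ≤ n → s (n + p) = ∑ i : Fin p, α i * s (n + i)} := by
    ext s
    simp [Rec2]
  rw [h1]
  refine Set.countable_iUnion fun r => Set.countable_iUnion fun p =>
    Set.countable_iUnion fun α => ?_
  apply Set.Finite.countable
  apply Set.Finite.of_injOn (f := fun (s : ℕ → ZMod 2) (i : Fin (r + p)) => s i)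
    (t := Set.univ) (fun _ _ => Set.mem_univ _) ?_ Set.finite_univ
  intro s hs t ht hst
  have h2 : ∀ n, s n = t n := by
    intro n
    induction n using Nat.strong_induction_on with
    | _ n ih =>
      by_cases hn : n < r + p
      · exact congrFun hst ⟨n, hn⟩
      · obtain ⟨m, rfl⟩ : ∃ m, n = m + p := ⟨n - p, by omega⟩
        rw [hs m (by omega), ht m (by omega)]
        apply Finset.sum_congr rfl
        intro i _
        rw [ih (m + i) (by omega)]
  exact funext h2

theorem rec2_of_mc (s : ℕ → ℕ) (h : MCFinite fun n => (s n : ℤ)) :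
    Rec2 fun n => (s n : ZMod 2) := by
  obtain ⟨r, p, -, -, α, hα⟩ := h 2 (by norm_num)
  refine ⟨r, p, fun i => (α i : ZMod 2), fun n hn => ?_⟩
  have h1 := (ZMod.intCast_eq_intCast_iff _ _ 2).2 (hα n hn)
  push_cast at h1
  exact h1

/-- A family of sequences, indexed by all sets of natural numbers, different members of which
are different modulo 2, contains a sequence which is not MC-finite. -/
theorem exists_not_mc (s : Set ℕ → ℕ → ℕ)
    (hs : ∀ S S', (∀ n, (s S n : ZMod 2) = (s S' n : ZMod 2)) → S = S') :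
    ∃ S, ¬ MCFinite fun n => (s S n : ℤ) := by
  by_contra hcon
  push Not at hcon
  let F : Set ℕ → {s | Rec2 s} := fun S => ⟨fun n => (s S n : ZMod 2), rec2_of_mc _ (hcon S)⟩
  have hF : Function.Injective F := by
    intro S S' h
    exact hs S S' fun n => congrFun (congrArg Subtype.val h) n
  have hcount : Countable {s | Rec2 s} := countable_rec2.to_subtype
  obtain ⟨g, hg⟩ := exists_injective_nat {s | Rec2 s}
  exact Function.cantor_injective (g ∘ F) (hg.comp hF)

/-- The Specker functions of the classes are pairwise different modulo 2. -/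
theorem sp_injective (L : FirstOrder.Language.{0, 0}) [L.IsRelational]
    [Finite (Σ n, L.Relations n)] {k : ℕ} (hk : 2 ≤ k) (R : L.Relations k) (S S' : Set ℕ)
    (h : ∀ n, ((Sp L (CS L R ((fun i => i + 2) '' S)) n : ℕ) : ZMod 2) =
      (Sp L (CS L R ((fun i => i + 2) '' S')) n : ℕ)) : S = S' := by
  classical
  by_contra hne
  have hex : ∃ i, ¬ (i ∈ S ↔ i ∈ S') := by
    by_contra hcon
    push Not at hcon
    exact hne (Set.ext hcon)
  have hmin := Nat.find_spec hex
  have hbelow : ∀ i < Nat.find hex, (i ∈ S ↔ i ∈ S') := fun i hi => by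
    have := Nat.find_min hex hi
    push Not at this
    exact this
  set i := Nat.find hex with hi
  have himg : ∀ (T : Set ℕ) (j : ℕ), (j + 2 ∈ (fun i => i + 2) '' T ↔ j ∈ T) := by
    intro T j
    constructor
    · rintro ⟨l, hl, h2⟩
      have : l = j := by
        simp only at h2
        omega
      rwa [← this]
    · intro hj
      exact ⟨j, hj, rfl⟩
  have hsame : ∀ r' < i + 2, (r' ∈ (fun i => i + 2) '' S ↔ r' ∈ (fun i => i + 2) '' S') := by
    intro r' hr'
    rcases Nat.lt_or_ge r' 2 with h2 | h2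
    · constructor
      · rintro ⟨l, -, h3⟩
        simp only at h3
        omega
      · rintro ⟨l, -, h3⟩
        simp only at h3
        omega
    · obtain ⟨j, rfl⟩ : ∃ j, r' = j + 2 := ⟨r' - 2, by omega⟩
      rw [himg, himg]
      exact hbelow j (by omega)
  by_cases hiS : i ∈ S
  · have hiS' : i ∉ S' := fun h' => hmin ⟨fun _ => h', fun _ => hiS⟩
    exact toggle R hk _ _ (i + 2) (by omega) ((himg S i).2 hiS)
      (fun h' => hiS' ((himg S' i).1 h')) hsame (h _)
  · have hiS' : i ∈ S' := by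
      by_contra h'
      exact hmin ⟨fun h'' => absurd h'' hiS, fun h'' => absurd h'' h'⟩
    exact toggle R hk _ _ (i + 2) (by omega) ((himg S' i).2 hiS')
      (fun h' => hiS ((himg S i).1 h')) (fun r' hr' => (hsame r' hr').symm) (h _).symm

end Pool.Agent.V11250.Specker
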