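import Mathlib

/-!
# Specker functions of substructure closed classes: definitions
-/

set_option autoImplicit false

namespace Pool.Agent.V11250.SpeckerDefs

open FirstOrder FirstOrder.Language

/-- A class of finite structures closed under isomorphism is given by its members with universe
`{0, ..., n - 1}`, `n` a natural number. It is closed under isomorphism and under (induced)
substructures: every finite structure which embeds into a member is a member. -/
def SubstructureClosed (L : FirstOrder.Language.{0, 0}) (C : ∀ n : ℕ, L.Structure (Fin n) → Prop) :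
    Prop :=
  ∀ (n m : ℕ) (A : L.Structure (Fin n)) (B : L.Structure (Fin m)), C n A →
    Nonempty (@Embedding L (Fin m) (Fin n) B A) → C m B

/-- The Specker function: the number of structures with universe `{0, ..., n - 1}` in the
class. -/
noncomputable def Sp (L : FirstOrder.Language.{0, 0}) (C : ∀ n : ℕ, L.Structure (Fin n) → Prop)
    (n : ℕ) : ℕ :=
  Nat.card {A : L.Structure (Fin n) // C n A}

/-- The sequence `s` is MC-finite: for every `m ≥ 1` it satisfies, from some point on, a linear
recurrence relation with constant integer coefficients modulo `m`. -/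
def MCFinite (s : ℕ → ℤ) : Prop :=
  ∀ m : ℕ, 1 ≤ m → ∃ r p : ℕ, 1 ≤ r ∧ 1 ≤ p ∧ ∃ α : Fin p → ℤ,
    ∀ n : ℕ, r ≤ n → s (n + p) ≡ ∑ i : Fin p, α i * s (n + i) [ZMOD m]

end Pool.Agent.V11250.SpeckerDefs
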