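import Pool.Agent.V11250.IntRel
import Pool.Agent.V11250.GroupLang

/-!
# The group of signed permutations and integer translations, and its first order theory

`W n` is the group of all maps `y ↦ x + e (y ∘ p⁻¹)` of `ℤ ^ n`, where `x` is an integer vector,
`p` a permutation of the coordinates and `e` a sign. `W0 n` is the subgroup of those with
`∑ x = 0`. The main result is that the maps `(x, p, e) ↦ (a x, p, e)` preserve a given formula for
all integers `a ≠ 0` which are prime to some modulus.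
-/

set_option autoImplicit false

namespace Pool.Agent.V11250.SymGroup

open FirstOrder FirstOrder.Language Pool.Agent.V11250.IntRel Pool.Agent.V11250.GroupLang

/-! ## The group `W n` -/

/-- The maps `y ↦ x + e (y ∘ p⁻¹)`. -/
@[ext] structure W (n : ℕ) where
  /-- the translation part -/
  x : Fin n → ℤ
  /-- the permutation part -/
  p : Equiv.Perm (Fin n)
  /-- the sign -/
  e : ℤˣ

variable {n : ℕ}

instance : Mul (W n) := ⟨fun a b => ⟨fun i => a.x i + a.e * b.x (a.p⁻¹ i), a.p * b.p, a.e * b.e⟩⟩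
instance : One (W n) := ⟨⟨0, 1, 1⟩⟩
instance : Inv (W n) := ⟨fun a => ⟨fun i => -(a.e * a.x (a.p i)), a.p⁻¹, a.e⁻¹⟩⟩

@[simp] theorem W.mul_x (a b : W n) (i : Fin n) : (a * b).x i = a.x i + a.e * b.x (a.p⁻¹ i) := rfl
@[simp] theorem W.mul_p (a b : W n) : (a * b).p = a.p * b.p := rfl
@[simp] theorem W.mul_e (a b : W n) : (a * b).e = a.e * b.e := rfl
@[simp] theorem W.one_x (i : Fin n) : (1 : W n).x i = 0 := rfl
@[simp] theorem W.one_p : (1 : W n).p = 1 := rfl
@[simp] theorem W.one_e : (1 : W n).e = 1 := rfl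
@[simp] theorem W.inv_x (a : W n) (i : Fin n) : (a⁻¹).x i = -(a.e * a.x (a.p i)) := rfl
@[simp] theorem W.inv_p (a : W n) : (a⁻¹).p = a.p⁻¹ := rfl
@[simp] theorem W.inv_e (a : W n) : (a⁻¹).e = a.e⁻¹ := rfl

theorem sq_unit (e : ℤˣ) : (e : ℤ) * e = 1 := by
  rcases Int.units_eq_one_or e with h | h <;> simp [h]

instance : Group (W n) where
  mul_assoc a b c := by
    ext i
    · simp only [W.mul_x, W.mul_p, W.mul_e, Units.val_mul, mul_inv_rev, Equiv.Perm.mul_apply]
      ring
    · simp [mul_assoc]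
    · simp [mul_assoc]
  one_mul a := by
    ext i <;> simp
  mul_one a := by
    ext i <;> simp
  inv_mul_cancel a := by
    have h : (a⁻¹).e = a.e := by
      rcases Int.units_eq_one_or a.e with h | h <;> simp [h]
    ext i
    · simp only [W.mul_x, W.inv_x, W.inv_p, inv_inv, h, W.one_x]
      ring
    · simp
    · simp

theorem sum_perm (x : Fin n → ℤ) (p : Equiv.Perm (Fin n)) : ∑ i, x (p i) = ∑ i, x i :=
  Equiv.sum_comp p x

/-- The subgroup of `W n` of all elements with `∑ x = 0`. -/
def W0 (n : ℕ) : Subgroup (W n) where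
  carrier := {w | ∑ i, w.x i = 0}
  mul_mem' := by
    intro a b ha hb
    simp only [Set.mem_ofPred_eq, W.mul_x] at *
    rw [Finset.sum_add_distrib, ← Finset.mul_sum, sum_perm, ha, hb]
    simp
  one_mem' := by simp
  inv_mem' := by
    intro a ha
    simp only [Set.mem_ofPred_eq, W.inv_x] at *
    rw [Finset.sum_neg_distrib, ← Finset.mul_sum, sum_perm, ha]
    simp

/-- The integer coordinates of a tuple of elements of the group. -/
def fl {β : Type} (s : β → W0 n) : β × Fin n → ℤ := fun q => (s q.1 : W n).x q.2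

/-- The relation of the back and forth system. -/
def SRel {β : Type} [Fintype β] (K M : ℕ) (s t : β → W0 n) : Prop :=
  (∀ b, (s b : W n).p = (t b : W n).p ∧ (s b : W n).e = (t b : W n).e) ∧
    Rel K M (fl s) (fl t)

theorem SRel.symm {β : Type} [Fintype β] {K M : ℕ} {s t : β → W0 n} (h : SRel K M s t) :
    SRel K M t s :=
  ⟨fun b => ⟨(h.1 b).1.symm, (h.1 b).2.symm⟩, h.2.symm⟩

theorem SRel.mono {β : Type} [Fintype β] {K K' M M' : ℕ} {s t : β → W0 n} (hK : K ≤ K')
    (hM : M ∣ M') (h : SRel K' M' s t) : SRel K M s t :=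
  ⟨h.1, h.2.mono hK hM⟩

/-- The value of a term is given by linear forms in the integer coordinates, which depend only
on the permutation parts and signs of the arguments. -/
theorem term_lin {β : Type} [Fintype β] (t : LG.Term β)
    (π : β → Equiv.Perm (Fin n) × ℤˣ) :
    ∃ (q : Equiv.Perm (Fin n) × ℤˣ) (c : Fin n → β × Fin n → ℤ),
      ∀ s : β → W0 n, (∀ b, ((s b : W n).p, (s b : W n).e) = π b) →
        (((t.realize s : W0 n) : W n).p, ((t.realize s : W0 n) : W n).e) = q ∧
        ∀ i, ((t.realize s : W0 n) : W n).x i = ∑ z, c i z * fl s z := by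
  classical
  induction t with
  | var b =>
    refine ⟨π b, fun i z => if z = (b, i) then 1 else 0, fun s hs => ⟨hs b, fun i => ?_⟩⟩
    simp [fl]
  | func f ts ih =>
    cases f with
    | mul =>
      obtain ⟨q₀, c₀, h₀⟩ := ih 0
      obtain ⟨q₁, c₁, h₁⟩ := ih 1
      refine ⟨(q₀.1 * q₁.1, q₀.2 * q₁.2), fun i z => c₀ i z + q₀.2 * c₁ (q₀.1⁻¹ i) z,
        fun s hs => ?_⟩
      obtain ⟨a₀, b₀⟩ := h₀ s hs
      obtain ⟨a₁, b₁⟩ := h₁ s hs
      have hval : (Term.func GrpFun.mul ts : LG.Term β).realize s =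
        (ts 0).realize s * (ts 1).realize s := rfl
      rw [hval]
      rw [Prod.ext_iff] at a₀ a₁
      simp only at a₀ a₁
      refine ⟨?_, fun i => ?_⟩
      · rw [← a₀.1, ← a₀.2, ← a₁.1, ← a₁.2]
        rfl
      · rw [Subgroup.coe_mul, W.mul_x, b₀, b₁, a₀.1, a₀.2, Finset.mul_sum,
          ← Finset.sum_add_distrib]
        exact Finset.sum_congr rfl fun z _ => by ring
    | inv =>
      obtain ⟨q₀, c₀, h₀⟩ := ih 0
      refine ⟨(q₀.1⁻¹, q₀.2⁻¹), fun i z => -(q₀.2 * c₀ (q₀.1 i) z), fun s hs => ?_⟩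
      obtain ⟨a₀, b₀⟩ := h₀ s hs
      have hval : (Term.func GrpFun.inv ts : LG.Term β).realize s = ((ts 0).realize s)⁻¹ := rfl
      rw [hval]
      rw [Prod.ext_iff] at a₀
      simp only at a₀
      refine ⟨?_, fun i => ?_⟩
      · rw [← a₀.1, ← a₀.2]
        rfl
      · rw [Subgroup.coe_inv, W.inv_x, b₀, a₀.1, a₀.2, Finset.mul_sum, ← Finset.sum_neg_distrib]
        exact Finset.sum_congr rfl fun z _ => by ring
    | one =>
      refine ⟨(1, 1), fun _ _ => 0, fun s _ => ?_⟩
      have hval : (Term.func GrpFun.one ts : LG.Term β).realize s = (1 : W0 n) := rfl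
      rw [hval]
      exact ⟨rfl, fun i => by simp⟩

/-- The variables `α ⊕ Fin (m + 1)` as the old variables and a new one. -/
def snocEquiv (α : Type) (m : ℕ) : α ⊕ Fin (m + 1) ≃ Option (α ⊕ Fin m) where
  toFun := fun p => match p with
    | Sum.inl i => some (Sum.inl i)
    | Sum.inr j => Fin.lastCases (motive := fun _ => Option (α ⊕ Fin m)) none
        (fun i => some (Sum.inr i)) j
  invFun := fun o => match o with
    | none => Sum.inr (Fin.last m)
    | some (Sum.inl i) => Sum.inl i
    | some (Sum.inr j) => Sum.inr j.castSucc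
  left_inv := by
    intro p
    rcases p with i | j
    · rfl
    · induction j using Fin.lastCases with
      | last => simp
      | cast j => simp
  right_inv := by
    intro o
    rcases o with _ | (i | j)
    · simp
    · rfl
    · simp

/-- The coordinates of a tuple with one more element. -/
def coordEquiv (α : Type) (m n : ℕ) :
    (α ⊕ Fin (m + 1)) × Fin n ≃ ((α ⊕ Fin m) × Fin n) ⊕ Fin n :=
  ((snocEquiv α m).prodCongr (Equiv.refl (Fin n))).trans
    { toFun := fun q => match q with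
        | (none, i) => Sum.inr i
        | (some z, i) => Sum.inl (z, i)
      invFun := fun r => match r with
        | Sum.inr i => (none, i)
        | Sum.inl (z, i) => (some z, i)
      left_inv := by rintro ⟨_ | z, i⟩ <;> rfl
      right_inv := by rintro (⟨z, i⟩ | i) <;> rfl }

theorem fl_snoc {α : Type} {m : ℕ} (v : α → W0 n) (xs : Fin m → W0 n) (g : W0 n) :
    fl (Sum.elim v (Fin.snoc xs g : Fin (m + 1) → W0 n)) =
      (Sum.elim (fl (Sum.elim v xs)) (g : W n).x) ∘ coordEquiv α m n := by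
  funext ⟨z, i⟩
  rcases z with a | j
  · rfl
  · induction j using Fin.lastCases with
    | last => simp [fl, coordEquiv, snocEquiv]
    | cast j => simp [fl, coordEquiv, snocEquiv]

theorem srel_snoc {α : Type} [Fintype α] {m K M : ℕ} {v w : α → W0 n} {xs ys : Fin m → W0 n}
    (h : ∀ b, ((Sum.elim v xs) b : W n).p = ((Sum.elim w ys) b : W n).p ∧
      ((Sum.elim v xs) b : W n).e = ((Sum.elim w ys) b : W n).e)
    (g g' : W0 n) (hp : (g : W n).p = (g' : W n).p) (he : (g : W n).e = (g' : W n).e)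
    (hr : Rel K M (Sum.elim (fl (Sum.elim v xs)) (g : W n).x)
      (Sum.elim (fl (Sum.elim w ys)) (g' : W n).x)) :
    SRel K M (Sum.elim v (Fin.snoc xs g : Fin (m + 1) → W0 n))
      (Sum.elim w (Fin.snoc ys g' : Fin (m + 1) → W0 n)) := by
  refine ⟨fun b => ?_, ?_⟩
  · rcases b with a | j
    · exact h (Sum.inl a)
    · induction j using Fin.lastCases with
      | last => simpa using ⟨hp, he⟩
      | cast j => simpa using h (Sum.inr j)
  · rw [fl_snoc, fl_snoc]
    exact hr.reindex _

theorem qe {α : Type} [Fintype α] {m : ℕ} (φ : LG.BoundedFormula α m) :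
    ∃ K M : ℕ, 0 < M ∧ ∀ (v w : α → W0 n) (xs ys : Fin m → W0 n),
      SRel K M (Sum.elim v xs) (Sum.elim w ys) → (φ.Realize v xs ↔ φ.Realize w ys) := by
  classical
  induction φ with
  | falsum => exact ⟨0, 1, one_pos, fun v w xs ys _ => Iff.rfl⟩
  | @equal m t₁ t₂ =>
    choose q₁ c₁ h₁ using fun π => term_lin (n := n) t₁ π
    choose q₂ c₂ h₂ using fun π => term_lin (n := n) t₂ π
    have hb : ∃ K : ℕ, ∀ π i z, |c₁ π i z - c₂ π i z| ≤ K := by
      have hfin : (Set.range fun y : ((α ⊕ Fin m) → Equiv.Perm (Fin n) × ℤˣ) × Fin n ×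
          ((α ⊕ Fin m) × Fin n) => |c₁ y.1 y.2.1 y.2.2 - c₂ y.1 y.2.1 y.2.2|).Finite :=
        Set.finite_range _
      obtain ⟨B, hB⟩ := hfin.bddAbove
      refine ⟨B.toNat, fun π i z => ?_⟩
      have := hB ⟨(π, i, z), rfl⟩
      exact this.trans (Int.self_le_toNat B)
    obtain ⟨K, hK⟩ := hb
    refine ⟨K, 1, one_pos, fun v w xs ys h => ?_⟩
    obtain ⟨hp, hr⟩ := h
    let π : (α ⊕ Fin m) → Equiv.Perm (Fin n) × ℤˣ := fun b =>
      (((Sum.elim v xs) b : W n).p, ((Sum.elim v xs) b : W n).e)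
    have hπ : ∀ b, (((Sum.elim w ys) b : W n).p, ((Sum.elim w ys) b : W n).e) = π b := by
      intro b
      rw [← (hp b).1, ← (hp b).2]
    have key : ∀ s : (α ⊕ Fin m) → W0 n, (∀ b, ((s b : W n).p, (s b : W n).e) = π b) →
        (t₁.realize s = t₂.realize s ↔ q₁ π = q₂ π ∧
          ∀ i, ∑ z, (c₁ π i z - c₂ π i z) * fl s z = 0) := by
      intro s hs
      obtain ⟨a₁, b₁⟩ := h₁ π s hs
      obtain ⟨a₂, b₂⟩ := h₂ π s hs
      have e1 : ∀ i, ∑ z, (c₁ π i z - c₂ π i z) * fl s z =
          ((t₁.realize s : W0 n) : W n).x i - ((t₂.realize s : W0 n) : W n).x i := by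
        intro i
        rw [b₁, b₂, ← Finset.sum_sub_distrib]
        exact Finset.sum_congr rfl fun z _ => by ring
      constructor
      · intro h
        refine ⟨by rw [← a₁, ← a₂, h], fun i => ?_⟩
        rw [e1, h, sub_self]
      · rintro ⟨hq, hz⟩
        rw [← a₁, ← a₂, Prod.ext_iff] at hq
        apply Subtype.ext
        apply W.ext
        · funext i
          have := hz i
          rw [e1] at this
          linarith
        · exact hq.1
        · exact hq.2
    show t₁.realize (Sum.elim v xs) = t₂.realize (Sum.elim v xs) ↔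
      t₁.realize (Sum.elim w ys) = t₂.realize (Sum.elim w ys)
    rw [key _ (fun b => rfl), key _ hπ]
    obtain ⟨u, hu, hvw, hlin⟩ := hr
    constructor
    · rintro ⟨hq, hz⟩
      exact ⟨hq, fun i => (hlin _ fun z => hK π i z).1 (hz i)⟩
    · rintro ⟨hq, hz⟩
      exact ⟨hq, fun i => (hlin _ fun z => hK π i z).2 (hz i)⟩
  | rel R ts => exact Empty.elim R
  | imp f₁ f₂ ih₁ ih₂ =>
    obtain ⟨K₁, M₁, hM₁, h₁⟩ := ih₁
    obtain ⟨K₂, M₂, hM₂, h₂⟩ := ih₂
    refine ⟨max K₁ K₂, M₁ * M₂, Nat.mul_pos hM₁ hM₂, fun v w xs ys h => ?_⟩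
    simp only [BoundedFormula.realize_imp]
    rw [h₁ v w xs ys (h.mono (le_max_left _ _) (Dvd.intro _ rfl)),
      h₂ v w xs ys (h.mono (le_max_right _ _) (Dvd.intro_left _ rfl))]
  | @all m f ih =>
    obtain ⟨K, M, hM, hK⟩ := ih
    obtain ⟨K', M', hM', hext⟩ := exists_ext_fin n (max K 1) M hM
    refine ⟨K', M', hM', ?_⟩
    have key : ∀ (v w : α → W0 n) (xs ys : Fin m → W0 n),
      SRel K' M' (Sum.elim v xs) (Sum.elim w ys) → (∀ a, f.Realize v (Fin.snoc xs a)) →
        ∀ a, f.Realize w (Fin.snoc ys a) := by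
      intro v w xs ys h hv g
      obtain ⟨y, hy⟩ := hext _ _ _ h.symm.2 (g : W n).x
      have hsum : ∑ i, y i = 0 := by
        obtain ⟨u, hu, hvw, hlin⟩ := hy
        have h1 := hlin (Sum.elim (fun _ => 0) (fun _ => 1)) (by
          intro i
          rcases i with i | i <;> simp)
        simp only [Fintype.sum_sum_type, Sum.elim_inl, Sum.elim_inr, zero_mul, one_mul,
          Finset.sum_const_zero, zero_add] at h1
        exact h1.1 g.2
      let g' : W0 n := ⟨⟨y, (g : W n).p, (g : W n).e⟩, hsum⟩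
      have h2 : SRel K M (Sum.elim v (Fin.snoc xs g' : Fin (m + 1) → W0 n))
          (Sum.elim w (Fin.snoc ys g : Fin (m + 1) → W0 n)) := by
        apply srel_snoc h.1 g' g rfl rfl
        exact (hy.symm).mono (le_max_left _ _) dvd_rfl
      exact (hK _ _ _ _ h2).1 (hv g')
    intro v w xs ys h
    simp only [BoundedFormula.realize_all]
    exact ⟨key v w xs ys h, key w v ys xs h.symm⟩

/-- Multiplication of the translation part by an integer. -/
def scale (a : ℤ) (g : W0 n) : W0 n :=
  ⟨⟨fun i => a * (g : W n).x i, (g : W n).p, (g : W n).e⟩, by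
    show ∑ i, a * (g : W n).x i = 0
    rw [← Finset.mul_sum]
    have : ∑ i, (g : W n).x i = 0 := g.2
    rw [this, mul_zero]⟩

/-- For each formula there is a modulus such that the formula is preserved by multiplication of
the translation parts by the integers prime to the modulus. -/
theorem realize_scale {k : ℕ} (φ : LG.Formula (Fin k)) : ∃ M : ℕ, 0 < M ∧
    ∀ a : ℤ, a ≠ 0 → IsCoprime a (M : ℤ) → ∀ s : Fin k → W0 n,
      (φ.Realize (fun i => scale a (s i)) ↔ φ.Realize s) := by
  obtain ⟨K, M, hM, h⟩ := qe (n := n) φ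
  refine ⟨M, hM, fun a ha hcop s => ?_⟩
  unfold Formula.Realize
  apply h
  refine ⟨fun b => ?_, ?_⟩
  · rcases b with b | b
    · exact ⟨rfl, rfl⟩
    · exact Fin.elim0 b
  · have := Rel.scale (K := K) (fl (Sum.elim s (default : Fin 0 → W0 n))) a ha hcop
    have e1 : fl (Sum.elim (fun i => scale a (s i)) (default : Fin 0 → W0 n)) =
        fun i => a * fl (Sum.elim s (default : Fin 0 → W0 n)) i := by
      funext ⟨b, i⟩
      rcases b with b | b
      · rfl
      · exact Fin.elim0 b
    rw [← e1] at this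
    exact this

end Pool.Agent.V11250.SymGroup
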