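import Pool.Agent.V11250.SymGroup

/-!
# The group `W0 5` is not homogeneous
-/

set_option autoImplicit false

namespace Pool.Agent.V11250.SymGroup

open FirstOrder FirstOrder.Language Pool.Agent.V11250.GroupLang

/-- The vector `e_i - e_0`. -/
def dv (i : Fin 5) : Fin 5 → ℤ := fun k => (if k = i then 1 else 0) - (if k = 0 then 1 else 0)

theorem sum_dv (i : Fin 5) : ∑ k, dv i k = 0 := by
  simp [dv, Finset.sum_sub_distrib]

/-- The element `(c (e_{p 0} - e_0), p)` of the group. -/
def gp (c : ℤ) (p : Equiv.Perm (Fin 5)) : W0 5 :=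
  ⟨⟨fun k => c * dv (p 0) k, p, 1⟩, by
    show ∑ k, c * dv (p 0) k = 0
    rw [← Finset.mul_sum, sum_dv, mul_zero]⟩

/-- The translation by an integer vector with sum zero. -/
def tr (y : Fin 5 → ℤ) (hy : ∑ k, y k = 0) : W0 5 := ⟨⟨y, 1, 1⟩, hy⟩

theorem scale_gp (a c : ℤ) (p : Equiv.Perm (Fin 5)) : scale a (gp c p) = gp (a * c) p := by
  apply Subtype.ext
  apply W.ext
  · funext k
    show a * (c * dv (p 0) k) = a * c * dv (p 0) k
    ring
  · rfl
  · rfl

/-- The element `gp c p` only depends up to conjugation by a translation, independent of `p`, on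
`c` modulo `5`. -/
theorem conj_gp (b c : ℤ) (p : Equiv.Perm (Fin 5)) :
    tr (fun k => b * (5 * (if k = 0 then 1 else 0) - 1)) (by
      rw [← Finset.mul_sum]; simp) * gp (c + 5 * b) p *
    (tr (fun k => b * (5 * (if k = 0 then 1 else 0) - 1)) (by
      rw [← Finset.mul_sum]; simp))⁻¹ = gp c p := by
  apply Subtype.ext
  rw [Subgroup.coe_mul, Subgroup.coe_mul, Subgroup.coe_inv]
  apply W.ext
  · funext k
    have h0 : (p⁻¹ k = 0) ↔ (k = p 0) := by
      rw [Equiv.Perm.inv_eq_iff_eq]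
    simp only [W.mul_x, W.mul_p, W.mul_e, W.inv_x, gp, tr, dv, one_mul, Units.val_one,
      Equiv.Perm.one_apply, inv_one, h0]
    ring
  · show 1 * p * 1⁻¹ = p
    simp
  · show (1 : ℤˣ) * 1 * 1⁻¹ = 1
    simp

/-- The tuples `gp 1` and `gp 2` (indexed by all permutations) satisfy the same formulas. -/
theorem same_formulas {k : ℕ} (f : Fin k → Equiv.Perm (Fin 5)) :
    SameType (fun i => gp 1 (f i)) (fun i => gp 2 (f i)) := by
  intro φ
  obtain ⟨M, hM, h⟩ := realize_scale (n := 5) φ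
  have hunit : IsUnit (2 : ZMod 5) := by
    refine ⟨⟨2, 3, by decide, by decide⟩, rfl⟩
  obtain ⟨a, haM, hap, ha2⟩ := Nat.forall_exists_prime_gt_and_eq_mod hunit M
  have hcop : IsCoprime (a : ℤ) (M : ℤ) := by
    rw [Nat.isCoprime_iff_coprime]
    rw [Nat.Prime.coprime_iff_not_dvd hap]
    intro hdvd
    exact absurd (Nat.le_of_dvd hM hdvd) (by omega)
  have ha0 : (a : ℤ) ≠ 0 := by exact_mod_cast hap.ne_zero
  have h1 := h a ha0 hcop (fun i => gp 1 (f i))
  rw [← h1]
  have h5 : (5 : ℤ) ∣ (a : ℤ) - 2 := by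
    have : ((a : ℤ) : ZMod 5) = ((2 : ℤ) : ZMod 5) := by
      simpa using ha2
    exact (ZMod.intCast_eq_intCast_iff_dvd_sub _ _ _).1 this.symm
  obtain ⟨b, hb⟩ := h5
  have e1 : (fun i => scale (a : ℤ) (gp 1 (f i))) = fun i => gp (2 + 5 * b) (f i) := by
    funext i
    rw [scale_gp]
    congr 1
    linarith
  rw [e1]
  let t : W0 5 := tr (fun k => b * (5 * (if k = 0 then 1 else 0) - 1)) (by
      rw [← Finset.mul_sum]; simp)
  have h2 := realize_mulEquiv (MulAut.conj t) φ (fun i => gp (2 + 5 * b) (f i))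
  rw [← h2]
  have e2 : (fun i => (MulAut.conj t) (gp (2 + 5 * b) (f i))) = fun i => gp 2 (f i) := by
    funext i
    exact conj_gp b 2 (f i)
  rw [e2]

/-- The action on the translations is faithful. -/
theorem faithful (p : Equiv.Perm (Fin 5)) (e : ℤˣ)
    (h : ∀ i j k : Fin 5, (e : ℤ) * ((if k = p i then 1 else 0) - (if k = p j then 1 else 0)) =
      (if k = i then 1 else 0) - (if k = j then 1 else 0)) : p = 1 ∧ e = 1 := by
  have hp : ∀ i, p i = i := by
    intro i
    by_contra hi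
    -- two indices outside `{i, p i}`
    have hall : ∀ i : Fin 5, ∃ j j' : Fin 5, j ≠ j' ∧ j ≠ i ∧ j' ≠ i := by decide
    obtain ⟨j, j', hjj, hji, hji'⟩ := hall i
    have h1 := h i j i
    have h2 := h i j' i
    rw [if_neg (Ne.symm hi), if_pos rfl, if_neg (Ne.symm hji)] at h1
    rw [if_neg (Ne.symm hi), if_pos rfl, if_neg (Ne.symm hji')] at h2
    have h3 : i = p j := by
      by_contra h3
      rw [if_neg h3] at h1
      simp at h1
    have h4 : i = p j' := by
      by_contra h3
      rw [if_neg h3] at h2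
      simp at h2
    exact hjj (p.injective (h3.symm.trans h4))
  refine ⟨Equiv.ext hp, ?_⟩
  have h1 := h 0 1 0
  rw [hp 0, hp 1] at h1
  simp only [if_true, Fin.zero_eq_one_iff] at h1
  norm_num at h1
  exact h1

theorem coe_zpow_x (g : W0 5) (hp : (g : W 5).p = 1) (he : (g : W 5).e = 1) (m : ℕ) :
    ((g ^ m : W0 5) : W 5).p = 1 ∧ ((g ^ m : W0 5) : W 5).e = 1 ∧
      ∀ k, ((g ^ m : W0 5) : W 5).x k = m * (g : W 5).x k := by
  induction m with
  | zero => simp
  | succ m ih =>
    rw [pow_succ]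
    obtain ⟨h1, h2, h3⟩ := ih
    refine ⟨?_, ?_, fun k => ?_⟩
    · rw [Subgroup.coe_mul, W.mul_p, h1, hp, one_mul]
    · rw [Subgroup.coe_mul, W.mul_e, h2, he, one_mul]
    · rw [Subgroup.coe_mul, W.mul_x, h3, h2, h1]
      push_cast
      simp
      ring

theorem pow_parts (g : W0 5) (m : ℕ) : ((g ^ m : W0 5) : W 5).p = (g : W 5).p ^ m ∧
    ((g ^ m : W0 5) : W 5).e = (g : W 5).e ^ m := by
  induction m with
  | zero => simp
  | succ m ih =>
    rw [pow_succ, Subgroup.coe_mul, W.mul_p, W.mul_e, ih.1, ih.2, pow_succ, pow_succ]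
    exact ⟨rfl, rfl⟩

/-- The translations are the elements which commute with all 240-th powers. -/
theorem isTrans_iff (g : W0 5) : ((g : W 5).p = 1 ∧ (g : W 5).e = 1) ↔
    ∀ h : W0 5, g * h ^ 240 = h ^ 240 * g := by
  have hpow : ∀ h : W0 5, ((h ^ 240 : W0 5) : W 5).p = 1 ∧ ((h ^ 240 : W0 5) : W 5).e = 1 := by
    intro h
    obtain ⟨h1, h2⟩ := pow_parts h 240
    rw [h1, h2]
    have hc : Fintype.card (Equiv.Perm (Fin 5)) = 120 := by
      rw [Fintype.card_perm]; rfl
    constructor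
    · have : (h : W 5).p ^ 240 = ((h : W 5).p ^ 120) ^ 2 := by rw [← pow_mul]
      rw [this, ← hc, pow_card_eq_one, one_pow]
    · have : (h : W 5).e ^ 240 = ((h : W 5).e ^ 2) ^ 120 := by rw [← pow_mul]
      rw [this, Int.units_sq, one_pow]
  constructor
  · rintro ⟨hp, he⟩ h
    obtain ⟨h1, h2⟩ := hpow h
    apply Subtype.ext
    rw [Subgroup.coe_mul, Subgroup.coe_mul]
    apply W.ext
    · funext k
      rw [W.mul_x, W.mul_x, hp, he, h1, h2]
      simp [add_comm]
    · rw [W.mul_p, W.mul_p, hp, h1]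
    · rw [W.mul_e, W.mul_e, he, h2]
  · intro h
    apply faithful
    intro i j k
    have hy : ∑ l : Fin 5, ((if l = i then (1 : ℤ) else 0) - (if l = j then 1 else 0)) = 0 := by
      simp [Finset.sum_sub_distrib]
    have h1 := h (tr _ hy)
    obtain ⟨a1, a2, a3⟩ := coe_zpow_x (tr _ hy) rfl rfl 240
    have h2 := congrArg (fun z : W0 5 => (z : W 5).x k) h1
    simp only [Subgroup.coe_mul, W.mul_x, a1, a2, a3, Units.val_one, inv_one,
      Equiv.Perm.one_apply] at h2
    simp only [tr] at h2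
    have e1 : ((g : W 5).p⁻¹ k = i) ↔ (k = (g : W 5).p i) := by
      rw [Equiv.Perm.inv_eq_iff_eq]
    have e2 : ((g : W 5).p⁻¹ k = j) ↔ (k = (g : W 5).p j) := by
      rw [Equiv.Perm.inv_eq_iff_eq]
    simp only [e1, e2] at h2
    push_cast at h2
    linarith

/-- There is no automorphism which maps `gp 1 p` to `gp 2 p` for all permutations `p`. -/
theorem no_automorphism (σ : W0 5 ≃* W0 5) (hσ : ∀ p, σ (gp 1 p) = gp 2 p) : False := by
  have hT : ∀ (τ : W0 5 ≃* W0 5) (g : W0 5), ((g : W 5).p = 1 ∧ (g : W 5).e = 1) →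
      ((τ g : W0 5) : W 5).p = 1 ∧ ((τ g : W0 5) : W 5).e = 1 := by
    intro τ g hg
    rw [isTrans_iff] at hg ⊢
    intro h
    have := congrArg τ (hg (τ.symm h))
    simpa using this
  -- the action of the permutations on the translations
  have hconj : ∀ (c : ℤ) (p : Equiv.Perm (Fin 5)) (g : W0 5),
      ((g : W 5).p = 1 ∧ (g : W 5).e = 1) → ∀ k,
      ((gp c p * g * (gp c p)⁻¹ : W0 5) : W 5).x k = (g : W 5).x (p⁻¹ k) := by
    intro c p g hg k
    simp only [Subgroup.coe_mul, Subgroup.coe_inv, W.mul_x, W.mul_p, W.mul_e, W.inv_x, hg.1, hg.2]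
    simp [gp]
  have htr : ∀ y hy, ((tr y hy : W0 5) : W 5).p = 1 ∧ ((tr y hy : W0 5) : W 5).e = 1 :=
    fun y hy => ⟨rfl, rfl⟩
  have hext : ∀ g g' : W0 5, ((g : W 5).p = 1 ∧ (g : W 5).e = 1) →
      ((g' : W 5).p = 1 ∧ (g' : W 5).e = 1) → (∀ k, (g : W 5).x k = (g' : W 5).x k) → g = g' := by
    intro g g' h h' hx
    apply Subtype.ext
    apply W.ext
    · funext k; exact hx k
    · rw [h.1, h'.1]
    · rw [h.2, h'.2]
  have hTconj : ∀ (g h : W0 5), ((g : W 5).p = 1 ∧ (g : W 5).e = 1) →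
      ((h * g * h⁻¹ : W0 5) : W 5).p = 1 ∧ ((h * g * h⁻¹ : W0 5) : W 5).e = 1 := by
    intro g h hg
    simp [hg.1, hg.2]
  -- general form of the images of the translations by `e_1 - e_0`
  have hA : ∀ (τ : W0 5 ≃* W0 5) (c c' : ℤ), (∀ p, τ (gp c p) = gp c' p) →
      ∃ m : ℤ, ∀ i k, ((τ (tr (dv i) (sum_dv i)) : W0 5) : W 5).x k = m * dv i k := by
    intro τ c c' hτ
    have hcomm : ∀ (p : Equiv.Perm (Fin 5)) (y z : Fin 5 → ℤ) (hy : ∑ k, y k = 0)
        (hz : ∑ k, z k = 0), (∀ k, z k = y (p⁻¹ k)) → ∀ k,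
        ((τ (tr z hz) : W0 5) : W 5).x k = ((τ (tr y hy) : W0 5) : W 5).x (p⁻¹ k) := by
      intro p y z hy hz hyz k
      have h1 : gp c p * tr y hy * (gp c p)⁻¹ = tr z hz := by
        apply hext _ _ (hTconj _ _ (htr _ _)) (htr _ _)
        intro k
        rw [hconj c p _ (htr _ _)]
        exact (hyz k).symm
      rw [← h1, map_mul, map_mul, map_inv, hτ, hconj c' p _ (hT τ _ (htr _ _))]
    -- the image of `e_1 - e_0`
    have hneg : ∀ k, ((τ (tr (dv 1) (sum_dv 1)) : W0 5) : W 5).x ((Equiv.swap 0 1)⁻¹ k) =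
        - ((τ (tr (dv 1) (sum_dv 1)) : W0 5) : W 5).x k := by
      intro k
      have hz : ∑ k, (-dv 1) k = 0 := by
        simp [sum_dv]
      have h1 := hcomm (Equiv.swap 0 1) (dv 1) (-dv 1) (sum_dv 1) hz (by decide) k
      rw [← h1]
      have h2 : tr (-dv 1) hz = (tr (dv 1) (sum_dv 1))⁻¹ := by
        apply hext _ _ (htr _ _)
        · simp [htr]
        · intro k
          simp [tr]
      rw [h2, map_inv]
      have h3 := hT τ _ (htr (dv 1) (sum_dv 1))
      rw [Subgroup.coe_inv, W.inv_x, h3.1, h3.2]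
      simp
    have hm1 : ∀ k, ((τ (tr (dv 1) (sum_dv 1)) : W0 5) : W 5).x k =
        ((τ (tr (dv 1) (sum_dv 1)) : W0 5) : W 5).x 1 * dv 1 k := by
      intro k
      have h0 := hneg 0
      have h2 := hneg 2
      have h3 := hneg 3
      have h4 := hneg 4
      have s0 : (Equiv.swap (0 : Fin 5) 1)⁻¹ 0 = 1 := by decide
      have s2 : (Equiv.swap (0 : Fin 5) 1)⁻¹ 2 = 2 := by decide
      have s3 : (Equiv.swap (0 : Fin 5) 1)⁻¹ 3 = 3 := by decide
      have s4 : (Equiv.swap (0 : Fin 5) 1)⁻¹ 4 = 4 := by decide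
      rw [s0] at h0
      rw [s2] at h2
      rw [s3] at h3
      rw [s4] at h4
      fin_cases k
      · show _ = _ * dv 1 0
        have : dv 1 0 = -1 := by decide
        rw [this]
        show ((τ (tr (dv 1) (sum_dv 1)) : W0 5) : W 5).x 0 = _
        linarith
      · show _ = _ * dv 1 1
        have : dv 1 1 = 1 := by decide
        rw [this, mul_one]
        rfl
      · show _ = _ * dv 1 2
        have : dv 1 2 = 0 := by decide
        rw [this, mul_zero]
        show ((τ (tr (dv 1) (sum_dv 1)) : W0 5) : W 5).x 2 = _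
        linarith
      · show _ = _ * dv 1 3
        have : dv 1 3 = 0 := by decide
        rw [this, mul_zero]
        show ((τ (tr (dv 1) (sum_dv 1)) : W0 5) : W 5).x 3 = _
        linarith
      · show _ = _ * dv 1 4
        have : dv 1 4 = 0 := by decide
        rw [this, mul_zero]
        show ((τ (tr (dv 1) (sum_dv 1)) : W0 5) : W 5).x 4 = _
        linarith
    refine ⟨((τ (tr (dv 1) (sum_dv 1)) : W0 5) : W 5).x 1, fun i k => ?_⟩
    by_cases hi : i = 0
    · have hdv0 : ∀ k, dv i k = 0 := by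
        intro k
        simp [dv, hi]
      have : tr (dv i) (sum_dv i) = 1 := by
        apply hext _ _ (htr _ _) ⟨rfl, rfl⟩
        intro k
        exact hdv0 k
      rw [this, map_one, hdv0 k, mul_zero]
      rfl
    · have h1 := hcomm (Equiv.swap 1 i) (dv 1) (dv i) (sum_dv 1) (sum_dv i) (by
        revert i
        decide) k
      rw [h1, hm1]
      have hdvs : ∀ i : Fin 5, i ≠ 0 → ∀ k, dv 1 ((Equiv.swap 1 i)⁻¹ k) = dv i k := by decide
      rw [hdvs i hi k]
  obtain ⟨m, hm⟩ := hA σ 1 2 hσ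
  obtain ⟨m', hm'⟩ := hA σ.symm 2 1 (fun p => by rw [← hσ p, MulEquiv.symm_apply_apply])
  -- `m` is a unit
  have hunit : m * m' = 1 := by
    have h1 : σ.symm (tr (dv 1) (sum_dv 1)) = (tr (dv 1) (sum_dv 1)) ^ m' := by
      have hz : ∀ (l : ℤ), ((tr (dv 1) (sum_dv 1)) ^ l : W0 5) =
          tr (fun k => l * dv 1 k) (by rw [← Finset.mul_sum, sum_dv, mul_zero]) := by
        intro l
        induction l using Int.induction_on with
        | zero =>
          apply hext _ _ ⟨by simp, by simp⟩ (htr _ _)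
          intro k
          simp [tr]
        | succ l ih =>
          rw [zpow_add_one, ih]
          apply hext _ _ ⟨by simp [tr], by simp [tr]⟩ (htr _ _)
          intro k
          simp [tr]
          ring
        | pred l ih =>
          rw [zpow_sub_one, ih]
          apply hext _ _ ⟨by simp [tr], by simp [tr]⟩ (htr _ _)
          intro k
          simp [tr]
          ring
      rw [hz]
      apply hext _ _ (hT σ.symm _ (htr _ _)) (htr _ _)
      intro k
      rw [hm']
      rfl
    have h2 : tr (dv 1) (sum_dv 1) = (σ (tr (dv 1) (sum_dv 1))) ^ m' := by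
      rw [← map_zpow, ← h1, MulEquiv.apply_symm_apply]
    have h3 : σ (tr (dv 1) (sum_dv 1)) = tr (fun k => m * dv 1 k) (by
        rw [← Finset.mul_sum, sum_dv, mul_zero]) := by
      apply hext _ _ (hT σ _ (htr _ _)) (htr _ _)
      intro k
      rw [hm]
      rfl
    have hz : ∀ (l : ℤ), ((tr (fun k => m * dv 1 k) (by
        rw [← Finset.mul_sum, sum_dv, mul_zero])) ^ l : W0 5) =
          tr (fun k => l * (m * dv 1 k)) (by
            rw [← Finset.mul_sum, ← Finset.mul_sum, sum_dv, mul_zero, mul_zero]) := by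
      intro l
      induction l using Int.induction_on with
      | zero =>
        apply hext _ _ ⟨by simp, by simp⟩ (htr _ _)
        intro k
        simp [tr]
      | succ l ih =>
        rw [zpow_add_one, ih]
        apply hext _ _ ⟨by simp [tr], by simp [tr]⟩ (htr _ _)
        intro k
        simp [tr]
        ring
      | pred l ih =>
        rw [zpow_sub_one, ih]
        apply hext _ _ ⟨by simp [tr], by simp [tr]⟩ (htr _ _)
        intro k
        simp [tr]
        ring
    rw [h3, hz] at h2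
    have h4 := congrArg (fun z : W0 5 => (z : W 5).x 1) h2
    simp only [tr] at h4
    have h5 : dv 1 1 = 1 := by decide
    rw [h5] at h4
    linarith
  have hm2 : m = 1 ∨ m = -1 := Int.isUnit_iff.1 (IsUnit.of_mul_eq_one _ hunit)
  -- the images of the permutations
  have hperm : ∀ p, σ (gp 0 p) = gp (2 - m) p := by
    intro p
    have h1 : gp 0 p = (tr (dv (p 0)) (sum_dv (p 0)))⁻¹ * gp 1 p := by
      apply Subtype.ext
      rw [Subgroup.coe_mul, Subgroup.coe_inv]
      apply W.ext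
      · funext k
        simp [gp, tr]
      · simp [gp, tr]
      · simp [gp, tr]
    rw [h1, map_mul, map_inv, hσ]
    apply Subtype.ext
    have h2 := hT σ _ (htr (dv (p 0)) (sum_dv (p 0)))
    rw [Subgroup.coe_mul, Subgroup.coe_inv]
    apply W.ext
    · funext k
      simp only [W.mul_x, W.inv_x, W.inv_e, W.inv_p, h2.1, h2.2, hm]
      simp [gp]
      ring
    · simp [h2.1, gp]
    · simp [h2.2, gp]
  -- the image of the central symmetry
  let z : W0 5 := ⟨⟨0, 1, -1⟩, by
    show ∑ i, (0 : Fin 5 → ℤ) i = 0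
    simp⟩
  have hzparts : ((σ z : W0 5) : W 5).p = 1 ∧ ((σ z : W0 5) : W 5).e = -1 := by
    have hinv : ∀ g : W0 5, ((g : W 5).p = 1 ∧ (g : W 5).e = 1) → z * g * z⁻¹ = g⁻¹ := by
      intro g hg
      apply hext
      · exact hTconj _ _ hg
      · simp [hg.1, hg.2]
      · intro k
        simp [hg.1, hg.2, z]
    have hinv' : ∀ g : W0 5, ((g : W 5).p = 1 ∧ (g : W 5).e = 1) →
        σ z * g * (σ z)⁻¹ = g⁻¹ := by
      intro g hg
      have h1 := hinv (σ.symm g) (hT σ.symm g hg)
      have := congrArg σ h1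
      simpa using this
    have hf := faithful ((σ z : W0 5) : W 5).p (-((σ z : W0 5) : W 5).e) (by
      intro i j k
      have hy : ∑ l : Fin 5, ((if l = i then (1 : ℤ) else 0) - (if l = j then 1 else 0)) = 0 := by
        simp [Finset.sum_sub_distrib]
      have h1 := hinv' (tr _ hy) (htr _ _)
      have h2 := congrArg (fun w : W0 5 => (w : W 5).x k) h1
      simp only [Subgroup.coe_mul, Subgroup.coe_inv, W.mul_x, W.mul_p, W.mul_e, W.inv_x] at h2
      have e0 : ((σ z : W0 5) : W 5).p (((σ z : W0 5) : W 5).p⁻¹ k) = k := by simp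
      simp only [tr, Equiv.Perm.one_apply, Units.val_one, one_mul, mul_one, e0] at h2
      have e1 : (((σ z : W0 5) : W 5).p⁻¹ k = i) ↔ (k = ((σ z : W0 5) : W 5).p i) := by
        rw [Equiv.Perm.inv_eq_iff_eq]
      have e2 : (((σ z : W0 5) : W 5).p⁻¹ k = j) ↔ (k = ((σ z : W0 5) : W 5).p j) := by
        rw [Equiv.Perm.inv_eq_iff_eq]
      simp only [e1, e2] at h2
      have h5 := sq_unit ((σ z : W0 5) : W 5).e
      rw [Units.val_neg]
      have h6 : ((((σ z : W0 5) : W 5).e : ℤ)) * (((((σ z : W0 5) : W 5).e : ℤ)) *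
        ((σ z : W0 5) : W 5).x k) = ((σ z : W0 5) : W 5).x k := by
        rw [← mul_assoc, h5, one_mul]
      linarith)
    exact ⟨hf.1, by rw [← neg_neg ((σ z : W0 5) : W 5).e, hf.2]⟩
  -- the commutation relations
  have hcomm : ∀ p, σ z * gp (2 - m) p = gp (2 - m) p * σ z := by
    intro p
    rw [← hperm p, ← map_mul, ← map_mul]
    congr 1
    apply Subtype.ext
    rw [Subgroup.coe_mul, Subgroup.coe_mul]
    apply W.ext
    · funext k
      simp [gp, z]
    · simp [gp, z]
    · simp [gp, z]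
  have hc : ∀ j : Fin 5, j ≠ 0 → ((σ z : W0 5) : W 5).x j =
      ((σ z : W0 5) : W 5).x 0 + 2 * (2 - m) := by
    intro j hj
    have h1 := congrArg (fun w : W0 5 => (w : W 5).x j) (hcomm (Equiv.swap 0 j))
    simp only [Subgroup.coe_mul, W.mul_x, hzparts.1, hzparts.2] at h1
    have e1 : (Equiv.swap 0 j) 0 = j := by simp
    have e2 : (Equiv.swap 0 j)⁻¹ j = 0 := by simp
    have e3 : dv j j = 1 := by simp [dv, hj]
    simp only [gp, e1, e2] at h1
    simp [e3] at h1
    linarith
  have hsum : ∑ k, ((σ z : W0 5) : W 5).x k = 0 := (σ z).2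
  rw [Fin.sum_univ_five, hc 1 (by decide), hc 2 (by decide), hc 3 (by decide), hc 4 (by decide)]
    at hsum
  rcases hm2 with rfl | rfl <;> omega

end Pool.Agent.V11250.SymGroup
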