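import Mathlib

/-!
# Complete types over a structure, flows and the externally definable Ramsey property

Common definitions for the results of helper250 on `FPT` and `EDRP`.
-/

set_option autoImplicit false

namespace Pool.Agent.V11250.TypesOver

open FirstOrder FirstOrder.Language

universe u

section Defs

variable (L : FirstOrder.Language.{0, 0}) (M : Type u) [L.Structure M]

/-- A formula `φ(x, b)` in the variables `x = (x_0, ..., x_{n-1})` with parameters from `M`:
the number `m` of parameters, a formula `φ` without parameters in `n + m` variables, and the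
tuple `b` of parameters. -/
abbrev PFormula (n : ℕ) : Type u := Σ m : ℕ, L.Formula (Fin n ⊕ Fin m) × (Fin m → M)

variable {L M}

/-- The negation of a formula with parameters. -/
def PFormula.neg {n : ℕ} (c : PFormula L M n) : PFormula L M n := ⟨c.1, c.2.1.not, c.2.2⟩

/-- The formula with parameters `c` holds at the tuple `a`, in `M`. -/
def PFormula.Holds {n : ℕ} (c : PFormula L M n) (a : Fin n → M) : Prop :=
  c.2.1.Realize (Sum.elim a c.2.2)

/-- Moving the parameters by an automorphism `g`. -/
def PFormula.move {n : ℕ} (g : M ≃[L] M) (c : PFormula L M n) : PFormula L M n :=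
  ⟨c.1, c.2.1, fun i => g (c.2.2 i)⟩

variable (L M)

/-- A complete `n`-type over `M`: a set of formulas with parameters from `M` which contains each
formula or its negation and is finitely satisfiable in `M` (over a structure `M`, being finitely
satisfiable in `M` is the same as being consistent with the elementary diagram of `M`). -/
structure TypeOver (n : ℕ) : Type u where
  /-- the formulas of the type -/
  formulas : Set (PFormula L M n)
  /-- completeness -/
  complete : ∀ c : PFormula L M n, c ∈ formulas ∨ c.neg ∈ formulas
  /-- every finite subset is satisfied by a tuple of `M` -/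
  finSat : ∀ F : Finset (PFormula L M n), (∀ c ∈ F, c ∈ formulas) →
    ∃ a : Fin n → M, ∀ c ∈ F, c.Holds a

/-- The Stone topology on the space of complete `n`-types over `M`: the sets `{p | c ∈ p}`,
`c` a formula with parameters, form a basis. -/
instance (n : ℕ) : TopologicalSpace (TypeOver L M n) :=
  TopologicalSpace.generateFrom
    (Set.range fun c : PFormula L M n => {p : TypeOver L M n | c ∈ p.formulas})

variable {L M}

/-- The automorphism `g` acts on types by moving parameters:
`g • p = {φ(x, g b) | φ(x, b) ∈ p}`. -/
def TypeOver.act {n : ℕ} (g : M ≃[L] M) (p : TypeOver L M n) : TypeOver L M n where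
  formulas := {c | c.move g.symm ∈ p.formulas}
  complete c := p.complete (c.move g.symm)
  finSat F hF := by
    classical
    obtain ⟨a, ha⟩ := p.finSat (F.image (PFormula.move g.symm)) (by
      intro c hc
      obtain ⟨d, hd, rfl⟩ := Finset.mem_image.1 hc
      exact hF d hd)
    refine ⟨fun i => g (a i), fun c hc => ?_⟩
    have h := ha (c.move g.symm) (Finset.mem_image_of_mem _ hc)
    unfold PFormula.Holds PFormula.move at h
    unfold PFormula.Holds
    have h2 := (StrongHomClass.realize_formula g c.2.1).2 h
    have e : (⇑g ∘ Sum.elim a fun i => g.symm (c.2.2 i)) =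
        Sum.elim (fun i => g (a i)) c.2.2 := by
      funext x
      cases x <;> simp
    rw [e] at h2
    exact h2

variable (L M)

/-- `M` has the fixed points on type spaces property: for every `n ≥ 1`, every subflow (nonempty
closed invariant set) of the space of complete `n`-types over `M` contains a type which is fixed
by all automorphisms. -/
def FPT : Prop :=
  ∀ n : ℕ, 1 ≤ n → ∀ Y : Set (TypeOver L M n), Y.Nonempty → IsClosed Y →
    (∀ (g : M ≃[L] M), ∀ p ∈ Y, p.act g ∈ Y) →
    ∃ p ∈ Y, ∀ g : M ≃[L] M, p.act g = p

/-- The colouring `χ` of the copies of `A` in `M` (given by the embeddings of `A` into `M`) with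
`k` colours is externally definable: for some elementary extension `j : M → N`, some tuple `e` of
`N` and some formulas `φ 0, ..., φ (k-1)` without parameters, the copy `f` has colour `i` if and
only if `N ⊨ φ i (e, f)`. -/
def ExtDef (A : Type u) [L.Structure A] (k : ℕ) (χ : (A ↪[L] M) → Fin k) : Prop :=
  ∃ (N : Type u) (_ : L.Structure N) (j : M ↪ₑ[L] N) (n : ℕ) (e : Fin n → N)
    (φ : Fin k → L.Formula (Fin n ⊕ A)),
    ∀ (f : A ↪[L] M) (i : Fin k), χ f = i ↔ (φ i).Realize (Sum.elim e fun a => j (f a))

/-- The externally definable Ramsey property: for all finite `A`, `B` which embed into `M`, all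
`k ≥ 1` and all externally definable colourings of the copies of `A` in `M` with `k` colours there
is a copy of `B` in `M` such that all copies of `A` inside it have the same colour. -/
def EDRP : Prop :=
  ∀ (A B : Type u) [L.Structure A] [L.Structure B] [Finite A] [Finite B],
    Nonempty (A ↪[L] M) → Nonempty (B ↪[L] M) → ∀ k : ℕ, 1 ≤ k →
    ∀ χ : (A ↪[L] M) → Fin k, ExtDef L M A k χ →
    ∃ h : B ↪[L] M, ∀ f f' : A ↪[L] B, χ (h.comp f) = χ (h.comp f')

end Defs

section Basic

variable {L : FirstOrder.Language.{0, 0}} {M : Type u} [L.Structure M] {n : ℕ}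

theorem TypeOver.ext {p q : TypeOver L M n} (h : p.formulas = q.formulas) : p = q := by
  cases p; cases q; cases h; rfl

theorem TypeOver.not_both (p : TypeOver L M n) (c : PFormula L M n) (h : c ∈ p.formulas)
    (h' : c.neg ∈ p.formulas) : False := by
  classical
  obtain ⟨a, ha⟩ := p.finSat {c, c.neg} (by
    intro d hd
    rcases Finset.mem_insert.1 hd with rfl | hd
    · exact h
    · rw [Finset.mem_singleton.1 hd]; exact h')
  have h1 := ha c (by simp)
  have h2 := ha c.neg (by simp)
  exact h2 h1

theorem TypeOver.neg_mem_iff (p : TypeOver L M n) (c : PFormula L M n) :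
    c.neg ∈ p.formulas ↔ c ∉ p.formulas :=
  ⟨fun h h' => p.not_both c h' h, fun h => (p.complete c).resolve_left h⟩

theorem isOpen_mem (c : PFormula L M n) : IsOpen {p : TypeOver L M n | c ∈ p.formulas} :=
  TopologicalSpace.isOpen_generateFrom_of_mem ⟨c, rfl⟩

theorem isClosed_mem (c : PFormula L M n) : IsClosed {p : TypeOver L M n | c ∈ p.formulas} := by
  rw [← isOpen_compl_iff]
  have : {p : TypeOver L M n | c ∈ p.formulas}ᶜ = {p : TypeOver L M n | c.neg ∈ p.formulas} := by
    ext p
    simp only [Set.mem_compl_iff, Set.mem_ofPred_eq]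
    exact (p.neg_mem_iff c).symm
  rw [this]
  exact isOpen_mem _

instance : CompactSpace (TypeOver L M n) := by
  constructor
  rw [isCompact_iff_ultrafilter_le_nhds]
  intro F _
  refine ⟨⟨{c | {p : TypeOver L M n | c ∈ p.formulas} ∈ F}, ?_, ?_⟩, trivial, ?_⟩
  · intro c
    rcases Ultrafilter.mem_or_compl_mem F {p : TypeOver L M n | c ∈ p.formulas} with h | h
    · exact Or.inl h
    · refine Or.inr (F.mem_of_superset h ?_)
      intro p hp
      exact (p.neg_mem_iff c).2 hp
  · intro S hS
    have h1 : (⋂ c ∈ S, {p : TypeOver L M n | c ∈ p.formulas}) ∈ (F : Filter _) :=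
      (Filter.biInter_finset_mem S).2 hS
    obtain ⟨p, hp⟩ := F.neBot.nonempty_of_mem h1
    exact p.finSat S fun c hc => (Set.mem_iInter₂.1 hp) c hc
  · rw [TopologicalSpace.nhds_generateFrom]
    apply le_iInf₂
    rintro _ ⟨hc, c, rfl⟩
    rw [Filter.le_principal_iff]
    exact hc

theorem PFormula.move_move (g h : M ≃[L] M) (c : PFormula L M n) :
    (c.move g).move h = c.move (h.comp g) := rfl

theorem PFormula.move_symm_move (g : M ≃[L] M) (c : PFormula L M n) :
    (c.move g).move g.symm = c := by
  obtain ⟨m, φ, b⟩ := c
  simp [PFormula.move]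

theorem PFormula.move_move_symm (g : M ≃[L] M) (c : PFormula L M n) :
    (c.move g.symm).move g = c := by
  obtain ⟨m, φ, b⟩ := c
  simp [PFormula.move]

theorem TypeOver.mem_act (g : M ≃[L] M) (p : TypeOver L M n) (c : PFormula L M n) :
    c ∈ (p.act g).formulas ↔ c.move g.symm ∈ p.formulas := Iff.rfl

theorem TypeOver.move_mem_act (g : M ≃[L] M) (p : TypeOver L M n) (c : PFormula L M n) :
    c.move g ∈ (p.act g).formulas ↔ c ∈ p.formulas := by
  rw [TypeOver.mem_act, PFormula.move_symm_move]

end Basic

end Pool.Agent.V11250.TypesOver
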