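import Pool.Agent.V11250.Isotypic

/-!
# Algebras of words over a line

The algebras `Alg B`: the elements are pairs `(w, i)` where `w` is a word in the letters
`(n, b)` and `i` an element of the base `B`, which carries a map `nx` and a colouring `col`. The
operation `t` removes the first letter of `w` (and maps `([], i)` to `([], nx i)`), the operation
`s n b` adds the letter `(n, b)`, and `c x` is `t (t x)` or `t x` according to the colour of `x`.
-/

set_option autoImplicit false

namespace Pool.Agent.V11250.WordAlg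

open FirstOrder FirstOrder.Language Pool.Agent.V11250.Isotypic

/-- Function symbols, all of them unary. -/
inductive Fn : ℕ → Type
  | t : Fn 1
  | c : Fn 1
  | s : ℕ → Bool → Fn 1

/-- The signature. -/
def LA : FirstOrder.Language.{0, 0} := ⟨Fn, fun _ => Empty⟩

instance : LA.IsAlgebraic := fun _ => inferInstanceAs (IsEmpty Empty)

/-- A base: a set with a self map and a colouring. -/
structure Base where
  /-- the points -/
  ι : Type
  /-- the self map -/
  nx : ι → ι
  /-- the colouring -/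
  col : ι → Bool

/-- The algebra over a base. -/
@[ext] structure Alg (B : Base) where
  /-- the word -/
  w : List (ℕ × Bool)
  /-- the point of the base -/
  i : B.ι

variable {B : Base}

/-- The colour of an element. -/
def colr : Alg B → Bool
  | ⟨[], i⟩ => B.col i
  | ⟨a :: _, _⟩ => a.2

/-- The operation `t`. -/
def tt : Alg B → Alg B
  | ⟨[], i⟩ => ⟨[], B.nx i⟩
  | ⟨_ :: w, i⟩ => ⟨w, i⟩

/-- The operation `s n b`. -/
def ss (n : ℕ) (b : Bool) (x : Alg B) : Alg B := ⟨(n, b) :: x.w, x.i⟩

/-- The operation `c`. -/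
def cc (x : Alg B) : Alg B := if colr x = true then tt (tt x) else tt x

instance : LA.Structure (Alg B) where
  funMap := fun {n} f v => match n, f, v with
    | _, Fn.t, v => tt (v 0)
    | _, Fn.c, v => cc (v 0)
    | _, Fn.s n b, v => ss n b (v 0)
  RelMap := fun r => Empty.elim r

/-! ## Maps of bases -/

/-- An injective map of bases gives an embedding of algebras. -/
def mapEmb {B B' : Base} (h : B.ι → B'.ι) (hi : Function.Injective h)
    (hn : ∀ i, h (B.nx i) = B'.nx (h i)) (hc : ∀ i, B'.col (h i) = B.col i) :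
    Alg B ↪[LA] Alg B' where
  toFun := fun x => ⟨x.w, h x.i⟩
  inj' := by
    rintro ⟨w, i⟩ ⟨w', i'⟩ e
    simp only [Alg.mk.injEq] at e
    rw [e.1, hi e.2]
  map_fun' := by
    intro n f v
    have ht : ∀ x : Alg B, (⟨(tt x).w, h (tt x).i⟩ : Alg B') = tt ⟨x.w, h x.i⟩ := by
      rintro ⟨w, i⟩
      cases w with
      | nil => simp [tt, hn]
      | cons a w => rfl
    cases f with
    | t => exact ht (v 0)
    | s m b => rfl
    | c =>
      show (⟨(cc (v 0)).w, h (cc (v 0)).i⟩ : Alg B') = cc ⟨(v 0).w, h (v 0).i⟩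
      have hcol : colr (⟨(v 0).w, h (v 0).i⟩ : Alg B') = colr (v 0) := by
        rcases v 0 with ⟨w, i⟩
        cases w with
        | nil => exact hc i
        | cons a w => rfl
      unfold cc
      rw [hcol]
      split_ifs
      · rw [ht, ht]
      · rw [ht]
  map_rel' := fun r => Empty.elim r

theorem mapEmb_apply {B B' : Base} (h : B.ι → B'.ι) (hi : Function.Injective h)
    (hn : ∀ i, h (B.nx i) = B'.nx (h i)) (hc : ∀ i, B'.col (h i) = B.col i) (x : Alg B) :
    mapEmb h hi hn hc x = ⟨x.w, h x.i⟩ := rfl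

/-! ## Families of maps which almost preserve the operations -/

section family

variable {A A' : Type} [LA.Structure A] [LA.Structure A'] (f : ℕ → A → A')

/-- Every operation is preserved by `f N` for all large `N`. -/
def AlmostHom : Prop :=
  ∀ (n : ℕ) (g : LA.Functions n), ∃ N₁, ∀ N, N₁ ≤ N → ∀ v : Fin n → A,
    Structure.funMap g (f N ∘ v) = f N (Structure.funMap g v)

theorem AlmostHom.term {f : ℕ → A → A'} (hf : AlmostHom f) {α : Type} (t : LA.Term α) :
    ∃ N₁, ∀ N, N₁ ≤ N → ∀ v : α → A, t.realize (f N ∘ v) = f N (t.realize v) := by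
  induction t with
  | var i => exact ⟨0, fun N _ v => rfl⟩
  | func g ts ih =>
    rename_i l
    choose D hD using ih
    obtain ⟨N1, hN1⟩ := hf l g
    refine ⟨N1 + ∑ i, D i, fun N hN v => ?_⟩
    rw [Term.realize_func, Term.realize_func, ← hN1 N (by omega)]
    congr 1
    funext i
    rw [Function.comp_apply]
    apply hD
    have : D i ≤ ∑ i, D i := Finset.single_le_sum (fun _ _ => Nat.zero_le _) (Finset.mem_univ i)
    omega

theorem AlmostHom.formula {f : ℕ → A → A'} (hf : AlmostHom f)
    (hb : ∀ N, Function.Bijective (f N)) {α : Type} {n : ℕ} (φ : LA.BoundedFormula α n) :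
    ∃ N₁, ∀ N, N₁ ≤ N → ∀ (v : α → A) (xs : Fin n → A),
      (φ.Realize (f N ∘ v) (f N ∘ xs) ↔ φ.Realize v xs) := by
  induction φ with
  | falsum => exact ⟨0, fun N _ v xs => Iff.rfl⟩
  | equal t₁ t₂ =>
    obtain ⟨N1, h1⟩ := hf.term t₁
    obtain ⟨N2, h2⟩ := hf.term t₂
    refine ⟨N1 + N2, fun N hN v xs => ?_⟩
    have e : Sum.elim (f N ∘ v) (f N ∘ xs) = f N ∘ Sum.elim v xs := by
      funext i
      cases i <;> rfl
    show t₁.realize (Sum.elim (f N ∘ v) (f N ∘ xs)) = t₂.realize (Sum.elim (f N ∘ v) (f N ∘ xs)) ↔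
      t₁.realize (Sum.elim v xs) = t₂.realize (Sum.elim v xs)
    rw [e, h1 N (by omega), h2 N (by omega)]
    exact (hb N).1.eq_iff
  | rel R ts => exact Empty.elim R
  | imp f₁ f₂ ih₁ ih₂ =>
    obtain ⟨N1, h1⟩ := ih₁
    obtain ⟨N2, h2⟩ := ih₂
    refine ⟨N1 + N2, fun N hN v xs => ?_⟩
    simp only [BoundedFormula.realize_imp]
    rw [h1 N (by omega), h2 N (by omega)]
  | all g ih =>
    obtain ⟨N1, h1⟩ := ih
    refine ⟨N1, fun N hN v xs => ?_⟩
    simp only [BoundedFormula.realize_all]
    have e : ∀ a : A, (Fin.snoc (f N ∘ xs) (f N a) : Fin (_ + 1) → A') =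
        f N ∘ Fin.snoc xs a := by
      intro a
      rw [Fin.comp_snoc]
    constructor
    · intro h a
      have := h (f N a)
      rw [e, h1 N hN] at this
      exact this
    · intro h a
      obtain ⟨a', rfl⟩ := (hb N).2 a
      rw [e, h1 N hN]
      exact h a'

end family

/-! ## The algebras over the natural numbers -/

/-- The natural numbers as a base; the colours alternate and the colour of `0` is `δ`. -/
@[reducible] def NB (δ : Bool) : Base := ⟨ℕ, fun k => k + 1, fun k => xor δ (decide (k % 2 = 1))⟩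

/-- The integers as a base; the colour of `n` is the parity of `n`. -/
@[reducible] def ZB : Base := ⟨ℤ, fun k => k + 1, fun k => decide (k % 2 = 1)⟩

/-- The embedding which moves the base by one. -/
def up (δ : Bool) : Alg (NB (!δ)) ↪[LA] Alg (NB δ) :=
  mapEmb (B := NB (!δ)) (B' := NB δ) (fun k : ℕ => k + 1) (fun a b h => Nat.succ.inj h)
    (fun _ => rfl) (by
      intro (k : ℕ)
      show xor δ (decide ((k + 1) % 2 = 1)) = xor (!δ) (decide (k % 2 = 1))
      rcases Nat.mod_two_eq_zero_or_one k with h | h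
      · have : (k + 1) % 2 = 1 := by omega
        simp [h, this]
      · have : (k + 1) % 2 = 0 := by omega
        simp [h, this])

theorem up_apply (δ : Bool) (x : Alg (NB (!δ))) :
    up δ x = ⟨x.w, (x.i + 1 : ℕ)⟩ := rfl

/-- The involution which exchanges `(w, 0)` and `(w ++ [(N, δ)], 1)`. -/
def swp (δ : Bool) (N : ℕ) (x : Alg (NB δ)) : Alg (NB δ) :=
  match (x.i : ℕ) with
  | 0 => ⟨x.w ++ [(N, δ)], (1 : ℕ)⟩
  | 1 => if x.w.getLast? = some (N, δ) then ⟨x.w.dropLast, (0 : ℕ)⟩ else x
  | _ + 2 => x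

theorem swp_zero (δ : Bool) (N : ℕ) (w : List (ℕ × Bool)) :
    swp δ N ⟨w, (0 : ℕ)⟩ = ⟨w ++ [(N, δ)], (1 : ℕ)⟩ := rfl

theorem swp_one (δ : Bool) (N : ℕ) (w : List (ℕ × Bool)) :
    swp δ N ⟨w, (1 : ℕ)⟩ = if w.getLast? = some (N, δ) then ⟨w.dropLast, (0 : ℕ)⟩ else
      ⟨w, (1 : ℕ)⟩ := rfl

theorem swp_two (δ : Bool) (N : ℕ) (w : List (ℕ × Bool)) (k : ℕ) :
    swp δ N ⟨w, (k + 2 : ℕ)⟩ = ⟨w, (k + 2 : ℕ)⟩ := rfl

theorem nat_cases {P : ℕ → Prop} (k : ℕ) (h0 : P 0) (h1 : P 1) (h2 : ∀ k, P (k + 2)) : P k := by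
  match k with
  | 0 => exact h0
  | 1 => exact h1
  | k + 2 => exact h2 k

theorem tt_nil (δ : Bool) (k : ℕ) :
    tt (⟨[], k⟩ : Alg (NB δ)) = ⟨[], (k + 1 : ℕ)⟩ := rfl

theorem tt_cons {B : Base} (a : ℕ × Bool) (w : List (ℕ × Bool)) (i : B.ι) :
    tt (⟨a :: w, i⟩ : Alg B) = ⟨w, i⟩ := rfl

theorem colr_nil {B : Base} (i : B.ι) : colr (⟨[], i⟩ : Alg B) = B.col i := rfl

theorem colr_cons {B : Base} (a : ℕ × Bool) (w : List (ℕ × Bool)) (i : B.ι) :
    colr (⟨a :: w, i⟩ : Alg B) = a.2 := rfl

theorem swp_swp (δ : Bool) (N : ℕ) (x : Alg (NB δ)) : swp δ N (swp δ N x) = x := by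
  obtain ⟨w, k⟩ := x
  refine nat_cases (P := fun k => swp δ N (swp δ N ⟨w, k⟩) = ⟨w, k⟩) k ?_ ?_ ?_
  · rw [swp_zero, swp_one]
    simp
  · rw [swp_one]
    by_cases h : w.getLast? = some (N, δ)
    · rw [if_pos h, swp_zero]
      have h2 : w.dropLast ++ [(N, δ)] = w := by
        have hne : w ≠ [] := by
          rintro rfl
          simp at h
        have h3 : w.getLast hne = (N, δ) := by
          rw [List.getLast?_eq_some_getLast hne] at h
          exact Option.some.inj h
        rw [← h3]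
        exact List.dropLast_append_getLast hne
      rw [h2]
    · rw [if_neg h, swp_one, if_neg h]
  · intro k
    rw [swp_two, swp_two]

theorem swp_bij (δ : Bool) (N : ℕ) : Function.Bijective (swp δ N) :=
  (show Function.Involutive (swp δ N) from swp_swp δ N).bijective

theorem swp_tt (δ : Bool) (N : ℕ) (x : Alg (NB δ)) :
    tt (swp δ N x) = swp δ N (tt x) := by
  obtain ⟨w, k⟩ := x
  refine nat_cases (P := fun k => tt (swp δ N ⟨w, k⟩) = swp δ N (tt ⟨w, k⟩)) k ?_ ?_ ?_
  · cases w with
    | nil => rfl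
    | cons a w => rfl
  · cases w with
    | nil => rfl
    | cons a w =>
      cases w with
      | nil =>
        rw [tt_cons, swp_one, swp_one]
        by_cases h : a = (N, δ)
        · subst h
          rw [if_pos (by simp), if_neg (by simp)]
          rfl
        · have h' : ¬ [a].getLast? = some (N, δ) := by simpa using h
          rw [if_neg h']
          rfl
      | cons a' w =>
        rw [tt_cons, swp_one, swp_one, List.getLast?_cons_cons]
        by_cases h : (a' :: w).getLast? = some (N, δ)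
        · rw [if_pos h, if_pos h]
          rfl
        · rw [if_neg h, if_neg h]
          rfl
  · intro k
    cases w with
    | nil => rfl
    | cons a w => rfl

theorem swp_ss (δ : Bool) (N m : ℕ) (b : Bool) (hm : m ≠ N) (x : Alg (NB δ)) :
    ss m b (swp δ N x) = swp δ N (ss m b x) := by
  obtain ⟨w, k⟩ := x
  refine nat_cases (P := fun k => ss m b (swp δ N ⟨w, k⟩) = swp δ N (ss m b ⟨w, k⟩)) k ?_ ?_ ?_
  · rfl
  · show ss m b (swp δ N ⟨w, (1 : ℕ)⟩) = swp δ N ⟨(m, b) :: w, (1 : ℕ)⟩
    rw [swp_one, swp_one]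
    cases w with
    | nil =>
      have h1 : ¬ [(m, b)].getLast? = some (N, δ) := by
        simp only [List.getLast?_singleton, Option.some.injEq]
        intro h
        exact hm (Prod.ext_iff.1 h).1
      rw [if_neg h1]
      rfl
    | cons a w =>
      rw [List.getLast?_cons_cons]
      by_cases h : (a :: w).getLast? = some (N, δ)
      · rw [if_pos h, if_pos h]
        rfl
      · rw [if_neg h, if_neg h]
        rfl
  · intro k
    rfl

theorem swp_colr (δ : Bool) (N : ℕ) (x : Alg (NB δ)) : colr (swp δ N x) = colr x := by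
  obtain ⟨w, k⟩ := x
  refine nat_cases (P := fun k => colr (swp δ N ⟨w, k⟩) = colr (⟨w, k⟩ : Alg (NB δ))) k ?_ ?_ ?_
  · cases w with
    | nil =>
      rw [swp_zero, List.nil_append, colr_cons, colr_nil]
      simp
    | cons a w => rfl
  · cases w with
    | nil => rfl
    | cons a w =>
      rw [swp_one]
      cases w with
      | nil =>
        by_cases h : a = (N, δ)
        · subst h
          rw [if_pos (by simp)]
          show colr (⟨[], (0 : ℕ)⟩ : Alg (NB δ)) = _
          rw [colr_nil, colr_cons]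
          simp
        · have h' : ¬ [a].getLast? = some (N, δ) := by simpa using h
          rw [if_neg h']
      | cons a' w =>
        by_cases h : (a :: a' :: w).getLast? = some (N, δ)
        · rw [if_pos h]
          rfl
        · rw [if_neg h]
  · intro k
    rfl

theorem swp_almost (δ : Bool) :
    AlmostHom (A := Alg (NB δ)) (A' := Alg (NB δ)) (fun N => swp δ N) := by
  intro n g
  cases g with
  | t => exact ⟨0, fun N _ v => swp_tt δ N (v 0)⟩
  | s m b => exact ⟨m + 1, fun N hN v => swp_ss δ N m b (by omega) (v 0)⟩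
  | c =>
    refine ⟨0, fun N _ v => ?_⟩
    show cc (swp δ N (v 0)) = swp δ N (cc (v 0))
    unfold cc
    rw [swp_colr]
    split_ifs
    · rw [swp_tt, swp_tt]
    · rw [swp_tt]

/-- The largest index of a letter occurring in a word. -/
def mx (w : List (ℕ × Bool)) : ℕ := (w.map Prod.fst).sum

theorem le_mx {w : List (ℕ × Bool)} {a : ℕ × Bool} (h : a ∈ w) : a.1 ≤ mx w :=
  List.le_sum_of_mem (List.mem_map_of_mem h)

theorem swp_fix (δ : Bool) (N : ℕ) (w : List (ℕ × Bool)) (k : ℕ) (h : mx w < N) :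
    swp δ N ⟨w, (k + 1 : ℕ)⟩ = ⟨w, (k + 1 : ℕ)⟩ := by
  cases k with
  | zero =>
    have : w.getLast? ≠ some (N, δ) := by
      intro h1
      have h2 := List.mem_of_getLast? h1
      have h3 := le_mx h2
      simp only at h3
      omega
    rw [zero_add, swp_one, if_neg this]
  | succ k => rfl

/-- The embedding is elementary. -/
theorem up_formula (δ : Bool) {n : ℕ} (φ : LA.Formula (Fin n)) (x : Fin n → Alg (NB (!δ))) :
    φ.Realize (up δ ∘ x) ↔ φ.Realize x := by
  apply Embedding.isElementary_of_exists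
  intro n φ x a h
  obtain ⟨w, k⟩ := a
  rcases (show k = (0 : ℕ) ∨ ∃ l : ℕ, k = (l + 1 : ℕ) by
    rcases Nat.eq_zero_or_pos k with h | h
    · exact Or.inl h
    · exact Or.inr ⟨k - 1, (Nat.sub_add_cancel h).symm⟩) with rfl | ⟨l, rfl⟩
  · obtain ⟨N₁, h₁⟩ := (swp_almost δ).formula (fun N => swp_bij δ N) φ
    let N := N₁ + ∑ i, mx (x i).w + 1
    have h2 := h₁ N (by omega) default (Fin.snoc (up δ ∘ x) (⟨w, (0 : ℕ)⟩ : Alg (NB δ)))
    refine ⟨⟨w ++ [(N, δ)], (0 : ℕ)⟩, ?_⟩
    have e1 : (swp δ N ∘ (Fin.snoc (up δ ∘ x) (⟨w, (0 : ℕ)⟩ : Alg (NB δ)) :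
        Fin (n + 1) → Alg (NB δ))) =
        (Fin.snoc (up δ ∘ x) (up δ ⟨w ++ [(N, δ)], (0 : ℕ)⟩) :
          Fin (n + 1) → Alg (NB δ)) := by
      funext i
      induction i using Fin.lastCases with
      | last =>
        rw [Function.comp_apply, Fin.snoc_last, Fin.snoc_last, swp_zero, up_apply]
      | cast i =>
        rw [Function.comp_apply, Fin.snoc_castSucc, Fin.snoc_castSucc, Function.comp_apply]
        have h3 : mx (x i).w < N := by
          have : mx (x i).w ≤ ∑ i, mx (x i).w :=
            Finset.single_le_sum (f := fun i => mx (x i).w) (fun _ _ => Nat.zero_le _)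
              (Finset.mem_univ i)
          omega
        exact swp_fix δ N (x i).w (x i).i h3
    rw [← e1]
    have e2 : (default : Empty → Alg (NB δ)) = swp δ N ∘ (default : Empty → Alg (NB δ)) := by
      funext i
      exact Empty.elim i
    rw [e2]
    exact h2.2 h
  · exact ⟨⟨w, (l : ℕ)⟩, h⟩

/-- The elementary embedding which moves the base by one. -/
def upE (δ : Bool) : Alg (NB (!δ)) ↪ₑ[LA] Alg (NB δ) where
  toFun := up δ
  map_formula' := fun _ φ x => up_formula δ φ x

theorem finGen (δ : Bool) : FinGen LA (Alg (NB δ)) := by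
  refine ⟨{⟨[], (0 : ℕ)⟩}, ?_⟩
  rw [eq_top_iff]
  rintro ⟨w, k⟩ -
  set S := Substructure.closure LA
    (({⟨[], (0 : ℕ)⟩} : Finset (Alg (NB δ))) : Set (Alg (NB δ))) with hS
  have h0 : (⟨[], (0 : ℕ)⟩ : Alg (NB δ)) ∈ S := Substructure.subset_closure (by simp)
  have hk : ∀ k : ℕ, (⟨[], k⟩ : Alg (NB δ)) ∈ S := by
    intro k
    induction k with
    | zero => exact h0
    | succ k ih => exact S.fun_mem (Fn.t : LA.Functions 1) (fun _ => _) (fun _ => ih)
  induction w with
  | nil => exact hk k
  | cons a w ih =>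
    exact S.fun_mem (Fn.s a.1 a.2 : LA.Functions 1) (fun _ => _) (fun _ => ih)

end Pool.Agent.V11250.WordAlg
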