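import Pool.Agent.V11250.ZStruct
import Pool.Agent.V11250.EdrpFpt

/-!
# `ZM` has the externally definable Ramsey property
-/

set_option autoImplicit false
set_option linter.style.haveILetI false

namespace Pool.Agent.V11250.ZStruct

open FirstOrder FirstOrder.Language Pool.Agent.V11250.TypesOver

theorem zm_edrp : letI := zm; EDRP (LB ℤ) ℤ := by
  classical
  letI := zm
  intro A B _ _ _ _ hA hB k _ χ hχ
  obtain ⟨jA⟩ := hA
  obtain ⟨jB⟩ := hB
  by_cases hne : Nonempty A
  swap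
  · refine ⟨jB, fun f f' => ?_⟩
    have : f = f' := by
      ext a
      exact (hne ⟨a⟩).elim
    rw [this]
  obtain ⟨a0⟩ := hne
  obtain ⟨N, _, j, n, e, φ, hφ⟩ := hχ
  choose T hT using fun i : Fin k => eventually_const (φ i) N j e (fun a => jA a)
  obtain ⟨T0, hT0⟩ := (Set.finite_range T).bddAbove
  obtain ⟨b, hb⟩ := (Set.finite_range (fun x : B => jB x)).bddBelow
  have hval : ∀ (f : A ↪[LB ℤ] ℤ) (a : A), f a = jA a + (f a0 - jA a0) := by
    intro f a
    have := emb_eq good_zm (A := A) jA f a0 a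
    rw [this]
    ring
  have hconst : ∀ f f' : A ↪[LB ℤ] ℤ, T0 ≤ f a0 - jA a0 → T0 ≤ f' a0 - jA a0 → χ f = χ f' := by
    intro f f' h h'
    have h1 := (hφ f (χ f)).1 rfl
    symm
    rw [hφ f' (χ f)]
    have e1 : (fun a => j (f a)) = fun a => j (jA a + (f a0 - jA a0)) := by
      funext a
      rw [← hval f a]
    have e2 : (fun a => j (f' a)) = fun a => j (jA a + (f' a0 - jA a0)) := by
      funext a
      rw [← hval f' a]
    rw [e2, ← hT (χ f) (f a0 - jA a0) (f' a0 - jA a0) ((hT0 ⟨_, rfl⟩).trans h)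
      ((hT0 ⟨_, rfl⟩).trans h'), ← e1]
    exact h1
  refine ⟨(trans good_zm (T0 + jA a0 - b)).toEmbedding.comp jB, fun f f' => ?_⟩
  have hlow : ∀ f : A ↪[LB ℤ] B, T0 ≤
      (((trans good_zm (T0 + jA a0 - b)).toEmbedding.comp jB).comp f) a0 - jA a0 := by
    intro f
    have h1 : b ≤ jB (f a0) := hb ⟨f a0, rfl⟩
    have h2 : (((trans good_zm (T0 + jA a0 - b)).toEmbedding.comp jB).comp f) a0 =
        jB (f a0) + (T0 + jA a0 - b) := rfl
    rw [h2]
    linarith
  exact hconst _ _ (hlow f) (hlow f')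

theorem zm_fpt : letI := zm; FPT (LB ℤ) ℤ := by
  letI := zm
  exact fpt_of_edrp (ultrahomogeneous good_zm) zm_edrp

end Pool.Agent.V11250.ZStruct
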