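import Pool.Agent.V11250.TypesOver

/-!
# The integers with translation relations

The language `LB X` has one binary relation symbol for each element of `X` and nothing else. The
structure `ZM`: the integers with the relations `y = x + n`, `n` an integer.
-/

set_option autoImplicit false
set_option linter.style.haveILetI false

namespace Pool.Agent.V11250.ZStruct

open FirstOrder FirstOrder.Language Pool.Agent.V11250.TypesOver

/-- The relation symbols of the language `LB X`: one binary symbol for each element of `X`. -/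
inductive BinRel (X : Type) : ℕ → Type
  | rel : X → BinRel X 2

/-- The relational language with one binary relation symbol for each element of `X`. -/
def LB (X : Type) : FirstOrder.Language.{0, 0} := ⟨fun _ => Empty, BinRel X⟩

instance (X : Type) : (LB X).IsRelational := fun _ => inferInstanceAs (IsEmpty Empty)

/-- The symbol of `LB X` given by an element of `X`. -/
def sym {X : Type} (x : X) : (LB X).Relations 2 := BinRel.rel x

/-- The structure on `M` in which the symbol `x` is interpreted as the relation `ρ x`. -/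
@[reducible] def binStr {X M : Type} (ρ : X → M → M → Prop) : (LB X).Structure M where
  funMap := fun f => Empty.elim f
  RelMap := fun {n} r v => match n, r, v with
    | _, BinRel.rel x, v => ρ x (v 0) (v 1)

instance {X : Type} [Countable X] : Countable (Σ n, (LB X).Relations n) := by
  have : Function.Surjective (fun x : X => (⟨2, sym x⟩ : Σ n, (LB X).Relations n)) := by
    rintro ⟨n, r⟩
    cases r with
    | rel x => exact ⟨x, rfl⟩
  exact this.countable

/-! ## Structures on the integers between `R_n` and translation invariance -/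

/-- The relations `ρ` on the integers are invariant under translations and among them are all
the relations `y = x + n`. -/
structure Good {X : Type} (ρ : X → ℤ → ℤ → Prop) : Prop where
  inv : ∀ x a b t, ρ x (a + t) (b + t) ↔ ρ x a b
  all : ∀ n : ℤ, ∃ x, ∀ a b, ρ x a b ↔ b = a + n

section GoodSec

variable {X : Type} {ρ : X → ℤ → ℤ → Prop}

/-- Translation by `t` is an automorphism. -/
def trans (hρ : Good ρ) (t : ℤ) : letI := binStr ρ; ℤ ≃[LB X] ℤ :=
  letI := binStr ρ
  { Equiv.addRight t with
    map_fun' := fun f => Empty.elim f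
    map_rel' := by
      intro n r v
      cases r with
      | rel x => exact hρ.inv x (v 0) (v 1) t }

theorem hom_eq (hρ : Good ρ) {A : Type} [inst : (LB X).Structure A] (j : A → ℤ)
    (hj : letI := binStr ρ; ∀ (x : X) (v : Fin 2 → A), Structure.RelMap (sym x) (j ∘ v) ↔
      Structure.RelMap (sym x) v)
    (f : letI := binStr ρ; A ↪[LB X] ℤ) (a b : A) : f b = f a + (j b - j a) := by
  letI := binStr ρ
  obtain ⟨x, hx⟩ := hρ.all (j b - j a)
  have h1 : Structure.RelMap (sym x) (j ∘ ![a, b]) := by
    show ρ x (j a) (j b)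
    rw [hx]; ring
  rw [hj x] at h1
  have h2 := (f.map_rel (sym x) ![a, b]).2 h1
  have h3 : ρ x (f a) (f b) := h2
  rwa [hx] at h3

theorem emb_eq (hρ : Good ρ) {A : Type} [inst : (LB X).Structure A]
    (j : letI := binStr ρ; A ↪[LB X] ℤ)
    (f : letI := binStr ρ; A ↪[LB X] ℤ) (a b : A) : f b = f a + (j b - j a) := by
  letI := binStr ρ
  exact hom_eq hρ (j := j) (fun x v => j.map_rel (sym x) v) f a b

theorem aut_eq (hρ : Good ρ) (g : letI := binStr ρ; ℤ ≃[LB X] ℤ) (a : ℤ) : g a = a + g 0 := by
  letI := binStr ρ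
  have := emb_eq hρ (A := ℤ) (inst := binStr ρ) (Embedding.refl (LB X) ℤ) g.toEmbedding 0 a
  have h2 : g a = g 0 + (a - 0) := this
  rw [h2]; ring

theorem ultrahomogeneous (hρ : Good ρ) : letI := binStr ρ; (LB X).IsUltrahomogeneous ℤ := by
  letI := binStr ρ
  intro S _ f
  by_cases hS : Nonempty S
  · obtain ⟨s⟩ := hS
    refine ⟨trans hρ (f s - s), ?_⟩
    ext x
    have := emb_eq hρ (A := S) S.subtype f s x
    rw [this]
    show f s + ((x : ℤ) - (s : ℤ)) = (x : ℤ) + (f s - s)
    ring
  · refine ⟨FirstOrder.Language.Equiv.refl (LB X) ℤ, ?_⟩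
    ext x
    exact (hS ⟨x⟩).elim

end GoodSec

/-! ## The structure `ZM` and its quantifier elimination -/

/-- The integers with the relations `y = x + n`. -/
@[reducible] def zm : (LB ℤ).Structure ℤ := binStr fun n a b => b = a + n

theorem good_zm : Good (fun (n : ℤ) (a b : ℤ) => b = a + n) where
  inv := by intro x a b t; constructor <;> intro h <;> linarith
  all := fun n => ⟨n, fun a b => Iff.rfl⟩

/-- `v` and `w` satisfy the same relations `y = x + m` with `|m| ≤ K`. -/
def SamePat {ι : Type} (K : ℕ) (v w : ι → ℤ) : Prop :=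
  ∀ p q : ι, ∀ m : ℤ, |m| ≤ K → (v q = v p + m ↔ w q = w p + m)

theorem SamePat.symm {ι : Type} {K : ℕ} {v w : ι → ℤ} (h : SamePat K v w) : SamePat K w v :=
  fun p q m hm => (h p q m hm).symm

theorem SamePat.mono {ι : Type} {K K' : ℕ} {v w : ι → ℤ} (hK : K ≤ K') (h : SamePat K' v w) :
    SamePat K v w :=
  fun p q m hm => h p q m (hm.trans (by exact_mod_cast hK))

theorem SamePat.comp {ι κ : Type} {K : ℕ} {v w : ι → ℤ} (h : SamePat K v w) (e : κ → ι) :
    SamePat K (v ∘ e) (w ∘ e) :=
  fun p q m hm => h (e p) (e q) m hm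

theorem exists_ext {ι : Type} [Finite ι] {K : ℕ} {v w : ι → ℤ} (h : SamePat (2 * K) v w)
    (x : ℤ) : ∃ y : ℤ, ∀ p, ∀ m : ℤ, |m| ≤ K → (x = v p + m ↔ y = w p + m) := by
  classical
  by_cases hnear : ∃ i, |x - v i| ≤ K
  · obtain ⟨i, hi⟩ := hnear
    refine ⟨w i + (x - v i), fun p m hm => ?_⟩
    have h1 := h p i (m - (x - v i)) (by
      have : |m - (x - v i)| ≤ |m| + |x - v i| := abs_sub _ _
      push_cast
      linarith)
    constructor
    · intro hx
      have := h1.1 (by linarith)
      linarith
    · intro hy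
      have := h1.2 (by linarith)
      linarith
  · push Not at hnear
    obtain ⟨b, hb⟩ := (Set.finite_range w).bddAbove
    refine ⟨b + K + 1, fun p m hm => ?_⟩
    constructor
    · intro hx
      have := hnear p
      rw [hx] at this
      simp only [add_sub_cancel_left] at this
      linarith
    · intro hy
      have h2 : w p ≤ b := hb ⟨p, rfl⟩
      have := abs_le.1 hm
      linarith

/-- The variables `α ⊕ Fin (n + 1)` as the old variables and a new one. -/
def splitLast {α : Type} {n : ℕ} : α ⊕ Fin (n + 1) → Option (α ⊕ Fin n)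
  | Sum.inl a => some (Sum.inl a)
  | Sum.inr i => Fin.lastCases (motive := fun _ => Option (α ⊕ Fin n)) none
      (fun i => some (Sum.inr i)) i

/-- A valuation extended by a value for the new variable. -/
def optVal {ι : Type} {β : Type} (v : ι → β) (x : β) : Option ι → β
  | none => x
  | some i => v i

theorem elim_snoc {α β : Type} {n : ℕ} (v : α → β) (xs : Fin n → β) (x : β) :
    Sum.elim v (Fin.snoc xs x : Fin (n + 1) → β) = optVal (Sum.elim v xs) x ∘ splitLast := by
  funext p
  rcases p with a | i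
  · rfl
  · induction i using Fin.lastCases with
    | last => simp [splitLast, optVal]
    | cast i => simp [splitLast, optVal]

theorem SamePat.opt {ι : Type} {K : ℕ} {v w : ι → ℤ} (h : SamePat K v w) {x y : ℤ}
    (hxy : ∀ p, ∀ m : ℤ, |m| ≤ K → (x = v p + m ↔ y = w p + m)) :
    SamePat K (optVal v x) (optVal w y) := by
  intro p q m hm
  rcases p with _ | p <;> rcases q with _ | q
  · simp [optVal]
  · simp only [optVal]
    have h1 := hxy q (-m) (by rwa [abs_neg])
    constructor
    · intro h2
      have := h1.1 (by linarith)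
      linarith
    · intro h2
      have := h1.2 (by linarith)
      linarith
  · exact hxy p m hm
  · exact h p q m hm

theorem term_var {X : Type} {β : Type} (t : (LB X).Term β) : ∃ i, t = Term.var i := by
  cases t with
  | var i => exact ⟨i, rfl⟩
  | func f ts => exact Empty.elim f

/-- Quantifier elimination in the form used here: the truth of a formula in `ZM` depends only on
the relations `y = x + m` with `|m| ≤ K` between the values of the variables. -/
theorem qe {α : Type} [Finite α] {n : ℕ} (φ : (LB ℤ).BoundedFormula α n) :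
    ∃ K : ℕ, letI := zm; ∀ (v w : α → ℤ) (xs ys : Fin n → ℤ),
      SamePat K (Sum.elim v xs) (Sum.elim w ys) → (φ.Realize v xs ↔ φ.Realize w ys) := by
  letI := zm
  induction φ with
  | falsum => exact ⟨0, fun v w xs ys _ => Iff.rfl⟩
  | equal t₁ t₂ =>
    obtain ⟨i, rfl⟩ := term_var t₁
    obtain ⟨j, rfl⟩ := term_var t₂
    refine ⟨0, fun v w xs ys h => ?_⟩
    have := h i j 0 (by simp)
    simp only [add_zero] at this
    show (Sum.elim v xs i = Sum.elim v xs j) ↔ (Sum.elim w ys i = Sum.elim w ys j)
    rw [eq_comm, this, eq_comm]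
  | rel R ts =>
    cases R with
    | rel m =>
      obtain ⟨i, hi⟩ := term_var (ts 0)
      obtain ⟨j, hj⟩ := term_var (ts 1)
      refine ⟨m.natAbs, fun v w xs ys h => ?_⟩
      have h1 := h i j m (by simp)
      have e1 : ∀ (v : α → ℤ) (xs : Fin _ → ℤ),
          (BoundedFormula.rel (BinRel.rel m : (LB ℤ).Relations 2) ts).Realize v xs ↔
          (ts 1).realize (Sum.elim v xs) = (ts 0).realize (Sum.elim v xs) + m := fun v xs => Iff.rfl
      rw [e1, e1, hi, hj]
      exact h1
  | imp f₁ f₂ ih₁ ih₂ =>
    obtain ⟨K₁, h₁⟩ := ih₁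
    obtain ⟨K₂, h₂⟩ := ih₂
    refine ⟨max K₁ K₂, fun v w xs ys h => ?_⟩
    simp only [BoundedFormula.realize_imp]
    rw [h₁ v w xs ys (h.mono (le_max_left _ _)), h₂ v w xs ys (h.mono (le_max_right _ _))]
  | all f ih =>
    obtain ⟨K, hK⟩ := ih
    refine ⟨2 * K, ?_⟩
    have key : ∀ (v w : α → ℤ) (xs ys : Fin _ → ℤ),
      SamePat (2 * K) (Sum.elim v xs) (Sum.elim w ys) → (∀ a, f.Realize v (Fin.snoc xs a)) →
        ∀ a, f.Realize w (Fin.snoc ys a) := by
      intro v w xs ys h hv y
      obtain ⟨x, hx⟩ := exists_ext h.symm y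
      have h2 : SamePat K (Sum.elim v (Fin.snoc xs x : Fin (_ + 1) → ℤ))
          (Sum.elim w (Fin.snoc ys y : Fin (_ + 1) → ℤ)) := by
        rw [elim_snoc, elim_snoc]
        exact ((h.mono (by omega)).opt fun p m hm => (hx p m hm).symm).comp _
      exact (hK _ _ _ _ h2).1 (hv x)
    intro v w xs ys h
    simp only [BoundedFormula.realize_all]
    exact ⟨key v w xs ys h, key w v ys xs h.symm⟩

/-- A formula valid in `M` is valid in every elementary extension. -/
theorem transfer {L : FirstOrder.Language.{0, 0}} {M N : Type} [L.Structure M] [L.Structure N]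
    (j : M ↪ₑ[L] N) {β : Type} [Finite β] (ψ : L.Formula β) (h : ∀ v : β → M, ψ.Realize v)
    (w : β → N) : ψ.Realize w := by
  let σ : L.Formula Empty := (ψ.relabel (Sum.inr : β → Empty ⊕ β)).iAlls β
  have h1 : σ.Realize (default : Empty → M) := by
    rw [Formula.realize_iAlls]
    intro i
    rw [Formula.realize_relabel]
    exact h _
  have h2 : σ.Realize (j ∘ (default : Empty → M)) := (j.map_formula σ _).2 h1
  rw [Formula.realize_iAlls] at h2
  have h3 := h2 w
  rw [Formula.realize_relabel] at h3
  exact h3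

/-- Local quantifier elimination in elementary extensions of `ZM`. -/
theorem qe_ext {α : Type} [Finite α] (φ : (LB ℤ).Formula α) :
    ∃ K : ℕ, ∀ (N : Type) [(LB ℤ).Structure N] (_ : letI := zm; ℤ ↪ₑ[LB ℤ] N) (v w : α → N),
      (∀ p q : α, ∀ m : ℤ, |m| ≤ K → (Structure.RelMap (sym m) ![v p, v q] ↔
        Structure.RelMap (sym m) ![w p, w q])) → (φ.Realize v ↔ φ.Realize w) := by
  letI := zm
  obtain ⟨K, hK⟩ := qe φ
  refine ⟨K, ?_⟩
  intro N _ j v w hvw
  -- the formula in the variables `α ⊕ α`
  let I := {x : α × α × ℤ // |x.2.2| ≤ K}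
  have : Finite I := by
    have hf : Finite (α × α × Set.Icc (-(K : ℤ)) K) := inferInstance
    refine Finite.of_injective (fun x : I => ((x.1.1, x.1.2.1, ⟨x.1.2.2, abs_le.1 x.2⟩) :
      α × α × Set.Icc (-(K : ℤ)) K)) ?_
    rintro ⟨⟨a, b, c⟩, h⟩ ⟨⟨a', b', c'⟩, h'⟩ e
    simp only [Prod.mk.injEq] at e
    obtain ⟨rfl, rfl, e3⟩ := e
    have : c = c' := congrArg Subtype.val e3
    subst this
    rfl
  let at1 : I → (LB ℤ).Formula (α ⊕ α) := fun x =>
    Relations.formula₂ (sym x.1.2.2) (Term.var (Sum.inl x.1.1)) (Term.var (Sum.inl x.1.2.1))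
  let at2 : I → (LB ℤ).Formula (α ⊕ α) := fun x =>
    Relations.formula₂ (sym x.1.2.2) (Term.var (Sum.inr x.1.1)) (Term.var (Sum.inr x.1.2.1))
  let θ : (LB ℤ).Formula (α ⊕ α) :=
    (Formula.iInf fun x : I => (at1 x).iff (at2 x)).imp
      ((φ.relabel Sum.inl).iff (φ.relabel Sum.inr))
  have hreal : ∀ (P : Type) [(LB ℤ).Structure P] (u : α ⊕ α → P), θ.Realize u ↔
      ((∀ p q : α, ∀ m : ℤ, |m| ≤ K → (Structure.RelMap (sym m) ![u (Sum.inl p), u (Sum.inl q)] ↔
        Structure.RelMap (sym m) ![u (Sum.inr p), u (Sum.inr q)])) →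
        (φ.Realize (u ∘ Sum.inl) ↔ φ.Realize (u ∘ Sum.inr))) := by
    intro P _ u
    simp only [θ, at1, at2, Formula.realize_imp, Formula.realize_iInf, Formula.realize_iff,
      Formula.realize_relabel, Formula.realize_rel₂, Term.realize_var]
    constructor
    · intro h h2
      exact h fun x => h2 x.1.1 x.1.2.1 x.1.2.2 x.2
    · intro h h2
      exact h fun p q m hm => h2 ⟨(p, q, m), hm⟩
  have h1 := transfer j θ (by
    intro u
    rw [hreal]
    intro hu
    unfold Formula.Realize
    refine hK (u ∘ Sum.inl) (u ∘ Sum.inr) _ _ ?_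
    intro p q m hm
    rcases p with p | p
    · rcases q with q | q
      · exact hu p q m hm
      · exact Fin.elim0 q
    · exact Fin.elim0 p) (Sum.elim v w)
  rw [hreal] at h1
  exact h1 hvw

theorem rel_symm {N : Type} [(LB ℤ).Structure N] (j : letI := zm; ℤ ↪ₑ[LB ℤ] N) (m : ℤ)
    (a b : N) : Structure.RelMap (sym m) ![a, b] → Structure.RelMap (sym (-m)) ![b, a] := by
  letI := zm
  let θ : (LB ℤ).Formula (Fin 2) :=
    (Relations.formula₂ (sym m) (Term.var 0) (Term.var 1)).imp
      (Relations.formula₂ (sym (-m)) (Term.var 1) (Term.var 0))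
  have h := transfer j θ (by
    intro v
    simp only [θ, Formula.realize_imp, Formula.realize_rel₂, Term.realize_var]
    intro (h : v 1 = v 0 + m)
    show v 0 = v 1 + -m
    linarith) ![a, b]
  simp only [θ, Formula.realize_imp, Formula.realize_rel₂, Term.realize_var] at h
  exact h

theorem rel_fun {N : Type} [(LB ℤ).Structure N] (j : letI := zm; ℤ ↪ₑ[LB ℤ] N) (m : ℤ)
    (a b c : N) : Structure.RelMap (sym m) ![a, b] → Structure.RelMap (sym m) ![a, c] →
      b = c := by
  letI := zm
  let θ : (LB ℤ).Formula (Fin 3) :=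
    (Relations.formula₂ (sym m) (Term.var 0) (Term.var 1)).imp
      ((Relations.formula₂ (sym m) (Term.var 0) (Term.var 2)).imp
        ((Term.var 1).equal (Term.var 2)))
  have h := transfer j θ (by
    intro v
    simp only [θ, Formula.realize_imp, Formula.realize_rel₂, Formula.realize_equal,
      Term.realize_var]
    intro (h : v 1 = v 0 + m) (h' : v 2 = v 0 + m)
    linarith) ![a, b, c]
  simp only [θ, Formula.realize_imp, Formula.realize_rel₂, Formula.realize_equal,
      Term.realize_var] at h
  exact h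

theorem rel_iff {N : Type} [(LB ℤ).Structure N] (j : letI := zm; ℤ ↪ₑ[LB ℤ] N) (m : ℤ)
    (a b : ℤ) : Structure.RelMap (sym m) ![j a, j b] ↔ b = a + m := by
  letI := zm
  have h := j.map_rel (sym m) ![a, b]
  have e : (j ∘ ![a, b] : Fin 2 → N) = ![j a, j b] := by
    funext i
    fin_cases i <;> rfl
  rw [e] at h
  rw [h]
  exact Iff.rfl

/-- Traces on the integers of formulas of an elementary extension are eventually constant. -/
theorem eventually_const {A : Type} [Finite A] {n : ℕ} (φ : (LB ℤ).Formula (Fin n ⊕ A))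
    (N : Type) [(LB ℤ).Structure N] (j : letI := zm; ℤ ↪ₑ[LB ℤ] N) (e : Fin n → N)
    (δ : A → ℤ) : ∃ T : ℤ, ∀ t t' : ℤ, T ≤ t → T ≤ t' →
      (φ.Realize (Sum.elim e fun a => j (δ a + t)) ↔
        φ.Realize (Sum.elim e fun a => j (δ a + t'))) := by
  classical
  letI := zm
  obtain ⟨K, hK⟩ := qe_ext φ
  have hK' := hK N j
  let E : Set ℤ := ⋃ (i : Fin n) (a : A) (m : Set.Icc (-(K : ℤ)) K),
    {t | Structure.RelMap (sym (m : ℤ)) ![e i, j (δ a + t)]}
  have hE : E.Finite := by
    refine Set.finite_iUnion fun i => Set.finite_iUnion fun a => Set.finite_iUnion fun m => ?_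
    apply Set.Subsingleton.finite
    intro t ht t' ht'
    have := rel_fun j m _ _ _ ht ht'
    have h2 := j.injective this
    linarith
  obtain ⟨b, hb⟩ := hE.bddAbove
  have hout : ∀ t, b + 1 ≤ t → ∀ (i : Fin n) (a : A) (m : ℤ), |m| ≤ K →
      ¬ Structure.RelMap (sym (m : ℤ)) ![e i, j (δ a + t)] := by
    intro t ht i a m hm h
    have : t ∈ E := by
      refine Set.mem_iUnion.2 ⟨i, Set.mem_iUnion.2 ⟨a, Set.mem_iUnion.2 ⟨⟨m, abs_le.1 hm⟩, h⟩⟩⟩
    have := hb this
    linarith
  refine ⟨b + 1, fun t t' ht ht' => ?_⟩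
  apply hK'
  intro p q m hm
  rcases p with i | a <;> rcases q with i' | a'
  · exact Iff.rfl
  · exact ⟨fun h => absurd h (hout t ht i a' m hm), fun h => absurd h (hout t' ht' i a' m hm)⟩
  · have hm' : |(-m)| ≤ (K : ℤ) := by rwa [abs_neg]
    exact ⟨fun h => absurd (rel_symm j m _ _ h) (hout t ht i' a (-m) hm'),
      fun h => absurd (rel_symm j m _ _ h) (hout t' ht' i' a (-m) hm')⟩
  · show Structure.RelMap (sym m) ![j (δ a + t), j (δ a' + t)] ↔
      Structure.RelMap (sym m) ![j (δ a + t'), j (δ a' + t')]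
    rw [rel_iff, rel_iff]
    constructor <;> intro h <;> linarith

end Pool.Agent.V11250.ZStruct
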